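import Mathlib
import Pool.Agent.EVN.Stmts

set_option autoImplicit false

/-!
# EVN, second form: a general property of `q`, and the content for Q1

`Phi n q`: `q ^ 2 - 2` has at most five prime factors and `p_q - q + 1` has at most
`8 log log n` prime factors (idea of helper72: the set `Q` of `St_Key` is arbitrary).
The exceptional `m` are described exactly: all `m ∈ (x, 2x]` with a prime factor `> (log n)^C` are
good, with at most `x/(log n)^A` exceptions (this contains the case of prime `m`).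
-/

namespace Pool.Agent.EVN

open Finset Filter MeasureTheory
open Pool.Agent.GBQ (ee)
open Pool.Agent.SI (nit DP IsW Wd)

/-- the property of `q` for Q1 and Q2; `Nat.nth Nat.Prime (q - 1)` is the `q`-th prime -/
def Phi (n q : ℕ) : Prop := Nat.IsAtMostAlmostPrime 5 (q ^ 2 - 2) ∧
  (ArithmeticFunction.cardFactors (Nat.nth Nat.Prime (q - 1) - q + 1) : ℝ) ≤
    8 * Real.log (Real.log n)

/-- there are many primes `q ≤ K` with the property `Φ` -/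
def DensP (Φ : ℕ → ℕ → Prop) : Prop := ∃ (c : ℝ) (n₁ : ℕ), 0 < c ∧ ∀ n ≥ n₁, ∀ K : ℕ, 2 ≤ K →
  K ≤ n → ∃ S : Finset ℕ, (∀ q ∈ S, q ≤ K ∧ q.Prime ∧ Φ n q) ∧
    c * K / (1 + Real.log K) ^ 3 ≤ (S.card : ℝ)

/-- the case `12 m > n` -/
def BigP (Φ : ℕ → ℕ → Prop) : Prop := ∃ n₁ : ℕ, ∀ n ≥ n₁, ∀ m : ℕ, n < 12 * m → 2 * m + 1 < n →
  ∃ p : ℕ, p.Prime ∧ p < n ∧ ((n - p) / m).Prime ∧ Φ n ((n - p) / m)

/-- the primes `p < n` with `q = (n - p) / m` prime and with the property `Φ` -/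
noncomputable def SolP (Φ : ℕ → ℕ → Prop) (m n : ℕ) : Finset ℕ := by
  classical exact (range n).filter (fun p => p.Prime ∧ ((n - p) / m).Prime ∧ Φ n ((n - p) / m))

/-- OME.  Numbers with many prime factors.

Proof.  `z = 19/10`.  `z^{Ω(v)} = ∑_{d ∣ v} g(d)`, `g` multiplicative, `g(p) = z - 1`,
`g(p^k) = z^k - z^{k-1} ≥ 0`; so `∑_{v ≤ X} z^{Ω(v)} ≤ X ∑_{d ≤ X} g(d)/d ≤
X ∏_{p ≤ X} (1 + (z-1)/p + (z^2 - z)/p^2 + ...)`, the factor for `p` is `≤ exp((z-1)/p + C/p^2)`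
(`z < 2 ≤ p`), and `∑_{p ≤ X} 1/p ≤ log log X + C`.  So `≤ C X (log X)^{9/10}`.  Markov. -/
def St_Ome : Prop := ∃ C : ℝ, 0 < C ∧ ∀ (X : ℕ) (T : ℝ), 2 ≤ X →
  (((Icc 1 X).filter (fun v => T < (ArithmeticFunction.cardFactors v : ℝ))).card : ℝ) ≤
    C * X * Real.log X ^ (9 / 10 : ℝ) * (19 / 10 : ℝ) ^ (-T)

/-- QKO.

Proof.  `S₀` from `GBQ.St_QK` (`c₀`), `S` = those `q ∈ S₀` with
`Ω(p_q - q + 1) ≤ T = 8 log log n`.  The map `q ↦ p_q - q + 1` is injective on `q ≥ 2`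
(`p_{q+1} - p_q ≥ 2` for `q ≥ 2`, so it is strictly increasing), with values in `[1, X]`,
`X = p_K ≤ 8 K (1 + log K)` (Chebyshev; any bound `C K (1 + log K)` will do).  By OME the number of
the `q ≤ K` that are removed is at most
`C X (log X)^{9/10} (19/10)^{-8 log log n} ≤ C K (1 + log K) (3 log n)^{9/10} (log n)^{-5.13}
≤ C' K (log n)^{-3.23} ≤ (c₀/2) K/(1 + log K)^3` for large `n` (`K ≤ n`; `8 log(19/10) = 5.134...`).
So `DensP` holds with `c = c₀/2`. -/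
def St_QKO : Prop := DensP Phi

/-- BGO.

Proof.  `GBQ.St_Big` with `X = (4n+2)/3` as in SI/T4.lean gives `p`, and `q = (n-p)/m ≤ 11` is prime
(`m > n/12`), so `q ∈ {2,3,5,7,11}` and `p_q - q + 1 ∈ {2,3,7,11,21}` has at most two prime factors;
`8 log log n ≥ 2` for large `n`. -/
def St_BGO : Prop := BigP Phi

/-- T4G.  The proof of `SI.thm_T4` for a general property (copy it). -/
def St_T4G : Prop := ∀ Φ : ℕ → ℕ → Prop, DensP Φ → BigP Φ → ∀ ε : ℝ, 0 < ε → ∃ n₀ : ℕ,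
  ∀ n m : ℕ, n₀ ≤ n → (n : ℝ) ^ (1 / 4 + ε) ≤ m → 2 * m + 1 < n →
  (SolP Φ m n).Nonempty ∧ (12 * m ≤ n → (n : ℝ) / Real.log n ^ 5 ≤ ((SolP Φ m n).card : ℝ))

/-- FIN2.  The theorem for a general property.

Proof.  As in `St_Fin` (EVN/Fin.lean), with `DensP Φ` in place of `GBQ.St_QK` and `St_T4G` in place of
`SI.St_T4`; the `m` without a prime factor `> (log n)^C` are excluded in the statement, so `St_Smo`
is not needed.  `C = C' + 2` with `C'` from KEY: a prime factor `p > (log n)^C ≥ 4 (log n)^{C'}` of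
`m` gives `P = 2^i` with `2^i < p ≤ 2^{i+1}`, `om P m ≥ 1`, `(log n)^{C'} ≤ P`. -/
def St_Fin2 : Prop := ∀ Φ : ℕ → ℕ → Prop, DensP Φ → BigP Φ → ∀ A : ℕ, ∃ C n₀ : ℕ, ∀ n ≥ n₀,
  ∀ x : ℕ, 1 ≤ x → (((Ioc x (2 * x)).filter (fun m => 2 * m + 1 < n ∧
    (∃ p ∈ m.primeFactors, Real.log n ^ C < (p : ℝ)) ∧
    (SolP Φ m n = ∅ ∨ (12 * m ≤ n ∧ ((SolP Φ m n).card : ℝ) < n / Real.log n ^ 5)))).card : ℝ) ≤
    x / Real.log n ^ A

end Pool.Agent.EVN
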