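import Pool.Agent.EVN.Stmts2
import Pool.Agent.Helper20.TwinIndex

set_option autoImplicit false

/-!
# EVN / QKO: primes `q` with `q^2 - 2` almost prime and few prime factors of `p_q - q + 1` (helper92)
-/

namespace Pool.Agent.EVN

open Finset Filter MeasureTheory
open Pool.Agent.Helper20.TwinIndex (pr pr_prime pr_strictMono pr_mono pi_pr lt_pr cheb)

/-- `q ↦ p_q - q + 1` -/
noncomputable def qko_f (q : ℕ) : ℕ := Nat.nth Nat.Prime (q - 1) - q + 1

theorem qko_step {q : ℕ} (hq : 2 ≤ q) : qko_f q < qko_f (q + 1) := by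
  have h1 : pr q < pr (q + 1) := pr_strictMono (by omega) (Nat.lt_succ_self q)
  have h2 : q < pr q := lt_pr (by omega)
  have h3 : 2 < pr q := by omega
  have h4 : Odd (pr q) := (pr_prime q).odd_of_ne_two (by omega)
  have h5 : Odd (pr (q + 1)) := (pr_prime (q + 1)).odd_of_ne_two (by omega)
  obtain ⟨a, ha⟩ := h4
  obtain ⟨b, hb⟩ := h5
  change pr q - q + 1 < pr (q + 1) - (q + 1) + 1
  omega

theorem qko_mono {a b : ℕ} (ha : 2 ≤ a) (hab : a < b) : qko_f a < qko_f b := by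
  obtain ⟨k, rfl⟩ : ∃ k, b = a + 1 + k := ⟨b - (a + 1), by omega⟩
  clear hab
  induction k with
  | zero => exact qko_step ha
  | succ k ih => exact ih.trans (qko_step (by omega))

theorem qko_inj {a b : ℕ} (ha : 2 ≤ a) (hb : 2 ≤ b) (h : qko_f a = qko_f b) : a = b := by
  rcases lt_trichotomy a b with h1 | h1 | h1
  · exact absurd h (qko_mono ha h1).ne
  · exact h1
  · exact absurd h (qko_mono hb h1).ne'

theorem qko_pr {K : ℕ} (hK : 2 ≤ K) : Real.log (pr K) ≤ 6 + 2 * Real.log K ∧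
    (pr K : ℝ) ≤ 60 * K * (1 + Real.log K) := by
  have hK0 : (2 : ℝ) ≤ K := by exact_mod_cast hK
  have hlK : 0 ≤ Real.log K := Real.log_nonneg (by linarith)
  have h1 : (pr K : ℝ) ≤ 10 * K * Real.log (pr K) := by
    have := cheb (pr_prime K).two_le
    rwa [pi_pr (by omega)] at this
  have hp2 : (2 : ℝ) ≤ pr K := by exact_mod_cast (pr_prime K).two_le
  have h2 : Real.log (pr K) ≤ 2 * Real.sqrt (pr K) := by
    have h3 := Real.log_le_sub_one_of_pos (Real.sqrt_pos.2 (by linarith : (0 : ℝ) < pr K))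
    rw [Real.log_sqrt (by linarith)] at h3
    linarith
  have h3 : Real.sqrt (pr K) * Real.sqrt (pr K) = pr K := Real.mul_self_sqrt (by linarith)
  have h4 : 0 < Real.sqrt (pr K) := Real.sqrt_pos.2 (by linarith)
  have h5 : Real.sqrt (pr K) * Real.sqrt (pr K) ≤ (20 * K) * Real.sqrt (pr K) := by
    rw [h3]
    calc (pr K : ℝ) ≤ 10 * K * Real.log (pr K) := h1
      _ ≤ 10 * K * (2 * Real.sqrt (pr K)) := mul_le_mul_of_nonneg_left h2 (by positivity)
      _ = _ := by ring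
  have h6 : Real.sqrt (pr K) ≤ 20 * K := le_of_mul_le_mul_right h5 h4
  have h7 : Real.log (pr K) ≤ 6 + 2 * Real.log K := by
    have h8 := Real.log_le_log h4 h6
    rw [Real.log_sqrt (by linarith), Real.log_mul (by norm_num) (by linarith)] at h8
    have h9 : Real.log 20 ≤ 3 := by
      rw [Real.log_le_iff_le_exp (by norm_num)]
      have h10 : Real.exp 3 = Real.exp 1 ^ 3 := by
        rw [← Real.exp_nat_mul]
        norm_num
      rw [h10]
      have h11 := Real.exp_one_gt_d9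
      have h12 : (2.7182818283 : ℝ) ^ 3 ≤ Real.exp 1 ^ 3 := pow_le_pow_left₀ (by norm_num) h11.le 3
      norm_num at h12 ⊢
      linarith
    linarith
  refine ⟨h7, h1.trans ?_⟩
  calc 10 * (K : ℝ) * Real.log (pr K) ≤ 10 * K * (6 + 2 * Real.log K) :=
        mul_le_mul_of_nonneg_left h7 (by positivity)
    _ ≤ 60 * K * (1 + Real.log K) := by nlinarith

theorem qko_z (L : ℝ) (hL : 1 ≤ L) : (19 / 10 : ℝ) ^ (-(8 * Real.log L)) ≤ (L ^ 5)⁻¹ := by
  have h1 : (5 : ℝ) ≤ 8 * Real.log (19 / 10) := by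
    have h2 : (8 : ℝ) * Real.log (19 / 10) = Real.log ((19 / 10) ^ 8) := by
      rw [Real.log_pow]
      norm_num
    rw [h2, Real.le_log_iff_exp_le (by norm_num)]
    have h10 : Real.exp 5 = Real.exp 1 ^ 5 := by
      rw [← Real.exp_nat_mul]
      norm_num
    rw [h10]
    have h12 : Real.exp 1 ^ 5 ≤ (2.7182818286 : ℝ) ^ 5 :=
      pow_le_pow_left₀ (Real.exp_pos _).le Real.exp_one_lt_d9.le 5
    norm_num at h12 ⊢
    linarith
  have h3 : 0 ≤ Real.log L := Real.log_nonneg hL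
  have h4 : (L ^ 5)⁻¹ = Real.exp (-(5 * Real.log L)) := by
    rw [Real.exp_neg, show (5 : ℝ) * Real.log L = Real.log (L ^ 5) by
      rw [Real.log_pow]
      norm_num, Real.exp_log (by positivity)]
  rw [h4, Real.rpow_def_of_pos (by norm_num)]
  apply Real.exp_le_exp.2
  nlinarith

theorem thm_QKO (h1 : St_Ome) (h2 : Pool.Agent.GBQ.St_QK) : St_QKO := by
  classical
  obtain ⟨C, hC, hO⟩ := h1
  obtain ⟨c₀, hc₀, hQ⟩ := h2
  have hL : Tendsto (fun n : ℕ => Real.log n) atTop atTop :=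
    Real.tendsto_log_atTop.comp tendsto_natCast_atTop_atTop
  have e1 : ∀ᶠ n : ℕ in atTop, 5760 * C / c₀ ≤ Real.log n ^ (1 / 10 : ℝ) :=
    ((tendsto_rpow_atTop (by norm_num : (0 : ℝ) < 1 / 10)).comp hL).eventually_ge_atTop _
  obtain ⟨n₁, hn₁⟩ := eventually_atTop.1 (e1.and (hL.eventually_ge_atTop 6))
  refine ⟨c₀ / 2, n₁, by positivity, fun n hn K hK hKn => ?_⟩
  obtain ⟨he, hL6⟩ := hn₁ n hn
  obtain ⟨S₀, hS₀, hcard⟩ := hQ K hK
  set L := Real.log n with hLdef
  have hK0 : (2 : ℝ) ≤ K := by exact_mod_cast hK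
  have hlK : 0 ≤ Real.log K := Real.log_nonneg (by linarith)
  have hlKL : Real.log K ≤ L := Real.log_le_log (by linarith) (by exact_mod_cast hKn)
  obtain ⟨hp1, hp2⟩ := qko_pr hK
  set T := 8 * Real.log L with hT
  set B := S₀.filter (fun q => T < (ArithmeticFunction.cardFactors (qko_f q) : ℝ)) with hB
  have hX : 2 ≤ pr K := (pr_prime K).two_le
  have hB1 : B.card ≤ ((Icc 1 (pr K)).filter
      (fun v => T < (ArithmeticFunction.cardFactors v : ℝ))).card := by
    refine card_le_card_of_injOn qko_f ?_ ?_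
    · intro q hq
      rw [hB, mem_coe, mem_filter] at hq
      rw [mem_coe, mem_filter, mem_Icc]
      refine ⟨⟨?_, ?_⟩, hq.2⟩
      · exact Nat.succ_le_of_lt (Nat.succ_pos _)
      · have h3 := hS₀ q hq.1
        have h4 : pr q ≤ pr K := pr_mono h3.1
        have h5 := h3.2.1.two_le
        have h6 : q < pr q := lt_pr (by omega)
        change pr q - q + 1 ≤ pr K
        omega
    · intro q hq q' hq' h
      rw [hB, mem_coe, mem_filter] at hq hq'
      exact qko_inj (hS₀ q hq.1).2.1.two_le (hS₀ q' hq'.1).2.1.two_le h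
  have hB2 : (B.card : ℝ) ≤ C * pr K * Real.log (pr K) ^ (9 / 10 : ℝ) * (19 / 10 : ℝ) ^ (-T) :=
    (Nat.cast_le.2 hB1).trans (hO (pr K) T hX)
  have hL0 : (0 : ℝ) < L := by linarith
  have hk : 0 < 1 + Real.log K := by linarith
  have hlp : 0 ≤ Real.log (pr K) := Real.log_natCast_nonneg _
  have hB3 : (B.card : ℝ) ≤ c₀ / 2 * K / (1 + Real.log K) ^ 3 := by
    have g1 : Real.log (pr K) ^ (9 / 10 : ℝ) ≤ 3 * L ^ (9 / 10 : ℝ) := by
      calc Real.log (pr K) ^ (9 / 10 : ℝ) ≤ (3 * L) ^ (9 / 10 : ℝ) :=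
            Real.rpow_le_rpow hlp (by linarith) (by norm_num)
        _ = 3 ^ (9 / 10 : ℝ) * L ^ (9 / 10 : ℝ) := Real.mul_rpow (by norm_num) hL0.le
        _ ≤ 3 * L ^ (9 / 10 : ℝ) := by
            refine mul_le_mul_of_nonneg_right ?_ (Real.rpow_nonneg hL0.le _)
            calc (3 : ℝ) ^ (9 / 10 : ℝ) ≤ 3 ^ (1 : ℝ) :=
                  Real.rpow_le_rpow_of_exponent_le (by norm_num) (by norm_num)
              _ = 3 := Real.rpow_one _
    have g2 : (19 / 10 : ℝ) ^ (-T) ≤ (L ^ 5)⁻¹ := qko_z L (by linarith)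
    have g3 : (B.card : ℝ) ≤ C * (60 * K * (1 + Real.log K)) * (3 * L ^ (9 / 10 : ℝ)) * (L ^ 5)⁻¹ := by
      refine hB2.trans ?_
      refine mul_le_mul (mul_le_mul (mul_le_mul_of_nonneg_left hp2 hC.le) g1
        (Real.rpow_nonneg hlp _) (by positivity)) g2 (by positivity) ?_
      have := Real.rpow_nonneg hL0.le (9 / 10 : ℝ)
      positivity
    rw [le_div_iff₀ (by positivity)]
    have g4 : (1 + Real.log K) ^ 4 ≤ (2 * L) ^ 4 := pow_le_pow_left₀ hk.le (by linarith) 4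
    have g5 : L ^ (9 / 10 : ℝ) * (L ^ 5)⁻¹ * L ^ 4 = (L ^ (1 / 10 : ℝ))⁻¹ := by
      have g6 : L ^ 5 = L ^ 4 * (L ^ (9 / 10 : ℝ) * L ^ (1 / 10 : ℝ)) := by
        rw [← Real.rpow_add hL0]
        norm_num
        ring
      have g7 : (0 : ℝ) < L ^ (9 / 10 : ℝ) := Real.rpow_pos_of_pos hL0 _
      have g8 : (0 : ℝ) < L ^ (1 / 10 : ℝ) := Real.rpow_pos_of_pos hL0 _
      rw [g6]
      field_simp
    have g8 : (0 : ℝ) < L ^ (1 / 10 : ℝ) := Real.rpow_pos_of_pos hL0 _
    have g9 : (0 : ℝ) < L ^ (9 / 10 : ℝ) := Real.rpow_pos_of_pos hL0 _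
    calc (B.card : ℝ) * (1 + Real.log K) ^ 3 ≤
        C * (60 * K * (1 + Real.log K)) * (3 * L ^ (9 / 10 : ℝ)) * (L ^ 5)⁻¹ *
          (1 + Real.log K) ^ 3 := mul_le_mul_of_nonneg_right g3 (by positivity)
      _ = 180 * C * K * (L ^ (9 / 10 : ℝ) * (L ^ 5)⁻¹) * (1 + Real.log K) ^ 4 := by ring
      _ ≤ 180 * C * K * (L ^ (9 / 10 : ℝ) * (L ^ 5)⁻¹) * (2 * L) ^ 4 :=
          mul_le_mul_of_nonneg_left g4 (by positivity)
      _ = 2880 * C * K * (L ^ (9 / 10 : ℝ) * (L ^ 5)⁻¹ * L ^ 4) := by ring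
      _ = K * (2880 * C / L ^ (1 / 10 : ℝ)) := by
          rw [g5]
          ring
      _ ≤ K * (c₀ / 2) := by
          refine mul_le_mul_of_nonneg_left ?_ (by linarith)
          rw [div_le_div_iff₀ g8 (by norm_num)]
          rw [div_le_iff₀ hc₀] at he
          linarith
      _ = c₀ / 2 * K := by ring
  refine ⟨S₀ \ B, fun q hq => ?_, ?_⟩
  · rw [Finset.mem_sdiff] at hq
    obtain ⟨h3, h4, h5⟩ := hS₀ q hq.1
    refine ⟨h3, h4, h5, ?_⟩
    by_contra h6
    push Not at h6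
    exact hq.2 (by
      rw [hB, mem_filter]
      exact ⟨hq.1, h6⟩)
  · have h3 : S₀.card ≤ (S₀ \ B).card + B.card := by
      have := card_sdiff_add_card_eq_card (filter_subset
        (fun q => T < (ArithmeticFunction.cardFactors (qko_f q) : ℝ)) S₀)
      rw [← hB] at this
      exact this.ge
    have h4 : (S₀.card : ℝ) ≤ (S₀ \ B).card + B.card := by exact_mod_cast h3
    have h5 : c₀ * K / (1 + Real.log K) ^ 3 = 2 * (c₀ / 2 * K / (1 + Real.log K) ^ 3) := by ring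
    linarith

end Pool.Agent.EVN
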