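import Pool.Agent.EVN.Stmts

set_option autoImplicit false

/-!
# EVN / Cnt: the short averages count solutions
-/

namespace Pool.Agent.EVN

open Finset Filter
open Pool.Agent.SI (nit DP IsW Wd)

/-- `w` is bounded -/
lemma cnt_bdd {w : ℝ → ℝ} (hw : IsW w) : ∃ W : ℝ, 0 < W ∧ ∀ x, w x ≤ W := by
  have h1 : HasCompactSupport w := by
    apply HasCompactSupport.intro (isCompact_Icc (a := (0 : ℝ)) (b := 1))
    intro x hx
    by_contra hcon
    exact hx ⟨(hw.supp x hcon).1.le, (hw.supp x hcon).2.le⟩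
  obtain ⟨C, hC⟩ := h1.exists_bound_of_continuous hw.smooth.continuous
  refine ⟨|C| + 1, by positivity, fun x => ?_⟩
  have h2 := hC x
  have h3 : w x ≤ ‖w x‖ := le_abs_self _
  have h4 := le_abs_self C
  linarith

lemma cnt_Wd_supp {w : ℝ → ℝ} (hw : IsW w) {δ : ℝ} (hδ : 0 < δ) {u : ℝ} (h : Wd w δ u ≠ 0) :
    0 < u ∧ u < δ := by
  unfold Wd at h
  have h1 : w (u / δ) ≠ 0 := fun h2 => h (by rw [h2, zero_div])
  obtain ⟨h2, h3⟩ := hw.supp _ h1
  constructor
  · by_contra hcon
    push Not at hcon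
    exact absurd h2 (not_lt.2 (div_nonpos_of_nonpos_of_nonneg hcon hδ.le))
  · rwa [div_lt_one hδ] at h3

lemma cnt_exp {t : ℝ} (h0 : 0 ≤ t) (h1 : t ≤ 1 / 2) : Real.exp t ≤ 1 + 2 * t := by
  have h2 : 1 - t ≤ Real.exp (-t) := by
    have := Real.add_one_le_exp (-t)
    linarith
  have h3 : Real.exp (-t) * Real.exp t = 1 := by
    rw [← Real.exp_add, neg_add_cancel, Real.exp_zero]
  have h4 : 0 < Real.exp t := Real.exp_pos t
  have h5 : (1 - t) * Real.exp t ≤ 1 :=
    (mul_le_mul_of_nonneg_right h2 h4.le).trans h3.le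
  nlinarith

/-- the support -/
lemma cnt_div {w : ℝ → ℝ} (hw : IsW w) {R m q x : ℕ} (hR : 1 ≤ R) (hm : 1 ≤ m) (hx : 1 ≤ x)
    (hq : R < q) (hq2 : q ≤ 2 * R)
    (h : Wd w (1 / (4 * R)) (Real.log x - Real.log q - Real.log m) ≠ 0) : x / m = q := by
  have hR' : (1 : ℝ) ≤ R := by exact_mod_cast hR
  have hm' : (1 : ℝ) ≤ m := by exact_mod_cast hm
  have hx' : (1 : ℝ) ≤ x := by exact_mod_cast hx
  have hq' : (1 : ℝ) ≤ q := by exact_mod_cast (hR.trans hq.le)
  have hq2' : (q : ℝ) ≤ 2 * R := by exact_mod_cast hq2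
  obtain ⟨h1, h2⟩ := cnt_Wd_supp hw (by positivity) h
  have hqm : 0 < (q : ℝ) * m := by positivity
  have hlog : Real.log ((q : ℝ) * m) = Real.log q + Real.log m :=
    Real.log_mul (by positivity) (by positivity)
  have h3 : (q : ℝ) * m < x := by
    rw [← Real.log_lt_log_iff hqm (by positivity), hlog]
    linarith
  have ht : (1 : ℝ) / (4 * R) ≤ 1 / 2 := by
    rw [div_le_div_iff₀ (by positivity) (by norm_num)]
    linarith
  have h4 : (x : ℝ) < q * m * (1 + 2 * (1 / (4 * R))) := by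
    refine lt_of_lt_of_le ?_ (mul_le_mul_of_nonneg_left (cnt_exp (by positivity) ht) hqm.le)
    rw [← Real.log_lt_log_iff (by positivity) (by positivity),
      Real.log_mul (by positivity) (by positivity), Real.log_exp, hlog]
    linarith
  have h5 : (q : ℝ) * m * (1 + 2 * (1 / (4 * R))) ≤ (q + 1) * m := by
    have h6 : (q : ℝ) * m * (2 * (1 / (4 * R))) ≤ m := by
      have h7 : (q : ℝ) * m * (2 * (1 / (4 * R))) = (q / (2 * R)) * m := by
        field_simp
        ring
      rw [h7]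
      have h8 : (q : ℝ) / (2 * R) ≤ 1 := by
        rw [div_le_one (by positivity)]
        exact hq2'
      nlinarith
    nlinarith
  have h6 : (x : ℝ) < ((q + 1) * m : ℕ) := by
    push_cast
    linarith
  have h7 : ((q * m : ℕ) : ℝ) < x := by
    push_cast
    linarith
  have h8 : x < (q + 1) * m := by exact_mod_cast h6
  have h9 : q * m < x := by exact_mod_cast h7
  exact Nat.div_eq_of_lt_le h9.le h8

/-- for every `x` there is at most one `q` -/
lemma cnt_q {w : ℝ → ℝ} (hw : IsW w) {W : ℝ} (hW0 : 0 < W) (hW : ∀ x, w x ≤ W) {R m x : ℕ}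
    {Q : Finset ℕ} (hR : 1 ≤ R) (hm : 1 ≤ m) (hx : 1 ≤ x) (hQ : Q ⊆ Ioc R (2 * R)) :
    ∑ q ∈ Q, Wd w (1 / (4 * R)) (Real.log x - Real.log q - Real.log m) ≤
      if x / m ∈ Q then 4 * R * W else 0 := by
  have hR' : (1 : ℝ) ≤ R := by exact_mod_cast hR
  have h1 : ∀ q ∈ Q, Wd w (1 / (4 * R)) (Real.log x - Real.log q - Real.log m) ≤
      if x / m = q then 4 * R * W else 0 := by
    intro q hq
    have h2 := mem_Ioc.1 (hQ hq)
    by_cases h0 : Wd w (1 / (4 * R)) (Real.log x - Real.log q - Real.log m) = 0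
    · rw [h0]
      split_ifs <;> positivity
    · rw [if_pos (cnt_div hw hR hm hx h2.1 h2.2 h0)]
      unfold Wd
      rw [div_le_iff₀ (by positivity)]
      have h3 : 4 * (R : ℝ) * W * (1 / (4 * R)) = W := by field_simp
      rw [h3]
      exact hW _
  refine (sum_le_sum h1).trans ?_
  rw [sum_ite_eq Q (x / m)]

theorem thm_Cnt : St_Cnt := by
  intro w hw
  obtain ⟨W, hW0, hW⟩ := cnt_bdd hw
  refine ⟨8 * W, by positivity, 3, fun n hn M R m Q hR hQ hX hMm hm2 => ?_⟩
  have hR' : (1 : ℝ) ≤ R := by exact_mod_cast hR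
  have hm : 1 ≤ m := by omega
  have hn' : (3 : ℝ) ≤ n := by exact_mod_cast hn
  have hlog1 : 1 ≤ Real.log n := by
    rw [Real.le_log_iff_exp_le (by linarith)]
    have := Real.exp_one_lt_d9
    linarith
  set X := M * R with hXdef
  set U := (Icc 1 (5 * X)).filter (fun x => x / m ∈ Q) with hU
  -- the sum over `x`
  have h1 : ∑ q ∈ Q, Tq w (1 / (4 * R)) n X m q ≤
      4 * R * W * ∑ x ∈ U, ArithmeticFunction.vonMangoldt (n - x) := by
    unfold Tq
    rw [sum_comm]
    have h2 : ∀ x ∈ Icc 1 (5 * X), ∑ q ∈ Q, aL n X x *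
        Wd w (1 / (4 * R)) (Real.log x - Real.log q - Real.log m) ≤
        if x / m ∈ Q then 4 * R * W * ArithmeticFunction.vonMangoldt (n - x) else 0 := by
      intro x hx
      rw [mem_Icc] at hx
      rw [← mul_sum]
      have h3 := cnt_q hw hW0 hW hR hm hx.1 hQ
      have h4 : 0 ≤ aL n X x := by
        unfold aL
        split_ifs
        · exact ArithmeticFunction.vonMangoldt_nonneg
        · exact le_rfl
      have h5 : aL n X x ≤ ArithmeticFunction.vonMangoldt (n - x) := by
        unfold aL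
        split_ifs
        · exact le_rfl
        · exact ArithmeticFunction.vonMangoldt_nonneg
      refine (mul_le_mul_of_nonneg_left h3 h4).trans ?_
      split_ifs
      · rw [mul_comm]
        exact mul_le_mul_of_nonneg_left h5 (by positivity)
      · rw [mul_zero]
    refine (sum_le_sum h2).trans ?_
    rw [hU, mul_sum, sum_filter]
  -- the numbers `n - x`
  have hinj : Set.InjOn (fun x => n - x) (U : Set ℕ) := by
    intro a ha b hb hab
    rw [hU, mem_coe, mem_filter, mem_Icc] at ha hb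
    simp only at hab
    omega
  set V := U.image (fun x => n - x) with hV
  have h2 : ∑ x ∈ U, ArithmeticFunction.vonMangoldt (n - x) =
      ∑ N ∈ V, ArithmeticFunction.vonMangoldt N := (sum_image hinj).symm
  have hmem : ∀ N ∈ V, 0 < N ∧ N < n ∧ (n - N) / m ∈ Q := by
    intro N hN
    rw [hV, mem_image] at hN
    obtain ⟨x, hx, rfl⟩ := hN
    rw [hU, mem_filter, mem_Icc] at hx
    have h3 : n - (n - x) = x := by omega
    rw [h3]
    exact ⟨by omega, by omega, hx.2⟩
  have h3 : ∑ N ∈ V.filter (fun N => N.Prime), ArithmeticFunction.vonMangoldt N ≤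
      (SolQ Q m n).card * Real.log n := by
    have h4 : ∀ N ∈ V.filter (fun N => N.Prime), ArithmeticFunction.vonMangoldt N ≤
        Real.log n := by
      intro N hN
      rw [mem_filter] at hN
      refine ArithmeticFunction.vonMangoldt_le_log.trans ?_
      have h5 := hmem N hN.1
      exact Real.log_le_log (by exact_mod_cast h5.1) (by exact_mod_cast h5.2.1.le)
    refine (sum_le_card_nsmul _ _ _ h4).trans ?_
    rw [nsmul_eq_mul]
    refine mul_le_mul_of_nonneg_right ?_ (by linarith)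
    have h5 : V.filter (fun N => N.Prime) ⊆ SolQ Q m n := by
      intro N hN
      rw [mem_filter] at hN
      unfold SolQ
      rw [mem_filter, mem_range]
      have h6 := hmem N hN.1
      exact ⟨h6.2.1, hN.2, h6.2.2⟩
    exact_mod_cast card_le_card h5
  have h4 : ∑ N ∈ V.filter (fun N => ¬ N.Prime), ArithmeticFunction.vonMangoldt N ≤
      2 * Real.sqrt n * Real.log n := by
    refine le_trans ?_ (Chebyshev.psi_sub_theta_le (x := (n : ℝ)) (by linarith))
    rw [Chebyshev.psi_sub_theta_eq_sum_not_prime, Nat.floor_natCast]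
    refine sum_le_sum_of_subset_of_nonneg ?_ fun _ _ _ => ArithmeticFunction.vonMangoldt_nonneg
    intro N hN
    rw [mem_filter] at hN ⊢
    have h6 := hmem N hN.1
    exact ⟨mem_Ioc.2 ⟨h6.1, h6.2.1.le⟩, hN.2⟩
  have h5 : ∑ N ∈ V, ArithmeticFunction.vonMangoldt N ≤
      (SolQ Q m n).card * Real.log n + 2 * Real.sqrt n * Real.log n := by
    rw [← sum_filter_add_sum_filter_not V (fun N => N.Prime)]
    exact add_le_add h3 h4
  rw [h2] at h1
  refine h1.trans ((mul_le_mul_of_nonneg_left h5 (by positivity)).trans ?_)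
  have h6 : 0 ≤ Real.sqrt n := Real.sqrt_nonneg _
  have h7 : (0 : ℝ) ≤ (SolQ Q m n).card := Nat.cast_nonneg _
  have h8 : 2 * Real.sqrt n * Real.log n ≤ 2 * (Real.sqrt n * Real.log n * Real.log n) := by
    nlinarith [mul_nonneg h6 (by linarith : (0 : ℝ) ≤ Real.log n)]
  have h9 : (SolQ Q m n).card * Real.log n + 2 * Real.sqrt n * Real.log n ≤
      2 * (Real.log n * (((SolQ Q m n).card : ℝ) + Real.sqrt n * Real.log n)) := by
    have : 0 ≤ ((SolQ Q m n).card : ℝ) * Real.log n := mul_nonneg h7 (by linarith)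
    nlinarith
  calc 4 * R * W * ((SolQ Q m n).card * Real.log n + 2 * Real.sqrt n * Real.log n)
      ≤ 4 * R * W * (2 * (Real.log n * (((SolQ Q m n).card : ℝ) +
        Real.sqrt n * Real.log n))) := mul_le_mul_of_nonneg_left h9 (by positivity)
    _ = 8 * W * R * Real.log n * (((SolQ Q m n).card : ℝ) + Real.sqrt n * Real.log n) := by ring

end Pool.Agent.EVN
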