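import Mathlib
import Pool.Agent.EVN.Stmts

set_option autoImplicit false

/-!
# EVN / Dua

Duality.
-/

namespace Pool.Agent.EVN

open Finset Filter MeasureTheory
open Pool.Agent.GBQ (ee)
open Pool.Agent.SI (nit DP IsW Wd)
open scoped FourierTransform

theorem dua_norm_nit (t : ℝ) (n : ℕ) : ‖nit t n‖ = 1 := by
  unfold nit
  exact Complex.norm_exp_ofReal_mul_I _

theorem dua_cont_nit (n : ℕ) : Continuous (fun ξ : ℝ => nit (2 * Real.pi * ξ) n) := by
  unfold nit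
  fun_prop

theorem dua_nit_mul (a b : ℝ) (n : ℕ) :
    nit a n * (starRingEnd ℂ) (nit b n) = nit (a - b) n := by
  unfold nit
  rw [← Complex.exp_conj, map_mul, Complex.conj_I, Complex.conj_ofReal, ← Complex.exp_add]
  congr 1
  push_cast
  ring

theorem dua_f_int {h : ℝ → ℂ} (hh : Integrable h) (m : ℕ) :
    Integrable (fun ξ : ℝ => h ξ * nit (2 * Real.pi * ξ) m) := by
  refine hh.mul_bdd (c := 1) (dua_cont_nit m).aestronglyMeasurable ?_
  exact Eventually.of_forall fun ξ => (dua_norm_nit _ _).le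

/-- the square as a double integral -/
theorem dua_sq (h : ℝ → ℂ) (m : ℕ) :
    (((‖∫ ξ : ℝ, h ξ * nit (2 * Real.pi * ξ) m‖ ^ 2 : ℝ)) : ℂ) =
      ∫ z : ℝ × ℝ, h z.1 * (starRingEnd ℂ) (h z.2) * nit (2 * Real.pi * (z.1 - z.2)) m := by
  have h1 : (∫ z : ℝ × ℝ, (h z.1 * nit (2 * Real.pi * z.1) m) *
      ((starRingEnd ℂ) (h z.2 * nit (2 * Real.pi * z.2) m))) =
      (∫ ξ : ℝ, h ξ * nit (2 * Real.pi * ξ) m) *
        (∫ ξ : ℝ, (starRingEnd ℂ) (h ξ * nit (2 * Real.pi * ξ) m)) :=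
    integral_prod_mul (fun ξ : ℝ => h ξ * nit (2 * Real.pi * ξ) m)
      (fun ξ : ℝ => (starRingEnd ℂ) (h ξ * nit (2 * Real.pi * ξ) m))
  rw [integral_conj, Complex.mul_conj, Complex.normSq_eq_norm_sq] at h1
  rw [← h1]
  refine integral_congr_ae (Eventually.of_forall fun z => ?_)
  simp only
  rw [map_mul]
  have h2 := dua_nit_mul (2 * Real.pi * z.1) (2 * Real.pi * z.2) m
  rw [show 2 * Real.pi * (z.1 - z.2) = 2 * Real.pi * z.1 - 2 * Real.pi * z.2 by ring, ← h2]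
  ring

theorem dua_z_int {h : ℝ → ℂ} (hh : Integrable h) (m : ℕ) :
    Integrable (fun z : ℝ × ℝ =>
      h z.1 * (starRingEnd ℂ) (h z.2) * nit (2 * Real.pi * (z.1 - z.2)) m) := by
  have h1 : Integrable (fun ξ : ℝ => (starRingEnd ℂ) (h ξ)) := by
    have := (Complex.conjLIE.toContinuousLinearEquiv.toContinuousLinearMap).integrable_comp hh
    exact this
  have h2 : Integrable (fun z : ℝ × ℝ => h z.1 * (starRingEnd ℂ) (h z.2)) := hh.mul_prod h1
  refine h2.mul_bdd (c := 1) ?_ ?_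
  · have : Continuous (fun z : ℝ × ℝ => nit (2 * Real.pi * (z.1 - z.2)) m) := by
      unfold nit
      fun_prop
    exact this.aestronglyMeasurable
  · exact Eventually.of_forall fun ξ => (dua_norm_nit _ _).le

/-- the part of the double integral near the large values of the kernel -/
theorem dua_conv {g : ℝ → ℝ} (hg : Integrable g) (hg0 : ∀ x, 0 ≤ g x) {V : Set ℝ}
    (hV : MeasurableSet V) {v : ℝ} (hv : 0 ≤ v) (hVv : volume V ≤ ENNReal.ofReal v) :
    Integrable (fun z : ℝ × ℝ => g z.2 * V.indicator (fun _ => (1 : ℝ)) (z.1 - z.2)) ∧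
    ∫ z : ℝ × ℝ, g z.2 * V.indicator (fun _ => (1 : ℝ)) (z.1 - z.2) ≤ v * ∫ x, g x := by
  have hfin : volume V ≠ ⊤ := (lt_of_le_of_lt hVv ENNReal.ofReal_lt_top).ne
  have h1 : Integrable (V.indicator (fun _ : ℝ => (1 : ℝ))) := by
    rw [integrable_indicator_iff hV]
    exact integrableOn_const (hs := hfin)
  have h2 : Integrable (fun z : ℝ × ℝ => g z.2 * V.indicator (fun _ => (1 : ℝ)) (z.1 - z.2))
      (volume.prod volume) := by
    have := hg.convolution_integrand (ContinuousLinearMap.mul ℝ ℝ) h1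
    simpa using this
  refine ⟨h2, ?_⟩
  have h3 := integral_convolution (μ := volume) (ν := volume) (ContinuousLinearMap.mul ℝ ℝ) hg h1
  have h4 : ∫ z : ℝ × ℝ, g z.2 * V.indicator (fun _ => (1 : ℝ)) (z.1 - z.2) =
      (∫ x, g x) * ∫ x, V.indicator (fun _ => (1 : ℝ)) x := by
    rw [show (volume : Measure (ℝ × ℝ)) = (volume : Measure ℝ).prod volume from rfl,
      integral_prod _ h2]
    have h5 : ∫ x, V.indicator (fun _ : ℝ => (1 : ℝ)) x = ∫ x, V.indicator (fun _ => (1 : ℝ)) x :=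
      rfl
    simp only [ContinuousLinearMap.mul_apply'] at h3
    rw [← h3]
    rfl
  rw [h4, integral_indicator hV]
  have h6 : ∫ _x in V, (1 : ℝ) ≤ v := by
    rw [setIntegral_const, smul_eq_mul, mul_one]
    rw [Measure.real]
    exact ENNReal.toReal_le_of_le_ofReal hv hVv
  have h7 : 0 ≤ ∫ x, g x := integral_nonneg hg0
  calc (∫ x, g x) * ∫ _x in V, (1 : ℝ) ≤ (∫ x, g x) * v := mul_le_mul_of_nonneg_left h6 h7
    _ = v * ∫ x, g x := mul_comm _ _

theorem dua_vol {U : Set ℝ} {v : ℝ} (hU : volume U ≤ ENNReal.ofReal v) {a : ℝ}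
    (ha : 1 ≤ |a|) : volume ((fun x => a * x) ⁻¹' U) ≤ ENNReal.ofReal v := by
  have ha0 : a ≠ 0 := by
    intro h
    rw [h, abs_zero] at ha
    linarith
  rw [Real.volume_preimage_mul_left ha0]
  have h1 : ENNReal.ofReal |a⁻¹| ≤ 1 := by
    rw [ENNReal.ofReal_le_one, abs_inv]
    exact inv_le_one_of_one_le₀ ha
  calc ENNReal.ofReal |a⁻¹| * volume U ≤ 1 * ENNReal.ofReal v := mul_le_mul' h1 hU
    _ = _ := one_mul _

theorem thm_Dua : St_Dua := by
  intro S W h T e₁ W₀ v U hW hT he hv hW0 hUm hUv hK hh hh2 hsupp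
  set K : ℝ → ℂ := fun u => ∑ m ∈ S, ((W m : ℝ) : ℂ) * nit u m with hKdef
  have hKtriv : ∀ u, ‖K u‖ ≤ W₀ := by
    intro u
    refine (norm_sum_le _ _).trans (le_trans (le_of_eq ?_) hW0)
    refine sum_congr rfl fun m hm => ?_
    rw [norm_mul, dua_norm_nit, mul_one, Complex.norm_real, Real.norm_eq_abs,
      abs_of_nonneg (hW m hm).2]
  have hW00 : 0 ≤ W₀ := (norm_nonneg _).trans (hKtriv 0)
  -- the sum as a double integral
  have h1 : (((∑ m ∈ S, W m * ‖∫ ξ : ℝ, h ξ * nit (2 * Real.pi * ξ) m‖ ^ 2 : ℝ)) : ℂ) =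
      ∫ z : ℝ × ℝ, h z.1 * (starRingEnd ℂ) (h z.2) * K (2 * Real.pi * (z.1 - z.2)) := by
    rw [Complex.ofReal_sum]
    have h2 : ∀ m ∈ S, ((W m * ‖∫ ξ : ℝ, h ξ * nit (2 * Real.pi * ξ) m‖ ^ 2 : ℝ) : ℂ) =
        ∫ z : ℝ × ℝ, ((W m : ℝ) : ℂ) *
          (h z.1 * (starRingEnd ℂ) (h z.2) * nit (2 * Real.pi * (z.1 - z.2)) m) := by
      intro m _
      rw [Complex.ofReal_mul, dua_sq h m, integral_const_mul]
    rw [sum_congr rfl h2, ← integral_finsetSum]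
    · refine integral_congr_ae (Eventually.of_forall fun z => ?_)
      simp only [hKdef]
      rw [mul_sum]
      refine sum_congr rfl fun m _ => ?_
      ring
    · intro m _
      exact (dua_z_int hh m).const_mul _
  have h3 : ∑ m ∈ S, W m * ‖∫ ξ : ℝ, h ξ * nit (2 * Real.pi * ξ) m‖ ^ 2 ≤
      ∫ z : ℝ × ℝ, ‖h z.1 * (starRingEnd ℂ) (h z.2) * K (2 * Real.pi * (z.1 - z.2))‖ := by
    have h4 : ‖(((∑ m ∈ S, W m * ‖∫ ξ : ℝ, h ξ * nit (2 * Real.pi * ξ) m‖ ^ 2 : ℝ)) : ℂ)‖ ≤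
        ∫ z : ℝ × ℝ, ‖h z.1 * (starRingEnd ℂ) (h z.2) * K (2 * Real.pi * (z.1 - z.2))‖ := by
      rw [h1]
      exact norm_integral_le_integral_norm _
    rw [Complex.norm_real, Real.norm_eq_abs] at h4
    exact (le_abs_self _).trans h4
  refine h3.trans ?_
  -- the bound of the integrand
  set V : Set ℝ := (fun x => 2 * Real.pi * x) ⁻¹' U with hVdef
  set V' : Set ℝ := (fun x => (-(2 * Real.pi)) * x) ⁻¹' U with hV'def
  have hpi : (1 : ℝ) ≤ 2 * Real.pi := by linarith [Real.pi_gt_three]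
  have hVm : MeasurableSet V := (measurable_const_mul _) hUm
  have hV'm : MeasurableSet V' := (measurable_const_mul _) hUm
  have hVv : volume V ≤ ENNReal.ofReal v :=
    dua_vol hUv (by rw [abs_of_nonneg (by linarith)]; exact hpi)
  have hV'v : volume V' ≤ ENNReal.ofReal v :=
    dua_vol hUv (by rw [abs_neg, abs_of_nonneg (by linarith)]; exact hpi)
  obtain ⟨i1, b1⟩ := dua_conv hh2 (fun x => by positivity) hVm hv hVv
  obtain ⟨i2, b2⟩ := dua_conv hh2 (fun x => by positivity) hV'm hv hV'v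
  have hn : Integrable (fun ξ : ℝ => ‖h ξ‖) := hh.norm
  have i3 : Integrable (fun z : ℝ × ℝ => ‖h z.1‖ * ‖h z.2‖) := hn.mul_prod hn
  have b3 : ∫ z : ℝ × ℝ, ‖h z.1‖ * ‖h z.2‖ = (∫ ξ : ℝ, ‖h ξ‖) ^ 2 := by
    rw [sq]
    exact integral_prod_mul (fun ξ : ℝ => ‖h ξ‖) (fun ξ : ℝ => ‖h ξ‖)
  -- exchange of the variables in the second one
  have i2' : Integrable (fun z : ℝ × ℝ =>
      ‖h z.1‖ ^ 2 * V'.indicator (fun _ => (1 : ℝ)) (z.2 - z.1)) := by
    exact i2.swap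
  have b2' : ∫ z : ℝ × ℝ, ‖h z.1‖ ^ 2 * V'.indicator (fun _ => (1 : ℝ)) (z.2 - z.1) ≤
      v * ∫ x, ‖h x‖ ^ 2 := by
    refine le_trans (le_of_eq ?_) b2
    exact integral_prod_swap (fun z : ℝ × ℝ =>
      ‖h z.2‖ ^ 2 * V'.indicator (fun _ => (1 : ℝ)) (z.1 - z.2))
  have hpt : ∀ z : ℝ × ℝ, ‖h z.1 * (starRingEnd ℂ) (h z.2) * K (2 * Real.pi * (z.1 - z.2))‖ ≤
      e₁ * (‖h z.1‖ * ‖h z.2‖) +
        (W₀ / 2 * (‖h z.2‖ ^ 2 * V.indicator (fun _ => (1 : ℝ)) (z.1 - z.2)) +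
          W₀ / 2 * (‖h z.1‖ ^ 2 * V'.indicator (fun _ => (1 : ℝ)) (z.2 - z.1))) := by
    intro z
    rw [norm_mul, norm_mul, RCLike.norm_conj]
    have n1 := norm_nonneg (h z.1)
    have n2 := norm_nonneg (h z.2)
    have hprod : 0 ≤ ‖h z.1‖ * ‖h z.2‖ := mul_nonneg n1 n2
    have ind0 : 0 ≤ V.indicator (fun _ => (1 : ℝ)) (z.1 - z.2) :=
      Set.indicator_nonneg (fun _ _ => zero_le_one) _
    have ind0' : 0 ≤ V'.indicator (fun _ => (1 : ℝ)) (z.2 - z.1) :=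
      Set.indicator_nonneg (fun _ _ => zero_le_one) _
    by_cases hz : 2 * Real.pi * (z.1 - z.2) ∈ U
    · have hz1 : V.indicator (fun _ => (1 : ℝ)) (z.1 - z.2) = 1 :=
        Set.indicator_of_mem (by exact hz) _
      have hz2 : V'.indicator (fun _ => (1 : ℝ)) (z.2 - z.1) = 1 := by
        refine Set.indicator_of_mem ?_ _
        change (-(2 * Real.pi)) * (z.2 - z.1) ∈ U
        rw [show (-(2 * Real.pi)) * (z.2 - z.1) = 2 * Real.pi * (z.1 - z.2) by ring]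
        exact hz
      rw [hz1, hz2, mul_one, mul_one]
      have k1 := hKtriv (2 * Real.pi * (z.1 - z.2))
      have k2 : ‖h z.1‖ * ‖h z.2‖ * ‖K (2 * Real.pi * (z.1 - z.2))‖ ≤
          ‖h z.1‖ * ‖h z.2‖ * W₀ := mul_le_mul_of_nonneg_left k1 hprod
      have k3 : ‖h z.1‖ * ‖h z.2‖ ≤ (‖h z.1‖ ^ 2 + ‖h z.2‖ ^ 2) / 2 := by
        nlinarith [sq_nonneg (‖h z.1‖ - ‖h z.2‖)]
      have k4 : ‖h z.1‖ * ‖h z.2‖ * W₀ ≤ (‖h z.1‖ ^ 2 + ‖h z.2‖ ^ 2) / 2 * W₀ :=
        mul_le_mul_of_nonneg_right k3 hW00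
      have k5 : 0 ≤ e₁ * (‖h z.1‖ * ‖h z.2‖) := mul_nonneg he hprod
      linarith
    · have k0 : 0 ≤ W₀ / 2 * (‖h z.2‖ ^ 2 * V.indicator (fun _ => (1 : ℝ)) (z.1 - z.2)) := by
        positivity
      have k0' : 0 ≤ W₀ / 2 * (‖h z.1‖ ^ 2 * V'.indicator (fun _ => (1 : ℝ)) (z.2 - z.1)) := by
        positivity
      by_cases hs : T < |z.1| ∨ T < |z.2|
      · have hzero : ‖h z.1‖ * ‖h z.2‖ = 0 := by
          rcases hs with hs | hs
          · rw [hsupp _ hs, norm_zero, zero_mul]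
          · rw [hsupp _ hs, norm_zero, mul_zero]
        rw [hzero, zero_mul, mul_zero]
        linarith
      · push Not at hs
        have hu : |2 * Real.pi * (z.1 - z.2)| ≤ 4 * Real.pi * T := by
          rw [abs_mul, abs_of_nonneg (by linarith : (0 : ℝ) ≤ 2 * Real.pi)]
          have := abs_sub z.1 z.2
          nlinarith [hs.1, hs.2, Real.pi_pos]
        have k1 := hK _ hu hz
        have k2 : ‖h z.1‖ * ‖h z.2‖ * ‖K (2 * Real.pi * (z.1 - z.2))‖ ≤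
            ‖h z.1‖ * ‖h z.2‖ * e₁ := mul_le_mul_of_nonneg_left k1 hprod
        linarith
  have hi : Integrable (fun z : ℝ × ℝ => e₁ * (‖h z.1‖ * ‖h z.2‖) +
        (W₀ / 2 * (‖h z.2‖ ^ 2 * V.indicator (fun _ => (1 : ℝ)) (z.1 - z.2)) +
          W₀ / 2 * (‖h z.1‖ ^ 2 * V'.indicator (fun _ => (1 : ℝ)) (z.2 - z.1)))) :=
    (i3.const_mul e₁).add ((i1.const_mul (W₀ / 2)).add (i2'.const_mul (W₀ / 2)))
  refine (integral_mono_of_nonneg (Eventually.of_forall fun z => norm_nonneg _) hi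
    (Eventually.of_forall hpt)).trans ?_
  refine (le_of_eq (integral_add (i3.const_mul e₁)
    ((i1.const_mul (W₀ / 2)).add (i2'.const_mul (W₀ / 2))))).trans ?_
  have e2 := integral_add (i1.const_mul (W₀ / 2)) (i2'.const_mul (W₀ / 2))
  simp only [Pi.add_apply]
  rw [e2, integral_const_mul, integral_const_mul, integral_const_mul, b3]
  have c1 := mul_le_mul_of_nonneg_left b1 (by linarith : (0 : ℝ) ≤ W₀ / 2)
  have c2 := mul_le_mul_of_nonneg_left b2' (by linarith : (0 : ℝ) ≤ W₀ / 2)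
  linarith

end Pool.Agent.EVN
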