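import Pool.Agent.EVN.Stmts
import Pool.Agent.SI.Four

/-!
# EVN: module FI (helper25), Fourier inversion
-/

set_option autoImplicit false

namespace Pool.Agent.EVN

open Finset Filter MeasureTheory
open Pool.Agent.SI (nit DP IsW Wd four_S four_S_coe four_cd)
open scoped FourierTransform

/-- the Fourier transform of the weight -/
noncomputable def fi_F (w : ℝ → ℝ) (ξ : ℝ) : ℂ := 𝓕 (fun x => ((w x : ℝ) : ℂ)) ξ

theorem fi_cont {w : ℝ → ℝ} (hw : IsW w) : Continuous (fi_F w) := by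
  have h1 : fi_F w = (𝓕 (four_S hw) : SchwartzMap ℝ ℂ) := by
    funext ξ
    unfold fi_F
    rw [SchwartzMap.fourier_coe, four_S_coe]
  rw [h1]
  exact (𝓕 (four_S hw) : SchwartzMap ℝ ℂ).continuous

theorem fi_int {w : ℝ → ℝ} (hw : IsW w) : Integrable (fi_F w) := by
  have h1 : fi_F w = (𝓕 (four_S hw) : SchwartzMap ℝ ℂ) := by
    funext ξ
    unfold fi_F
    rw [SchwartzMap.fourier_coe, four_S_coe]
  rw [h1]
  exact (𝓕 (four_S hw) : SchwartzMap ℝ ℂ).integrable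

theorem fi_inv {w : ℝ → ℝ} (hw : IsW w) (v : ℝ) :
    ((w v : ℝ) : ℂ) = ∫ η : ℝ, Complex.exp (((2 * Real.pi * (η * v) : ℝ) : ℂ) * Complex.I) *
      fi_F w η := by
  have hc : Continuous (fun x => ((w x : ℝ) : ℂ)) := (four_cd hw).continuous
  have hi : Integrable (fun x => ((w x : ℝ) : ℂ)) := by
    rw [← four_S_coe hw]
    exact (four_S hw).integrable
  have h1 := congrFun (hc.fourierInv_fourier_eq hi (fi_int hw)) v
  rw [Real.fourierInv_eq'] at h1
  refine h1.symm.trans ?_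
  refine integral_congr_ae (Eventually.of_forall fun η => ?_)
  have h2 : (inner ℝ η v : ℝ) = η * v := by
    rw [real_inner_comm]
    rfl
  show Complex.exp (((2 * Real.pi * (inner ℝ η v : ℝ) : ℝ) : ℂ) * Complex.I) • _ = _
  rw [h2, smul_eq_mul]
  rfl

/-- the function `ŵ(dξ) exp(2πiξu)` -/
noncomputable def fi_G (w : ℝ → ℝ) (d u ξ : ℝ) : ℂ :=
  fi_F w (d * ξ) * Complex.exp (((2 * Real.pi * ξ * u : ℝ) : ℂ) * Complex.I)

theorem fi_G_cont {w : ℝ → ℝ} (hw : IsW w) (d u : ℝ) : Continuous (fi_G w d u) := by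
  unfold fi_G
  refine ((fi_cont hw).comp (continuous_const.mul continuous_id)).mul ?_
  fun_prop

theorem fi_G_int {w : ℝ → ℝ} (hw : IsW w) {d : ℝ} (hd : 0 < d) (u : ℝ) :
    Integrable (fi_G w d u) := by
  have h1 : Integrable (fun ξ => fi_F w (d * ξ)) := (fi_int hw).comp_mul_left' hd.ne'
  refine (integrable_norm_iff (fi_G_cont hw d u).aestronglyMeasurable).1 ?_
  refine h1.norm.congr (Eventually.of_forall fun ξ => ?_)
  show ‖fi_F w (d * ξ)‖ = ‖fi_F w (d * ξ) *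
    Complex.exp (((2 * Real.pi * ξ * u : ℝ) : ℂ) * Complex.I)‖
  rw [norm_mul, Complex.norm_exp_ofReal_mul_I, mul_one]

theorem fi_G_eq {w : ℝ → ℝ} (hw : IsW w) {d : ℝ} (hd : 0 < d) (u : ℝ) :
    ((Wd w d u : ℝ) : ℂ) = ∫ ξ : ℝ, fi_G w d u ξ := by
  have hd' : (d : ℂ) ≠ 0 := by exact_mod_cast hd.ne'
  have h2 := MeasureTheory.Measure.integral_comp_mul_left (fun η : ℝ =>
    Complex.exp (((2 * Real.pi * (η * (u / d)) : ℝ) : ℂ) * Complex.I) * fi_F w η) d
  have h3 : ∀ ξ : ℝ, Complex.exp (((2 * Real.pi * (d * ξ * (u / d)) : ℝ) : ℂ) * Complex.I) *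
      fi_F w (d * ξ) = fi_G w d u ξ := by
    intro ξ
    unfold fi_G
    rw [mul_comm]
    have h4 : 2 * Real.pi * (d * ξ * (u / d)) = 2 * Real.pi * ξ * u := by
      field_simp
    rw [h4]
  rw [integral_congr_ae (Eventually.of_forall h3), ← fi_inv hw] at h2
  rw [h2]
  unfold Wd
  rw [abs_of_pos (inv_pos.2 hd), Complex.real_smul]
  push_cast
  rw [div_eq_mul_inv, mul_comm]

theorem fi_term (ξ : ℝ) (x q m : ℕ) :
    (starRingEnd ℂ) (nit (2 * Real.pi * ξ) x) * nit (2 * Real.pi * ξ) q * nit (2 * Real.pi * ξ) m =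
      Complex.exp (((2 * Real.pi * ξ * (Real.log x - Real.log q - Real.log m) : ℝ) : ℂ) *
        Complex.I) := by
  unfold nit
  rw [← Complex.exp_conj, ← Complex.exp_add, ← Complex.exp_add]
  congr 1
  rw [map_mul, Complex.conj_ofReal, Complex.conj_I]
  push_cast
  ring

theorem fi_hh (w : ℝ → ℝ) (a b : ℕ → ℝ) (M₁ M₂ : ℕ) (d d' ξ : ℝ) (m : ℕ) :
    hh w a b M₁ M₂ d d' ξ * nit (2 * Real.pi * ξ) m =
      ∑ x ∈ Icc 1 M₁, ∑ q ∈ Icc 1 M₂, ((a x * b q : ℝ) : ℂ) *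
        (fi_G w d (Real.log x - Real.log q - Real.log m) ξ -
          fi_G w d' (Real.log x - Real.log q - Real.log m) ξ) := by
  have h1 : hh w a b M₁ M₂ d d' ξ * nit (2 * Real.pi * ξ) m =
      (fi_F w (d * ξ) - fi_F w (d' * ξ)) * (((starRingEnd ℂ) (DP a M₁ (2 * Real.pi * ξ)) *
        DP b M₂ (2 * Real.pi * ξ)) * nit (2 * Real.pi * ξ) m) := by
    unfold hh fi_F
    ring
  have h2 : ((starRingEnd ℂ) (DP a M₁ (2 * Real.pi * ξ)) *
        DP b M₂ (2 * Real.pi * ξ)) * nit (2 * Real.pi * ξ) m =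
      ∑ x ∈ Icc 1 M₁, ∑ q ∈ Icc 1 M₂, ((a x * b q : ℝ) : ℂ) *
        Complex.exp (((2 * Real.pi * ξ * (Real.log x - Real.log q - Real.log m) : ℝ) : ℂ) *
        Complex.I) := by
    unfold DP
    rw [map_sum, Finset.sum_mul_sum, Finset.sum_mul]
    refine Finset.sum_congr rfl fun x _ => ?_
    rw [Finset.sum_mul]
    refine Finset.sum_congr rfl fun q _ => ?_
    rw [← fi_term, map_mul, Complex.conj_ofReal]
    push_cast
    ring
  rw [h1, h2, Finset.mul_sum]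
  refine Finset.sum_congr rfl fun x _ => ?_
  rw [Finset.mul_sum]
  refine Finset.sum_congr rfl fun q _ => ?_
  unfold fi_G
  ring

theorem fi_hh_one (w : ℝ → ℝ) (a b : ℕ → ℝ) (M₁ M₂ : ℕ) (d d' ξ : ℝ) :
    hh w a b M₁ M₂ d d' ξ = hh w a b M₁ M₂ d d' ξ * nit (2 * Real.pi * ξ) 1 := by
  have h1 : nit (2 * Real.pi * ξ) 1 = 1 := by
    unfold nit
    simp
  rw [h1, mul_one]

theorem thm_FI : St_FI := by
  intro w hw a b M₁ M₂ d d' hd hd'
  have hg : ∀ m : ℕ, ∀ x ∈ Icc 1 M₁, ∀ q ∈ Icc 1 M₂, Integrable (fun ξ => ((a x * b q : ℝ) : ℂ) *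
        (fi_G w d (Real.log x - Real.log q - Real.log m) ξ -
          fi_G w d' (Real.log x - Real.log q - Real.log m) ξ)) := fun m x _ q _ =>
    ((fi_G_int hw hd _).sub (fi_G_int hw hd' _)).const_mul _
  refine ⟨?_, ?_, ?_⟩
  · have h1 : (fun ξ => hh w a b M₁ M₂ d d' ξ) = fun ξ =>
        ∑ x ∈ Icc 1 M₁, ∑ q ∈ Icc 1 M₂, ((a x * b q : ℝ) : ℂ) *
        (fi_G w d (Real.log x - Real.log q - Real.log (1 : ℕ)) ξ -
          fi_G w d' (Real.log x - Real.log q - Real.log (1 : ℕ)) ξ) := by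
      funext ξ
      rw [fi_hh_one, fi_hh]
    rw [h1]
    refine continuous_finsetSum _ fun x _ => continuous_finsetSum _ fun q _ => ?_
    exact continuous_const.mul ((fi_G_cont hw _ _).sub (fi_G_cont hw _ _))
  · have h1 : (fun ξ => hh w a b M₁ M₂ d d' ξ) = fun ξ =>
        ∑ x ∈ Icc 1 M₁, ∑ q ∈ Icc 1 M₂, ((a x * b q : ℝ) : ℂ) *
        (fi_G w d (Real.log x - Real.log q - Real.log (1 : ℕ)) ξ -
          fi_G w d' (Real.log x - Real.log q - Real.log (1 : ℕ)) ξ) := by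
      funext ξ
      rw [fi_hh_one, fi_hh]
    rw [h1]
    exact integrable_finsetSum _ fun x hx => integrable_finsetSum _ fun q hq => hg 1 x hx q hq
  · intro m _
    rw [integral_congr_ae (Eventually.of_forall fun ξ => fi_hh w a b M₁ M₂ d d' ξ m),
      integral_finsetSum _ fun x hx => integrable_finsetSum _ fun q hq => hg m x hx q hq]
    rw [Complex.ofReal_sum]
    refine Finset.sum_congr rfl fun x hx => ?_
    rw [integral_finsetSum _ fun q hq => hg m x hx q hq, Complex.ofReal_sum]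
    refine Finset.sum_congr rfl fun q hq => ?_
    rw [integral_const_mul, integral_sub (fi_G_int hw hd _) (fi_G_int hw hd' _),
      ← fi_G_eq hw hd, ← fi_G_eq hw hd']
    push_cast
    ring

end Pool.Agent.EVN
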