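import Pool.Agent.EVN.Stmts
import Pool.Agent.GBQ.UStmts

set_option autoImplicit false

/-!
# EVN / Fin: the theorem
-/

namespace Pool.Agent.EVN

open Finset Filter MeasureTheory
open Pool.Agent.GBQ (ee)
open Pool.Agent.SI (nit DP IsW Wd)

/-- number of dyadic blocks -/
theorem fin_log {N n : ℕ} (hN : 1 ≤ N) (hNn : N ≤ n) (hL : 2 ≤ Real.log n) :
    ((Nat.log 2 N + 1 : ℕ) : ℝ) ≤ 2 * Real.log n := by
  have h1 : 2 ^ Nat.log 2 N ≤ n := (Nat.pow_log_le_self 2 (by omega)).trans hNn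
  have h2 : ((2 : ℝ) ^ Nat.log 2 N) ≤ n := by exact_mod_cast h1
  have h3 : Real.log ((2 : ℝ) ^ Nat.log 2 N) ≤ Real.log n :=
    Real.log_le_log (by positivity) h2
  rw [Real.log_pow] at h3
  have h4 : (2 / 3 : ℝ) ≤ Real.log 2 := by
    have := Real.log_two_gt_d9
    linarith
  have h5 : (Nat.log 2 N : ℝ) * (2 / 3) ≤ Nat.log 2 N * Real.log 2 :=
    mul_le_mul_of_nonneg_left h4 (Nat.cast_nonneg _)
  push_cast
  linarith

/-- dyadic position -/
theorem fin_pos {q : ℕ} (hq : 2 ≤ q) :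
    2 ^ Nat.log 2 (q - 1) < q ∧ q ≤ 2 * 2 ^ Nat.log 2 (q - 1) := by
  have h1 : 2 ^ Nat.log 2 (q - 1) ≤ q - 1 := Nat.pow_log_le_self 2 (by omega)
  have h2 : q - 1 < 2 ^ (Nat.log 2 (q - 1) + 1) := Nat.lt_pow_succ_log_self (by norm_num) _
  rw [pow_succ] at h2
  omega

/-- the dyadic part of `S` -/
def fin_S (S : Finset ℕ) (j : ℕ) : Finset ℕ := S.filter (fun q => Nat.log 2 (q - 1) = j)

theorem fin_S_sub {S : Finset ℕ} (hS : ∀ q ∈ S, 2 ≤ q) (j : ℕ) :
    fin_S S j ⊆ Ioc (2 ^ j) (2 * 2 ^ j) := by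
  intro q hq
  unfold fin_S at hq
  rw [mem_filter] at hq
  obtain ⟨h1, rfl⟩ := hq
  rw [mem_Ioc]
  exact fin_pos (hS q h1)

theorem fin_S_card {S : Finset ℕ} (hS : ∀ q ∈ S, 2 ≤ q) (j : ℕ) :
    (fin_S S j).card ≤ 2 ^ j := by
  refine (card_le_card (fin_S_sub hS j)).trans ?_
  rw [Nat.card_Ioc]
  omega

/-- most of the elements of `S` are in good dyadic parts -/
theorem fin_good {S : Finset ℕ} {K : ℕ} {L : ℝ} (hS : ∀ q ∈ S, 2 ≤ q ∧ q ≤ K) (hL : 0 < L)
    (hK : ((Nat.log 2 K + 1 : ℕ) : ℝ) ≤ 2 * L) (hK1 : 1 ≤ K) (hbig : 4 * K / L ^ 4 ≤ (S.card : ℝ)) :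
    (S.card : ℝ) / 2 ≤ ∑ j ∈ (range (Nat.log 2 K + 1)).filter (fun j =>
      ((2 ^ j : ℕ) : ℝ) ≤ L ^ 5 * (fin_S S j).card ∧ (K : ℝ) ≤ L ^ 5 * ((2 ^ j : ℕ) : ℝ)),
      ((fin_S S j).card : ℝ) := by
  set J := Nat.log 2 K with hJ
  have hK0 : (0 : ℝ) < K := by exact_mod_cast hK1
  have h1 : (S.card : ℝ) = ∑ j ∈ range (J + 1), ((fin_S S j).card : ℝ) := by
    have h2 : S.card = ∑ j ∈ range (J + 1), (fin_S S j).card := by
      refine card_eq_sum_card_fiberwise fun q hq => ?_
      rw [mem_coe, mem_range]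
      have h3 := hS q hq
      have h4 : Nat.log 2 (q - 1) ≤ J := Nat.log_mono_right (by omega)
      omega
    rw [h2]
    push_cast
    rfl
  have h2 := sum_filter_add_sum_filter_not (range (J + 1)) (fun j =>
      ((2 ^ j : ℕ) : ℝ) ≤ L ^ 5 * (fin_S S j).card ∧ (K : ℝ) ≤ L ^ 5 * ((2 ^ j : ℕ) : ℝ))
      (fun j => ((fin_S S j).card : ℝ))
  have h3 : ∑ j ∈ (range (J + 1)).filter (fun j => ¬ (((2 ^ j : ℕ) : ℝ) ≤
      L ^ 5 * (fin_S S j).card ∧ (K : ℝ) ≤ L ^ 5 * ((2 ^ j : ℕ) : ℝ))),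
      ((fin_S S j).card : ℝ) ≤ 2 * K / L ^ 4 := by
    have h4 : ∀ j ∈ (range (J + 1)).filter (fun j => ¬ (((2 ^ j : ℕ) : ℝ) ≤
        L ^ 5 * (fin_S S j).card ∧ (K : ℝ) ≤ L ^ 5 * ((2 ^ j : ℕ) : ℝ))),
        ((fin_S S j).card : ℝ) ≤ K / L ^ 5 := by
      intro j hj
      rw [mem_filter, mem_range] at hj
      obtain ⟨hj1, hj2⟩ := hj
      have h5 : 2 ^ j ≤ K :=
        (Nat.pow_le_pow_right (by norm_num) (by omega : j ≤ J)).trans
          (Nat.pow_log_le_self 2 (by omega))
      have h5' : ((2 ^ j : ℕ) : ℝ) ≤ K := by exact_mod_cast h5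
      rw [le_div_iff₀ (by positivity)]
      rw [not_and_or, not_le, not_le] at hj2
      rcases hj2 with h | h
      · rw [mul_comm]
        linarith
      · have h6 : ((fin_S S j).card : ℝ) ≤ ((2 ^ j : ℕ) : ℝ) := by
          exact_mod_cast fin_S_card (fun q hq => (hS q hq).1) j
        have h7 : ((fin_S S j).card : ℝ) * L ^ 5 ≤ ((2 ^ j : ℕ) : ℝ) * L ^ 5 :=
          mul_le_mul_of_nonneg_right h6 (by positivity)
        rw [mul_comm] at h
        linarith
    refine (sum_le_card_nsmul _ _ _ h4).trans ?_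
    rw [nsmul_eq_mul]
    have h5 : (((range (J + 1)).filter (fun j => ¬ (((2 ^ j : ℕ) : ℝ) ≤
        L ^ 5 * (fin_S S j).card ∧ (K : ℝ) ≤ L ^ 5 * ((2 ^ j : ℕ) : ℝ)))).card : ℝ) ≤ 2 * L := by
      refine le_trans ?_ hK
      have h6 := card_filter_le (range (J + 1)) (fun j => ¬ (((2 ^ j : ℕ) : ℝ) ≤
        L ^ 5 * (fin_S S j).card ∧ (K : ℝ) ≤ L ^ 5 * ((2 ^ j : ℕ) : ℝ)))
      rw [card_range] at h6
      exact_mod_cast h6
    calc _ ≤ 2 * L * (K / L ^ 5) := mul_le_mul_of_nonneg_right h5 (by positivity)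
      _ = 2 * K / L ^ 4 := by
        field_simp
  have h4 : 4 * K / L ^ 4 = 2 * (2 * K / L ^ 4) := by ring
  linarith

theorem fin_SolQ_sub {S Q : Finset ℕ} (hS : ∀ q ∈ S, q.Prime ∧
    Nat.IsAtMostAlmostPrime 5 (q ^ 2 - 2)) (hQ : Q ⊆ S) (m n : ℕ) : SolQ Q m n ⊆ Sol5 m n := by
  classical
  intro p hp
  unfold SolQ at hp
  unfold Sol5
  rw [mem_filter] at hp ⊢
  obtain ⟨h1, h2, h3⟩ := hp
  have h4 := hS _ (hQ h3)
  exact ⟨h1, h2, h4.1, h4.2⟩

/-- the solutions for different dyadic parts are different -/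
theorem fin_Sol5_card {S : Finset ℕ} (hS : ∀ q ∈ S, q.Prime ∧
    Nat.IsAtMostAlmostPrime 5 (q ^ 2 - 2)) (G : Finset ℕ) (m n : ℕ) :
    ∑ j ∈ G, (SolQ (fin_S S j) m n).card ≤ (Sol5 m n).card := by
  classical
  rw [← card_biUnion]
  · refine card_le_card fun p hp => ?_
    rw [mem_biUnion] at hp
    obtain ⟨j, -, hp⟩ := hp
    exact fin_SolQ_sub hS (filter_subset _ _) m n hp
  · intro j _ j' _ hjj
    rw [Function.onFun, disjoint_left]
    intro p hp hp'
    unfold SolQ at hp hp'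
    rw [mem_filter] at hp hp'
    have h1 := hp.2.2
    have h2 := hp'.2.2
    unfold fin_S at h1 h2
    rw [mem_filter] at h1 h2
    exact hjj (h1.2.symm.trans h2.2)

theorem thm_Fin (h1 : St_Key) (h2 : St_Smo) (h3 : Pool.Agent.SI.St_T4)
    (h4 : Pool.Agent.GBQ.St_QK) : St_Fin := by
  intro A
  obtain ⟨c, hc, hkey⟩ := h1
  obtain ⟨C', n₁, hkey⟩ := hkey (A + 3) 6
  obtain ⟨Cs, hCs, hsmo⟩ := h2 A
  obtain ⟨n₂, hT4⟩ := h3 (1 / 20) (by norm_num)
  obtain ⟨c₀, hc₀, hQK⟩ := h4
  set L₀ : ℝ := 64 + 32 / c₀ + 1024 / (c * c₀) + 4 with hL₀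
  have hev : ∀ᶠ n : ℕ in atTop, L₀ ≤ Real.log n ∧ 1 ≤ Real.log (Real.log n) ∧
      64 * (n : ℝ) ^ (3 / 10 : ℝ) ≤ n ∧ n₁ ≤ n ∧ n₂ ≤ n := by
    have t1 : Tendsto (fun n : ℕ => Real.log n) atTop atTop :=
      Real.tendsto_log_atTop.comp (tendsto_natCast_atTop_atTop (R := ℝ))
    have t2 : Tendsto (fun n : ℕ => Real.log (Real.log n)) atTop atTop :=
      Real.tendsto_log_atTop.comp t1
    have t3 : Tendsto (fun n : ℕ => (n : ℝ) ^ (7 / 10 : ℝ)) atTop atTop :=
      (tendsto_rpow_atTop (by norm_num)).comp (tendsto_natCast_atTop_atTop (R := ℝ))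
    filter_upwards [t1.eventually_ge_atTop L₀, t2.eventually_ge_atTop 1,
      t3.eventually_ge_atTop 64, eventually_ge_atTop n₁, eventually_ge_atTop n₂,
      eventually_ge_atTop 1] with n e1 e2 e3 e4 e5 e6
    refine ⟨e1, e2, ?_, e4, e5⟩
    have hn0 : (0 : ℝ) < n := by exact_mod_cast e6
    calc 64 * (n : ℝ) ^ (3 / 10 : ℝ) ≤ (n : ℝ) ^ (7 / 10 : ℝ) * (n : ℝ) ^ (3 / 10 : ℝ) :=
          mul_le_mul_of_nonneg_right e3 (by positivity)
      _ = n := by
          rw [← Real.rpow_add hn0]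
          norm_num
  obtain ⟨n₀, hn₀⟩ := eventually_atTop.1 hev
  refine ⟨1 + Cs * (C' + 2) ^ A, n₀, by positivity, ?_⟩
  intro n hn x hx
  obtain ⟨e1, e2, e3, e4, e5⟩ := hn₀ n hn
  set L := Real.log n with hL
  set LL := Real.log L with hLL
  have hq1 : 0 ≤ 32 / c₀ := by positivity
  have hq2 : 0 ≤ 1024 / (c * c₀) := by positivity
  have hL64 : 64 ≤ L := by linarith
  have hLc : 32 / c₀ ≤ L := by linarith
  have hLcc : 1024 / (c * c₀) ≤ L := by linarith
  have hL0 : 0 < L := by linarith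
  have hn1 : (1 : ℝ) < n := by
    by_contra hcon
    rw [not_lt] at hcon
    have := Real.log_nonpos (Nat.cast_nonneg n) hcon
    linarith
  have hn0 : (0 : ℝ) < n := by linarith
  have hx0 : (0 : ℝ) < x := by exact_mod_cast (by omega : 0 < x)
  have hx2 : (2 : ℝ) ≤ x := by exact_mod_cast hx
  have hlx : 0 < Real.log x := Real.log_pos (by linarith)
  have hRHS : 0 ≤ (1 + Cs * (C' + 2) ^ A) * x * (LL / Real.log x) ^ A := by positivity
  rcases le_or_gt ((n : ℝ) ^ (1 / 4 + 1 / 20 : ℝ)) (x : ℝ) with hbig | hsmall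
  · -- large `x`
    have hempty : (Ioc x (2 * x)).filter (fun m => 2 * m + 1 < n ∧ (Sol5 m n = ∅ ∨
        (12 * m ≤ n ∧ ((Sol5 m n).card : ℝ) < n / L ^ 5))) = ∅ := by
      classical
      rw [filter_eq_empty_iff]
      rintro m hm ⟨hm1, hm2⟩
      rw [mem_Ioc] at hm
      have hxm : (x : ℝ) ≤ m := by exact_mod_cast hm.1.le
      obtain ⟨P, hP1, hP2, hP3⟩ := hT4 n m e5 (hbig.trans hxm) hm1
      have hsub : P ⊆ Sol5 m n := by
        intro p hp
        obtain ⟨a1, a2, a3, a4⟩ := hP2 p hp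
        unfold Sol5
        rw [mem_filter, mem_range]
        exact ⟨a2, a1, a3, a4⟩
      rcases hm2 with h | ⟨h, h'⟩
      · rw [h, subset_empty] at hsub
        exact hP1.ne_empty hsub
      · have h5 := hP3 h
        have h6 : (P.card : ℝ) ≤ (Sol5 m n).card := by exact_mod_cast card_le_card hsub
        linarith
    rw [hempty]
    simpa using hRHS
  · -- small `x`
    have hexp : (1 / 4 + 1 / 20 : ℝ) = 3 / 10 := by norm_num
    rw [hexp] at hsmall
    have h64 : 64 * x ≤ n := by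
      have : (64 : ℝ) * x ≤ n := by linarith
      exact_mod_cast this
    set K : ℕ := n / (32 * x) with hK
    have hx32 : 0 < 32 * x := by omega
    have hK2 : 2 ≤ K := by
      rw [hK, Nat.le_div_iff_mul_le hx32]
      omega
    have hKn : K ≤ n := Nat.div_le_self _ _
    have hKx : 32 * (x * K) ≤ n := by
      have := Nat.mul_div_le n (32 * x)
      calc 32 * (x * K) = 32 * x * K := by ring
        _ ≤ n := this
    have hKx' : n ≤ 64 * (x * K) := by
      have h5 : n < 32 * x * (K + 1) := Nat.lt_mul_div_succ n hx32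
      have h6 : 32 * x * (K + 1) ≤ 64 * (x * K) := by
        calc 32 * x * (K + 1) ≤ 32 * x * (K + K) := Nat.mul_le_mul_left _ (by omega)
          _ = 64 * (x * K) := by ring
      omega
    have hK0 : (0 : ℝ) < K := by exact_mod_cast (by omega : 0 < K)
    have hKx'R : (n : ℝ) ≤ 64 * (x * K) := by exact_mod_cast hKx'
    obtain ⟨S, hS1, hS2⟩ := hQK K hK2
    have hS2' : c₀ * K / (8 * L ^ 3) ≤ (S.card : ℝ) := by
      refine le_trans ?_ hS2
      have h5 : Real.log K ≤ L := Real.log_le_log hK0 (by exact_mod_cast hKn)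
      have h5' : 0 ≤ Real.log K := Real.log_natCast_nonneg K
      have h6 : (1 + Real.log K) ^ 3 ≤ (2 * L) ^ 3 := pow_le_pow_left₀ (by linarith) (by linarith) 3
      have h7 : (2 * L) ^ 3 = 8 * L ^ 3 := by ring
      rw [h7] at h6
      exact div_le_div_of_nonneg_left (by positivity) (by positivity) h6
    have hlogK := fin_log (by omega : 1 ≤ K) hKn (by linarith : 2 ≤ L)
    have hbigS : 4 * K / L ^ 4 ≤ (S.card : ℝ) := by
      refine le_trans ?_ hS2'
      rw [div_le_iff₀ hc₀] at hLc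
      rw [div_le_div_iff₀ (by positivity) (by positivity)]
      calc 4 * (K : ℝ) * (8 * L ^ 3) = 32 * (K * L ^ 3) := by ring
        _ ≤ L * c₀ * (K * L ^ 3) := mul_le_mul_of_nonneg_right hLc (by positivity)
        _ = c₀ * K * L ^ 4 := by ring
    have hS12 : ∀ q ∈ S, 2 ≤ q ∧ q ≤ K := fun q hq =>
      ⟨(hS1 q hq).2.1.two_le, (hS1 q hq).1⟩
    have hgood := fin_good hS12 hL0 hlogK (by omega) hbigS
    set G := (range (Nat.log 2 K + 1)).filter (fun j =>
      ((2 ^ j : ℕ) : ℝ) ≤ L ^ 5 * (fin_S S j).card ∧ (K : ℝ) ≤ L ^ 5 * ((2 ^ j : ℕ) : ℝ)) with hG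
    set I := (range (Nat.log 2 (2 * x) + 1)).filter (fun i => L ^ C' ≤ ((2 ^ i : ℕ) : ℝ)) with hI
    set E : ℕ → ℕ → Finset ℕ := fun j i => (Ioc x (2 * x)).filter (fun m => 1 ≤ om (2 ^ i) m ∧
      ((SolQ (fin_S S j) m n).card : ℝ) < c * (fin_S S j).card * x / L) with hE
    have hEcard : ∀ j ∈ G, ∀ i ∈ I, ((E j i).card : ℝ) ≤ x / L ^ (A + 3) := by
      intro j hj i hi
      rw [hG, mem_filter, mem_range] at hj
      obtain ⟨hj1, hj2, hj3⟩ := hj
      rw [hI, mem_filter, mem_range] at hi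
      obtain ⟨hi1, hi2⟩ := hi
      have h5 : 2 ^ j ≤ K :=
        (Nat.pow_le_pow_right (by norm_num) (by omega : j ≤ Nat.log 2 K)).trans
          (Nat.pow_log_le_self 2 (by omega))
      have h6 : 2 ^ i ≤ 2 * x :=
        (Nat.pow_le_pow_right (by norm_num) (by omega : i ≤ Nat.log 2 (2 * x))).trans
          (Nat.pow_log_le_self 2 (by omega))
      refine hkey n e4 x (2 ^ j) (2 ^ i) (fin_S S j)
        (fin_S_sub (fun q hq => (hS12 q hq).1) j) ?_ ?_ ?_ ?_ hi2 h6
      · refine hj2.trans (mul_le_mul_of_nonneg_right ?_ (Nat.cast_nonneg _))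
        exact pow_le_pow_right₀ (by linarith) (by norm_num)
      · calc 16 * (x * 2 ^ j) ≤ 16 * (x * K) :=
              Nat.mul_le_mul_left _ (Nat.mul_le_mul_left _ h5)
          _ ≤ n := by omega
      · calc (n : ℝ) ≤ 64 * (x * K) := hKx'R
          _ ≤ 64 * (x * (L ^ 5 * ((2 ^ j : ℕ) : ℝ))) := by
              refine mul_le_mul_of_nonneg_left ?_ (by norm_num)
              exact mul_le_mul_of_nonneg_left hj3 hx0.le
          _ ≤ L * (x * (L ^ 5 * ((2 ^ j : ℕ) : ℝ))) :=
              mul_le_mul_of_nonneg_right hL64 (by positivity)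
          _ = L ^ 6 * (x * ((2 ^ j : ℕ) : ℝ)) := by ring
      · refine hsmall.le.trans ?_
        exact Real.rpow_le_rpow_of_exponent_le hn1.le (by norm_num)
    set y : ℕ := ⌊4 * L ^ C'⌋₊ with hy
    have hLC1 : 1 ≤ L ^ C' := one_le_pow₀ (by linarith)
    have hy2 : 2 ≤ y := by
      rw [hy]
      refine Nat.le_floor ?_
      push_cast
      linarith
    have hsub : (Ioc x (2 * x)).filter (fun m => 2 * m + 1 < n ∧ (Sol5 m n = ∅ ∨
        (12 * m ≤ n ∧ ((Sol5 m n).card : ℝ) < n / L ^ 5))) ⊆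
        (G.biUnion fun j => I.biUnion fun i => E j i) ∪
          (Ioc x (2 * x)).filter (fun m => ∀ p ∈ m.primeFactors, p ≤ y) := by
      classical
      intro m hm
      rw [mem_filter] at hm
      obtain ⟨hm1, -, hm3⟩ := hm
      rw [mem_union]
      by_contra hcon
      rw [not_or] at hcon
      obtain ⟨hcE, hcS⟩ := hcon
      rw [mem_filter, not_and] at hcS
      have h5 := hcS hm1
      push Not at h5
      obtain ⟨p, hp1, hp2⟩ := h5
      have hpp := Nat.prime_of_mem_primeFactors hp1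
      have hpm := Nat.dvd_of_mem_primeFactors hp1
      rw [mem_Ioc] at hm1
      have hple : p ≤ 2 * x := (Nat.le_of_dvd (by omega) hpm).trans hm1.2
      obtain ⟨q1, q2⟩ := fin_pos hpp.two_le
      set i := Nat.log 2 (p - 1) with hi
      have hpR : 4 * L ^ C' < p := (Nat.floor_lt (by positivity)).1 hp2
      have hiI : i ∈ I := by
        rw [hI, mem_filter, mem_range]
        constructor
        · have : i ≤ Nat.log 2 (2 * x) := Nat.log_mono_right (by omega)
          omega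
        · have h6 : (p : ℝ) ≤ 2 * ((2 ^ i : ℕ) : ℝ) := by exact_mod_cast q2
          linarith
      have hom : 1 ≤ om (2 ^ i) m := by
        unfold om
        rw [Nat.succ_le_iff, card_pos]
        exact ⟨p, mem_filter.2 ⟨mem_Ioc.2 ⟨q1, q2⟩, hpp, hpm⟩⟩
      have hall : ∀ j ∈ G, c * (fin_S S j).card * x / L ≤
          ((SolQ (fin_S S j) m n).card : ℝ) := by
        intro j hj
        by_contra hc2
        rw [not_le] at hc2
        apply hcE
        rw [mem_biUnion]
        refine ⟨j, hj, ?_⟩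
        rw [mem_biUnion]
        refine ⟨i, hiI, ?_⟩
        rw [hE]
        exact mem_filter.2 ⟨mem_Ioc.2 hm1, hom, hc2⟩
      have hcard : (n : ℝ) / L ^ 5 ≤ (Sol5 m n).card := by
        have h6 := fin_Sol5_card (fun q hq => (hS1 q hq).2) G m n
        have h7 : (∑ j ∈ G, ((SolQ (fin_S S j) m n).card : ℝ)) ≤ ((Sol5 m n).card : ℝ) := by
          exact_mod_cast h6
        refine le_trans ?_ ((sum_le_sum hall).trans h7)
        have h8 : ∑ j ∈ G, c * ((fin_S S j).card : ℝ) * x / L =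
            c * x / L * ∑ j ∈ G, ((fin_S S j).card : ℝ) := by
          rw [mul_sum]
          exact sum_congr rfl fun j _ => by ring
        rw [h8]
        calc (n : ℝ) / L ^ 5 ≤ c * c₀ * n / (1024 * L ^ 4) := by
              rw [div_le_iff₀ (by positivity)] at hLcc
              rw [div_le_div_iff₀ (by positivity) (by positivity)]
              calc (n : ℝ) * (1024 * L ^ 4) = 1024 * (n * L ^ 4) := by ring
                _ ≤ L * (c * c₀) * (n * L ^ 4) :=
                    mul_le_mul_of_nonneg_right hLcc (by positivity)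
                _ = c * c₀ * n * L ^ 5 := by ring
          _ ≤ c * c₀ * (64 * (x * K)) / (1024 * L ^ 4) := by
              refine div_le_div_of_nonneg_right ?_ (by positivity)
              exact mul_le_mul_of_nonneg_left hKx'R (by positivity)
          _ = c * x / L * ((c₀ * K / (8 * L ^ 3)) / 2) := by
              field_simp
              ring
          _ ≤ c * x / L * ((S.card : ℝ) / 2) := by
              refine mul_le_mul_of_nonneg_left ?_ (by positivity)
              exact div_le_div_of_nonneg_right hS2' (by norm_num)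
          _ ≤ _ := mul_le_mul_of_nonneg_left hgood (by positivity)
      rcases hm3 with h | ⟨-, h'⟩
      · rw [h, card_empty, Nat.cast_zero] at hcard
        have : 0 < (n : ℝ) / L ^ 5 := by positivity
        linarith
      · linarith
    have hcard1 : ((G.biUnion fun j => I.biUnion fun i => E j i).card : ℝ) ≤
        (2 * L) * ((2 * L) * (x / L ^ (A + 3))) := by
      have hIc : ((I.card : ℕ) : ℝ) ≤ 2 * L := by
        have h5 := fin_log (by omega : 1 ≤ 2 * x) (by omega : 2 * x ≤ n) (by linarith : 2 ≤ L)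
        refine le_trans ?_ h5
        have h6 := card_filter_le (range (Nat.log 2 (2 * x) + 1))
          (fun i => L ^ C' ≤ ((2 ^ i : ℕ) : ℝ))
        rw [card_range] at h6
        exact_mod_cast h6
      have hGc : ((G.card : ℕ) : ℝ) ≤ 2 * L := by
        refine le_trans ?_ hlogK
        have h6 := card_filter_le (range (Nat.log 2 K + 1)) (fun j =>
          ((2 ^ j : ℕ) : ℝ) ≤ L ^ 5 * (fin_S S j).card ∧ (K : ℝ) ≤ L ^ 5 * ((2 ^ j : ℕ) : ℝ))
        rw [card_range] at h6
        exact_mod_cast h6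
      have h5 : (G.biUnion fun j => I.biUnion fun i => E j i).card ≤
          ∑ j ∈ G, ∑ i ∈ I, (E j i).card :=
        card_biUnion_le.trans (sum_le_sum fun j _ => card_biUnion_le)
      have h6 : ((G.biUnion fun j => I.biUnion fun i => E j i).card : ℝ) ≤
          ∑ j ∈ G, ∑ i ∈ I, ((E j i).card : ℝ) := by exact_mod_cast h5
      refine h6.trans ?_
      have h7 : ∀ j ∈ G, ∑ i ∈ I, ((E j i).card : ℝ) ≤ (2 * L) * (x / L ^ (A + 3)) := by
        intro j hj
        refine (sum_le_card_nsmul _ _ _ (hEcard j hj)).trans ?_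
        rw [nsmul_eq_mul]
        exact mul_le_mul_of_nonneg_right hIc (by positivity)
      refine (sum_le_card_nsmul _ _ _ h7).trans ?_
      rw [nsmul_eq_mul]
      exact mul_le_mul_of_nonneg_right hGc (by positivity)
    have hxn : x ≤ n := by omega
    have hlxn : Real.log x ≤ L := Real.log_le_log hx0 (by exact_mod_cast hxn)
    have hcard2 : (2 * L) * ((2 * L) * (x / L ^ (A + 3))) ≤ x * (LL / Real.log x) ^ A := by
      have h5 : 1 / L ≤ LL / Real.log x := by
        rw [div_le_div_iff₀ hL0 hlx]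
        nlinarith
      have h6 : (1 / L) ^ A ≤ (LL / Real.log x) ^ A := pow_le_pow_left₀ (by positivity) h5 A
      have h7 : (2 * L) * ((2 * L) * (x / L ^ (A + 3))) = x * ((1 / L) ^ A * (4 / L)) := by
        rw [one_div, inv_pow]
        rw [pow_add]
        field_simp
        ring
      rw [h7]
      refine mul_le_mul_of_nonneg_left ?_ hx0.le
      calc (1 / L) ^ A * (4 / L) ≤ (1 / L) ^ A * 1 := by
            refine mul_le_mul_of_nonneg_left ?_ (by positivity)
            rw [div_le_one hL0]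
            linarith
        _ = (1 / L) ^ A := mul_one _
        _ ≤ _ := h6
    have hcard3 : (((Ioc x (2 * x)).filter (fun m => ∀ p ∈ m.primeFactors, p ≤ y)).card : ℝ) ≤
        Cs * (C' + 2) ^ A * x * (LL / Real.log x) ^ A := by
      refine (hsmo x y hx hy2).trans ?_
      have hy0 : (0 : ℝ) < y := by exact_mod_cast (by omega : 0 < y)
      have h5 : Real.log y ≤ (C' + 2) * LL := by
        have h6 : (y : ℝ) ≤ 4 * L ^ C' := Nat.floor_le (by positivity)
        have h7 : Real.log y ≤ Real.log (4 * L ^ C') := Real.log_le_log hy0 h6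
        rw [Real.log_mul (by norm_num) (by positivity), Real.log_pow] at h7
        have h8 : Real.log 4 ≤ 2 := by
          have : Real.log 4 = 2 * Real.log 2 := by
            rw [show (4 : ℝ) = 2 ^ 2 by norm_num, Real.log_pow]
            push_cast
            ring
          rw [this]
          have := Real.log_two_lt_d9
          linarith
        have h9 : (C' + 2 : ℝ) * LL = C' * LL + 2 * LL := by ring
        rw [h9]
        linarith
      have h6 : Real.log y / Real.log x ≤ (C' + 2) * (LL / Real.log x) := by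
        rw [← mul_div_assoc]
        exact div_le_div_of_nonneg_right h5 hlx.le
      have h7 : 0 ≤ Real.log y / Real.log x :=
        div_nonneg (Real.log_natCast_nonneg y) hlx.le
      calc Cs * x * (Real.log y / Real.log x) ^ A ≤
          Cs * x * ((C' + 2) * (LL / Real.log x)) ^ A :=
            mul_le_mul_of_nonneg_left (pow_le_pow_left₀ h7 h6 A) (by positivity)
        _ = _ := by
            rw [mul_pow]
            ring
    have hfin : (((Ioc x (2 * x)).filter (fun m => 2 * m + 1 < n ∧ (Sol5 m n = ∅ ∨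
        (12 * m ≤ n ∧ ((Sol5 m n).card : ℝ) < n / L ^ 5)))).card : ℝ) ≤
        ((G.biUnion fun j => I.biUnion fun i => E j i).card : ℝ) +
          (((Ioc x (2 * x)).filter (fun m => ∀ p ∈ m.primeFactors, p ≤ y)).card : ℝ) := by
      have h5 := (card_le_card hsub).trans (card_union_le _ _)
      exact_mod_cast h5
    refine hfin.trans ((add_le_add (hcard1.trans hcard2) hcard3).trans (le_of_eq ?_))
    ring

end Pool.Agent.EVN
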