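import Pool.Agent.EVN.Stmts

set_option autoImplicit false
set_option linter.unusedVariables false

/-!
# EVN: the kernel (KER)
-/

namespace Pool.Agent.EVN

open Finset Filter MeasureTheory
open Pool.Agent.SI (nit)

theorem ker_nit_norm (t : ℝ) (n : ℕ) : ‖nit t n‖ = 1 := Complex.norm_exp_ofReal_mul_I _

theorem ker_nit_mul (t : ℝ) {d m : ℕ} (hd : 1 ≤ d) (hm : 1 ≤ m) :
    nit t (d * m) = nit t d * nit t m := by
  unfold Pool.Agent.SI.nit
  rw [← Complex.exp_add]
  congr 1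
  have h1 : (d : ℝ) ≠ 0 := by exact_mod_cast (by omega : d ≠ 0)
  have h2 : (m : ℝ) ≠ 0 := by exact_mod_cast (by omega : m ≠ 0)
  push_cast
  rw [Real.log_mul h1 h2]
  push_cast
  ring

theorem ker_cont (S : Finset ℕ) : Continuous (fun u : ℝ => ∑ p ∈ S, nit u p) := by
  unfold Pool.Agent.SI.nit
  fun_prop

/-- sum over the primes in `(a, b]` -/
noncomputable def kerS (a b : ℕ) (u : ℝ) : ℂ := ∑ p ∈ (Ioc a b).filter Nat.Prime, nit u p

theorem ker_add {a b c : ℕ} (hab : a ≤ b) (hbc : b ≤ c) (u : ℝ) :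
    kerS a c u = kerS a b u + kerS b c u := by
  unfold kerS
  rw [sum_filter, sum_filter, sum_filter, sum_Ioc_consecutive _ hab hbc]

theorem ker_card {a b : ℕ} (u : ℝ) : ‖kerS a b u‖ ≤ ((b - a : ℕ) : ℝ) := by
  unfold kerS
  refine (norm_sum_le _ _).trans ?_
  simp only [ker_nit_norm, sum_const, nsmul_eq_mul, mul_one]
  have h := card_filter_le (Ioc a b) Nat.Prime
  rw [Nat.card_Ioc] at h
  exact_mod_cast h

/-- division points -/
def kerB (P H h : ℕ) : ℕ := P + h * P / H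

theorem ker_b_zero (P H : ℕ) : kerB P H 0 = P := by simp [kerB]

theorem ker_b_top (P : ℕ) {H : ℕ} (hH : 0 < H) : kerB P H H = 2 * P := by
  unfold kerB
  rw [Nat.mul_div_cancel_left _ hH]
  ring

theorem ker_b_le (P H h : ℕ) : P ≤ kerB P H h := Nat.le_add_right _ _

theorem ker_b_mono (P H : ℕ) : Monotone (kerB P H) := by
  intro a b hab
  unfold kerB
  exact Nat.add_le_add_left (Nat.div_le_div_right (Nat.mul_le_mul_right _ hab)) _

theorem ker_b_step (P : ℕ) {H : ℕ} (hH : 0 < H) (h : ℕ) :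
    ((kerB P H (h + 1) : ℕ) : ℝ) ≤ kerB P H h + (P / H + 1) := by
  unfold kerB
  have hH' : (0 : ℝ) < H := by exact_mod_cast hH
  have h1 : (((h + 1) * P / H : ℕ) : ℝ) ≤ ((h + 1) * P : ℕ) / H := Nat.cast_div_le
  have h2 : ((h * P : ℕ) : ℝ) < H * ((h * P / H : ℕ) + 1) := by
    exact_mod_cast Nat.lt_mul_div_succ (h * P) hH
  have h3 : ((h * P : ℕ) : ℝ) / H < ((h * P / H : ℕ) : ℝ) + 1 := by
    rw [div_lt_iff₀ hH']
    linarith
  push_cast at h1 h2 h3 ⊢
  have h4 : ((h : ℝ) + 1) * P / H = h * P / H + P / H := by ring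
  rw [h4] at h1
  linarith

/-- initial intervals -/
theorem ker_pre {P H : ℕ} (hH : 0 < H) (u : ℝ) {k : ℕ} (hk : k ≤ H) :
    ∀ x ≤ kerB P H k, ‖kerS P x u‖ ≤
      ∑ h ∈ range H, ‖kerS (kerB P H h) (kerB P H (h + 1)) u‖ + (P / H + 1) := by
  have hpos : (0 : ℝ) ≤ P / H + 1 := by positivity
  have hfull : ∀ k, kerS P (kerB P H k) u =
      ∑ h ∈ range k, kerS (kerB P H h) (kerB P H (h + 1)) u := by
    intro k
    induction k with
    | zero => simp [ker_b_zero, kerS]
    | succ k ih =>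
      rw [sum_range_succ, ← ih]
      exact ker_add (ker_b_le P H k) (ker_b_mono P H (Nat.le_succ k)) u
  induction k with
  | zero =>
    intro x hx
    rw [ker_b_zero] at hx
    have h1 : kerS P x u = 0 := by
      unfold kerS
      rw [Ioc_eq_empty (by omega)]
      simp
    rw [h1, norm_zero]
    have h2 : (0 : ℝ) ≤ ∑ h ∈ range H, ‖kerS (kerB P H h) (kerB P H (h + 1)) u‖ :=
      sum_nonneg fun _ _ => norm_nonneg _
    linarith
  | succ k ih =>
    intro x hx
    by_cases hxk : x ≤ kerB P H k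
    · exact ih (by omega) x hxk
    · push Not at hxk
      have hP : P ≤ kerB P H k := ker_b_le P H k
      rw [ker_add hP hxk.le u]
      refine (norm_add_le _ _).trans (add_le_add ?_ ?_)
      · rw [hfull]
        refine (norm_sum_le _ _).trans ?_
        exact sum_le_sum_of_subset_of_nonneg (range_subset_range.mpr (by omega))
          fun _ _ _ => norm_nonneg _
      · refine (ker_card u).trans ?_
        rw [Nat.cast_sub hxk.le]
        have h1 : (x : ℝ) ≤ kerB P H (k + 1) := by exact_mod_cast hx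
        have h2 := ker_b_step P hH k
        linarith

/-- any interval -/
theorem ker_int {P H : ℕ} (hH : 0 < H) (u : ℝ) {a b : ℕ} (hab : a ≤ b) :
    ‖∑ p ∈ (Ioc P (2 * P)).filter (fun p => p.Prime ∧ a < p ∧ p ≤ b), nit u p‖ ≤
      2 * (∑ h ∈ range H, ‖kerS (kerB P H h) (kerB P H (h + 1)) u‖ + (P / H + 1)) := by
  have h0 := ker_pre (P := P) hH u (le_refl H)
  rw [ker_b_top P hH] at h0
  have h1 := h0 (min (2 * P) b) (min_le_left _ _)
  have h2 := h0 (min (2 * P) a) (min_le_left _ _)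
  have h3 : ∑ p ∈ (Ioc P (2 * P)).filter (fun p => p.Prime ∧ a < p ∧ p ≤ b), nit u p =
      kerS P (min (2 * P) b) u - kerS P (min (2 * P) a) u := by
    rw [eq_sub_iff_add_eq, add_comm]
    unfold kerS
    rw [← sum_union]
    · refine sum_congr ?_ fun _ _ => rfl
      ext p
      simp only [mem_union, mem_filter, mem_Ioc, le_min_iff]
      constructor
      · rintro (⟨⟨h1, h2, h3⟩, h4⟩ | ⟨⟨h1, h2⟩, h3, h4, h5⟩)
        · exact ⟨⟨h1, h2, h3.trans hab⟩, h4⟩
        · exact ⟨⟨h1, h2, h5⟩, h3⟩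
      · rintro ⟨⟨h1, h2, h3⟩, h4⟩
        by_cases h5 : p ≤ a
        · exact Or.inl ⟨⟨h1, h2, h5⟩, h4⟩
        · exact Or.inr ⟨⟨h1, h2⟩, h4, by omega, h3⟩
    · rw [disjoint_left]
      intro p hp hp'
      simp only [mem_filter, mem_Ioc, le_min_iff] at hp hp'
      omega
  rw [h3]
  refine (norm_sub_le _ _).trans ?_
  linarith

/-- the sum over `m = m' p` -/
theorem ker_sum {M P : ℕ} (hP : 0 < P) (u : ℝ) :
    ∑ m ∈ Ioc M (2 * M), ((om P m : ℝ) : ℂ) * nit u m =
      ∑ k ∈ Icc 1 (2 * M / P), nit u k *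
        ∑ p ∈ (Ioc P (2 * P)).filter (fun p => p.Prime ∧ M / k < p ∧ p ≤ 2 * M / k), nit u p := by
  have h1 : ∀ m ∈ Ioc M (2 * M), ((om P m : ℝ) : ℂ) * nit u m =
      ∑ p ∈ (Ioc P (2 * P)).filter Nat.Prime, if p ∣ m then nit u m else 0 := by
    intro m hm
    rw [← sum_filter, filter_filter, sum_const, nsmul_eq_mul]
    unfold om
    push_cast
    rfl
  rw [sum_congr rfl h1]
  have h2 : ∀ k ∈ Icc 1 (2 * M / P), nit u k *
      ∑ p ∈ (Ioc P (2 * P)).filter (fun p => p.Prime ∧ M / k < p ∧ p ≤ 2 * M / k), nit u p =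
      ∑ p ∈ (Ioc P (2 * P)).filter Nat.Prime,
        if M / k < p ∧ p ≤ 2 * M / k then nit u k * nit u p else 0 := by
    intro k hk
    rw [← sum_filter, filter_filter, mul_sum]
  rw [sum_congr rfl h2, sum_comm]
  conv_rhs => rw [sum_comm]
  refine sum_congr rfl fun p hp => ?_
  rw [mem_filter, mem_Ioc] at hp
  obtain ⟨⟨hp1, hp2⟩, hp3⟩ := hp
  rw [← sum_filter, ← sum_filter]
  refine sum_nbij' (fun m => m / p) (fun k => k * p) ?_ ?_ ?_ ?_ ?_
  · intro m hm
    simp only [mem_filter, mem_Ioc, mem_Icc] at hm ⊢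
    obtain ⟨⟨hm1, hm2⟩, ⟨k, rfl⟩⟩ := hm
    rw [Nat.mul_div_cancel_left _ (by omega)]
    have hk : 0 < k := by
      rcases Nat.eq_zero_or_pos k with h | h
      · subst h
        omega
      · exact h
    refine ⟨⟨hk, ?_⟩, ?_, ?_⟩
    · rw [Nat.le_div_iff_mul_le hP]
      calc k * P ≤ k * p := Nat.mul_le_mul_left _ hp1.le
        _ = p * k := mul_comm _ _
        _ ≤ 2 * M := hm2
    · rw [Nat.div_lt_iff_lt_mul hk]
      exact hm1
    · rw [Nat.le_div_iff_mul_le hk]
      exact hm2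
  · intro k hk
    simp only [mem_filter, mem_Ioc, mem_Icc] at hk ⊢
    obtain ⟨⟨hk1, hk2⟩, hk3, hk4⟩ := hk
    rw [Nat.div_lt_iff_lt_mul hk1] at hk3
    rw [Nat.le_div_iff_mul_le hk1] at hk4
    rw [mul_comm] at hk3 hk4
    exact ⟨⟨hk3, hk4⟩, Dvd.intro_left k rfl⟩
  · intro m hm
    simp only [mem_filter, mem_Ioc] at hm
    exact Nat.div_mul_cancel hm.2
  · intro k hk
    exact Nat.mul_div_cancel k (by omega)
  · intro m hm
    simp only [mem_filter, mem_Ioc] at hm
    obtain ⟨⟨hm1, hm2⟩, ⟨k, rfl⟩⟩ := hm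
    rw [Nat.mul_div_cancel_left _ (by omega)]
    have hk : 0 < k := by
      rcases Nat.eq_zero_or_pos k with h | h
      · subst h
        omega
      · exact h
    rw [ker_nit_mul u (by omega) hk, mul_comm]

theorem thm_Ker (hSpa : St_Spa) : St_Ker := by
  intro A ε hε
  obtain ⟨C₁, n₁, hS⟩ := hSpa (2 * A + 2) (ε / 2) (by positivity)
  have hlog : ∀ᶠ n : ℕ in atTop, 2 * Real.log n ^ (A + 1) ≤ (n : ℝ) ^ (ε / 2) := by
    have h1 := (isLittleO_log_rpow_rpow_atTop ((A + 1 : ℕ) : ℝ) (s := ε / 2)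
      (by positivity)).bound (c := 1 / 2) (by norm_num)
    have h2 := tendsto_natCast_atTop_atTop (R := ℝ) |>.eventually h1
    filter_upwards [h2, eventually_ge_atTop 1] with n hn hn1
    rw [Real.rpow_natCast, Real.norm_eq_abs, Real.norm_eq_abs] at hn
    have h3 : (0 : ℝ) ≤ (n : ℝ) ^ (ε / 2) := by positivity
    rw [abs_of_nonneg h3] at hn
    have h4 := le_abs_self (Real.log n ^ (A + 1))
    linarith
  have hbig : ∀ᶠ n : ℕ in atTop, (16 : ℝ) ≤ Real.log n :=
    (Real.tendsto_log_atTop.comp tendsto_natCast_atTop_atTop).eventually_ge_atTop 16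
  obtain ⟨n₂, hn₂⟩ := eventually_atTop.mp (hlog.and hbig)
  refine ⟨max C₁ (A + 1), max n₁ n₂, ?_⟩
  intro n hn M P hM hP hPM
  obtain ⟨hl1, hL⟩ := hn₂ n ((le_max_right _ _).trans hn)
  set L := Real.log n with hLdef
  have hL0 : 0 < L := by linarith
  have hL1 : 1 ≤ L := by linarith
  have hPC : L ^ C₁ ≤ P := (pow_le_pow_right₀ hL1 (le_max_left _ _)).trans hP
  have hPA : L ^ (A + 1) ≤ P := (pow_le_pow_right₀ hL1 (le_max_right _ _)).trans hP
  have hLA : 0 < L ^ (A + 1) := by positivity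
  have hP0 : (0 : ℝ) < P := hLA.trans_le hPA
  have hP0' : 0 < P := by exact_mod_cast hP0
  set H := ⌈L ^ (A + 1)⌉₊ with hHdef
  have hH0 : 0 < H := Nat.ceil_pos.mpr hLA
  have hH1 : L ^ (A + 1) ≤ H := Nat.le_ceil _
  have hH2 : (H : ℝ) ≤ 2 * L ^ (A + 1) := by
    have h1 := (Nat.ceil_lt_add_one hLA.le).le
    have h2 : 1 ≤ L ^ (A + 1) := one_le_pow₀ hL1
    linarith
  have hH0' : (0 : ℝ) < H := by exact_mod_cast hH0
  set V : ℕ → Set ℝ := fun h => {u : ℝ | |u| ≤ (n : ℝ) ^ 2 ∧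
    P / L ^ (2 * A + 2) < ‖kerS (kerB P H h) (kerB P H (h + 1)) u‖} with hV
  have hVm : ∀ h, MeasurableSet (V h) := by
    intro h
    have hc := ker_cont ((Ioc (kerB P H h) (kerB P H (h + 1))).filter Nat.Prime)
    refine MeasurableSet.inter ?_ ?_
    · exact measurableSet_le continuous_abs.measurable measurable_const
    · exact measurableSet_lt measurable_const hc.norm.measurable
  have hVv : ∀ h ∈ range H, volume (V h) ≤ ENNReal.ofReal ((n : ℝ) ^ (ε / 2)) := by
    intro h hh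
    rw [mem_range] at hh
    refine hS n ((le_max_left _ _).trans hn) P hPC (hPM.trans (by omega)) _ ?_
    intro p hp
    rw [mem_filter, mem_Ioc] at hp
    obtain ⟨⟨h1, h2⟩, h3⟩ := hp
    refine ⟨h3, ?_, ?_⟩
    · have h4 := ker_b_le P H h
      omega
    · have h4 := ker_b_mono P H (show h + 1 ≤ H by omega)
      rw [ker_b_top P hH0] at h4
      omega
  refine ⟨⋃ h ∈ range H, V h, ?_, ?_, ?_⟩
  · exact Finset.measurableSet_biUnion _ fun h _ => hVm h
  · refine (measure_biUnion_finset_le _ _).trans ?_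
    refine (sum_le_sum hVv).trans ?_
    rw [sum_const, card_range, nsmul_eq_mul]
    have h1 : (H : ENNReal) = ENNReal.ofReal (H : ℝ) := (ENNReal.ofReal_natCast H).symm
    rw [h1, ← ENNReal.ofReal_mul hH0'.le]
    refine ENNReal.ofReal_le_ofReal ?_
    have hn0 : (0 : ℝ) < n := by
      rcases Nat.eq_zero_or_pos n with h | h
      · rw [hLdef, h] at hL
        norm_num at hL
      · exact_mod_cast h
    have h2 : (n : ℝ) ^ ε = (n : ℝ) ^ (ε / 2) * (n : ℝ) ^ (ε / 2) := by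
      rw [← Real.rpow_add hn0]
      congr 1
      ring
    rw [h2]
    exact mul_le_mul_of_nonneg_right (hH2.trans hl1) (by positivity)
  · intro u hu huU
    rw [ker_sum hP0' u]
    have hK : ∀ h ∈ range H, ‖kerS (kerB P H h) (kerB P H (h + 1)) u‖ ≤ P / L ^ (2 * A + 2) := by
      intro h hh
      by_contra hc
      push Not at hc
      exact huU (Set.mem_biUnion hh ⟨hu, hc⟩)
    have hsum : ∑ h ∈ range H, ‖kerS (kerB P H h) (kerB P H (h + 1)) u‖ ≤
        H * (P / L ^ (2 * A + 2)) := by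
      refine (sum_le_sum hK).trans ?_
      rw [sum_const, card_range, nsmul_eq_mul]
    have hM0 : (0 : ℝ) ≤ M := Nat.cast_nonneg M
    have hterm : ∀ k ∈ Icc 1 (2 * M / P), ‖nit u k *
        ∑ p ∈ (Ioc P (2 * P)).filter (fun p => p.Prime ∧ M / k < p ∧ p ≤ 2 * M / k), nit u p‖ ≤
        2 * (H * (P / L ^ (2 * A + 2)) + (P / H + 1)) := by
      intro k hk
      rw [norm_mul, ker_nit_norm, one_mul]
      refine (ker_int hH0 u (Nat.div_le_div_right (by omega))).trans ?_
      linarith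
    refine (norm_sum_le _ _).trans ((sum_le_sum hterm).trans ?_)
    rw [sum_const, Nat.card_Icc, add_tsub_cancel_right, nsmul_eq_mul]
    have h1 : ((2 * M / P : ℕ) : ℝ) ≤ 2 * M / P := by
      have := Nat.cast_div_le (α := ℝ) (m := 2 * M) (n := P)
      push_cast at this
      exact this
    have h2 : (H : ℝ) * (P / L ^ (2 * A + 2)) ≤ 2 * (P / L ^ (A + 1)) := by
      have e1 : L ^ (2 * A + 2) = L ^ (A + 1) * L ^ (A + 1) := by ring
      rw [e1]
      calc (H : ℝ) * (P / (L ^ (A + 1) * L ^ (A + 1)))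
          ≤ (2 * L ^ (A + 1)) * (P / (L ^ (A + 1) * L ^ (A + 1))) :=
            mul_le_mul_of_nonneg_right hH2 (by positivity)
        _ = 2 * (P / L ^ (A + 1)) := by
            field_simp
    have h3 : (P : ℝ) / H ≤ P / L ^ (A + 1) := div_le_div_of_nonneg_left hP0.le hLA hH1
    have h4 : (1 : ℝ) ≤ P / L ^ (A + 1) := by
      rw [le_div_iff₀ hLA, one_mul]
      exact hPA
    calc ((2 * M / P : ℕ) : ℝ) * (2 * (H * (P / L ^ (2 * A + 2)) + (P / H + 1)))
        ≤ (2 * M / P) * (2 * (2 * (P / L ^ (A + 1)) + (P / L ^ (A + 1) + P / L ^ (A + 1)))) := by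
          refine mul_le_mul h1 ?_ (by positivity) (by positivity)
          linarith
      _ = 16 * M / L ^ (A + 1) := by
          field_simp
          ring
      _ ≤ M / L ^ A := by
          rw [div_le_div_iff₀ hLA (by positivity), pow_succ]
          have h5 : (0 : ℝ) ≤ M * L ^ A := by positivity
          nlinarith

end Pool.Agent.EVN
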