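import Pool.Agent.EVN.Stmts

set_option autoImplicit false

/-!
# EVN, KEY: the number of bad `m` in a dyadic interval
-/

namespace Pool.Agent.EVN

open Finset Filter MeasureTheory
open Pool.Agent.SI (nit DP IsW Wd)

lemma key_large (K : ℝ) (k : ℕ) : ∀ᶠ n : ℕ in atTop, K * Real.log n ^ k ≤ Real.sqrt n := by
  have h1 : (fun x : ℝ => Real.log x ^ (k : ℝ)) =o[atTop] fun x : ℝ => x ^ (1 / 2 : ℝ) :=
    isLittleO_log_rpow_rpow_atTop (k : ℝ) (by norm_num)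
  have h2 := h1.bound (show (0 : ℝ) < 1 / (|K| + 1) by positivity)
  have h3 := (tendsto_natCast_atTop_atTop (R := ℝ)).eventually h2
  filter_upwards [h3, eventually_ge_atTop 1] with n hn hn1
  have hn1' : (1 : ℝ) ≤ n := by exact_mod_cast hn1
  have hL : 0 ≤ Real.log n := Real.log_nonneg hn1'
  rw [Real.rpow_natCast, Real.norm_of_nonneg (pow_nonneg hL k),
    Real.norm_of_nonneg (by positivity), ← Real.sqrt_eq_rpow] at hn
  have hK : 0 < |K| + 1 := by positivity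
  have h4 : (|K| + 1) * Real.log n ^ k ≤ Real.sqrt n := by
    have := mul_le_mul_of_nonneg_left hn hK.le
    have e : (|K| + 1) * (1 / (|K| + 1) * Real.sqrt n) = Real.sqrt n := by
      field_simp
    rw [e] at this
    exact this
  have h5 : K * Real.log n ^ k ≤ (|K| + 1) * Real.log n ^ k :=
    mul_le_mul_of_nonneg_right (by linarith [le_abs_self K]) (pow_nonneg hL k)
  linarith

lemma key_log_large (K : ℝ) : ∀ᶠ n : ℕ in atTop, K ≤ Real.log n := by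
  have h := (Real.tendsto_log_atTop.comp (tendsto_natCast_atTop_atTop (R := ℝ)))
  exact h.eventually_ge_atTop K

lemma key_Tq_nonneg {w : ℝ → ℝ} (hw : IsW w) {d : ℝ} (hd : 0 ≤ d) (n X m q : ℕ) :
    0 ≤ Tq w d n X m q := by
  unfold Tq
  apply Finset.sum_nonneg
  intro x _
  apply mul_nonneg
  · unfold aL
    split_ifs
    · exact ArithmeticFunction.vonMangoldt_nonneg
    · exact le_refl _
  · unfold Wd
    exact div_nonneg (hw.nonneg _) hd

/-- most of the `q` have a large long average -/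
lemma key_low {Q : Finset ℕ} {R : ℕ} {T : ℕ → ℝ} {y b : ℝ} (hQ : Q ⊆ Ioc R (2 * R))
    (hy : 0 ≤ y) (hT : ∀ q, 0 ≤ T q)
    (hb : (((Ioc R (2 * R)).filter (fun q => T q < y)).card : ℝ) ≤ b)
    (hb2 : b ≤ Q.card / 2) : y * Q.card / 2 ≤ ∑ q ∈ Q, T q := by
  classical
  have h1 : ∑ q ∈ Q.filter (fun q => ¬ T q < y), T q ≤ ∑ q ∈ Q, T q :=
    Finset.sum_le_sum_of_subset_of_nonneg (Finset.filter_subset _ _) (fun q _ _ => hT q)
  have h2 : ((Q.filter (fun q => ¬ T q < y)).card : ℝ) * y ≤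
      ∑ q ∈ Q.filter (fun q => ¬ T q < y), T q := by
    have := Finset.card_nsmul_le_sum (Q.filter (fun q => ¬ T q < y)) T y (by
      intro q hq
      exact not_lt.mp (Finset.mem_filter.mp hq).2)
    simpa [nsmul_eq_mul] using this
  have h3 : (Q.filter (fun q => T q < y)).card + (Q.filter (fun q => ¬ T q < y)).card = Q.card :=
    Finset.card_filter_add_card_filter_not _
  have h4 : (Q.filter (fun q => T q < y)).card ≤ ((Ioc R (2 * R)).filter (fun q => T q < y)).card :=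
    Finset.card_le_card (Finset.filter_subset_filter _ hQ)
  have h5 : ((Q.filter (fun q => T q < y)).card : ℝ) ≤ Q.card / 2 := by
    have : ((Q.filter (fun q => T q < y)).card : ℝ) ≤
      (((Ioc R (2 * R)).filter (fun q => T q < y)).card : ℝ) := by exact_mod_cast h4
    linarith
  have h6 : ((Q.filter (fun q => T q < y)).card : ℝ) +
      ((Q.filter (fun q => ¬ T q < y)).card : ℝ) = Q.card := by exact_mod_cast h3
  have h7 : (Q.card : ℝ) / 2 ≤ ((Q.filter (fun q => ¬ T q < y)).card : ℝ) := by linarith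
  have h8 : (Q.card : ℝ) / 2 * y ≤ ((Q.filter (fun q => ¬ T q < y)).card : ℝ) * y :=
    mul_le_mul_of_nonneg_right h7 hy
  linarith

/-- one bad `m` -/
lemma key_one {c₁ W L X M R cQ S sn Dl Ds : ℝ} {C₀ : ℕ} (hc₁ : 0 < c₁) (hW : 0 < W) (hL : 2 ≤ L)
    (hM : 0 < M) (hR : 0 < R) (hX : X = M * R) (hQ : R ≤ L ^ C₀ * cQ)
    (hn : sn ^ 2 ≤ L ^ C₀ * X) (hsn : 0 ≤ sn)
    (hbig : 8 * W / c₁ * L ^ (2 * C₀ + 2) ≤ sn)
    (hS : S < c₁ / (8 * W) * cQ * M / L)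
    (hDl : c₁ * X * cQ / 2 ≤ Dl) (hDs : Ds ≤ W * R * L * (S + sn * L)) :
    (c₁ * X * R / (4 * L ^ C₀)) ^ 2 ≤ (Ds - Dl) ^ 2 := by
  have hL0 : 0 < L := by linarith
  have hLC : 0 < L ^ C₀ := pow_pos hL0 _
  have hXpos : 0 < X := by rw [hX]; positivity
  have hcQ : 0 < cQ := by
    by_contra h
    push Not at h
    have : L ^ C₀ * cQ ≤ 0 := mul_nonpos_of_nonneg_of_nonpos hLC.le h
    linarith
  have h1 : W * R * L * S ≤ c₁ * X * cQ / 8 := by
    have h11 : W * R * L * S ≤ W * R * L * (c₁ / (8 * W) * cQ * M / L) :=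
      mul_le_mul_of_nonneg_left hS.le (by positivity)
    have h12 : W * R * L * (c₁ / (8 * W) * cQ * M / L) = c₁ * X * cQ / 8 := by
      rw [hX]; field_simp
    linarith
  have h2 : W * R * L * (sn * L) ≤ c₁ * X * cQ / 8 := by
    -- `sn * (8 W L^(2C₀+2)) ≤ c₁ sn² ≤ c₁ L^C₀ X`
    have h21 : sn * (8 * W / c₁ * L ^ (2 * C₀ + 2)) ≤ L ^ C₀ * X := by
      have := mul_le_mul_of_nonneg_left hbig hsn
      calc _ ≤ sn * sn := this
        _ = sn ^ 2 := by ring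
        _ ≤ _ := hn
    have h22 : 8 * W * sn * L ^ (C₀ + 2) ≤ c₁ * X := by
      have e1 : sn * (8 * W / c₁ * L ^ (2 * C₀ + 2)) = (8 * W * sn * L ^ (C₀ + 2)) / c₁ * L ^ C₀ := by
        rw [show 2 * C₀ + 2 = (C₀ + 2) + C₀ by ring, pow_add]; ring
      rw [e1, mul_comm (L ^ C₀) X] at h21
      have h23 := le_of_mul_le_mul_right h21 hLC
      rw [div_le_iff₀ hc₁] at h23
      linarith
    have h24 : W * R * L * (sn * L) ≤ W * (L ^ C₀ * cQ) * L * (sn * L) := by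
      have : 0 ≤ W * L * (sn * L) := by positivity
      nlinarith
    have h25 : W * (L ^ C₀ * cQ) * L * (sn * L) = (8 * W * sn * L ^ (C₀ + 2)) * cQ / 8 := by
      rw [pow_add]; ring
    have h26 : (8 * W * sn * L ^ (C₀ + 2)) * cQ / 8 ≤ (c₁ * X) * cQ / 8 := by
      have := mul_le_mul_of_nonneg_right h22 hcQ.le
      linarith
    linarith
  have h3 : Ds ≤ c₁ * X * cQ / 4 := by
    have e : W * R * L * (S + sn * L) = W * R * L * S + W * R * L * (sn * L) := by ring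
    rw [e] at hDs
    linarith
  have h4 : c₁ * X * cQ / 4 ≤ Dl - Ds := by linarith
  have h5 : c₁ * X * R / (4 * L ^ C₀) ≤ c₁ * X * cQ / 4 := by
    rw [div_le_div_iff₀ (by positivity) (by norm_num)]
    have : c₁ * X * R ≤ c₁ * X * (L ^ C₀ * cQ) :=
      mul_le_mul_of_nonneg_left hQ (by positivity)
    nlinarith
  have h6 : 0 ≤ c₁ * X * R / (4 * L ^ C₀) := by positivity
  have h7 : (Ds - Dl) ^ 2 = (Dl - Ds) ^ 2 := by ring
  rw [h7]
  exact pow_le_pow_left₀ h6 (h5.trans h4) 2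

theorem thm_Key (h0 : Pool.Agent.SI.St_W) (h1 : St_VB) (h2 : St_Low) (h3 : St_Cnt) : St_Key := by
  classical
  obtain ⟨w, hw⟩ := h0
  obtain ⟨c₁, hc₁, hLow⟩ := h2 w hw
  obtain ⟨W, hW, nC, hCnt⟩ := h3 w hw
  refine ⟨c₁ / (8 * W), by positivity, ?_⟩
  intro A C₀
  obtain ⟨nL, hL⟩ := hLow (C₀ + 2) C₀
  obtain ⟨C', nV, hV⟩ := h1 w hw (A + 2 * C₀ + 1) C₀
  obtain ⟨nB, hB⟩ := Filter.eventually_atTop.mp ((key_large (8 * W / c₁) (2 * C₀ + 2)).and
    ((key_log_large (2 + 16 / c₁ ^ 2)).and (eventually_ge_atTop 1)))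
  refine ⟨C', max (max nL nC) (max nV nB), ?_⟩
  intro n hn M R P Q hQ hRQ hn16 hnX hMn hP hP2
  have hnL : nL ≤ n := le_trans (le_trans (le_max_left _ _) (le_max_left _ _)) hn
  have hnC : nC ≤ n := le_trans (le_trans (le_max_right _ _) (le_max_left _ _)) hn
  have hnV : nV ≤ n := le_trans (le_trans (le_max_left _ _) (le_max_right _ _)) hn
  have hnB : nB ≤ n := le_trans (le_trans (le_max_right _ _) (le_max_right _ _)) hn
  obtain ⟨hbig, hlog, hn1⟩ := hB n hnB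
  set L : ℝ := Real.log n with hLdef
  have hc2 : 0 < 16 / c₁ ^ 2 := by positivity
  have hL2 : 2 ≤ L := by linarith
  have hL0 : 0 < L := by linarith
  have hnpos : (0 : ℝ) < n := by exact_mod_cast hn1
  have hMR : 0 < M * R := by
    rcases Nat.eq_zero_or_pos (M * R) with h | h
    · exfalso
      have h' : ((M : ℝ) * R) = 0 := by exact_mod_cast h
      rw [h', mul_zero] at hnX
      linarith
    · exact h
  have hM1 : 0 < M := Nat.pos_of_mul_pos_right hMR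
  have hR1 : 0 < R := Nat.pos_of_mul_pos_left hMR
  have hM0 : (0 : ℝ) < M := by exact_mod_cast hM1
  have hR0 : (0 : ℝ) < R := by exact_mod_cast hR1
  have hVB := hV n hnV M R P Q hQ hn16 hnX hMn hP hP2
  set F := (Ioc M (2 * M)).filter (fun m => 1 ≤ om P m ∧ ((SolQ Q m n).card : ℝ) <
    c₁ / (8 * W) * Q.card * M / L) with hF
  set D : ℕ → ℝ := fun m => ∑ q ∈ Q, (Tq w (1 / (4 * R)) n (M * R) m q -
      Tq w ((n : ℝ) ^ (-(1 / 4) : ℝ)) n (M * R) m q) with hD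
  have hone : ∀ m ∈ F, (c₁ * ((M : ℝ) * R) * R / (4 * L ^ C₀)) ^ 2 ≤ (om P m : ℝ) * D m ^ 2 := by
    intro m hm
    rw [hF, Finset.mem_filter, Finset.mem_Ioc] at hm
    obtain ⟨⟨hm1, hm2⟩, hom, hS⟩ := hm
    have hd : (0 : ℝ) ≤ (n : ℝ) ^ (-(1 / 4) : ℝ) := by positivity
    have hlow := hL n hnL M R m hn16 hnX hMn hm1 hm2
    have hb2 : (R : ℝ) / Real.log n ^ (C₀ + 2) ≤ Q.card / 2 := by
      rw [← hLdef, div_le_div_iff₀ (by positivity) (by norm_num), pow_add]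
      have hq0 : (0 : ℝ) ≤ Q.card := by positivity
      have h4 : (2 : ℝ) ≤ L ^ 2 := by nlinarith
      have h5 : (R : ℝ) * 2 ≤ (L ^ C₀ * Q.card) * 2 := by linarith
      have h6 : (L ^ C₀ * (Q.card : ℝ)) * 2 ≤ (L ^ C₀ * Q.card) * L ^ 2 :=
        mul_le_mul_of_nonneg_left h4 (by positivity)
      nlinarith
    have hDl := key_low (T := fun q => Tq w ((n : ℝ) ^ (-(1 / 4) : ℝ)) n (M * R) m q)
      (y := c₁ * ((M : ℝ) * R)) hQ (by positivity)
      (fun q => key_Tq_nonneg hw hd n (M * R) m q) hlow hb2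
    have hDs := hCnt n hnC M R m Q hR1 hQ hn16 hm1 hm2
    have hsq : Real.sqrt n ^ 2 ≤ L ^ C₀ * ((M : ℝ) * R) := by
      rw [Real.sq_sqrt hnpos.le]
      exact hnX
    have key := key_one (C₀ := C₀) hc₁ hW hL2 hM0 hR0 rfl hRQ hsq (Real.sqrt_nonneg _) hbig hS
      hDl hDs
    have hDm : D m = (∑ q ∈ Q, Tq w (1 / (4 * R)) n (M * R) m q) -
        ∑ q ∈ Q, Tq w ((n : ℝ) ^ (-(1 / 4) : ℝ)) n (M * R) m q := by
      rw [hD]
      exact Finset.sum_sub_distrib _ _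
    have hom' : (1 : ℝ) ≤ (om P m : ℝ) := by exact_mod_cast hom
    rw [← hDm] at key
    have : 0 ≤ D m ^ 2 := sq_nonneg _
    nlinarith
  have hsum : (F.card : ℝ) * (c₁ * ((M : ℝ) * R) * R / (4 * L ^ C₀)) ^ 2 ≤
      ∑ m ∈ Ioc M (2 * M), (om P m : ℝ) * D m ^ 2 := by
    have h4 : (F.card : ℝ) * (c₁ * ((M : ℝ) * R) * R / (4 * L ^ C₀)) ^ 2 ≤
        ∑ m ∈ F, (om P m : ℝ) * D m ^ 2 := by
      have := Finset.card_nsmul_le_sum F (fun m => (om P m : ℝ) * D m ^ 2)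
        ((c₁ * ((M : ℝ) * R) * R / (4 * L ^ C₀)) ^ 2) hone
      simpa [nsmul_eq_mul] using this
    refine h4.trans (Finset.sum_le_sum_of_subset_of_nonneg (Finset.filter_subset _ _) ?_)
    intro m _ _
    positivity
  have hfin := hsum.trans hVB
  rw [← hLdef] at hfin
  -- `F.card * c₁² X² R² / (16 L^(2C₀)) ≤ M X² R² / L^(A+2C₀+1)`
  have hXR : 0 < ((M : ℝ) * R * R) ^ 2 := by positivity
  have h8 : (F.card : ℝ) * (c₁ ^ 2 / (16 * L ^ (2 * C₀))) * ((M : ℝ) * R * R) ^ 2 ≤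
      (M / L ^ (A + 2 * C₀ + 1)) * ((M : ℝ) * R * R) ^ 2 := by
    have e1 : (F.card : ℝ) * (c₁ * ((M : ℝ) * R) * R / (4 * L ^ C₀)) ^ 2 =
        (F.card : ℝ) * (c₁ ^ 2 / (16 * L ^ (2 * C₀))) * ((M : ℝ) * R * R) ^ 2 := by
      rw [div_pow, mul_pow, mul_pow, mul_pow 4, ← pow_mul, mul_comm C₀ 2]
      ring
    have e2 : (M : ℝ) * ((M * R : ℝ) * R) ^ 2 / L ^ (A + 2 * C₀ + 1) =
        (M / L ^ (A + 2 * C₀ + 1)) * ((M : ℝ) * R * R) ^ 2 := by ring
    rw [e1, e2] at hfin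
    exact hfin
  have h9 : (F.card : ℝ) * (c₁ ^ 2 / (16 * L ^ (2 * C₀))) ≤ M / L ^ (A + 2 * C₀ + 1) :=
    le_of_mul_le_mul_right h8 hXR
  have h10 : (F.card : ℝ) * (c₁ ^ 2 / 16) ≤ M / L ^ (A + 1) := by
    have e3 : (F.card : ℝ) * (c₁ ^ 2 / (16 * L ^ (2 * C₀))) * L ^ (2 * C₀) =
        (F.card : ℝ) * (c₁ ^ 2 / 16) := by
      field_simp
    have e4 : M / L ^ (A + 2 * C₀ + 1) * L ^ (2 * C₀) = M / L ^ (A + 1) := by
      rw [show A + 2 * C₀ + 1 = (A + 1) + 2 * C₀ by ring, pow_add]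
      field_simp
    rw [← e3, ← e4]
    exact mul_le_mul_of_nonneg_right h9 (by positivity)
  have h11 : (F.card : ℝ) ≤ M / L ^ (A + 1) * (16 / c₁ ^ 2) := by
    have e5 : (F.card : ℝ) = (F.card : ℝ) * (c₁ ^ 2 / 16) * (16 / c₁ ^ 2) := by field_simp
    rw [e5]
    exact mul_le_mul_of_nonneg_right h10 hc2.le
  have h12 : (M : ℝ) / L ^ (A + 1) * (16 / c₁ ^ 2) ≤ M / L ^ (A + 1) * L :=
    mul_le_mul_of_nonneg_left (by linarith) (by positivity)
  have h13 : (M : ℝ) / L ^ (A + 1) * L = M / L ^ A := by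
    rw [pow_succ]
    field_simp
  linarith

end Pool.Agent.EVN
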