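import Pool.Agent.EVN.Stmts

set_option autoImplicit false

/-!
# EVN: LOW (helper38)

For every `m` the long averages are large for almost all `q`.
-/

namespace Pool.Agent.EVN

open Finset Filter MeasureTheory
open Pool.Agent.GBQ (ee)
open Pool.Agent.SI (nit DP IsW Wd)
open scoped FourierTransform

/-- `w` is bounded from below on an interval -/
theorem low_wt {w : ℝ → ℝ} (hw : IsW w) : ∃ v₁ v₂ w₀ : ℝ, 0 < v₁ ∧ v₁ < v₂ ∧ v₂ < 1 ∧ 0 < w₀ ∧
    ∀ v, v₁ ≤ v → v ≤ v₂ → w₀ ≤ w v := by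
  obtain ⟨v, hv⟩ : ∃ v, w v ≠ 0 := by
    by_contra h
    push Not at h
    have h1 := hw.int
    rw [show w = fun _ => (0 : ℝ) from funext h, integral_zero] at h1
    exact zero_ne_one h1
  have hv0 : 0 < w v := lt_of_le_of_ne (hw.nonneg v) (Ne.symm hv)
  obtain ⟨h0, h1⟩ := hw.supp v hv
  have hc : ContinuousAt w v := hw.smooth.continuous.continuousAt
  have h2 : ∀ᶠ u in nhds v, w v / 2 < w u :=
    hc.eventually (lt_mem_nhds (by linarith))
  obtain ⟨ε, hε, hb⟩ := Metric.eventually_nhds_iff.1 h2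
  set η := min (ε / 2) ((1 - v) / 2) with hη
  have hη0 : 0 < η := lt_min (by linarith) (by linarith)
  refine ⟨v, v + η, w v / 2, h0, by linarith, ?_, by linarith, fun u hu1 hu2 => ?_⟩
  · have : η ≤ (1 - v) / 2 := min_le_right _ _
    linarith
  · refine (hb ?_).le
    rw [Real.dist_eq, abs_of_nonneg (by linarith)]
    have : η ≤ ε / 2 := min_le_left _ _
    linarith

/-- the terms of `Tq` are nonnegative -/
theorem low_term_nonneg {w : ℝ → ℝ} (hw : IsW w) {d : ℝ} (hd : 0 < d) (n X x : ℕ) (u : ℝ) :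
    0 ≤ aL n X x * Wd w d u := by
  refine mul_nonneg ?_ (div_nonneg (hw.nonneg _) hd.le)
  unfold aL
  split_ifs
  · exact ArithmeticFunction.vonMangoldt_nonneg
  · exact le_rfl

/-- a lower bound for `T` by the number of primes -/
theorem low_T {w : ℝ → ℝ} (hw : IsW w) {v₁ v₂ w₀ d l : ℝ} (hw0 : 0 < w₀)
    (hwv : ∀ v, v₁ ≤ v → v ≤ v₂ → w₀ ≤ w v) (hd : 0 < d) {n X m q : ℕ} (hm : 1 ≤ m)
    (hq : 1 ≤ q) (P : Finset ℕ)
    (hP : ∀ p ∈ P, p.Prime ∧ X + p < n ∧ n ≤ p + 5 * X ∧ l ≤ Real.log p ∧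
      (m : ℝ) * q * Real.exp (d * v₁) ≤ n - p ∧ (n : ℝ) - p ≤ m * q * Real.exp (d * v₂)) :
    (P.card : ℝ) * (l * (w₀ / d)) ≤ Tq w d n X m q := by
  have hm0 : (0 : ℝ) < m := by exact_mod_cast hm
  have hq0 : (0 : ℝ) < q := by exact_mod_cast hq
  have hinj : Set.InjOn (fun p => n - p) (P : Set ℕ) := by
    intro p hp p' hp' h
    have h1 := (hP p hp).2.1
    have h2 := (hP p' hp').2.1
    have h3 : n - p = n - p' := h
    omega
  have hsub : P.image (fun p => n - p) ⊆ Icc 1 (5 * X) := by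
    intro x hx
    obtain ⟨p, hp, rfl⟩ := mem_image.1 hx
    have h1 := (hP p hp).2.1
    have h2 := (hP p hp).2.2.1
    rw [mem_Icc]
    omega
  have h1 : ∑ x ∈ P.image (fun p => n - p),
      aL n X x * Wd w d (Real.log x - Real.log q - Real.log m) ≤ Tq w d n X m q :=
    sum_le_sum_of_subset_of_nonneg hsub fun x _ _ => low_term_nonneg hw hd n X x _
  refine le_trans ?_ h1
  rw [sum_image hinj, ← nsmul_eq_mul]
  refine card_nsmul_le_sum _ _ _ fun p hp => ?_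
  obtain ⟨hpp, h2, h3, h4, h5, h6⟩ := hP p hp
  have hx : ((n - p : ℕ) : ℝ) = n - p := by
    rw [Nat.cast_sub (by omega)]
  have hx0 : (0 : ℝ) < ((n - p : ℕ) : ℝ) := by
    have : 0 < n - p := by omega
    exact_mod_cast this
  refine mul_le_mul ?_ ?_ (div_nonneg hw0.le hd.le) ?_
  · unfold aL
    rw [if_pos (by omega), Nat.sub_sub_self (by omega), ArithmeticFunction.vonMangoldt_apply_prime hpp]
    exact h4
  · unfold Wd
    refine div_le_div_of_nonneg_right (hwv _ ?_ ?_) hd.le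
    · rw [le_div_iff₀ hd]
      have h7 : Real.log (m * q * Real.exp (d * v₁)) ≤ Real.log ((n - p : ℕ) : ℝ) :=
        Real.log_le_log (by positivity) (by rw [hx]; exact h5)
      rw [Real.log_mul (by positivity) (Real.exp_pos _).ne', Real.log_exp,
        Real.log_mul hm0.ne' hq0.ne'] at h7
      linarith
    · rw [div_le_iff₀ hd]
      have h7 : Real.log ((n - p : ℕ) : ℝ) ≤ Real.log (m * q * Real.exp (d * v₂)) :=
        Real.log_le_log hx0 (by rw [hx]; exact h6)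
      rw [Real.log_mul (by positivity) (Real.exp_pos _).ne', Real.log_exp,
        Real.log_mul hm0.ne' hq0.ne'] at h7
      linarith
  · unfold aL
    split_ifs
    · exact ArithmeticFunction.vonMangoldt_nonneg
    · exact le_rfl

/-- double counting -/
theorem low_cnt (S P : Finset ℕ) {h g : ℝ} (hh : 0 ≤ h)
    (hS : ∀ z ∈ S, g ≤ ((P.filter (fun p : ℕ => z < p ∧ (p : ℝ) ≤ z + h)).card : ℝ)) :
    (S.card : ℝ) * g ≤ P.card * h := by
  have h1 : (S.card : ℝ) * g ≤ ∑ z ∈ S, ((P.filter (fun p : ℕ => z < p ∧ (p : ℝ) ≤ z + h)).card : ℝ) := by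
    rw [← nsmul_eq_mul]
    exact card_nsmul_le_sum _ _ _ hS
  have h2 : ∑ z ∈ S, ((P.filter (fun p : ℕ => z < p ∧ (p : ℝ) ≤ z + h)).card : ℝ) =
      ∑ p ∈ P, ((S.filter (fun z : ℕ => z < p ∧ (p : ℝ) ≤ z + h)).card : ℝ) := by
    simp only [card_filter, Nat.cast_sum]
    exact sum_comm
  have h3 : ∀ p ∈ P, ((S.filter (fun z : ℕ => z < p ∧ (p : ℝ) ≤ z + h)).card : ℝ) ≤ h := by
    intro p _
    have h4 : S.filter (fun z : ℕ => z < p ∧ (p : ℝ) ≤ z + h) ⊆ Ico (p - ⌊h⌋₊) p := by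
      intro z hz
      rw [mem_filter] at hz
      obtain ⟨-, hz1, hz2⟩ := hz
      rw [mem_Ico]
      refine ⟨?_, hz1⟩
      have h5 : ((p - z : ℕ) : ℝ) ≤ h := by
        rw [Nat.cast_sub hz1.le]
        linarith
      have h6 := Nat.le_floor h5
      omega
    have h5 := card_le_card h4
    rw [Nat.card_Ico] at h5
    have h6 : (S.filter (fun z : ℕ => z < p ∧ (p : ℝ) ≤ z + h)).card ≤ ⌊h⌋₊ := by omega
    exact (Nat.cast_le.2 h6).trans (Nat.floor_le hh)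
  calc (S.card : ℝ) * g ≤ _ := h1
    _ = _ := h2
    _ ≤ ∑ p ∈ P, h := sum_le_sum h3
    _ = P.card * h := by rw [sum_const, nsmul_eq_mul]

/-- the number of integers in an interval -/
theorem low_int {a b : ℝ} (ha : 0 ≤ a) : b - a - 1 ≤ ((Icc ⌈a⌉₊ ⌊b⌋₊).card : ℝ) := by
  rw [Nat.card_Icc]
  have h1 : (⌈a⌉₊ : ℝ) < a + 1 := Nat.ceil_lt_add_one ha
  have h2 : b < ⌊b⌋₊ + 1 := Nat.lt_floor_add_one b
  have h3 : ((⌊b⌋₊ + 1 : ℕ) : ℝ) - (⌈a⌉₊ : ℕ) ≤ ((⌊b⌋₊ + 1 - ⌈a⌉₊ : ℕ) : ℝ) := by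
    rw [sub_le_iff_le_add]
    exact_mod_cast (by omega : ⌊b⌋₊ + 1 ≤ (⌊b⌋₊ + 1 - ⌈a⌉₊) + ⌈a⌉₊)
  push_cast at h3
  linarith

/-- sets of small diameter are small -/
theorem low_diam (T : Finset ℕ) {D : ℝ} (hD : 0 ≤ D)
    (h : ∀ q ∈ T, ∀ q' ∈ T, q ≤ q' → (q' : ℝ) - q ≤ D) : (T.card : ℝ) ≤ D + 1 := by
  rcases T.eq_empty_or_nonempty with rfl | hT
  · rw [card_empty, Nat.cast_zero]
    linarith
  have h1 : T ⊆ Icc (T.min' hT) (T.min' hT + ⌊D⌋₊) := by
    intro q hq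
    have h2 := T.min'_le q hq
    rw [mem_Icc]
    refine ⟨h2, ?_⟩
    have h3 := h _ (T.min'_mem hT) q hq h2
    rw [← Nat.cast_sub h2] at h3
    have := Nat.le_floor h3
    omega
  have h2 := card_le_card h1
  rw [Nat.card_Icc] at h2
  have h3 : T.card ≤ ⌊D⌋₊ + 1 := by omega
  have h4 : (T.card : ℝ) ≤ ((⌊D⌋₊ + 1 : ℕ) : ℝ) := Nat.cast_le.2 h3
  rw [Nat.cast_add, Nat.cast_one] at h4
  linarith [Nat.floor_le hD]

theorem low_exp_le {x : ℝ} (h0 : 0 ≤ x) (h1 : x ≤ 1) : Real.exp x ≤ 1 + 2 * x := by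
  have := Real.abs_exp_sub_one_le (x := x) (by rw [abs_of_nonneg h0]; exact h1)
  rw [abs_of_nonneg h0] at this
  linarith [le_abs_self (Real.exp x - 1)]

/-- the exceptional set meets the interval of a bad `q` -/
theorem low_core {w : ℝ → ℝ} (hw : IsW w) {v₁ v₂ w₀ c₁ d h : ℝ} (hv1 : 0 < v₁) (hv12 : v₁ < v₂)
    (hv2 : v₂ < 1) (hw0 : 0 < w₀) (hwv : ∀ v, v₁ ≤ v → v ≤ v₂ → w₀ ≤ w v) (hc1 : 0 < c₁)
    {n M R m Y : ℕ} (hd : 0 < d) (hd8 : d ≤ 1 / 8) (hh : 0 < h) (hn : 16 * (M * R) ≤ n)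
    (hMR : 1 ≤ M * R) (hm : M < m) (hm2 : m ≤ 2 * M) (hY : Y = n / 2)
    (h3 : h + 1 ≤ (v₂ - v₁) * (M * R) * d / 2) (hlY : 0 < Real.log Y)
    (hlY1 : Real.log n / 2 ≤ Real.log Y) (E : Finset ℕ)
    (hE : ∀ z ∈ Icc Y (2 * Y), z ∉ E → c₁ * h / Real.log Y ≤
      (((Icc Y (3 * Y)).filter (fun p : ℕ => p.Prime ∧ z < p ∧ (p : ℝ) ≤ z + h)).card : ℝ))
    {q : ℕ} (hq : q ∈ Ioc R (2 * R))
    (hT : Tq w d n (M * R) m q < (v₂ - v₁) * c₁ * w₀ / 8 * (M * R)) :
    (v₂ - v₁) * (M * R) * d / 4 < ((E.filter (fun z : ℕ =>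
      (n : ℝ) - m * q * Real.exp (d * v₂) ≤ z ∧
        (z : ℝ) + h ≤ n - m * q * Real.exp (d * v₁))).card : ℝ) := by
  rw [mem_Ioc] at hq
  obtain ⟨hq1, hq2⟩ := hq
  set a : ℝ := m * q * Real.exp (d * v₁) with ha
  set b : ℝ := m * q * Real.exp (d * v₂) with hb
  set X : ℝ := (M : ℝ) * R with hX
  have hX1 : (1 : ℝ) ≤ X := by
    rw [hX]
    exact_mod_cast hMR
  have hXn : 16 * X ≤ n := by
    rw [hX]
    exact_mod_cast hn
  have hmq : X < (m : ℝ) * q := by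
    rw [hX]
    have : M * R < m * q := Nat.mul_lt_mul_of_lt_of_le hm hq1.le (by omega)
    exact_mod_cast this
  have hmq4 : (m : ℝ) * q ≤ 4 * X := by
    rw [hX]
    have : m * q ≤ 4 * (M * R) := by
      calc m * q ≤ (2 * M) * (2 * R) := Nat.mul_le_mul hm2 hq2
        _ = 4 * (M * R) := by ring
    exact_mod_cast this
  have hmq0 : (0 : ℝ) < (m : ℝ) * q := by linarith
  have haX : X < a := by
    rw [ha]
    have : 1 ≤ Real.exp (d * v₁) := Real.one_le_exp (by positivity)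
    nlinarith
  have hbX : b ≤ 5 * X := by
    rw [hb]
    have h4 : d * v₂ ≤ 1 / 8 := by nlinarith
    have h5 : 0 ≤ d * v₂ := mul_nonneg hd.le (by linarith)
    have h6 : Real.exp (d * v₂) ≤ 5 / 4 := by
      have := low_exp_le h5 (by linarith)
      linarith
    calc (m : ℝ) * q * Real.exp (d * v₂) ≤ 4 * X * (5 / 4) :=
          mul_le_mul hmq4 h6 (Real.exp_pos _).le (by linarith)
      _ = 5 * X := by ring
  have hba : X * d * (v₂ - v₁) ≤ b - a := by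
    have h4 : Real.exp (d * v₂) = Real.exp (d * v₁) * Real.exp (d * (v₂ - v₁)) := by
      rw [← Real.exp_add]
      congr 1
      ring
    have h5 : d * (v₂ - v₁) + 1 ≤ Real.exp (d * (v₂ - v₁)) := Real.add_one_le_exp _
    have h6 : 1 ≤ Real.exp (d * v₁) := Real.one_le_exp (by positivity)
    have h7 : 0 ≤ d * (v₂ - v₁) := mul_nonneg hd.le (by linarith)
    have h8 : d * (v₂ - v₁) ≤ Real.exp (d * v₁) * (Real.exp (d * (v₂ - v₁)) - 1) := by
      nlinarith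
    have h9 : b - a = m * q * (Real.exp (d * v₁) * (Real.exp (d * (v₂ - v₁)) - 1)) := by
      rw [hb, ha, h4]
      ring
    rw [h9]
    calc X * d * (v₂ - v₁) = X * (d * (v₂ - v₁)) := by ring
      _ ≤ m * q * (Real.exp (d * v₁) * (Real.exp (d * (v₂ - v₁)) - 1)) :=
          mul_le_mul hmq.le h8 h7 hmq0.le
  have hκ : 0 < v₂ - v₁ := by linarith
  have hY1 : (Y : ℝ) ≤ n / 2 := by
    rw [hY]
    exact Nat.cast_div_le
  have hY2 : n ≤ 2 * Y + 1 := by omega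
  have hY0 : 0 < Y := by
    rcases Nat.eq_zero_or_pos Y with h0 | h0
    · rw [h0, Nat.cast_zero, Real.log_zero] at hlY
      exact absurd hlY (lt_irrefl _)
    · exact h0
  by_contra hcon
  rw [not_lt] at hcon
  set J := (Icc ⌈(n : ℝ) - b⌉₊ ⌊(n : ℝ) - a - h⌋₊) with hJ
  have hnb : (n : ℝ) / 2 ≤ n - b := by linarith
  have hJm : ∀ z ∈ J, z ∈ Icc Y (2 * Y) ∧ (n : ℝ) - b ≤ z ∧ (z : ℝ) + h ≤ n - a := by
    intro z hz
    rw [hJ, mem_Icc] at hz
    obtain ⟨hz1, hz2⟩ := hz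
    have h4 : (n : ℝ) - b ≤ z := (Nat.le_ceil _).trans (Nat.cast_le.2 hz1)
    have hz0 : z ≠ 0 := by
      rintro rfl
      rw [Nat.cast_zero] at h4
      have : (0 : ℝ) < n := by linarith
      linarith
    have h5 : (z : ℝ) ≤ n - a - h := (Nat.le_floor_iff' hz0).1 hz2
    refine ⟨?_, h4, by linarith⟩
    rw [mem_Icc]
    constructor
    · have : (Y : ℝ) ≤ z := by linarith
      exact_mod_cast this
    · have : (z : ℝ) + 1 ≤ n := by linarith
      have h6 : z + 1 ≤ n := by exact_mod_cast this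
      omega
  have hJc : X * d * (v₂ - v₁) / 2 ≤ (J.card : ℝ) := by
    have h4 := low_int (a := (n : ℝ) - b) (b := (n : ℝ) - a - h) (by
      have : (0 : ℝ) ≤ n := Nat.cast_nonneg _
      linarith)
    rw [← hJ] at h4
    have h5 : (v₂ - v₁) * X * d = X * d * (v₂ - v₁) := by ring
    rw [h5] at h3
    linarith
  set S := J.filter (fun z => z ∉ E) with hS
  have hSc : X * d * (v₂ - v₁) / 4 ≤ (S.card : ℝ) := by
    have h4 : J.card = (J.filter (fun z => z ∈ E)).card + S.card :=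
      (card_filter_add_card_filter_not (s := J) (fun z => z ∈ E)).symm
    have h5 : (J.filter (fun z => z ∈ E)).card ≤ (E.filter (fun z : ℕ =>
      (n : ℝ) - b ≤ z ∧ (z : ℝ) + h ≤ n - a)).card := by
      apply card_le_card
      intro z hz
      rw [mem_filter] at hz ⊢
      exact ⟨hz.2, (hJm z hz.1).2⟩
    have h6 : ((J.filter (fun z => z ∈ E)).card : ℝ) ≤ (v₂ - v₁) * X * d / 4 :=
      (Nat.cast_le.2 h5).trans hcon
    have h7 : (J.card : ℝ) = ((J.filter (fun z => z ∈ E)).card : ℝ) + S.card := by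
      exact_mod_cast h4
    have h8 : (v₂ - v₁) * X * d = X * d * (v₂ - v₁) := by ring
    rw [h8] at h6
    linarith
  set P := (Icc Y (3 * Y)).filter (fun p : ℕ => p.Prime ∧ (n : ℝ) - b ≤ p ∧ (p : ℝ) ≤ n - a) with hP
  have hPS : (S.card : ℝ) * (c₁ * h / Real.log Y) ≤ P.card * h := by
    refine low_cnt S P hh.le fun z hz => ?_
    rw [hS, mem_filter] at hz
    obtain ⟨h4, h5, h6⟩ := hJm z hz.1
    refine (hE z h4 hz.2).trans (Nat.cast_le.2 (card_le_card fun p hp => ?_))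
    rw [mem_filter] at hp
    rw [mem_filter, hP, mem_filter]
    obtain ⟨hp1, hp2, hp3, hp4⟩ := hp
    have h7 : (z : ℝ) < p := by exact_mod_cast hp3
    exact ⟨⟨hp1, hp2, by linarith, by linarith⟩, hp3, hp4⟩
  have hP1 : (S.card : ℝ) * c₁ / Real.log Y ≤ P.card := by
    have h4 : (S.card : ℝ) * (c₁ * h / Real.log Y) = (S.card * c₁ / Real.log Y) * h := by ring
    rw [h4] at hPS
    exact le_of_mul_le_mul_right hPS hh
  have hlYn : Real.log Y ≤ Real.log n := by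
    refine Real.log_le_log (by exact_mod_cast hY0) ?_
    have : (0 : ℝ) ≤ n := Nat.cast_nonneg _
    linarith
  have hln : 0 < Real.log n := lt_of_lt_of_le hlY hlYn
  have hTl := low_T (n := n) (X := M * R) (m := m) (q := q) (l := Real.log n / 2) hw hw0 hwv hd
    (by omega) (by omega) P (fun p hp => by
      rw [hP, mem_filter, mem_Icc] at hp
      obtain ⟨⟨hp1, -⟩, hp2, hp3, hp4⟩ := hp
      refine ⟨hp2, ?_, ?_, ?_, by linarith, by linarith⟩
      · have h4 : X + p < n := by linarith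
        rw [hX] at h4
        exact_mod_cast h4
      · have h4 : (n : ℝ) ≤ p + 5 * X := by linarith
        rw [hX] at h4
        exact_mod_cast h4
      · refine hlY1.trans (Real.log_le_log (by exact_mod_cast hY0) ?_)
        exact_mod_cast hp1)
  have h4 : (v₂ - v₁) * c₁ * w₀ / 8 * X ≤ (P.card : ℝ) * (Real.log n / 2 * (w₀ / d)) := by
    have h5 : X * d * (v₂ - v₁) / 4 * c₁ / Real.log Y ≤ (P.card : ℝ) := by
      refine le_trans ?_ hP1
      exact div_le_div_of_nonneg_right (mul_le_mul_of_nonneg_right hSc hc1.le) hlY.le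
    have h6 : X * d * (v₂ - v₁) / 4 * c₁ / Real.log n ≤ X * d * (v₂ - v₁) / 4 * c₁ / Real.log Y :=
      div_le_div_of_nonneg_left (by positivity) hlY hlYn
    have h7 : 0 ≤ Real.log n / 2 * (w₀ / d) := by positivity
    calc (v₂ - v₁) * c₁ * w₀ / 8 * X =
          X * d * (v₂ - v₁) / 4 * c₁ / Real.log n * (Real.log n / 2 * (w₀ / d)) := by
          field_simp
          ring
      _ ≤ _ := mul_le_mul_of_nonneg_right (h6.trans h5) h7
  linarith

/-- the number of the bad `q` -/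
theorem low_bad {v₁ v₂ d h K : ℝ} (hv12 : v₁ < v₂) (hv2 : v₂ - v₁ ≤ 1)
    {n R m : ℕ} (hd : 0 < d) (hd8 : d ≤ 1 / 8) (hh : 0 < h) (hm : 0 < m) (E B : Finset ℕ)
    (hB : B ⊆ Ioc R (2 * R))
    (hK : ∀ q ∈ B, K ≤ ((E.filter (fun z : ℕ => (n : ℝ) - m * q * Real.exp (d * v₂) ≤ z ∧
        (z : ℝ) + h ≤ n - m * q * Real.exp (d * v₁))).card : ℝ)) :
    (B.card : ℝ) * K ≤ E.card * (4 * R * d + 1) := by
  have hm0 : (0 : ℝ) < m := by exact_mod_cast hm
  have h1 : (B.card : ℝ) * K ≤ ∑ q ∈ B, ((E.filter (fun z : ℕ =>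
      (n : ℝ) - m * q * Real.exp (d * v₂) ≤ z ∧
        (z : ℝ) + h ≤ n - m * q * Real.exp (d * v₁))).card : ℝ) := by
    rw [← nsmul_eq_mul]
    exact card_nsmul_le_sum _ _ _ hK
  have h2 : ∑ q ∈ B, ((E.filter (fun z : ℕ =>
      (n : ℝ) - m * q * Real.exp (d * v₂) ≤ z ∧
        (z : ℝ) + h ≤ n - m * q * Real.exp (d * v₁))).card : ℝ) =
      ∑ z ∈ E, ((B.filter (fun q : ℕ =>
      (n : ℝ) - m * q * Real.exp (d * v₂) ≤ z ∧
        (z : ℝ) + h ≤ n - m * q * Real.exp (d * v₁))).card : ℝ) := by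
    simp only [card_filter, Nat.cast_sum]
    exact sum_comm
  have h3 : ∀ z ∈ E, ((B.filter (fun q : ℕ =>
      (n : ℝ) - m * q * Real.exp (d * v₂) ≤ z ∧
        (z : ℝ) + h ≤ n - m * q * Real.exp (d * v₁))).card : ℝ) ≤ 4 * R * d + 1 := by
    intro z _
    refine low_diam _ (by positivity) fun q hq q' hq' _ => ?_
    rw [mem_filter] at hq hq'
    have hq2 := (mem_Ioc.1 (hB hq.1)).2
    have h4 : (m : ℝ) * q' * Real.exp (d * v₁) ≤ m * q * Real.exp (d * v₂) := by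
      linarith [hq.2.1, hq'.2.2]
    have h5 : Real.exp (d * v₂) = Real.exp (d * v₁) * Real.exp (d * (v₂ - v₁)) := by
      rw [← Real.exp_add]
      congr 1
      ring
    rw [h5] at h4
    have h6 : (q' : ℝ) ≤ q * Real.exp (d * (v₂ - v₁)) := by
      have h7 : (m * Real.exp (d * v₁)) * (q' : ℝ) ≤
          (m * Real.exp (d * v₁)) * (q * Real.exp (d * (v₂ - v₁))) := by linarith
      exact le_of_mul_le_mul_left h7 (by positivity)
    have h8 : Real.exp (d * (v₂ - v₁)) ≤ 1 + 2 * (d * (v₂ - v₁)) := by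
      refine low_exp_le (mul_nonneg hd.le (by linarith)) ?_
      nlinarith
    have h9 : d * (v₂ - v₁) ≤ d := by nlinarith
    have hq0 : (0 : ℝ) ≤ q := Nat.cast_nonneg _
    have hq3 : (q : ℝ) ≤ 2 * R := by exact_mod_cast hq2
    have h10 : (q : ℝ) * Real.exp (d * (v₂ - v₁)) ≤ q * (1 + 2 * d) :=
      mul_le_mul_of_nonneg_left (by linarith) hq0
    nlinarith
  calc (B.card : ℝ) * K ≤ _ := h1
    _ = _ := h2
    _ ≤ ∑ z ∈ E, (4 * R * d + 1 : ℝ) := sum_le_sum h3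
    _ = E.card * (4 * R * d + 1) := by rw [sum_const, nsmul_eq_mul]

/-- conditions which hold for large `n` -/
theorem low_ev {κ : ℝ} (hκ : 0 < κ) (C₀ X₀ : ℕ) (G : ℝ) : ∃ n₀ : ℕ, ∀ n ≥ n₀,
    X₀ ≤ n / 2 ∧ 6 ≤ n ∧ (n : ℝ) ^ (-(1 / 4) : ℝ) ≤ 1 / 8 ∧
      Real.log n ^ C₀ ≤ κ / 4 * (n : ℝ) ^ (1 / 4 : ℝ) ∧ G ≤ Real.log n := by
  have h1 : ∀ᶠ x : ℝ in atTop, x ^ (-(1 / 4) : ℝ) ≤ 1 / 8 :=
    (tendsto_rpow_neg_atTop (by norm_num : (0 : ℝ) < 1 / 4)).eventually_le_const (by norm_num)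
  have h2 : ∀ᶠ x : ℝ in atTop, Real.log x ^ C₀ ≤ κ / 4 * x ^ (1 / 4 : ℝ) := by
    have h := (isLittleO_log_rpow_rpow_atTop (C₀ : ℝ) (by norm_num : (0 : ℝ) < 1 / 4)).bound
      (show 0 < κ / 4 by linarith)
    filter_upwards [h, eventually_ge_atTop (1 : ℝ)] with x hx hx1
    rw [Real.rpow_natCast, Real.norm_of_nonneg (pow_nonneg (Real.log_nonneg hx1) _),
      Real.norm_of_nonneg (Real.rpow_nonneg (by linarith) _)] at hx
    exact hx
  have h3 : ∀ᶠ x : ℝ in atTop, G ≤ Real.log x := Real.tendsto_log_atTop.eventually_ge_atTop G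
  have h4 : ∀ᶠ n : ℕ in atTop, (n : ℝ) ^ (-(1 / 4) : ℝ) ≤ 1 / 8 ∧
      Real.log n ^ C₀ ≤ κ / 4 * (n : ℝ) ^ (1 / 4 : ℝ) ∧ G ≤ Real.log n :=
    tendsto_natCast_atTop_atTop.eventually (h1.and (h2.and h3))
  obtain ⟨n₁, hn₁⟩ := eventually_atTop.1 h4
  refine ⟨n₁ + 2 * X₀ + 6, fun n hn => ⟨by omega, by omega, hn₁ n (by omega)⟩⟩

theorem thm_Low (hG : Pool.Agent.SI.St_Gap) : St_Low := by
  intro w hw
  obtain ⟨c₁, hc1, hgap⟩ := hG
  obtain ⟨v₁, v₂, w₀, hv1, hv12, hv2, hw0, hwv⟩ := low_wt hw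
  have hκ : 0 < v₂ - v₁ := by linarith
  set κ := v₂ - v₁ with hκd
  have hκ1 : κ ≤ 1 := by linarith
  refine ⟨κ * c₁ * w₀ / 8, by positivity, fun A C₀ => ?_⟩
  obtain ⟨X₀, hX₀⟩ := hgap (1 / 8) (A + C₀ + 1) (by norm_num) (by norm_num)
  obtain ⟨n₀, hn₀⟩ := low_ev hκ C₀ X₀ (20 * 2 ^ (A + C₀ + 1) / κ)
  refine ⟨n₀, fun n hn M R m h16 hnL hMn hm hm2 => ?_⟩
  obtain ⟨e1, e2, e3, e4, e5⟩ := hn₀ n hn
  set Y := n / 2 with hY
  have hnr : (6 : ℝ) ≤ n := by exact_mod_cast e2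
  have hn0 : (0 : ℝ) < n := by linarith
  have hY3 : 3 ≤ Y := by omega
  have hYr : (3 : ℝ) ≤ Y := by exact_mod_cast hY3
  have hYn : (Y : ℝ) ≤ n := by
    rw [hY]
    exact_mod_cast Nat.div_le_self n 2
  have hlY : 0 < Real.log Y := Real.log_pos (by linarith)
  have hlYn : Real.log Y ≤ Real.log n := Real.log_le_log (by linarith) hYn
  have hL : 0 < Real.log n := lt_of_lt_of_le hlY hlYn
  have hlY1 : Real.log n / 2 ≤ Real.log Y := by
    have h1 : n ≤ Y * Y := by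
      have h2 : n ≤ 2 * Y + 1 := by omega
      nlinarith
    have h2 : Real.log n ≤ Real.log (Y * Y) := Real.log_le_log hn0 (by exact_mod_cast h1)
    rw [Real.log_mul (by linarith) (by linarith)] at h2
    linarith
  have hLC : 0 < Real.log n ^ C₀ := pow_pos hL _
  have hMR : 1 ≤ M * R := by
    rcases Nat.eq_zero_or_pos (M * R) with h0 | h0
    · have h1 : (M : ℝ) * R = 0 := by exact_mod_cast h0
      rw [h1, mul_zero] at hnL
      linarith
    · exact h0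
  set X : ℝ := (M : ℝ) * R with hX
  have hX0 : (0 : ℝ) < X := by
    rw [hX]
    exact_mod_cast hMR
  set d : ℝ := (n : ℝ) ^ (-(1 / 4) : ℝ) with hd
  have hd0 : 0 < d := Real.rpow_pos_of_pos hn0 _
  have hdn : d * (n : ℝ) ^ (1 / 4 : ℝ) = 1 := by
    rw [hd, ← Real.rpow_add hn0]
    norm_num
  have hLd : Real.log n ^ C₀ * d ≤ κ / 4 := by
    calc Real.log n ^ C₀ * d ≤ κ / 4 * (n : ℝ) ^ (1 / 4 : ℝ) * d :=
          mul_le_mul_of_nonneg_right e4 hd0.le
      _ = κ / 4 * (d * (n : ℝ) ^ (1 / 4 : ℝ)) := by ring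
      _ = κ / 4 := by rw [hdn, mul_one]
  set h : ℝ := (Y : ℝ) ^ (1 / 4 + 1 / 8 : ℝ) with hh
  have hh1 : 1 ≤ h := Real.one_le_rpow (by linarith) (by norm_num)
  have hhn : h ≤ (n : ℝ) ^ (3 / 8 : ℝ) := by
    rw [hh, show (1 / 4 + 1 / 8 : ℝ) = 3 / 8 by norm_num]
    exact Real.rpow_le_rpow (by linarith) hYn (by norm_num)
  have h3 : h + 1 ≤ κ * X * d / 2 := by
    have g1 : h + 1 ≤ 2 * (n : ℝ) ^ (3 / 8 : ℝ) := by linarith
    have g2 : (n : ℝ) ^ (3 / 8 : ℝ) ≤ (n : ℝ) ^ (1 / 2 : ℝ) :=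
      Real.rpow_le_rpow_of_exponent_le (by linarith) (by norm_num)
    have g3 : (n : ℝ) ^ (1 / 2 : ℝ) = n * d * d := by
      rw [hd, mul_assoc, ← Real.rpow_add hn0]
      nth_rw 2 [← Real.rpow_one (n : ℝ)]
      rw [← Real.rpow_add hn0]
      norm_num
    have g4 : (n : ℝ) * d * d ≤ κ / 4 * (X * d) := by
      calc (n : ℝ) * d * d ≤ (Real.log n ^ C₀ * X) * d * d := by
            refine mul_le_mul_of_nonneg_right (mul_le_mul_of_nonneg_right hnL hd0.le) hd0.le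
        _ = (Real.log n ^ C₀ * d) * (X * d) := by ring
        _ ≤ κ / 4 * (X * d) := mul_le_mul_of_nonneg_right hLd (by positivity)
    have g5 : κ * X * d / 2 = 2 * (κ / 4 * (X * d)) := by ring
    rw [g5]
    linarith
  have hRd : 1 ≤ R * d := by
    have g1 : (n : ℝ) ≤ Real.log n ^ C₀ * ((n : ℝ) ^ (1 / 2 : ℝ) * R) :=
      hnL.trans (mul_le_mul_of_nonneg_left
        (mul_le_mul_of_nonneg_right hMn (Nat.cast_nonneg _)) hLC.le)
    have g2 : (n : ℝ) ^ (1 / 2 : ℝ) = n * d * d := by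
      rw [hd, mul_assoc, ← Real.rpow_add hn0]
      nth_rw 2 [← Real.rpow_one (n : ℝ)]
      rw [← Real.rpow_add hn0]
      norm_num
    rw [g2] at g1
    have g3 : (n : ℝ) * 1 ≤ n * ((Real.log n ^ C₀ * d) * (R * d)) := by
      calc (n : ℝ) * 1 = n := mul_one _
        _ ≤ _ := g1
        _ = _ := by ring
    have g4 := le_of_mul_le_mul_left g3 hn0
    have g5 : (0 : ℝ) ≤ R * d := by positivity
    nlinarith
  set E := (Icc Y (2 * Y)).filter (fun z : ℕ =>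
    (((Icc Y (3 * Y)).filter (fun p : ℕ => p.Prime ∧ z < p ∧ (p : ℝ) ≤ z + h)).card : ℝ) ≤
      c₁ * h / Real.log Y) with hE
  have hEc : (E.card : ℝ) ≤ Y / Real.log Y ^ (A + C₀ + 1) := by
    refine hX₀ Y e1 E fun z hz => ?_
    rw [hE, mem_filter, mem_Icc] at hz
    exact ⟨hz.1.1, hz.1.2, hz.2⟩
  set B := (Ioc R (2 * R)).filter (fun q => Tq w d n (M * R) m q < κ * c₁ * w₀ / 8 * X) with hB
  have hbad := low_bad (n := n) (R := R) (m := m) (K := κ * X * d / 4) (h := h) (d := d) hv12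
    (by linarith) hd0 e3 (by linarith) (by omega) E B (filter_subset _ _) (fun q hq => by
      rw [hB, mem_filter] at hq
      exact (low_core hw hv1 hv12 hv2 hw0 hwv hc1 hd0 e3 (by linarith) h16 hMR hm hm2 hY h3 hlY hlY1
        E (fun z hz hzE => by
          rw [hE, mem_filter, not_and] at hzE
          exact (not_le.1 (hzE hz)).le) hq.1 hq.2).le)
  have hlogA : (Real.log n / 2) ^ (A + C₀ + 1) ≤ Real.log Y ^ (A + C₀ + 1) :=
    pow_le_pow_left₀ (by linarith) hlY1 _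
  have hE2 : (E.card : ℝ) * (Real.log n / 2) ^ (A + C₀ + 1) ≤ Real.log n ^ C₀ * X := by
    calc (E.card : ℝ) * (Real.log n / 2) ^ (A + C₀ + 1)
        ≤ E.card * Real.log Y ^ (A + C₀ + 1) :=
          mul_le_mul_of_nonneg_left hlogA (Nat.cast_nonneg _)
      _ ≤ Y := by
          rw [← le_div_iff₀ (pow_pos hlY _)]
          exact hEc
      _ ≤ n := hYn
      _ ≤ _ := hnL
  have hB1 : (B.card : ℝ) * (κ * X) ≤ E.card * (20 * R) := by
    have g1 : (B.card : ℝ) * (κ * X * d / 4) ≤ E.card * (5 * (R * d)) := by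
      refine hbad.trans (mul_le_mul_of_nonneg_left ?_ (Nat.cast_nonneg _))
      linarith
    have g2 : (B.card : ℝ) * (κ * X) * (d / 4) ≤ (E.card * (20 * R)) * (d / 4) := by
      calc (B.card : ℝ) * (κ * X) * (d / 4) = B.card * (κ * X * d / 4) := by ring
        _ ≤ _ := g1
        _ = _ := by ring
    exact le_of_mul_le_mul_right g2 (by linarith)
  rw [le_div_iff₀ (pow_pos hL A)]
  have hkey : ((B.card : ℝ) * Real.log n ^ A) * (κ * X * (Real.log n / 2 ^ (A + C₀ + 1)) *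
      Real.log n ^ C₀) ≤ (20 * R) * (Real.log n ^ C₀ * X) := by
    calc ((B.card : ℝ) * Real.log n ^ A) * (κ * X * (Real.log n / 2 ^ (A + C₀ + 1)) *
        Real.log n ^ C₀) = (B.card * (κ * X)) * (Real.log n / 2) ^ (A + C₀ + 1) := by
          rw [div_pow, pow_succ (Real.log n), pow_add (Real.log n)]
          ring
      _ ≤ (E.card * (20 * R)) * (Real.log n / 2) ^ (A + C₀ + 1) :=
          mul_le_mul_of_nonneg_right hB1 (by positivity)
      _ = (20 * R) * (E.card * (Real.log n / 2) ^ (A + C₀ + 1)) := by ring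
      _ ≤ _ := mul_le_mul_of_nonneg_left hE2 (by positivity)
  have h20 : 20 ≤ κ * (Real.log n / 2 ^ (A + C₀ + 1)) := by
    rw [div_le_iff₀ hκ] at e5
    rw [← mul_div_assoc, le_div_iff₀ (by positivity)]
    linarith
  have hfin : ((B.card : ℝ) * Real.log n ^ A) * (20 * (Real.log n ^ C₀ * X)) ≤
      R * (20 * (Real.log n ^ C₀ * X)) := by
    have g0 : 0 ≤ Real.log n ^ C₀ * X := by positivity
    have g1 : 20 * (Real.log n ^ C₀ * X) ≤ κ * X * (Real.log n / 2 ^ (A + C₀ + 1)) *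
        Real.log n ^ C₀ := by
      calc 20 * (Real.log n ^ C₀ * X) ≤
            κ * (Real.log n / 2 ^ (A + C₀ + 1)) * (Real.log n ^ C₀ * X) :=
            mul_le_mul_of_nonneg_right h20 g0
        _ = _ := by ring
    calc ((B.card : ℝ) * Real.log n ^ A) * (20 * (Real.log n ^ C₀ * X)) ≤
          ((B.card : ℝ) * Real.log n ^ A) * (κ * X * (Real.log n / 2 ^ (A + C₀ + 1)) *
            Real.log n ^ C₀) := mul_le_mul_of_nonneg_left g1 (by positivity)
      _ ≤ _ := hkey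
      _ = _ := by ring
  exact le_of_mul_le_mul_right hfin (by positivity)

end Pool.Agent.EVN
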