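import Mathlib
import Pool.Agent.EVN.Stmts
import Pool.Agent.Helper53.MertensFour

set_option autoImplicit false

/-!
# EVN / Smo

Numbers without large prime factors: moments of `log m` over the smooth numbers.
-/

namespace Pool.Agent.EVN

open Finset

/-- smooth numbers -/
def smo_S (y X : ℕ) : Finset ℕ := (Icc 1 X).filter (fun m => ∀ p ∈ m.primeFactors, p ≤ y)

/-- primes up to `y` -/
def smo_P (y : ℕ) : Finset ℕ := (Icc 1 y).filter Nat.Prime

/-- moments -/
noncomputable def smo_F (k y X : ℕ) : ℝ := ∑ m ∈ smo_S y X, Real.log m ^ k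

theorem smo_mem {y X m : ℕ} : m ∈ smo_S y X ↔ (1 ≤ m ∧ m ≤ X) ∧ ∀ p ∈ m.primeFactors, p ≤ y := by
  unfold smo_S
  rw [mem_filter, mem_Icc]

theorem smo_val {X p m : ℕ} (hp : p.Prime) (h1 : 1 ≤ m) (h2 : m ≤ X) :
    ∑ j ∈ Icc 1 X, (if p ^ j ∣ m then Real.log p else 0) = (m.factorization p : ℝ) * Real.log p := by
  have hm : m ≠ 0 := by omega
  have hv : m.factorization p ≤ X := by
    have h3 : p ^ m.factorization p ≤ m := Nat.le_of_dvd (by omega) (Nat.ordProj_dvd m p)
    have h4 : m.factorization p < 2 ^ m.factorization p := Nat.lt_two_pow_self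
    have h5 : 2 ^ m.factorization p ≤ p ^ m.factorization p := Nat.pow_le_pow_left hp.two_le _
    omega
  rw [← sum_filter, sum_const, nsmul_eq_mul]
  congr 2
  have h3 : (Icc 1 X).filter (fun j => p ^ j ∣ m) = Icc 1 (m.factorization p) := by
    ext j
    rw [mem_filter, mem_Icc, mem_Icc, hp.pow_dvd_iff_le_factorization hm]
    omega
  rw [h3, Nat.card_Icc]
  omega

theorem smo_log {y X m : ℕ} (hm : m ∈ smo_S y X) :
    Real.log m ≤ ∑ p ∈ smo_P y, ∑ j ∈ Icc 1 X, (if p ^ j ∣ m then Real.log p else 0) := by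
  obtain ⟨⟨h1, h2⟩, h3⟩ := smo_mem.1 hm
  rw [Real.log_nat_eq_sum_factorization, Finsupp.sum]
  have h4 : m.factorization.support ⊆ smo_P y := by
    intro p hp
    rw [Nat.support_factorization] at hp
    unfold smo_P
    rw [mem_filter, mem_Icc]
    exact ⟨⟨(Nat.prime_of_mem_primeFactors hp).one_le, h3 p hp⟩, Nat.prime_of_mem_primeFactors hp⟩
  calc ∑ p ∈ m.factorization.support, (m.factorization p : ℝ) * Real.log p
      = ∑ p ∈ m.factorization.support, ∑ j ∈ Icc 1 X,
          (if p ^ j ∣ m then Real.log p else 0) := by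
        refine sum_congr rfl fun p hp => ?_
        rw [Nat.support_factorization] at hp
        rw [smo_val (Nat.prime_of_mem_primeFactors hp) h1 h2]
    _ ≤ _ := by
        refine sum_le_sum_of_subset_of_nonneg h4 fun p hp _ => ?_
        refine sum_nonneg fun j _ => ?_
        split_ifs
        · exact Real.log_natCast_nonneg p
        · exact le_rfl

/-- the multiples of `q` -/
theorem smo_mul (k y X q : ℕ) (hq : 1 ≤ q) :
    ∑ m ∈ smo_S y X, (if q ∣ m then Real.log m ^ k else 0) ≤
      ∑ m ∈ smo_S y (X / q), (Real.log q + Real.log m) ^ k := by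
  rw [← sum_filter]
  have h1 : (smo_S y X).filter (fun m => q ∣ m) ⊆ (smo_S y (X / q)).image (fun m => q * m) := by
    intro m hm
    rw [mem_filter] at hm
    obtain ⟨hm, c, rfl⟩ := hm
    obtain ⟨⟨h1, h2⟩, h3⟩ := smo_mem.1 hm
    have hc : 1 ≤ c := by
      rcases Nat.eq_zero_or_pos c with h | h
      · subst h
        simp at h1
      · exact h
    refine mem_image.2 ⟨c, smo_mem.2 ⟨⟨hc, ?_⟩, fun p hp => ?_⟩, rfl⟩
    · rw [Nat.le_div_iff_mul_le (by omega), mul_comm]
      exact h2
    · apply h3 p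
      rw [Nat.primeFactors_mul (by omega) (by omega)]
      exact mem_union_right _ hp
  refine (sum_le_sum_of_subset_of_nonneg h1 fun m _ _ =>
    pow_nonneg (Real.log_natCast_nonneg m) k).trans ?_
  rw [sum_image fun a _ b _ hab => Nat.eq_of_mul_eq_mul_left (by omega) hab]
  refine sum_le_sum fun m hm => ?_
  obtain ⟨⟨h2, -⟩, -⟩ := smo_mem.1 hm
  rw [Nat.cast_mul, Real.log_mul (by exact_mod_cast (by omega : q ≠ 0))
    (by exact_mod_cast (by omega : m ≠ 0))]

theorem smo_card (y X : ℕ) : ((smo_S y X).card : ℝ) ≤ X := by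
  have h1 : (smo_S y X).card ≤ (Icc 1 X).card := card_filter_le _ _
  rw [Nat.card_Icc] at h1
  exact_mod_cast h1

/-- first theorem of Mertens -/
theorem smo_mert (y : ℕ) (hy : 2 ≤ y) : ∑ p ∈ smo_P y, Real.log p / p ≤ 10 * Real.log y := by
  have h1 := Pool.Agent.Helper53.MertensFour.Ls_upper y (by omega)
  have h2 : ∑ p ∈ smo_P y, Real.log p / p ≤ Pool.Agent.Helper53.MertensFour.Ls y := by
    unfold Pool.Agent.Helper53.MertensFour.Ls smo_P
    rw [sum_filter]
    have h3 : Icc 1 y = Ioc 0 y := rfl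
    rw [h3]
    refine sum_le_sum fun n _ => ?_
    split_ifs with hp
    · rw [ArithmeticFunction.vonMangoldt_apply_prime hp]
    · exact div_nonneg ArithmeticFunction.vonMangoldt_nonneg (Nat.cast_nonneg _)
  have h3 : Real.log 2 ≤ Real.log y :=
    Real.log_le_log (by norm_num) (by exact_mod_cast hy)
  have h4 := Real.log_two_gt_d9
  linarith

/-- the moments -/
theorem smo_main (k : ℕ) : ∃ C : ℝ, 0 < C ∧ ∀ y X : ℕ, 2 ≤ y →
    smo_F k y X ≤ C * X * Real.log y ^ k := by
  induction k with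
  | zero =>
    refine ⟨1, one_pos, fun y X _ => ?_⟩
    unfold smo_F
    simp only [pow_zero, sum_const, nsmul_eq_mul, mul_one, one_mul]
    exact smo_card y X
  | succ k ih =>
    obtain ⟨C, hC, hk⟩ := ih
    have hs1 : Summable (fun j : ℕ => (j : ℝ) ^ k * (1 / 2 : ℝ) ^ j) :=
      summable_pow_mul_geometric_of_norm_lt_one k (by norm_num)
    have hs2 : Summable (fun j : ℕ => C * (1 / 2 : ℝ) ^ j) :=
      (summable_geometric_of_lt_one (by norm_num) (by norm_num)).mul_left C
    have hs : Summable (fun j : ℕ => ((j : ℝ) ^ k + C) * (1 / 2 : ℝ) ^ j) := by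
      simp only [add_mul]
      exact hs1.add hs2
    set T : ℝ := ∑' j : ℕ, ((j : ℝ) ^ k + C) * (1 / 2 : ℝ) ^ j with hT
    have hT0 : 0 < T := by
      refine hs.tsum_pos (fun j => by positivity) 0 ?_
      positivity
    refine ⟨2 ^ (k - 1) * (2 * T) * 10, by positivity, fun y X hy => ?_⟩
    have hly : 0 < Real.log y := Real.log_pos (by exact_mod_cast (by omega : 1 < y))
    -- one prime power
    have h1 : ∀ p ∈ smo_P y, ∀ j ∈ Icc 1 X,
        ∑ m ∈ smo_S y X, Real.log m ^ k * (if p ^ j ∣ m then Real.log p else 0) ≤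
        2 ^ (k - 1) * X * Real.log y ^ k * (2 * (Real.log p / p) *
          (((j : ℝ) ^ k + C) * (1 / 2 : ℝ) ^ j)) := by
      intro p hp j hj
      unfold smo_P at hp
      rw [mem_filter, mem_Icc] at hp
      rw [mem_Icc] at hj
      have hp2 : (2 : ℝ) ≤ p := by exact_mod_cast hp.2.two_le
      have hp0 : (0 : ℝ) < p := by linarith
      have hlp : 0 ≤ Real.log p := Real.log_natCast_nonneg p
      have hlpy : Real.log p ≤ Real.log y :=
        Real.log_le_log hp0 (by exact_mod_cast hp.1.2)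
      have hq : 1 ≤ p ^ j := Nat.one_le_pow _ _ hp.2.pos
      have e1 : ∑ m ∈ smo_S y X, Real.log m ^ k * (if p ^ j ∣ m then Real.log p else 0) =
          Real.log p * ∑ m ∈ smo_S y X, (if p ^ j ∣ m then Real.log m ^ k else 0) := by
        rw [mul_sum]
        refine sum_congr rfl fun m _ => ?_
        split_ifs
        · ring
        · ring
      have e2 : ∑ m ∈ smo_S y X, (if p ^ j ∣ m then Real.log m ^ k else 0) ≤
          2 ^ (k - 1) * (X / p ^ j) * Real.log y ^ k * ((j : ℝ) ^ k + C) := by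
        refine (smo_mul k y X (p ^ j) hq).trans ?_
        have e3 : ∀ m ∈ smo_S y (X / p ^ j), (Real.log ((p ^ j : ℕ) : ℝ) + Real.log m) ^ k ≤
            2 ^ (k - 1) * ((j * Real.log y) ^ k + Real.log m ^ k) := by
          intro m _
          have e4 : Real.log ((p ^ j : ℕ) : ℝ) = j * Real.log p := by
            rw [Nat.cast_pow, Real.log_pow]
          rw [e4]
          refine (add_pow_le (by positivity) (Real.log_natCast_nonneg m) k).trans ?_
          gcongr
        refine (sum_le_sum e3).trans ?_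
        rw [← mul_sum, sum_add_distrib, sum_const, nsmul_eq_mul]
        have e5 : ((X / p ^ j : ℕ) : ℝ) ≤ (X : ℝ) / (p : ℝ) ^ j := by
          have := @Nat.cast_div_le ℝ _ _ _ X (p ^ j)
          rwa [Nat.cast_pow] at this
        have e6 : ((smo_S y (X / p ^ j)).card : ℝ) ≤ (X : ℝ) / (p : ℝ) ^ j :=
          (smo_card y _).trans e5
        have e7 : ∑ m ∈ smo_S y (X / p ^ j), Real.log m ^ k ≤
            C * ((X : ℝ) / (p : ℝ) ^ j) * Real.log y ^ k := by
          refine (hk y (X / p ^ j) hy).trans ?_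
          gcongr
        have e8 : ((smo_S y (X / p ^ j)).card : ℝ) * (j * Real.log y) ^ k ≤
            ((X : ℝ) / (p : ℝ) ^ j) * (j * Real.log y) ^ k := by
          gcongr
        calc (2 : ℝ) ^ (k - 1) * (((smo_S y (X / p ^ j)).card : ℝ) * (j * Real.log y) ^ k +
              ∑ m ∈ smo_S y (X / p ^ j), Real.log m ^ k)
            ≤ 2 ^ (k - 1) * (((X : ℝ) / (p : ℝ) ^ j) * (j * Real.log y) ^ k +
              C * ((X : ℝ) / (p : ℝ) ^ j) * Real.log y ^ k) := by gcongr
          _ = _ := by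
              rw [mul_pow]
              ring
      rw [e1]
      have e9 : 1 / (p : ℝ) ^ j ≤ 2 * (1 / p) * (1 / 2 : ℝ) ^ j := by
        obtain ⟨i, rfl⟩ : ∃ i, j = i + 1 := ⟨j - 1, by omega⟩
        rw [pow_succ, pow_succ, one_div_pow, one_div, mul_inv]
        have e10 : ((p : ℝ) ^ i)⁻¹ ≤ 1 / 2 ^ i := by
          rw [one_div]
          exact inv_anti₀ (by positivity) (pow_le_pow_left₀ (by norm_num) hp2 i)
        calc ((p : ℝ) ^ i)⁻¹ * (p : ℝ)⁻¹ ≤ (1 / 2 ^ i) * (p : ℝ)⁻¹ := by gcongr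
          _ = _ := by
              rw [one_div (p : ℝ)]
              ring
      calc Real.log p * ∑ m ∈ smo_S y X, (if p ^ j ∣ m then Real.log m ^ k else 0)
          ≤ Real.log p * (2 ^ (k - 1) * (X / p ^ j) * Real.log y ^ k * ((j : ℝ) ^ k + C)) := by
            gcongr
        _ = 2 ^ (k - 1) * X * Real.log y ^ k * ((Real.log p * ((j : ℝ) ^ k + C)) *
              (1 / (p : ℝ) ^ j)) := by ring
        _ ≤ 2 ^ (k - 1) * X * Real.log y ^ k * ((Real.log p * ((j : ℝ) ^ k + C)) *
              (2 * (1 / p) * (1 / 2 : ℝ) ^ j)) := by gcongr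
        _ = _ := by ring
    -- all prime powers
    have h2 : smo_F (k + 1) y X ≤ ∑ p ∈ smo_P y, ∑ j ∈ Icc 1 X, ∑ m ∈ smo_S y X,
        Real.log m ^ k * (if p ^ j ∣ m then Real.log p else 0) := by
      unfold smo_F
      calc ∑ m ∈ smo_S y X, Real.log m ^ (k + 1)
          ≤ ∑ m ∈ smo_S y X, ∑ p ∈ smo_P y, ∑ j ∈ Icc 1 X,
              Real.log m ^ k * (if p ^ j ∣ m then Real.log p else 0) := by
            refine sum_le_sum fun m hm => ?_
            rw [pow_succ]
            refine (mul_le_mul_of_nonneg_left (smo_log hm)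
              (pow_nonneg (Real.log_natCast_nonneg m) k)).trans (le_of_eq ?_)
            rw [mul_sum]
            exact sum_congr rfl fun p _ => mul_sum _ _ _
        _ = _ := by
            rw [sum_comm]
            exact sum_congr rfl fun p _ => sum_comm
    refine h2.trans ((sum_le_sum fun p hp => sum_le_sum fun j hj => h1 p hp j hj).trans ?_)
    have h3 : ∀ p ∈ smo_P y, ∑ j ∈ Icc 1 X, 2 ^ (k - 1) * X * Real.log y ^ k *
        (2 * (Real.log p / p) * (((j : ℝ) ^ k + C) * (1 / 2 : ℝ) ^ j)) ≤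
        2 ^ (k - 1) * X * Real.log y ^ k * (2 * T) * (Real.log p / p) := by
      intro p _
      have hlp : 0 ≤ Real.log p := Real.log_natCast_nonneg p
      rw [← mul_sum, ← mul_sum]
      have h4 : ∑ j ∈ Icc 1 X, ((j : ℝ) ^ k + C) * (1 / 2 : ℝ) ^ j ≤ T :=
        hs.sum_le_tsum _ fun j _ => by positivity
      calc 2 ^ (k - 1) * X * Real.log y ^ k * (2 * (Real.log p / p) *
            ∑ j ∈ Icc 1 X, ((j : ℝ) ^ k + C) * (1 / 2 : ℝ) ^ j)
          ≤ 2 ^ (k - 1) * X * Real.log y ^ k * (2 * (Real.log p / p) * T) := by gcongr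
        _ = _ := by ring
    refine (sum_le_sum h3).trans ?_
    rw [← mul_sum]
    calc 2 ^ (k - 1) * X * Real.log y ^ k * (2 * T) * ∑ p ∈ smo_P y, Real.log p / p
        ≤ 2 ^ (k - 1) * X * Real.log y ^ k * (2 * T) * (10 * Real.log y) := by
          have := smo_mert y hy
          gcongr
      _ = _ := by
          rw [pow_succ]
          ring

/-- SMO -/
theorem thm_Smo : St_Smo := by
  intro k
  obtain ⟨C, hC, h⟩ := smo_main k
  refine ⟨2 * C, by positivity, fun x y hx hy => ?_⟩
  have hlx : 0 < Real.log x := Real.log_pos (by exact_mod_cast (by omega : 1 < x))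
  have h1 := h y (2 * x) hy
  have h2 : (((Ioc x (2 * x)).filter (fun m => ∀ p ∈ m.primeFactors, p ≤ y)).card : ℝ) *
      Real.log x ^ k ≤ smo_F k y (2 * x) := by
    rw [← nsmul_eq_mul, ← sum_const]
    unfold smo_F
    have h3 : (Ioc x (2 * x)).filter (fun m => ∀ p ∈ m.primeFactors, p ≤ y) ⊆
        smo_S y (2 * x) := by
      intro m hm
      rw [mem_filter, mem_Ioc] at hm
      exact smo_mem.2 ⟨⟨by omega, hm.1.2⟩, hm.2⟩
    refine (sum_le_sum fun m hm => ?_).trans (sum_le_sum_of_subset_of_nonneg h3 fun m _ _ =>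
      pow_nonneg (Real.log_natCast_nonneg m) k)
    rw [mem_filter, mem_Ioc] at hm
    refine pow_le_pow_left₀ hlx.le (Real.log_le_log (by exact_mod_cast (by omega : 0 < x)) ?_) k
    exact_mod_cast hm.1.1.le
  rw [div_pow, mul_div_assoc', le_div_iff₀ (pow_pos hlx k)]
  refine (h2.trans h1).trans (le_of_eq ?_)
  push_cast
  ring

end Pool.Agent.EVN
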