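import Pool.Agent.EVN.Stmts

set_option autoImplicit false

/-!
# EVN / VB: the variance over `m` (helper92)
-/

namespace Pool.Agent.EVN

open Finset Filter MeasureTheory
open Pool.Agent.SI (nit DP IsW Wd)

theorem vb_norm_nit (t : ℝ) (n : ℕ) : ‖nit t n‖ = 1 := by
  unfold Pool.Agent.SI.nit
  exact Complex.norm_exp_ofReal_mul_I _

theorem vb_cont_nit (m : ℕ) : Continuous (fun ξ : ℝ => nit (2 * Real.pi * ξ) m) := by
  unfold Pool.Agent.SI.nit
  fun_prop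

theorem vb_om (M P : ℕ) (hP : 0 < P) (hPM : P ≤ 2 * M) :
    ∑ m ∈ Ioc M (2 * M), (om P m : ℝ) ≤ 5 * M := by
  have h1 : ∑ m ∈ Ioc M (2 * M), om P m =
      ∑ p ∈ (Ioc P (2 * P)).filter (fun p => p.Prime),
        ((Ioc M (2 * M)).filter (fun m => p ∣ m)).card := by
    have h2 : ∀ m ∈ Ioc M (2 * M), om P m =
        ∑ p ∈ (Ioc P (2 * P)).filter (fun p => p.Prime), if p ∣ m then 1 else 0 := by
      intro m _
      unfold om
      rw [← Finset.filter_filter, ← Finset.sum_filter, Finset.sum_const, smul_eq_mul, mul_one]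
    rw [Finset.sum_congr rfl h2, Finset.sum_comm]
    exact Finset.sum_congr rfl fun p _ => by rw [Finset.card_filter]
  have h3 : ∀ p ∈ (Ioc P (2 * P)).filter (fun p => p.Prime),
      ((Ioc M (2 * M)).filter (fun m => p ∣ m)).card ≤ M / P + 2 := by
    intro p hp
    rw [mem_filter, mem_Ioc] at hp
    have hp0 : 0 < p := hp.2.pos
    have h4 : ((Ioc M (2 * M)).filter (fun m => p ∣ m)).card ≤ (Icc (M / p) (2 * M / p)).card := by
      refine card_le_card_of_injOn (fun m => m / p) ?_ ?_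
      · intro m hm
        rw [coe_filter, Set.mem_ofPred_eq, mem_Ioc] at hm
        rw [coe_Icc, Set.mem_Icc]
        exact ⟨Nat.div_le_div_right hm.1.1.le, Nat.div_le_div_right hm.1.2⟩
      · intro m hm m' hm' h
        rw [coe_filter, Set.mem_ofPred_eq] at hm hm'
        exact Nat.div_left_inj hm.2 hm'.2 |>.1 h
    refine h4.trans ?_
    rw [Nat.card_Icc]
    have h5 : 2 * M / p ≤ M / p + M / p + 1 := by
      rw [Nat.div_le_iff_le_mul_add_pred hp0]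
      have h6 := Nat.lt_mul_div_succ M hp0
      have h7 : p * (M / p + 1) = p * (M / p) + p := by ring
      have h8 : p * (M / p + M / p + 1) = 2 * (p * (M / p)) + p := by ring
      omega
    have h6 : M / p ≤ M / P := Nat.div_le_div_left hp.1.1.le hP
    rw [Nat.sub_le_iff_le_add]
    omega
  have h5 : ∑ m ∈ Ioc M (2 * M), om P m ≤ 5 * M := by
    rw [h1]
    refine (Finset.sum_le_card_nsmul _ _ _ h3).trans ?_
    have h6 : ((Ioc P (2 * P)).filter (fun p => p.Prime)).card ≤ P := by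
      refine (card_filter_le _ _).trans ?_
      rw [Nat.card_Ioc]
      omega
    rw [smul_eq_mul]
    calc ((Ioc P (2 * P)).filter (fun p => p.Prime)).card * (M / P + 2) ≤ P * (M / P + 2) :=
          Nat.mul_le_mul_right _ h6
      _ = P * (M / P) + 2 * P := by ring
      _ ≤ M + 2 * (2 * M) := Nat.add_le_add (Nat.mul_div_le M P) (Nat.mul_le_mul_left _ hPM)
      _ = 5 * M := by ring
  have h6 : ((∑ m ∈ Ioc M (2 * M), om P m : ℕ) : ℝ) ≤ ((5 * M : ℕ) : ℝ) := Nat.cast_le.2 h5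
  push_cast at h6
  exact h6

/-- the inner sum as a double sum -/
theorem vb_sum (w : ℝ → ℝ) (d d' : ℝ) (n X R m : ℕ) (Q : Finset ℕ) (hQ : Q ⊆ Ioc R (2 * R)) :
    ∑ x ∈ Icc 1 (5 * X), ∑ q ∈ Icc 1 (2 * R), aL n X x * ind Q q *
      (Wd w d (Real.log x - Real.log q - Real.log m) -
        Wd w d' (Real.log x - Real.log q - Real.log m)) =
    ∑ q ∈ Q, (Tq w d n X m q - Tq w d' n X m q) := by
  rw [Finset.sum_comm]
  have h1 : Q ⊆ Icc 1 (2 * R) := by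
    intro q hq
    have := hQ hq
    rw [mem_Ioc] at this
    rw [mem_Icc]
    omega
  rw [← Finset.sum_subset h1 (f := fun q => ∑ x ∈ Icc 1 (5 * X), aL n X x * ind Q q *
      (Wd w d (Real.log x - Real.log q - Real.log m) -
        Wd w d' (Real.log x - Real.log q - Real.log m)))]
  · refine Finset.sum_congr rfl fun q hq => ?_
    unfold Tq
    rw [← Finset.sum_sub_distrib]
    refine Finset.sum_congr rfl fun x _ => ?_
    unfold ind
    rw [if_pos hq]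
    ring
  · intro q _ hq
    refine Finset.sum_eq_zero fun x _ => ?_
    unfold ind
    rw [if_neg hq]
    ring

theorem vb_mid (n : ℕ) : MeasurableSet (Mid n) := by
  unfold Mid
  have h : Continuous fun ξ : ℝ => |2 * Real.pi * ξ| := by fun_prop
  exact (measurableSet_le measurable_const h.measurable).inter
    (measurableSet_le h.measurable measurable_const)

theorem vb_mid_sub {n : ℕ} {ξ : ℝ} (h : ξ ∈ Mid n) : |ξ| ≤ (n : ℝ) ^ (13 / 12 : ℝ) := by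
  have h1 := h.2
  refine le_trans ?_ h1
  rw [abs_mul, abs_of_pos Real.two_pi_pos]
  have h2 : (1 : ℝ) ≤ 2 * Real.pi := by
    have := Real.pi_gt_three
    linarith
  nlinarith [abs_nonneg ξ]

theorem vb_ev (C : ℝ) (A : ℕ) : ∀ᶠ n : ℕ in atTop, 1 ≤ Real.log n ∧ 8 * C ^ 2 ≤ Real.log n ∧
    40 * C * Real.log n ^ (A + 1) ≤ (n : ℝ) ^ (1 / 300 : ℝ) ∧
    40 * Real.log n ^ A ≤ (n : ℝ) ^ (1 / 10 : ℝ) ∧
    4 * Real.pi * (n : ℝ) ^ (13 / 12 : ℝ) ≤ (n : ℝ) ^ 2 := by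
  have hL : Tendsto (fun n : ℕ => Real.log n) atTop atTop :=
    Real.tendsto_log_atTop.comp tendsto_natCast_atTop_atTop
  have key : ∀ (c s : ℝ) (k : ℕ), 0 < s → ∀ᶠ n : ℕ in atTop, c * Real.log n ^ k ≤ (n : ℝ) ^ s := by
    intro c s k hs
    have h1 := (isLittleO_log_rpow_rpow_atTop ((k : ℕ) : ℝ) hs).bound
      (show (0 : ℝ) < 1 / (|c| + 1) by positivity)
    have h2 := tendsto_natCast_atTop_atTop.eventually h1
    filter_upwards [h2, eventually_ge_atTop 1] with n hn hn1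
    rw [Real.rpow_natCast] at hn
    have h3 : (0 : ℝ) ≤ Real.log n := Real.log_natCast_nonneg n
    rw [Real.norm_of_nonneg (pow_nonneg h3 _),
      Real.norm_of_nonneg (Real.rpow_nonneg (Nat.cast_nonneg n) _)] at hn
    have h4 : (0 : ℝ) < |c| + 1 := by positivity
    rw [one_div_mul_eq_div, le_div_iff₀ h4] at hn
    have h5 : c * Real.log n ^ k ≤ Real.log n ^ k * (|c| + 1) := by
      have : (0 : ℝ) ≤ Real.log n ^ k := pow_nonneg h3 _
      have h6 := le_abs_self c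
      nlinarith
    linarith
  have e5 : ∀ᶠ n : ℕ in atTop, 4 * Real.pi * (n : ℝ) ^ (13 / 12 : ℝ) ≤ (n : ℝ) ^ 2 := by
    filter_upwards [key (4 * Real.pi) (11 / 12) 0 (by norm_num), eventually_ge_atTop 1] with n hn hn1
    have hn0 : (0 : ℝ) < n := by exact_mod_cast hn1
    rw [pow_zero, mul_one] at hn
    calc 4 * Real.pi * (n : ℝ) ^ (13 / 12 : ℝ) ≤ (n : ℝ) ^ (11 / 12 : ℝ) * (n : ℝ) ^ (13 / 12 : ℝ) :=
          mul_le_mul_of_nonneg_right hn (Real.rpow_nonneg hn0.le _)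
      _ = (n : ℝ) ^ 2 := by
          rw [← Real.rpow_add hn0, ← Real.rpow_natCast]
          norm_num
  filter_upwards [hL.eventually_ge_atTop 1, hL.eventually_ge_atTop (8 * C ^ 2),
    key (40 * C) (1 / 300) (A + 1) (by norm_num), key 40 (1 / 10) A (by norm_num), e5]
    with n h1 h2 h3 h4 h5
  exact ⟨h1, h2, h3, h4, h5⟩

theorem thm_VB (h1 : St_FI) (h2 : St_VM) (h3 : St_VT) (h4 : St_Ker) (h5 : St_Dua) : St_VB := by
  intro w hw A C₀
  obtain ⟨C, n₁, hC, hVM⟩ := h2 w hw C₀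
  obtain ⟨n₂, hVT⟩ := h3 w hw C₀
  obtain ⟨C', n₃, hK⟩ := h4 (A + 5) (1 / 100) (by norm_num)
  obtain ⟨n₄, hn₄⟩ := eventually_atTop.1 (vb_ev C A)
  refine ⟨C', max (max n₁ n₂) (max n₃ n₄), fun n hn M R P Q hQ hMR hlog hM hP1 hP2 => ?_⟩
  have hn1 : n₁ ≤ n := le_trans (le_trans (le_max_left _ _) (le_max_left _ _)) hn
  have hn2 : n₂ ≤ n := le_trans (le_trans (le_max_right _ _) (le_max_left _ _)) hn
  have hn3 : n₃ ≤ n := le_trans (le_trans (le_max_left _ _) (le_max_right _ _)) hn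
  have hn4 : n₄ ≤ n := le_trans (le_trans (le_max_right _ _) (le_max_right _ _)) hn
  obtain ⟨hL1, hL2, hL3, hL4, hL5⟩ := hn₄ n hn4
  obtain ⟨v1, v2⟩ := hVM n hn1 M R Q hQ hMR hlog hM
  have v3 := hVT n hn2 M R Q hQ hMR hlog hM
  set L := Real.log n with hLdef
  have hn0 : (0 : ℝ) < n := by
    rcases Nat.eq_zero_or_pos n with h0 | h0
    · rw [hLdef, h0, Nat.cast_zero, Real.log_zero] at hL1
      linarith
    · exact_mod_cast h0
  have hn1' : (1 : ℝ) ≤ n := by exact_mod_cast (by exact_mod_cast hn0 : 0 < n)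
  have hMR0 : 0 < M * R := by
    rcases Nat.eq_zero_or_pos (M * R) with h0 | h0
    · exfalso
      have : ((M : ℝ) * R) = 0 := by exact_mod_cast h0
      rw [this, mul_zero] at hlog
      linarith
    · exact h0
  have hM0 : 0 < M := Nat.pos_of_mul_pos_right hMR0
  have hR0 : 0 < R := Nat.pos_of_mul_pos_left hMR0
  have hMn : M ≤ n := by
    have : (M : ℝ) ≤ n := hM.trans (by
      calc (n : ℝ) ^ (1 / 2 : ℝ) ≤ (n : ℝ) ^ (1 : ℝ) :=
            Real.rpow_le_rpow_of_exponent_le hn1' (by norm_num)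
        _ = n := Real.rpow_one _)
    exact_mod_cast this
  have hPpos : 0 < P := by
    have : (0 : ℝ) < P := lt_of_lt_of_le (by positivity) hP1
    exact_mod_cast this
  obtain ⟨U, hU1, hU2, hU3⟩ := hK n hn3 M P hMn hP1 hP2
  have hRr : (0 : ℝ) < R := by exact_mod_cast hR0
  have hMr : (0 : ℝ) < M := by exact_mod_cast hM0
  obtain ⟨f1, f2, f3⟩ := h1 w hw (aL n (M * R)) (ind Q) (5 * (M * R)) (2 * R) (1 / (4 * R))
    ((n : ℝ) ^ (-(1 / 4) : ℝ)) (by positivity) (Real.rpow_pos_of_pos hn0 _)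
  change Continuous (h0 w n M R Q) at f1
  change Integrable (h0 w n M R Q) at f2
  set F : ℝ → ℂ := h0 w n M R Q with hFdef
  set G : ℝ → ℂ := (Mid n).indicator F with hGdef
  have hmid := vb_mid n
  have hG1 : Integrable G := f2.indicator hmid
  have hG2 : Integrable (fun ξ => ‖G ξ‖ ^ 2) := by
    have e1 : (fun ξ => ‖G ξ‖ ^ 2) = (Mid n).indicator (fun ξ => ‖F ξ‖ ^ 2) := by
      funext ξ
      by_cases hξ : ξ ∈ Mid n
      · rw [hGdef, Set.indicator_of_mem hξ, Set.indicator_of_mem hξ]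
      · rw [hGdef, Set.indicator_of_notMem hξ, Set.indicator_of_notMem hξ, norm_zero]
        norm_num
    rw [e1, integrable_indicator_iff hmid]
    have e2 : Mid n ⊆ Set.Icc (-((n : ℝ) ^ (13 / 12 : ℝ))) ((n : ℝ) ^ (13 / 12 : ℝ)) :=
      fun ξ hξ => Set.mem_Icc.2 (abs_le.1 (vb_mid_sub hξ))
    exact ((f1.norm.pow 2).integrableOn_Icc).mono_set e2
  have hG3 : ∫ ξ : ℝ, ‖G ξ‖ = ∫ ξ in Mid n, ‖F ξ‖ := by
    rw [← integral_indicator hmid]
    refine integral_congr_ae (Eventually.of_forall fun ξ => ?_)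
    by_cases hξ : ξ ∈ Mid n
    · simp only [hGdef, Set.indicator_of_mem hξ]
    · simp only [hGdef, Set.indicator_of_notMem hξ, norm_zero]
  have hG4 : ∫ ξ : ℝ, ‖G ξ‖ ^ 2 = ∫ ξ in Mid n, ‖F ξ‖ ^ 2 := by
    rw [← integral_indicator hmid]
    refine integral_congr_ae (Eventually.of_forall fun ξ => ?_)
    by_cases hξ : ξ ∈ Mid n
    · simp only [hGdef, Set.indicator_of_mem hξ]
    · simp only [hGdef, Set.indicator_of_notMem hξ, norm_zero]
      norm_num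
  have hG5 : ∀ m : ℕ, ∫ ξ : ℝ, G ξ * nit (2 * Real.pi * ξ) m =
      ∫ ξ in Mid n, F ξ * nit (2 * Real.pi * ξ) m := by
    intro m
    rw [← integral_indicator hmid]
    refine integral_congr_ae (Eventually.of_forall fun ξ => ?_)
    by_cases hξ : ξ ∈ Mid n
    · simp only [hGdef, Set.indicator_of_mem hξ]
    · simp only [hGdef, Set.indicator_of_notMem hξ, zero_mul]
  have hdua := h5 (Ioc M (2 * M)) (fun m => (om P m : ℝ)) G ((n : ℝ) ^ (13 / 12 : ℝ))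
    (M / L ^ (A + 5)) (5 * M) ((n : ℝ) ^ (1 / 100 : ℝ)) U
    (fun m hm => ⟨by rw [mem_Ioc] at hm; omega, Nat.cast_nonneg _⟩)
    (Real.rpow_nonneg hn0.le _) (by positivity) (Real.rpow_nonneg hn0.le _)
    (vb_om M P hPpos hP2) hU1 hU2
    (fun u hu hu' => hU3 u (hu.trans hL5) hu') hG1 hG2
    (fun ξ hξ => by
      rw [hGdef, Set.indicator_of_notMem]
      intro h0
      exact absurd (vb_mid_sub h0) (not_le.2 hξ))
  set Y : ℝ := (M * R : ℝ) * R with hYdef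
  have hY0 : 0 < Y := by positivity
  -- the inner sum
  have hD : ∀ m ∈ Ioc M (2 * M), (∑ q ∈ Q, (Tq w (1 / (4 * R)) n (M * R) m q -
      Tq w ((n : ℝ) ^ (-(1 / 4) : ℝ)) n (M * R) m q)) ^ 2 ≤
      2 * ‖∫ ξ : ℝ, G ξ * nit (2 * Real.pi * ξ) m‖ ^ 2 +
        2 * (Y * (n : ℝ) ^ (-(1 / 20) : ℝ)) ^ 2 := by
    intro m hm
    rw [mem_Ioc] at hm
    have e1 := f3 m (by omega)
    rw [vb_sum w _ _ n (M * R) R m Q hQ] at e1
    change _ = ∫ ξ : ℝ, F ξ * nit (2 * Real.pi * ξ) m at e1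
    have e2 : Integrable (fun ξ : ℝ => F ξ * nit (2 * Real.pi * ξ) m) :=
      f2.mul_bdd (c := 1) (vb_cont_nit m).aestronglyMeasurable
        (Eventually.of_forall fun ξ => (vb_norm_nit _ _).le)
    rw [← integral_add_compl hmid e2, ← hG5] at e1
    set D := ∑ q ∈ Q, (Tq w (1 / (4 * R)) n (M * R) m q -
      Tq w ((n : ℝ) ^ (-(1 / 4) : ℝ)) n (M * R) m q) with hDdef
    have e3 : |D| ≤ ‖∫ ξ : ℝ, G ξ * nit (2 * Real.pi * ξ) m‖ + Y * (n : ℝ) ^ (-(1 / 20) : ℝ) := by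
      have e4 : |D| = ‖((D : ℝ) : ℂ)‖ := by rw [Complex.norm_real, Real.norm_eq_abs]
      rw [e4, e1]
      exact (norm_add_le _ _).trans (add_le_add le_rfl (v3 m))
    rw [← sq_abs]
    have e5 := abs_nonneg D
    nlinarith [sq_nonneg (‖∫ ξ : ℝ, G ξ * nit (2 * Real.pi * ξ) m‖ - Y * (n : ℝ) ^ (-(1 / 20) : ℝ))]
  have hsum : ∑ m ∈ Ioc M (2 * M), (om P m : ℝ) *
      (∑ q ∈ Q, (Tq w (1 / (4 * R)) n (M * R) m q -
        Tq w ((n : ℝ) ^ (-(1 / 4) : ℝ)) n (M * R) m q)) ^ 2 ≤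
      2 * (∑ m ∈ Ioc M (2 * M), (om P m : ℝ) * ‖∫ ξ : ℝ, G ξ * nit (2 * Real.pi * ξ) m‖ ^ 2) +
        (5 * M) * (2 * (Y * (n : ℝ) ^ (-(1 / 20) : ℝ)) ^ 2) := by
    calc _ ≤ ∑ m ∈ Ioc M (2 * M), (om P m : ℝ) *
        (2 * ‖∫ ξ : ℝ, G ξ * nit (2 * Real.pi * ξ) m‖ ^ 2 +
        2 * (Y * (n : ℝ) ^ (-(1 / 20) : ℝ)) ^ 2) :=
          Finset.sum_le_sum fun m hm => mul_le_mul_of_nonneg_left (hD m hm) (Nat.cast_nonneg _)
      _ = 2 * (∑ m ∈ Ioc M (2 * M), (om P m : ℝ) * ‖∫ ξ : ℝ, G ξ * nit (2 * Real.pi * ξ) m‖ ^ 2) +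
        (∑ m ∈ Ioc M (2 * M), (om P m : ℝ)) * (2 * (Y * (n : ℝ) ^ (-(1 / 20) : ℝ)) ^ 2) := by
          rw [Finset.mul_sum, Finset.sum_mul, ← Finset.sum_add_distrib]
          exact Finset.sum_congr rfl fun m _ => by ring
      _ ≤ _ := by
          have := mul_le_mul_of_nonneg_right (vb_om M P hPpos hP2)
            (show 0 ≤ 2 * (Y * (n : ℝ) ^ (-(1 / 20) : ℝ)) ^ 2 by positivity)
          linarith
  refine hsum.trans ?_
  rw [hG3, hG4] at hdua
  have hI0 : 0 ≤ ∫ ξ in Mid n, ‖F ξ‖ := integral_nonneg fun _ => norm_nonneg _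
  have hL0 : (0 : ℝ) < L := by linarith
  have hLA : (0 : ℝ) < L ^ A := by positivity
  have t1 : (M : ℝ) / L ^ (A + 5) * (∫ ξ in Mid n, ‖F ξ‖) ^ 2 ≤ M * Y ^ 2 / L ^ A * (1 / 8) := by
    have e1 : (∫ ξ in Mid n, ‖F ξ‖) ^ 2 ≤ (C * Y * L ^ 2) ^ 2 := pow_le_pow_left₀ hI0 v2 2
    calc (M : ℝ) / L ^ (A + 5) * (∫ ξ in Mid n, ‖F ξ‖) ^ 2 ≤
        M / L ^ (A + 5) * (C * Y * L ^ 2) ^ 2 := mul_le_mul_of_nonneg_left e1 (by positivity)
      _ = M * Y ^ 2 / L ^ A * (C ^ 2 / L) := by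
          field_simp
          ring
      _ ≤ M * Y ^ 2 / L ^ A * (1 / 8) := by
          refine mul_le_mul_of_nonneg_left ?_ (by positivity)
          rw [div_le_div_iff₀ hL0 (by norm_num)]
          linarith
  have t2 : 5 * (M : ℝ) * (n : ℝ) ^ (1 / 100 : ℝ) * ∫ ξ in Mid n, ‖F ξ‖ ^ 2 ≤
      M * Y ^ 2 / L ^ A * (1 / 8) := by
    have e1 : (n : ℝ) ^ (1 / 100 : ℝ) * (n : ℝ) ^ (-(1 / 75) : ℝ) = ((n : ℝ) ^ (1 / 300 : ℝ))⁻¹ := by
      rw [← Real.rpow_add hn0, ← Real.rpow_neg hn0.le]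
      norm_num
    have e2 : (0 : ℝ) < (n : ℝ) ^ (1 / 300 : ℝ) := Real.rpow_pos_of_pos hn0 _
    calc 5 * (M : ℝ) * (n : ℝ) ^ (1 / 100 : ℝ) * ∫ ξ in Mid n, ‖F ξ‖ ^ 2 ≤
        5 * (M : ℝ) * (n : ℝ) ^ (1 / 100 : ℝ) * (C * Y ^ 2 * (n : ℝ) ^ (-(1 / 75) : ℝ) * L) :=
          mul_le_mul_of_nonneg_left v1 (by positivity)
      _ = 5 * M * C * Y ^ 2 * L * ((n : ℝ) ^ (1 / 100 : ℝ) * (n : ℝ) ^ (-(1 / 75) : ℝ)) := by ring
      _ = M * Y ^ 2 / L ^ A * (5 * C * L ^ (A + 1) / (n : ℝ) ^ (1 / 300 : ℝ)) := by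
          rw [e1]
          field_simp
          ring
      _ ≤ M * Y ^ 2 / L ^ A * (1 / 8) := by
          refine mul_le_mul_of_nonneg_left ?_ (by positivity)
          rw [div_le_div_iff₀ e2 (by norm_num)]
          linarith
  have t3 : 5 * (M : ℝ) * (2 * (Y * (n : ℝ) ^ (-(1 / 20) : ℝ)) ^ 2) ≤ M * Y ^ 2 / L ^ A * (1 / 4) := by
    have e1 : ((n : ℝ) ^ (-(1 / 20) : ℝ)) ^ 2 = ((n : ℝ) ^ (1 / 10 : ℝ))⁻¹ := by
      rw [← Real.rpow_natCast, ← Real.rpow_mul hn0.le, ← Real.rpow_neg hn0.le]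
      norm_num
    have e2 : (0 : ℝ) < (n : ℝ) ^ (1 / 10 : ℝ) := Real.rpow_pos_of_pos hn0 _
    calc 5 * (M : ℝ) * (2 * (Y * (n : ℝ) ^ (-(1 / 20) : ℝ)) ^ 2) =
        10 * M * Y ^ 2 * ((n : ℝ) ^ (-(1 / 20) : ℝ)) ^ 2 := by ring
      _ = M * Y ^ 2 / L ^ A * (10 * L ^ A / (n : ℝ) ^ (1 / 10 : ℝ)) := by
          rw [e1]
          field_simp
      _ ≤ M * Y ^ 2 / L ^ A * (1 / 4) := by
          refine mul_le_mul_of_nonneg_left ?_ (by positivity)
          rw [div_le_div_iff₀ e2 (by norm_num)]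
          linarith
  have t4 : 0 ≤ M * Y ^ 2 / L ^ A := by positivity
  linarith

end Pool.Agent.EVN
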