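import Pool.Agent.EVN.Stmts

/-!
EVN [VM]: the middle frequencies (helper11).
-/

set_option autoImplicit false

namespace Pool.Agent.EVN

open Finset Filter MeasureTheory
open Pool.Agent.SI (nit DP IsW Wd)
open scoped FourierTransform

theorem vm_meas (n : ℕ) : MeasurableSet (Mid n) := by
  have hc : Continuous (fun ξ : ℝ => |2 * Real.pi * ξ|) := by fun_prop
  exact ((isClosed_le continuous_const hc).inter (isClosed_le hc continuous_const)).measurableSet

theorem vm_suma (n X : ℕ) : ∑ x ∈ Icc 1 (5 * X), aL n X x ^ 2 ≤ 4 * X * Real.log n ^ 2 := by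
  have h0 : ∑ x ∈ Icc 1 (5 * X), aL n X x ^ 2 ≤
      ∑ x ∈ (Icc 1 (5 * X)).filter (fun x => X < x ∧ x ≤ 5 * X), Real.log n ^ 2 := by
    rw [Finset.sum_filter]
    apply Finset.sum_le_sum
    intro x _
    unfold aL
    split_ifs with h
    · have hn : (0 : ℝ) ≤ Real.log n := Real.log_natCast_nonneg n
      have h1 : ArithmeticFunction.vonMangoldt (n - x) ≤ Real.log n := by
        refine le_trans ArithmeticFunction.vonMangoldt_le_log ?_
        rcases Nat.eq_zero_or_pos (n - x) with h2 | h2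
        · rw [h2]
          simpa using hn
        · apply Real.log_le_log
          · exact_mod_cast h2
          · exact_mod_cast Nat.sub_le n x
      exact pow_le_pow_left₀ ArithmeticFunction.vonMangoldt_nonneg h1 2
    · simp
  refine le_trans h0 ?_
  rw [Finset.sum_const, nsmul_eq_mul]
  apply mul_le_mul_of_nonneg_right _ (sq_nonneg _)
  have h2 : ((Icc 1 (5 * X)).filter (fun x => X < x ∧ x ≤ 5 * X)).card ≤ (Ioc X (5 * X)).card := by
    apply Finset.card_le_card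
    intro x hx
    exact Finset.mem_Ioc.2 (Finset.mem_filter.1 hx).2
  rw [Nat.card_Ioc] at h2
  have h3 : ((Icc 1 (5 * X)).filter (fun x => X < x ∧ x ≤ 5 * X)).card ≤ 4 * X := by omega
  exact_mod_cast h3

theorem vm_sumb (Q : Finset ℕ) (R : ℕ) (hQ : Q ⊆ Ioc R (2 * R)) :
    ∑ q ∈ Icc 1 (2 * R), ind Q q ^ 2 ≤ R := by
  have h : ∑ q ∈ Icc 1 (2 * R), ind Q q ^ 2 =
      (((Icc 1 (2 * R)).filter (fun q => q ∈ Q)).card : ℝ) := by
    rw [Finset.card_filter]
    push_cast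
    apply Finset.sum_congr rfl
    intro q _
    unfold ind
    split_ifs <;> simp
  rw [h]
  have h2 : ((Icc 1 (2 * R)).filter (fun q => q ∈ Q)).card ≤ (Ioc R (2 * R)).card :=
    Finset.card_le_card (fun q hq => hQ (Finset.mem_filter.1 hq).2)
  rw [Nat.card_Ioc] at h2
  have h3 : ((Icc 1 (2 * R)).filter (fun q => q ∈ Q)).card ≤ R := by omega
  exact_mod_cast h3

theorem vm_log (C₀ : ℕ) : ∃ n₀ : ℕ, ∀ n ≥ n₀, Real.log n ^ C₀ ≤ (n : ℝ) ^ (1 / 4 : ℝ) := by
  have h := isLittleO_log_rpow_rpow_atTop (C₀ : ℝ) (show (0 : ℝ) < 1 / 4 by norm_num)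
  have h2 := (h.bound (show (0 : ℝ) < 1 by norm_num))
  have h3 := tendsto_natCast_atTop_atTop (R := ℝ) |>.eventually h2
  obtain ⟨n₀, hn₀⟩ := eventually_atTop.1 h3
  refine ⟨n₀, fun n hn => ?_⟩
  have h4 := hn₀ n hn
  rw [Real.rpow_natCast, one_mul] at h4
  have h5 : (0 : ℝ) ≤ Real.log n := Real.log_natCast_nonneg n
  rwa [Real.norm_of_nonneg (pow_nonneg h5 _),
    Real.norm_of_nonneg (Real.rpow_nonneg (Nat.cast_nonneg n) _)] at h4

theorem thm_VM (h1 : St_Sup) (h2 : St_MVD) (h3 : Pool.Agent.SI.St_Four) : St_VM := by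
  intro w hw C₀
  obtain ⟨-, hK, -⟩ := h3 w hw
  obtain ⟨C2, hC2, hdec⟩ := hK 2
  obtain ⟨C3, hC3, hmv⟩ := h2
  obtain ⟨n1, hn1⟩ := h1 C₀
  obtain ⟨n2, hn2⟩ := vm_log C₀
  refine ⟨64 * C2 * C3 + 32 * C2 ^ 2 * C3, max (max n1 n2) 3, by positivity, ?_⟩
  intro n hn M R Q hQ h16 hlog hM
  have hnn1 : n1 ≤ n := le_trans (le_trans (le_max_left _ _) (le_max_left _ _)) hn
  have hnn2 : n2 ≤ n := le_trans (le_trans (le_max_right _ _) (le_max_left _ _)) hn
  have hn3 : 3 ≤ n := le_trans (le_max_right _ _) hn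
  have hnR : (3 : ℝ) ≤ n := by exact_mod_cast hn3
  have hnpos : (0 : ℝ) < n := by linarith
  have hL1 : 1 ≤ Real.log n := by
    rw [Real.le_log_iff_exp_le hnpos]
    have := Real.exp_one_lt_d9
    linarith
  set L : ℝ := Real.log n with hL
  have hLC : 0 < L ^ C₀ := by positivity
  have hX0 : 0 < M * R := by
    rcases Nat.eq_zero_or_pos (M * R) with h | h
    · exfalso
      have : ((M : ℝ) * R) = 0 := by exact_mod_cast h
      rw [this, mul_zero] at hlog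
      linarith
    · exact h
  have hM1 : 1 ≤ M := Nat.pos_of_mul_pos_right hX0
  have hR1 : 1 ≤ R := Nat.pos_of_mul_pos_left hX0
  have hMr : (1 : ℝ) ≤ M := by exact_mod_cast hM1
  have hRr : (1 : ℝ) ≤ R := by exact_mod_cast hR1
  set X : ℝ := (M : ℝ) * R with hX
  have hXcast : ((M * R : ℕ) : ℝ) = X := by push_cast; rfl
  have hXpos : 0 < X := by positivity
  have hRX : (R : ℝ) ≤ X := by
    rw [hX]
    nlinarith
  have h16r : 16 * X ≤ n := by
    rw [← hXcast]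
    exact_mod_cast h16
  -- the parameters
  set d : ℝ := 1 / (4 * (R : ℝ)) with hd
  set d' : ℝ := (n : ℝ) ^ (-(1 / 4) : ℝ) with hd'
  have hdpos : 0 < d := by positivity
  have hd1 : d ≤ 1 := by
    rw [hd, div_le_one (by positivity)]
    linarith
  have hdd' : d ≤ d' := by
    have h4 : (n : ℝ) ^ (1 / 4 : ℝ) ≤ 4 * R := by
      have e1 : (n : ℝ) = (n : ℝ) ^ (1 / 4 : ℝ) * (n : ℝ) ^ (1 / 4 : ℝ) * (n : ℝ) ^ (1 / 2 : ℝ) := by
        rw [← Real.rpow_add hnpos, ← Real.rpow_add hnpos]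
        norm_num
      have e2 : (n : ℝ) ≤ (n : ℝ) ^ (1 / 4 : ℝ) * ((n : ℝ) ^ (1 / 2 : ℝ) * R) := by
        refine le_trans hlog ?_
        apply mul_le_mul (hn2 n hnn2) _ hXpos.le (by positivity)
        rw [hX]
        exact mul_le_mul_of_nonneg_right hM (by positivity)
      have p1 : 0 < (n : ℝ) ^ (1 / 4 : ℝ) := by positivity
      have p2 : 0 < (n : ℝ) ^ (1 / 2 : ℝ) := by positivity
      have e3 : (n : ℝ) ^ (1 / 4 : ℝ) * ((n : ℝ) ^ (1 / 2 : ℝ)) * (n : ℝ) ^ (1 / 4 : ℝ) ≤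
          (n : ℝ) ^ (1 / 4 : ℝ) * ((n : ℝ) ^ (1 / 2 : ℝ)) * R := by
        calc (n : ℝ) ^ (1 / 4 : ℝ) * ((n : ℝ) ^ (1 / 2 : ℝ)) * (n : ℝ) ^ (1 / 4 : ℝ)
            = (n : ℝ) ^ (1 / 4 : ℝ) * (n : ℝ) ^ (1 / 4 : ℝ) * (n : ℝ) ^ (1 / 2 : ℝ) := by ring
          _ = n := e1.symm
          _ ≤ _ := e2
          _ = _ := by ring
      have e4 := le_of_mul_le_mul_left e3 (by positivity)
      linarith
    rw [hd, hd', Real.rpow_neg hnpos.le, ← one_div]
    exact one_div_le_one_div_of_le (by positivity) h4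
  -- logs
  have hlogX : Real.log ((5 * (M * R) : ℕ) : ℝ) ≤ L := by
    apply Real.log_le_log
    · exact_mod_cast (by omega : 0 < 5 * (M * R))
    · exact_mod_cast (by omega : 5 * (M * R) ≤ n)
  have hlogR : Real.log ((2 * R : ℕ) : ℝ) ≤ L := by
    apply Real.log_le_log
    · exact_mod_cast (by omega : 0 < 2 * R)
    · have : 2 * R ≤ n := by nlinarith
      exact_mod_cast this
  -- mean values
  obtain ⟨ia, ja⟩ := hmv (aL n (M * R)) (5 * (M * R)) d (by omega) hdpos hd1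
  obtain ⟨ib, jb⟩ := hmv (ind Q) (2 * R) d (by omega) hdpos hd1
  have hdinv : 1 / d = 4 * R := by
    rw [hd]
    field_simp
  set Ia : ℝ := ∫ ξ : ℝ, ‖DP (aL n (M * R)) (5 * (M * R)) (2 * Real.pi * ξ)‖ ^ 2 /
    (1 + d * |ξ|) ^ 2 with hIa
  set Ib : ℝ := ∫ ξ : ℝ, ‖DP (ind Q) (2 * R) (2 * Real.pi * ξ)‖ ^ 2 / (1 + d * |ξ|) ^ 2 with hIb
  have hIaB : Ia ≤ 56 * C3 * X ^ 2 * L ^ 3 := by
    refine le_trans ja ?_
    have b1 : 1 / d + ((5 * (M * R) : ℕ) : ℝ) * (1 + Real.log ((5 * (M * R) : ℕ) : ℝ)) ≤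
        14 * X * L := by
      rw [hdinv]
      have c1 : ((5 * (M * R) : ℕ) : ℝ) = 5 * X := by
        push_cast
        rfl
      rw [c1] at hlogX ⊢
      have c2 : 5 * X * (1 + Real.log (5 * X)) ≤ 5 * X * (1 + L) := by
        apply mul_le_mul_of_nonneg_left _ (by positivity)
        linarith
      nlinarith
    have b2 := vm_suma n (M * R)
    rw [hXcast] at b2
    calc C3 * (1 / d + ((5 * (M * R) : ℕ) : ℝ) * (1 + Real.log ((5 * (M * R) : ℕ) : ℝ))) *
          ∑ x ∈ Icc 1 (5 * (M * R)), aL n (M * R) x ^ 2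
        ≤ C3 * (14 * X * L) * (4 * X * L ^ 2) := by
          apply mul_le_mul _ b2 (Finset.sum_nonneg (fun _ _ => sq_nonneg _)) (by positivity)
          exact mul_le_mul_of_nonneg_left b1 hC3.le
      _ = 56 * C3 * X ^ 2 * L ^ 3 := by ring
  have hIbB : Ib ≤ 8 * C3 * R ^ 2 * L := by
    refine le_trans jb ?_
    have b1 : 1 / d + ((2 * R : ℕ) : ℝ) * (1 + Real.log ((2 * R : ℕ) : ℝ)) ≤ 8 * R * L := by
      rw [hdinv]
      have c1 : ((2 * R : ℕ) : ℝ) = 2 * R := by push_cast; rfl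
      rw [c1] at hlogR ⊢
      have c2 : 2 * (R : ℝ) * (1 + Real.log (2 * R)) ≤ 2 * R * (1 + L) := by
        apply mul_le_mul_of_nonneg_left _ (by positivity)
        linarith
      nlinarith
    have b2 := vm_sumb Q R hQ
    calc C3 * (1 / d + ((2 * R : ℕ) : ℝ) * (1 + Real.log ((2 * R : ℕ) : ℝ))) *
          ∑ q ∈ Icc 1 (2 * R), ind Q q ^ 2
        ≤ C3 * (8 * R * L) * R := by
          apply mul_le_mul _ b2 (Finset.sum_nonneg (fun _ _ => sq_nonneg _)) (by positivity)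
          exact mul_le_mul_of_nonneg_left b1 hC3.le
      _ = 8 * C3 * R ^ 2 * L := by ring
  -- the pointwise bound
  have hpt : ∀ ξ : ℝ, ‖h0 w n M R Q ξ‖ ≤ 2 * C2 *
      (‖DP (aL n (M * R)) (5 * (M * R)) (2 * Real.pi * ξ)‖ *
        ‖DP (ind Q) (2 * R) (2 * Real.pi * ξ)‖ / (1 + d * |ξ|) ^ 2) := by
    intro ξ
    unfold h0 hh
    rw [norm_mul, norm_mul, RCLike.norm_conj]
    have t1 : ‖𝓕 (fun x => ((w x : ℝ) : ℂ)) (d * ξ) - 𝓕 (fun x => ((w x : ℝ) : ℂ)) (d' * ξ)‖ ≤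
        2 * C2 / (1 + d * |ξ|) ^ 2 := by
      refine le_trans (norm_sub_le _ _) ?_
      have u1 := hdec (d * ξ)
      have u2 := hdec (d' * ξ)
      rw [abs_mul, abs_of_pos hdpos] at u1
      rw [abs_mul, abs_of_pos (lt_of_lt_of_le hdpos hdd')] at u2
      have u3 : C2 / (1 + d' * |ξ|) ^ 2 ≤ C2 / (1 + d * |ξ|) ^ 2 := by
        apply div_le_div_of_nonneg_left hC2.le (by positivity)
        apply pow_le_pow_left₀ (by positivity)
        have := mul_le_mul_of_nonneg_right hdd' (abs_nonneg ξ)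
        linarith
      calc _ ≤ C2 / (1 + d * |ξ|) ^ 2 + C2 / (1 + d * |ξ|) ^ 2 := by linarith
        _ = 2 * C2 / (1 + d * |ξ|) ^ 2 := by ring
    calc _ ≤ 2 * C2 / (1 + d * |ξ|) ^ 2 *
          (‖DP (aL n (M * R)) (5 * (M * R)) (2 * Real.pi * ξ)‖ *
            ‖DP (ind Q) (2 * R) (2 * Real.pi * ξ)‖) :=
          mul_le_mul_of_nonneg_right t1 (by positivity)
      _ = _ := by ring
  constructor
  · -- the square
    set K : ℝ := 4 * C2 ^ 2 * (X ^ 2 * (n : ℝ) ^ (-(1 / 75) : ℝ)) with hKdef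
    have hKpos : 0 ≤ K := by positivity
    have hptw : ∀ ξ ∈ Mid n, ‖h0 w n M R Q ξ‖ ^ 2 ≤
        K * (‖DP (ind Q) (2 * R) (2 * Real.pi * ξ)‖ ^ 2 / (1 + d * |ξ|) ^ 2) := by
      intro ξ hξ
      have s1 := hn1 n hnn1 (M * R) h16 (by rw [hXcast]; exact hlog) (2 * Real.pi * ξ) hξ.1 hξ.2
      rw [hXcast] at s1
      set A : ℝ := ‖DP (aL n (M * R)) (5 * (M * R)) (2 * Real.pi * ξ)‖ with hA
      set B : ℝ := ‖DP (ind Q) (2 * R) (2 * Real.pi * ξ)‖ with hB
      have hA0 : 0 ≤ A := norm_nonneg _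
      have hB0 : 0 ≤ B := norm_nonneg _
      have s2 : A ^ 2 ≤ X ^ 2 * (n : ℝ) ^ (-(1 / 75) : ℝ) := by
        have e1 : ((n : ℝ) ^ (-(1 / 150) : ℝ)) ^ 2 = (n : ℝ) ^ (-(1 / 75) : ℝ) := by
          rw [← Real.rpow_natCast, ← Real.rpow_mul hnpos.le]
          norm_num
        calc A ^ 2 ≤ (X * (n : ℝ) ^ (-(1 / 150) : ℝ)) ^ 2 := pow_le_pow_left₀ hA0 s1 2
          _ = _ := by rw [mul_pow, e1]
      have q1 : 1 ≤ (1 + d * |ξ|) ^ 2 := by
        have : 0 ≤ d * |ξ| := by positivity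
        nlinarith
      have q2 : B ^ 2 / (1 + d * |ξ|) ^ 2 / (1 + d * |ξ|) ^ 2 ≤ B ^ 2 / (1 + d * |ξ|) ^ 2 :=
        div_le_self (by positivity) q1
      calc ‖h0 w n M R Q ξ‖ ^ 2 ≤ (2 * C2 * (A * B / (1 + d * |ξ|) ^ 2)) ^ 2 :=
            pow_le_pow_left₀ (norm_nonneg _) (hpt ξ) 2
        _ = 4 * C2 ^ 2 * A ^ 2 * (B ^ 2 / (1 + d * |ξ|) ^ 2 / (1 + d * |ξ|) ^ 2) := by
            field_simp
            ring
        _ ≤ 4 * C2 ^ 2 * (X ^ 2 * (n : ℝ) ^ (-(1 / 75) : ℝ)) *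
            (B ^ 2 / (1 + d * |ξ|) ^ 2) := by
            apply mul_le_mul _ q2 (by positivity) (by positivity)
            exact mul_le_mul_of_nonneg_left s2 (by positivity)
        _ = K * (B ^ 2 / (1 + d * |ξ|) ^ 2) := by rw [hKdef]
    have hint : Integrable (fun ξ : ℝ => K *
        (‖DP (ind Q) (2 * R) (2 * Real.pi * ξ)‖ ^ 2 / (1 + d * |ξ|) ^ 2)) := ib.const_mul K
    calc ∫ ξ in Mid n, ‖h0 w n M R Q ξ‖ ^ 2
        ≤ ∫ ξ in Mid n, K *
          (‖DP (ind Q) (2 * R) (2 * Real.pi * ξ)‖ ^ 2 / (1 + d * |ξ|) ^ 2) := by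
          apply integral_mono_of_nonneg
          · exact Eventually.of_forall (fun ξ => by positivity)
          · exact hint.integrableOn
          · exact ae_restrict_of_forall_mem (vm_meas n) hptw
      _ ≤ ∫ ξ : ℝ, K *
          (‖DP (ind Q) (2 * R) (2 * Real.pi * ξ)‖ ^ 2 / (1 + d * |ξ|) ^ 2) :=
          setIntegral_le_integral hint (Eventually.of_forall (fun ξ => by
            show (0 : ℝ) ≤ _
            positivity))
      _ = K * Ib := by rw [integral_const_mul]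
      _ ≤ K * (8 * C3 * R ^ 2 * L) := mul_le_mul_of_nonneg_left hIbB hKpos
      _ = 32 * C2 ^ 2 * C3 * ((X * R) ^ 2 * (n : ℝ) ^ (-(1 / 75) : ℝ) * L) := by
          rw [hKdef]
          ring
      _ ≤ (64 * C2 * C3 + 32 * C2 ^ 2 * C3) *
          ((X * R) ^ 2 * (n : ℝ) ^ (-(1 / 75) : ℝ) * L) := by
          apply mul_le_mul_of_nonneg_right _ (by positivity)
          have : 0 ≤ 64 * C2 * C3 := by positivity
          linarith
      _ = _ := by ring
  · -- the absolute value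
    set lam : ℝ := R / (X * L) with hlam
    have hlampos : 0 < lam := by positivity
    have hptw : ∀ ξ : ℝ, ‖h0 w n M R Q ξ‖ ≤
        C2 * lam * (‖DP (aL n (M * R)) (5 * (M * R)) (2 * Real.pi * ξ)‖ ^ 2 / (1 + d * |ξ|) ^ 2) +
        C2 / lam * (‖DP (ind Q) (2 * R) (2 * Real.pi * ξ)‖ ^ 2 / (1 + d * |ξ|) ^ 2) := by
      intro ξ
      refine le_trans (hpt ξ) ?_
      set A : ℝ := ‖DP (aL n (M * R)) (5 * (M * R)) (2 * Real.pi * ξ)‖ with hA
      set B : ℝ := ‖DP (ind Q) (2 * R) (2 * Real.pi * ξ)‖ with hB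
      have e1 : 2 * (A * B) ≤ lam * A ^ 2 + B ^ 2 / lam := by
        have e2 : 0 ≤ (lam * A - B) ^ 2 / lam := by positivity
        have e3 : (lam * A - B) ^ 2 / lam = lam * A ^ 2 + B ^ 2 / lam - 2 * (A * B) := by
          field_simp
          ring
        linarith
      have e4 : 0 ≤ C2 / (1 + d * |ξ|) ^ 2 := by positivity
      have e5 := mul_le_mul_of_nonneg_left e1 e4
      calc 2 * C2 * (A * B / (1 + d * |ξ|) ^ 2) = C2 / (1 + d * |ξ|) ^ 2 * (2 * (A * B)) := by ring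
        _ ≤ C2 / (1 + d * |ξ|) ^ 2 * (lam * A ^ 2 + B ^ 2 / lam) := e5
        _ = _ := by ring
    have hint : Integrable (fun ξ : ℝ =>
        C2 * lam * (‖DP (aL n (M * R)) (5 * (M * R)) (2 * Real.pi * ξ)‖ ^ 2 / (1 + d * |ξ|) ^ 2) +
        C2 / lam * (‖DP (ind Q) (2 * R) (2 * Real.pi * ξ)‖ ^ 2 / (1 + d * |ξ|) ^ 2)) :=
      (ia.const_mul _).add (ib.const_mul _)
    calc ∫ ξ in Mid n, ‖h0 w n M R Q ξ‖
        ≤ ∫ ξ in Mid n, (C2 * lam *
            (‖DP (aL n (M * R)) (5 * (M * R)) (2 * Real.pi * ξ)‖ ^ 2 / (1 + d * |ξ|) ^ 2) +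
          C2 / lam * (‖DP (ind Q) (2 * R) (2 * Real.pi * ξ)‖ ^ 2 / (1 + d * |ξ|) ^ 2)) := by
          apply integral_mono_of_nonneg
          · exact Eventually.of_forall (fun ξ => norm_nonneg _)
          · exact hint.integrableOn
          · exact Eventually.of_forall hptw
      _ ≤ ∫ ξ : ℝ, (C2 * lam *
            (‖DP (aL n (M * R)) (5 * (M * R)) (2 * Real.pi * ξ)‖ ^ 2 / (1 + d * |ξ|) ^ 2) +
          C2 / lam * (‖DP (ind Q) (2 * R) (2 * Real.pi * ξ)‖ ^ 2 / (1 + d * |ξ|) ^ 2)) :=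
          setIntegral_le_integral hint (Eventually.of_forall (fun ξ => by
            show (0 : ℝ) ≤ _
            positivity))
      _ = C2 * lam * Ia + C2 / lam * Ib := by
          rw [integral_add (ia.const_mul _) (ib.const_mul _), integral_const_mul,
            integral_const_mul]
      _ ≤ C2 * lam * (56 * C3 * X ^ 2 * L ^ 3) + C2 / lam * (8 * C3 * R ^ 2 * L) := by
          apply add_le_add
          · exact mul_le_mul_of_nonneg_left hIaB (by positivity)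
          · exact mul_le_mul_of_nonneg_left hIbB (by positivity)
      _ = 64 * C2 * C3 * ((X * R) * L ^ 2) := by
          rw [hlam]
          field_simp
          ring
      _ ≤ (64 * C2 * C3 + 32 * C2 ^ 2 * C3) * ((X * R) * L ^ 2) := by
          apply mul_le_mul_of_nonneg_right _ (by positivity)
          have : 0 ≤ 32 * C2 ^ 2 * C3 := by positivity
          linarith
      _ = _ := by ring

end Pool.Agent.EVN
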