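import Pool.Agent.EVN.Stmts

set_option autoImplicit false

namespace Pool.Agent.EVN

open Finset Filter MeasureTheory
open Pool.Agent.SI (nit DP IsW Wd)
open scoped FourierTransform

lemma vt_nit (t : ℝ) (n : ℕ) : ‖nit t n‖ = 1 := by
  unfold nit
  exact Complex.norm_exp_ofReal_mul_I _

lemma vt_dp (c : ℕ → ℝ) (M : ℕ) (t B : ℝ) (h : ∀ k, |c k| ≤ B) :
    ‖DP c M t‖ ≤ M * B := by
  unfold DP
  refine (norm_sum_le _ _).trans ?_
  have : ∀ k ∈ Icc 1 M, ‖((c k : ℝ) : ℂ) * nit t k‖ ≤ B := by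
    intro k _
    rw [norm_mul, vt_nit, mul_one, Complex.norm_real, Real.norm_eq_abs]
    exact h k
  refine (Finset.sum_le_card_nsmul _ _ _ this).trans ?_
  simp

lemma vt_aL (n X x : ℕ) : |aL n X x| ≤ Real.log n := by
  have h0 : 0 ≤ Real.log n := Real.log_natCast_nonneg n
  unfold aL
  split_ifs
  · rw [abs_of_nonneg ArithmeticFunction.vonMangoldt_nonneg]
    refine ArithmeticFunction.vonMangoldt_le_log.trans ?_
    rcases Nat.eq_zero_or_pos (n - x) with h | h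
    · rw [h]; simpa using h0
    · exact Real.log_le_log (by exact_mod_cast h) (by exact_mod_cast Nat.sub_le n x)
  · simpa using h0

lemma vt_ind (Q : Finset ℕ) (q : ℕ) : |ind Q q| ≤ 1 := by
  unfold ind
  split_ifs <;> simp

lemma vt_mid (n : ℕ) : MeasurableSet (Mid n) := by
  unfold Mid
  have hm : Measurable (fun ξ : ℝ => |2 * Real.pi * ξ|) := by fun_prop
  exact (measurableSet_le measurable_const hm).inter (measurableSet_le hm measurable_const)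

lemma vt_core (f W : ℝ → ℂ) (C C' B : ℝ) (n R : ℕ) (hC : 0 < C) (hC' : 0 < C') (hB : 0 ≤ B)
    (hlip : ∀ ξ ξ' : ℝ, ‖W ξ - W ξ'‖ ≤ C * |ξ - ξ'|)
    (hdec : ∀ ξ : ℝ, ‖W ξ‖ ≤ C' / (1 + |ξ|) ^ 50)
    (hR : 1 ≤ R) (hRn : 16 * R ≤ n) (hd : 1 / (4 * (R : ℝ)) ≤ (n : ℝ) ^ (-(1 / 4) : ℝ))
    (hf : ∀ ξ, ‖f ξ‖ ≤ ‖W (1 / (4 * (R : ℝ)) * ξ) - W ((n : ℝ) ^ (-(1 / 4) : ℝ) * ξ)‖ * B) :
    ‖∫ ξ in (Mid n)ᶜ, f ξ‖ ≤
      (2 * C * (n : ℝ) ^ (-(1 / 12) : ℝ) + 2 ^ 49 * C' * (n : ℝ) ^ (-3 : ℝ)) * B := by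
  have hn0 : (0 : ℝ) < n := by
    have : 0 < n := by omega
    exact_mod_cast this
  have hR0 : (0 : ℝ) < R := by exact_mod_cast hR
  have hRn' : 16 * (R : ℝ) ≤ n := by exact_mod_cast hRn
  set N : ℝ := (n : ℝ) ^ (1 / 12 : ℝ) with hN
  have hN0 : 0 < N := Real.rpow_pos_of_pos hn0 _
  set d : ℝ := 1 / (4 * (R : ℝ)) with hdd
  have hd0 : 0 < d := by positivity
  set d' : ℝ := (n : ℝ) ^ (-(1 / 4) : ℝ) with hdd'
  have hd'0 : 0 < d' := Real.rpow_pos_of_pos hn0 _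
  set c1 : ℝ := C * d' * N * B with hc1
  set c2 : ℝ := 2 * C' * (2 ^ 48 * (n : ℝ) ^ (-4 : ℝ)) * B with hc2
  have hc1' : 0 ≤ c1 := by positivity
  have hc2' : 0 ≤ c2 := by
    have : 0 ≤ (n : ℝ) ^ (-4 : ℝ) := Real.rpow_nonneg hn0.le _
    positivity
  set g1 : ℝ → ℝ := Set.indicator (Set.Icc (-N) N) (fun _ => c1) with hg1
  set g2 : ℝ → ℝ := fun ξ => c2 * (1 + (d * ξ) ^ 2)⁻¹ with hg2
  have hi1 : Integrable g1 := by
    refine (integrable_indicator_iff measurableSet_Icc).mpr ?_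
    exact integrableOn_const (by simp)
  have hi2 : Integrable g2 := by
    have h0 : Integrable (fun x : ℝ => (1 + x ^ 2)⁻¹) := integrable_inv_one_add_sq
    exact (h0.comp_mul_left' hd0.ne').const_mul c2
  have hv1 : ∫ ξ, g1 ξ = 2 * N * c1 := by
    rw [hg1, integral_indicator measurableSet_Icc, setIntegral_const]
    simp only [smul_eq_mul, Measure.real, Real.volume_Icc]
    rw [ENNReal.toReal_ofReal (by linarith)]
    ring
  have hv2 : ∫ ξ, g2 ξ = c2 * (4 * R * Real.pi) := by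
    have e : ∀ ξ, g2 ξ = c2 * (fun x : ℝ => (1 + x ^ 2)⁻¹) (d * ξ) := fun ξ => rfl
    simp_rw [e]
    rw [integral_const_mul, Measure.integral_comp_mul_left (fun x : ℝ => (1 + x ^ 2)⁻¹) d,
      integral_univ_inv_one_add_sq, smul_eq_mul, abs_of_pos (inv_pos.mpr hd0), hdd]
    congr 1
    field_simp
  have hp1 : ∀ ξ, 0 ≤ g1 ξ := fun ξ => Set.indicator_nonneg (fun _ _ => hc1') ξ
  have hp2 : ∀ ξ, 0 ≤ g2 ξ := fun ξ => by
    rw [hg2]; positivity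
  have hpt : ∀ ξ ∈ (Mid n)ᶜ, ‖f ξ‖ ≤ g1 ξ + g2 ξ := by
    intro ξ hξ
    have hpi : 1 ≤ 2 * Real.pi := by linarith [Real.pi_gt_three]
    have habs : |2 * Real.pi * ξ| = 2 * Real.pi * |ξ| := by
      rw [abs_mul, abs_of_pos (by linarith)]
    by_cases hlow : |2 * Real.pi * ξ| < N
    · have hξN : |ξ| ≤ N := by
        rw [habs] at hlow
        nlinarith [abs_nonneg ξ]
      have hmem : ξ ∈ Set.Icc (-N) N := abs_le.mp hξN
      have hg : g1 ξ = c1 := by rw [hg1, Set.indicator_of_mem hmem]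
      have h1 : ‖W (d * ξ) - W (d' * ξ)‖ ≤ C * d' * N := by
        refine (hlip _ _).trans ?_
        rw [← sub_mul, abs_mul, mul_assoc C d' N]
        refine mul_le_mul_of_nonneg_left ?_ hC.le
        refine mul_le_mul ?_ hξN (abs_nonneg _) hd'0.le
        rw [abs_sub_comm, abs_of_nonneg (by linarith)]
        linarith
      calc ‖f ξ‖ ≤ ‖W (d * ξ) - W (d' * ξ)‖ * B := hf ξ
        _ ≤ C * d' * N * B := mul_le_mul_of_nonneg_right h1 hB
        _ = g1 ξ := by rw [hg]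
        _ ≤ g1 ξ + g2 ξ := by linarith [hp2 ξ]
    · have hhigh : (n : ℝ) ^ (13 / 12 : ℝ) < |2 * Real.pi * ξ| := by
        by_contra hcon
        exact hξ ⟨not_lt.mp hlow, not_lt.mp hcon⟩
      have hn13 : (n : ℝ) ^ (13 / 12 : ℝ) = n * N := by
        rw [hN, ← Real.rpow_one_add' hn0.le (by norm_num)]
        norm_num
      have hN4 : N ^ 48 = (n : ℝ) ^ (4 : ℝ) := by
        rw [hN, ← Real.rpow_natCast, ← Real.rpow_mul hn0.le]
        norm_num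
      have hy : N / 2 ≤ d * |ξ| := by
        rw [hn13, habs] at hhigh
        have h7 : n * N < 7 * |ξ| := by
          nlinarith [abs_nonneg ξ, Real.pi_lt_d2]
        rw [hdd, div_mul_eq_mul_div, one_mul, le_div_iff₀ (by positivity)]
        nlinarith [mul_le_mul_of_nonneg_right hRn' hN0.le]
      have hy0 : 0 ≤ d * |ξ| := by positivity
      have hpow : (N / 2) ^ 48 * (1 + (d * ξ) ^ 2) ≤ (1 + d * |ξ|) ^ 50 := by
        have h48 : (N / 2) ^ 48 ≤ (1 + d * |ξ|) ^ 48 :=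
          pow_le_pow_left₀ (by positivity) (by linarith) 48
        have h22 : 1 + (d * ξ) ^ 2 ≤ (1 + d * |ξ|) ^ 2 := by
          have : (d * ξ) ^ 2 = (d * |ξ|) ^ 2 := by rw [mul_pow, mul_pow, sq_abs]
          nlinarith
        calc (N / 2) ^ 48 * (1 + (d * ξ) ^ 2) ≤ (1 + d * |ξ|) ^ 48 * (1 + d * |ξ|) ^ 2 :=
              mul_le_mul h48 h22 (by positivity) (by positivity)
          _ = (1 + d * |ξ|) ^ 50 := by rw [← pow_add]
      have hpos : 0 < (N / 2) ^ 48 * (1 + (d * ξ) ^ 2) := by positivity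
      have hinv : 1 / (1 + d * |ξ|) ^ 50 ≤ 2 ^ 48 * (n : ℝ) ^ (-4 : ℝ) * (1 + (d * ξ) ^ 2)⁻¹ := by
        refine (one_div_le_one_div_of_le hpos hpow).trans (le_of_eq ?_)
        rw [div_pow, hN4, Real.rpow_neg hn0.le]
        have h4 : (n : ℝ) ^ (4 : ℝ) ≠ 0 := (Real.rpow_pos_of_pos hn0 _).ne'
        field_simp
      have hw1 : ‖W (d * ξ)‖ ≤ C' * (1 / (1 + d * |ξ|) ^ 50) := by
        refine (hdec _).trans (le_of_eq ?_)
        rw [abs_mul, abs_of_pos hd0]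
        ring
      have hw2 : ‖W (d' * ξ)‖ ≤ C' * (1 / (1 + d * |ξ|) ^ 50) := by
        refine (hdec _).trans ?_
        rw [abs_mul, abs_of_pos hd'0, div_eq_mul_one_div]
        refine mul_le_mul_of_nonneg_left ?_ hC'.le
        refine one_div_le_one_div_of_le (by positivity) ?_
        refine pow_le_pow_left₀ (by positivity) ?_ 50
        have := mul_le_mul_of_nonneg_right hd (abs_nonneg ξ)
        linarith
      have h1 : ‖W (d * ξ) - W (d' * ξ)‖ ≤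
          2 * C' * (2 ^ 48 * (n : ℝ) ^ (-4 : ℝ) * (1 + (d * ξ) ^ 2)⁻¹) := by
        refine (norm_sub_le _ _).trans ?_
        have := mul_le_mul_of_nonneg_left hinv hC'.le
        linarith
      calc ‖f ξ‖ ≤ ‖W (d * ξ) - W (d' * ξ)‖ * B := hf ξ
        _ ≤ 2 * C' * (2 ^ 48 * (n : ℝ) ^ (-4 : ℝ) * (1 + (d * ξ) ^ 2)⁻¹) * B :=
            mul_le_mul_of_nonneg_right h1 hB
        _ = g2 ξ := by
            simp only [hg2, hc2]
            ring
        _ ≤ g1 ξ + g2 ξ := by linarith [hp1 ξ]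
  have hnorm : ‖∫ ξ in (Mid n)ᶜ, f ξ‖ ≤ ∫ ξ in (Mid n)ᶜ, (g1 ξ + g2 ξ) := by
    refine norm_integral_le_of_norm_le (hi1.add hi2).integrableOn ?_
    exact ae_restrict_of_forall_mem (vt_mid n).compl hpt
  have hle : ∫ ξ in (Mid n)ᶜ, (g1 ξ + g2 ξ) ≤ ∫ ξ, (g1 ξ + g2 ξ) :=
    setIntegral_le_integral (hi1.add hi2)
      (Eventually.of_forall fun ξ => add_nonneg (hp1 ξ) (hp2 ξ))
  have heq : ∫ ξ, (g1 ξ + g2 ξ) = 2 * N * c1 + c2 * (4 * R * Real.pi) := by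
    rw [integral_add hi1 hi2, hv1, hv2]
  have ha : 2 * N * c1 = 2 * C * (n : ℝ) ^ (-(1 / 12) : ℝ) * B := by
    have : N * d' * N = (n : ℝ) ^ (-(1 / 12) : ℝ) := by
      rw [hN, hdd', ← Real.rpow_add hn0, ← Real.rpow_add hn0]
      norm_num
    rw [← this, hc1]
    ring
  have hb : c2 * (4 * R * Real.pi) ≤ 2 ^ 49 * C' * (n : ℝ) ^ (-3 : ℝ) * B := by
    have h3 : (n : ℝ) ^ (-3 : ℝ) = (n : ℝ) ^ (-4 : ℝ) * n := by
      rw [← Real.rpow_add_one hn0.ne']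
      norm_num
    have h4 : 4 * R * Real.pi ≤ n := by nlinarith [Real.pi_lt_d2]
    calc c2 * (4 * R * Real.pi) ≤ c2 * n := mul_le_mul_of_nonneg_left h4 hc2'
      _ = 2 ^ 49 * C' * (n : ℝ) ^ (-3 : ℝ) * B := by rw [h3, hc2]; ring
  calc ‖∫ ξ in (Mid n)ᶜ, f ξ‖ ≤ 2 * N * c1 + c2 * (4 * R * Real.pi) := by
        rw [← heq]; exact hnorm.trans hle
    _ ≤ _ := by rw [ha, add_mul]; linarith

theorem thm_VT (h : Pool.Agent.SI.St_Four) : St_VT := by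
  intro w hw C₀
  obtain ⟨-, hdec, C, hC, hlip⟩ := h w hw
  obtain ⟨C', hC', hdec⟩ := hdec 50
  have e1 : ∀ᶠ n : ℕ in atTop, Real.log n ^ C₀ ≤ 4 * (n : ℝ) ^ (1 / 4 : ℝ) := by
    have hl := (isLittleO_log_rpow_rpow_atTop (C₀ : ℝ) (show (0 : ℝ) < 1 / 4 by norm_num)).bound
      (show (0 : ℝ) < 4 by norm_num)
    have hl' := tendsto_natCast_atTop_atTop (R := ℝ) |>.eventually hl
    filter_upwards [hl'] with n hn
    rw [Real.norm_of_nonneg (Real.rpow_nonneg (Real.log_natCast_nonneg n) _),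
      Real.norm_of_nonneg (Real.rpow_nonneg (Nat.cast_nonneg n) _), Real.rpow_natCast] at hn
    exact hn
  have e2 : ∀ᶠ n : ℕ in atTop,
      40 * (C + 2 ^ 48 * C') * Real.log n ≤ (n : ℝ) ^ (1 / 30 : ℝ) := by
    have hK : 0 < 40 * (C + 2 ^ 48 * C') := by positivity
    have hl := (isLittleO_log_rpow_atTop (show (0 : ℝ) < 1 / 30 by norm_num)).bound
      (show (0 : ℝ) < (40 * (C + 2 ^ 48 * C'))⁻¹ by positivity)
    have hl' := tendsto_natCast_atTop_atTop (R := ℝ) |>.eventually hl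
    filter_upwards [hl'] with n hn
    rw [Real.norm_of_nonneg (Real.log_natCast_nonneg n),
      Real.norm_of_nonneg (Real.rpow_nonneg (Nat.cast_nonneg n) _)] at hn
    have := mul_le_mul_of_nonneg_left hn hK.le
    rwa [← mul_assoc, mul_inv_cancel₀ hK.ne', one_mul] at this
  obtain ⟨n₀, hn₀⟩ := eventually_atTop.mp (e1.and (e2.and (eventually_ge_atTop 2)))
  refine ⟨n₀, fun n hn M R Q _ h16 hlow hM m => ?_⟩
  obtain ⟨h1, h2, h3⟩ := hn₀ n hn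
  have hn0 : (0 : ℝ) < n := by
    have : 0 < n := by omega
    exact_mod_cast this
  have hn1 : (1 : ℝ) ≤ n := by
    have : 1 ≤ n := by omega
    exact_mod_cast this
  have hL : 0 ≤ Real.log n := Real.log_natCast_nonneg n
  have hMR : 0 < (M : ℝ) * R := by
    rcases (mul_nonneg (Nat.cast_nonneg (α := ℝ) M) (Nat.cast_nonneg (α := ℝ) R)).eq_or_lt with h | h
    · rw [← h] at hlow; linarith
    · exact h
  have hMRn : 0 < M * R := by exact_mod_cast hMR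
  have hM1 : 1 ≤ M := Nat.pos_of_mul_pos_right hMRn |> fun h => h
  have hR1 : 1 ≤ R := Nat.pos_of_mul_pos_left hMRn |> fun h => h
  have hR0 : (0 : ℝ) < R := by exact_mod_cast hR1
  have hRn : 16 * R ≤ n := by nlinarith
  -- the comparison of the two widths
  have hd : 1 / (4 * (R : ℝ)) ≤ (n : ℝ) ^ (-(1 / 4) : ℝ) := by
    rw [Real.rpow_neg hn0.le, one_div]
    refine inv_anti₀ (Real.rpow_pos_of_pos hn0 _) ?_
    have ha : (n : ℝ) ≤ 4 * (n : ℝ) ^ (1 / 4 : ℝ) * ((n : ℝ) ^ (1 / 2 : ℝ) * R) := by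
      refine hlow.trans ?_
      refine mul_le_mul h1 (mul_le_mul_of_nonneg_right hM hR0.le) hMR.le ?_
      have := Real.rpow_nonneg hn0.le (1 / 4 : ℝ)
      positivity
    have hb : (n : ℝ) = (n : ℝ) ^ (1 / 4 : ℝ) * ((n : ℝ) ^ (1 / 2 : ℝ) * (n : ℝ) ^ (1 / 4 : ℝ)) := by
      rw [← Real.rpow_add hn0, ← Real.rpow_add hn0]
      norm_num
    have hc : 0 < (n : ℝ) ^ (1 / 4 : ℝ) * (n : ℝ) ^ (1 / 2 : ℝ) :=
      mul_pos (Real.rpow_pos_of_pos hn0 _) (Real.rpow_pos_of_pos hn0 _)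
    refine le_of_mul_le_mul_left ?_ hc
    calc (n : ℝ) ^ (1 / 4 : ℝ) * (n : ℝ) ^ (1 / 2 : ℝ) * (n : ℝ) ^ (1 / 4 : ℝ) = n := by
          conv_rhs => rw [hb]
          ring
      _ ≤ _ := ha
      _ = _ := by ring
  set B : ℝ := 10 * ((M : ℝ) * R) * R * Real.log n with hBdef
  have hB : 0 ≤ B := by positivity
  have hf : ∀ ξ, ‖h0 w n M R Q ξ * nit (2 * Real.pi * ξ) m‖ ≤
      ‖𝓕 (fun x => ((w x : ℝ) : ℂ)) (1 / (4 * (R : ℝ)) * ξ) -
        𝓕 (fun x => ((w x : ℝ) : ℂ)) ((n : ℝ) ^ (-(1 / 4) : ℝ) * ξ)‖ * B := by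
    intro ξ
    rw [norm_mul, vt_nit, mul_one]
    unfold h0 hh
    rw [norm_mul, norm_mul, RCLike.norm_conj]
    refine mul_le_mul_of_nonneg_left ?_ (norm_nonneg _)
    have ha := vt_dp (aL n (M * R)) (5 * (M * R)) (2 * Real.pi * ξ) (Real.log n)
      (fun k => vt_aL n (M * R) k)
    have hb := vt_dp (ind Q) (2 * R) (2 * Real.pi * ξ) 1 (fun k => vt_ind Q k)
    refine (mul_le_mul ha hb (norm_nonneg _) (by positivity)).trans (le_of_eq ?_)
    rw [hBdef]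
    push_cast
    ring
  have hmain := vt_core (fun ξ => h0 w n M R Q ξ * nit (2 * Real.pi * ξ) m)
    (𝓕 (fun x => ((w x : ℝ) : ℂ))) C C' B n R hC hC' hB hlip hdec hR1 hRn hd hf
  refine hmain.trans ?_
  have hp3 : (n : ℝ) ^ (-3 : ℝ) ≤ (n : ℝ) ^ (-(1 / 12) : ℝ) :=
    Real.rpow_le_rpow_of_exponent_le hn1 (by norm_num)
  have hp0 : 0 < (n : ℝ) ^ (-(1 / 12) : ℝ) := Real.rpow_pos_of_pos hn0 _
  have hp : (n : ℝ) ^ (-(1 / 12) : ℝ) * (n : ℝ) ^ (1 / 30 : ℝ) = (n : ℝ) ^ (-(1 / 20) : ℝ) := by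
    rw [← Real.rpow_add hn0]
    norm_num
  have hs1 : 2 * C * (n : ℝ) ^ (-(1 / 12) : ℝ) + 2 ^ 49 * C' * (n : ℝ) ^ (-3 : ℝ) ≤
      2 * (C + 2 ^ 48 * C') * (n : ℝ) ^ (-(1 / 12) : ℝ) := by
    have := mul_le_mul_of_nonneg_left hp3 (show 0 ≤ 2 ^ 49 * C' by positivity)
    linarith
  calc (2 * C * (n : ℝ) ^ (-(1 / 12) : ℝ) + 2 ^ 49 * C' * (n : ℝ) ^ (-3 : ℝ)) * B
      ≤ 2 * (C + 2 ^ 48 * C') * (n : ℝ) ^ (-(1 / 12) : ℝ) * B :=
        mul_le_mul_of_nonneg_right hs1 hB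
    _ = ((M : ℝ) * R * R) * (n : ℝ) ^ (-(1 / 12) : ℝ) *
        (20 * (C + 2 ^ 48 * C') * Real.log n) := by rw [hBdef]; ring
    _ ≤ ((M : ℝ) * R * R) * (n : ℝ) ^ (-(1 / 12) : ℝ) * (n : ℝ) ^ (1 / 30 : ℝ) := by
        refine mul_le_mul_of_nonneg_left ?_ (by positivity)
        have : 0 ≤ 20 * (C + 2 ^ 48 * C') * Real.log n := by positivity
        linarith
    _ = (M : ℝ) * R * R * (n : ℝ) ^ (-(1 / 20) : ℝ) := by rw [mul_assoc, hp]

end Pool.Agent.EVN
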