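import Mathlib
import Pool.Agent.SI.Final
import Pool.Agent.EVN.TI
import Pool.Agent.EVN.TII
import Pool.Agent.EVN.Sup
import Pool.Agent.EVN.MVD
import Pool.Agent.EVN.Spa
import Pool.Agent.EVN.Ker
import Pool.Agent.EVN.Dua
import Pool.Agent.EVN.FI
import Pool.Agent.EVN.VM
import Pool.Agent.EVN.VT
import Pool.Agent.EVN.VB
import Pool.Agent.EVN.Low
import Pool.Agent.EVN.Cnt
import Pool.Agent.EVN.Key
import Pool.Agent.EVN.Smo
import Pool.Agent.EVN.Fin

set_option autoImplicit false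

/-! Assembly of the theorem on every `n` and almost all `m`. -/

namespace Pool.Agent.EVN

open Pool.Agent

theorem vd3 : SI.St_VD3 := SI.thm_VD3 SI.vd2

theorem sup : St_Sup := thm_Sup (thm_TI vd3) (thm_TII vd3)

theorem vb : St_VB :=
  thm_VB thm_FI (thm_VM sup (thm_MVD SI.thm_MV) SI.thm_Four) (thm_VT SI.thm_Four)
    (thm_Ker (thm_Spa SI.thm_MV)) thm_Dua

theorem key : St_Key := thm_Key SI.thm_W vb (thm_Low SI.gap) thm_Cnt

theorem final : St_Fin := thm_Fin key thm_Smo SI.final SI.qk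

end Pool.Agent.EVN
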