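import Pool.Agent.EVN.Stmts2

set_option autoImplicit false

/-!
# EVN: the case `12 m > n` (BGO)
-/

namespace Pool.Agent.EVN

open Finset Filter
open ArithmeticFunction

theorem bgo_nth (k p : ℕ) (hp : p.Prime) (hk : Nat.count Nat.Prime p = k) :
    Nat.nth Nat.Prime k = p := by
  rw [← hk]
  exact Nat.nth_count hp

theorem bgo_small {q : ℕ} (hq : q.Prime) (h : q ≤ 11) :
    cardFactors (Nat.nth Nat.Prime (q - 1) - q + 1) ≤ 2 := by
  have hp : ∀ p : ℕ, p.Prime → cardFactors p ≤ 2 := fun p hp => by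
    rw [cardFactors_apply_prime hp]
    norm_num
  interval_cases q
  · exact absurd hq (by norm_num)
  · exact absurd hq (by norm_num)
  · rw [bgo_nth (2 - 1) 3 (by norm_num) (by decide)]
    exact hp 2 (by norm_num)
  · rw [bgo_nth (3 - 1) 5 (by norm_num) (by decide)]
    exact hp 3 (by norm_num)
  · exact absurd hq (by norm_num)
  · rw [bgo_nth (5 - 1) 11 (by norm_num) (by decide)]
    exact hp 7 (by norm_num)
  · exact absurd hq (by norm_num)
  · rw [bgo_nth (7 - 1) 17 (by norm_num) (by decide)]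
    exact hp 11 (by norm_num)
  · exact absurd hq (by norm_num)
  · exact absurd hq (by norm_num)
  · exact absurd hq (by norm_num)
  · rw [bgo_nth (11 - 1) 31 (by norm_num) (by decide)]
    have h1 : cardFactors (3 * 7) = cardFactors 3 + cardFactors 7 :=
      cardFactors_mul (by norm_num) (by norm_num)
    have h2 : cardFactors (31 - 11 + 1) = cardFactors (3 * 7) := rfl
    rw [h2, h1, cardFactors_apply_prime (by norm_num), cardFactors_apply_prime (by norm_num)]

theorem thm_BGO (h : Pool.Agent.GBQ.St_Big) : St_BGO := by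
  unfold Pool.Agent.GBQ.St_Big at h
  obtain ⟨X₂, hX₂⟩ := eventually_atTop.mp h
  have hlog : ∀ᶠ n : ℕ in atTop, (1 : ℝ) / 4 ≤ Real.log (Real.log n) :=
    (Real.tendsto_log_atTop.comp (Real.tendsto_log_atTop.comp
      tendsto_natCast_atTop_atTop)).eventually_ge_atTop (1 / 4)
  obtain ⟨n₂, hn₂⟩ := eventually_atTop.mp hlog
  refine ⟨max X₂ n₂, ?_⟩
  intro n hn m h12 hmn
  have hnX : X₂ ≤ n := (le_max_left _ _).trans hn
  have hn2 : n₂ ≤ n := (le_max_right _ _).trans hn
  have h4 := hX₂ ((4 * n + 2) / 3) (by omega) m n (by omega) (by omega) (by omega) hmn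
  unfold Pool.Agent.GBQ.NoRep at h4
  push Not at h4
  obtain ⟨p, hp, hpn, hpq, hpa⟩ := h4
  have hq : (n - p) / m ≤ 11 := by
    have hm : 0 < m := by omega
    have h5 : (n - p) / m < 12 := by
      rw [Nat.div_lt_iff_lt_mul hm]
      omega
    omega
  refine ⟨p, hp, hpn, hpq, hpa, ?_⟩
  have h6 := bgo_small hpq hq
  have h7 := hn₂ n hn2
  have h8 : (cardFactors (Nat.nth Nat.Prime ((n - p) / m - 1) - (n - p) / m + 1) : ℝ) ≤ 2 := by
    exact_mod_cast h6
  linarith

end Pool.Agent.EVN
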