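import Pool.Agent.EVN.Stmts2
import Pool.Agent.GBQ.RhoLow

set_option autoImplicit false

/-!
# EVN / Ome: numbers with many prime factors (helper92)
-/

namespace Pool.Agent.EVN

open Finset Filter MeasureTheory
open ArithmeticFunction (cardFactors cardDistinctFactors)

/-- the multiplicative function `g` with `∑_{d ∣ v} g(d) = z^{Ω(v)}`, `z = 19/10` -/
noncomputable def ome_g (d : ℕ) : ℝ :=
  if d = 0 then 0 else (19 / 10 : ℝ) ^ (cardFactors d) * (9 / 19 : ℝ) ^ (cardDistinctFactors d)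

theorem ome_g_nonneg (d : ℕ) : 0 ≤ ome_g d := by
  unfold ome_g
  split_ifs
  · exact le_rfl
  · positivity

theorem ome_g_one : ome_g 1 = 1 := by
  unfold ome_g
  simp

theorem ome_g_mul {m n : ℕ} (h : m.Coprime n) : ome_g (m * n) = ome_g m * ome_g n := by
  unfold ome_g
  rcases Nat.eq_zero_or_pos m with rfl | hm
  · simp
  rcases Nat.eq_zero_or_pos n with rfl | hn
  · simp
  rw [if_neg (Nat.mul_pos hm hn).ne', if_neg hm.ne', if_neg hn.ne',
    ArithmeticFunction.cardFactors_mul hm.ne' hn.ne', ArithmeticFunction.cardDistinctFactors_mul h,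
    pow_add, pow_add]
  ring

theorem ome_g_pow {p : ℕ} (hp : p.Prime) (k : ℕ) : ome_g (p ^ (k + 1)) = (19 / 10) ^ k * (9 / 10) := by
  unfold ome_g
  rw [if_neg (pow_ne_zero _ hp.ne_zero), ArithmeticFunction.cardFactors_apply_prime_pow hp,
    ArithmeticFunction.cardDistinctFactors_apply_prime_pow hp (Nat.succ_ne_zero k), pow_succ]
  ring

noncomputable def ome_G : ArithmeticFunction ℝ := ⟨ome_g, by simp [ome_g]⟩

noncomputable def ome_F : ArithmeticFunction ℝ :=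
  ⟨fun n => if n = 0 then 0 else (19 / 10 : ℝ) ^ (cardFactors n), by simp⟩

theorem ome_conv : ome_G * (ArithmeticFunction.zeta : ArithmeticFunction ℝ) = ome_F := by
  have hG : ome_G.IsMultiplicative := by
    refine ⟨ome_g_one, fun {m n} h => ome_g_mul h⟩
  have hF : ome_F.IsMultiplicative := by
    refine ⟨by simp [ome_F], fun {m n} h => ?_⟩
    change (if m * n = 0 then (0 : ℝ) else (19 / 10 : ℝ) ^ (cardFactors (m * n))) =
      (if m = 0 then (0 : ℝ) else (19 / 10 : ℝ) ^ (cardFactors m)) *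
        (if n = 0 then (0 : ℝ) else (19 / 10 : ℝ) ^ (cardFactors n))
    rcases Nat.eq_zero_or_pos m with rfl | hm
    · simp
    rcases Nat.eq_zero_or_pos n with rfl | hn
    · simp
    rw [if_neg (Nat.mul_pos hm hn).ne', if_neg hm.ne', if_neg hn.ne',
      ArithmeticFunction.cardFactors_mul hm.ne' hn.ne', pow_add]
  refine (ArithmeticFunction.IsMultiplicative.eq_iff_eq_on_prime_powers _
    (hG.mul ArithmeticFunction.isMultiplicative_zeta.natCast) _ hF).2 fun p i hp => ?_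
  rw [ArithmeticFunction.coe_mul_zeta_apply, Nat.sum_divisors_prime_pow hp]
  change ∑ k ∈ range (i + 1), ome_g (p ^ k) =
    (if p ^ i = 0 then (0 : ℝ) else (19 / 10 : ℝ) ^ (cardFactors (p ^ i)))
  rw [if_neg (pow_ne_zero _ hp.ne_zero), ArithmeticFunction.cardFactors_apply_prime_pow hp]
  induction i with
  | zero => simp [ome_g_one]
  | succ i ih =>
    rw [sum_range_succ, ih, ome_g_pow hp, pow_succ]
    ring

theorem ome_sum_div {v : ℕ} (hv : v ≠ 0) : (19 / 10 : ℝ) ^ (cardFactors v) = ∑ d ∈ v.divisors, ome_g d := by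
  have h := congrArg (fun f : ArithmeticFunction ℝ => f v) ome_conv
  beta_reduce at h
  rw [ArithmeticFunction.coe_mul_zeta_apply] at h
  change ∑ d ∈ v.divisors, ome_g d =
    (if v = 0 then (0 : ℝ) else (19 / 10 : ℝ) ^ (cardFactors v)) at h
  rw [if_neg hv] at h
  exact h.symm

/-- the sum over all `v` -/
theorem ome_sum (X : ℕ) : ∑ v ∈ Icc 1 X, (19 / 10 : ℝ) ^ (cardFactors v) ≤
    X * ∑ d ∈ Icc 1 X, ome_g d / d := by
  have h1 : ∀ v ∈ Icc 1 X, (19 / 10 : ℝ) ^ (cardFactors v) =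
      ∑ d ∈ Icc 1 X, if d ∣ v then ome_g d else 0 := by
    intro v hv
    rw [mem_Icc] at hv
    rw [ome_sum_div (by omega), ← sum_filter]
    refine Finset.sum_congr ?_ fun _ _ => rfl
    ext d
    rw [Nat.mem_divisors, mem_filter, mem_Icc]
    constructor
    · rintro ⟨h2, h3⟩
      exact ⟨⟨Nat.pos_of_dvd_of_pos h2 (by omega), (Nat.le_of_dvd (by omega) h2).trans hv.2⟩, h2⟩
    · rintro ⟨_, h3⟩
      exact ⟨h3, by omega⟩
  rw [Finset.sum_congr rfl h1, Finset.sum_comm, Finset.mul_sum]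
  refine Finset.sum_le_sum fun d hd => ?_
  rw [mem_Icc] at hd
  rw [← Finset.sum_filter, Finset.sum_const, nsmul_eq_mul]
  have h2 : ((Icc 1 X).filter (fun v => d ∣ v)).card = X / d := by
    rw [← Nat.Ioc_filter_dvd_card_eq_div X d]
    rfl
  rw [h2]
  have h3 : ((X / d : ℕ) : ℝ) ≤ X / d := Nat.cast_div_le
  calc ((X / d : ℕ) : ℝ) * ome_g d ≤ X / d * ome_g d :=
        mul_le_mul_of_nonneg_right h3 (ome_g_nonneg d)
    _ = X * (ome_g d / d) := by ring

theorem ome_local {p : ℕ} (hp : p.Prime) :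
    HasSum (fun n : ℕ => ome_g (p ^ n) / ((p ^ n : ℕ) : ℝ)) (1 + 9 / 10 / (p - 19 / 10)) := by
  have hp2 : (2 : ℝ) ≤ p := by exact_mod_cast hp.two_le
  have h1 : HasSum (fun n : ℕ => ((19 / 10 : ℝ) / p) ^ n) (1 - 19 / 10 / (p : ℝ))⁻¹ := by
    refine hasSum_geometric_of_lt_one (by positivity) ?_
    rw [div_lt_one (by linarith)]
    linarith
  have h2 := (h1.mul_left (9 / 10 / (p : ℝ)))
  rw [← hasSum_nat_add_iff' 1]
  have h3 : 1 + 9 / 10 / ((p : ℝ) - 19 / 10) -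
      ∑ i ∈ range 1, ome_g (p ^ i) / ((p ^ i : ℕ) : ℝ) =
      9 / 10 / (p : ℝ) * (1 - 19 / 10 / (p : ℝ))⁻¹ := by
    rw [sum_range_one, pow_zero, ome_g_one]
    have h4 : (p : ℝ) - 19 / 10 ≠ 0 := by linarith
    have h5 : (1 : ℝ) - 19 / 10 / p ≠ 0 := by
      have : (1 : ℝ) - 19 / 10 / p = (p - 19 / 10) / p := by
        field_simp
      rw [this]
      exact div_ne_zero h4 (by linarith)
    have h6 : (p : ℝ) ≠ 0 := by linarith
    push_cast
    field_simp
    ring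
  rw [h3]
  have h4 : (fun n : ℕ => ome_g (p ^ (n + 1)) / ((p ^ (n + 1) : ℕ) : ℝ)) =
      fun n => 9 / 10 / (p : ℝ) * ((19 / 10 : ℝ) / p) ^ n := by
    funext n
    have h5 : ((19 / 10 : ℝ) / p) ^ n = (19 / 10) ^ n / (p : ℝ) ^ n := div_pow _ _ _
    have h6 : (p : ℝ) ≠ 0 := by linarith
    rw [ome_g_pow hp, h5, pow_succ]
    generalize (19 / 10 : ℝ) ^ n = y
    push_cast
    field_simp
  rw [h4]
  exact h2

/-- the product over the primes -/
theorem ome_prod (X : ℕ) : ∑ d ∈ Icc 1 X, ome_g d / d ≤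
    ∏ p ∈ (X + 2).primesBelow, (1 + 9 / 10 / ((p : ℝ) - 19 / 10)) := by
  have hE := (EulerProduct.summable_and_hasSum_smoothNumbers_prod_primesBelow_tsum
    (f := fun d : ℕ => ome_g d / (d : ℝ)) (by simp [ome_g_one])
    (fun {m n} h => by
      rw [ome_g_mul h]
      push_cast
      exact mul_div_mul_comm _ _ _ _)
    (fun {p} hp => by
      have h1 := (ome_local hp).summable
      refine h1.congr fun n => ?_
      rw [Real.norm_of_nonneg (div_nonneg (ome_g_nonneg _) (Nat.cast_nonneg _))]) (X + 2)).2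
  have h1 : ∏ p ∈ (X + 2).primesBelow, ∑' n : ℕ, ome_g (p ^ n) / ((p ^ n : ℕ) : ℝ) =
      ∏ p ∈ (X + 2).primesBelow, (1 + 9 / 10 / ((p : ℝ) - 19 / 10)) :=
    Finset.prod_congr rfl fun p hp => (ome_local (Nat.prime_of_mem_primesBelow hp)).tsum_eq
  rw [h1] at hE
  have h2 : ∀ d ∈ Icc 1 X, d ∈ (X + 2).smoothNumbers := by
    intro d hd
    rw [mem_Icc] at hd
    exact Nat.mem_smoothNumbers_of_lt hd.1 (by omega)
  have h3 : ∑ d ∈ Icc 1 X, ome_g d / d =
      ∑ m ∈ (Icc 1 X).attach.map ⟨fun d => (⟨d.1, h2 d.1 d.2⟩ : (X + 2).smoothNumbers),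
        fun a b h => Subtype.ext (congrArg (fun z : (X + 2).smoothNumbers => z.1) h)⟩,
        ome_g (m : ℕ) / ((m : ℕ) : ℝ) := by
    rw [Finset.sum_map]
    exact (Finset.sum_attach (Icc 1 X) fun d => ome_g d / (d : ℝ)).symm
  rw [h3]
  exact sum_le_hasSum _ (fun m _ => div_nonneg (ome_g_nonneg _) (Nat.cast_nonneg _)) hE

theorem ome_exp (X : ℕ) (hX : 2 ≤ X) :
    ∏ p ∈ (X + 2).primesBelow, (1 + 9 / 10 / ((p : ℝ) - 19 / 10)) ≤
      Real.exp (72 + 36 * (Real.pi ^ 2 / 6)) * (2 * Real.log X) ^ (9 / 10 : ℝ) := by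
  have h1 : ∀ p ∈ (X + 2).primesBelow, (1 + 9 / 10 / ((p : ℝ) - 19 / 10)) ≤
      Real.exp (9 / 10 * (1 / (p : ℝ)) + 36 * (1 / (p : ℝ) ^ 2)) := by
    intro p hp
    have hp2 : (2 : ℝ) ≤ p := by exact_mod_cast (Nat.prime_of_mem_primesBelow hp).two_le
    have h4 : 9 / 10 / ((p : ℝ) - 19 / 10) ≤ 9 / 10 * (1 / (p : ℝ)) + 36 * (1 / (p : ℝ) ^ 2) := by
      rw [div_le_iff₀ (by linarith)]
      have h6 : (p : ℝ) ≠ 0 := by linarith
      have h5 : (9 / 10 * (1 / (p : ℝ)) + 36 * (1 / (p : ℝ) ^ 2)) * ((p : ℝ) - 19 / 10) =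
          9 / 10 + (36 * (p - 19 / 10) - 171 / 100 * p) / p ^ 2 := by
        field_simp
        ring
      rw [h5]
      have h7 : 0 ≤ (36 * ((p : ℝ) - 19 / 10) - 171 / 100 * p) / p ^ 2 :=
        div_nonneg (by linarith) (by positivity)
      linarith
    have := Real.add_one_le_exp (9 / 10 * (1 / (p : ℝ)) + 36 * (1 / (p : ℝ) ^ 2))
    linarith
  refine (Finset.prod_le_prod (fun p hp => ?_) h1).trans ?_
  · have hp2 : (2 : ℝ) ≤ p := by exact_mod_cast (Nat.prime_of_mem_primesBelow hp).two_le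
    have : 0 ≤ 9 / 10 / ((p : ℝ) - 19 / 10) := div_nonneg (by norm_num) (by linarith)
    linarith
  rw [← Real.exp_sum, Finset.sum_add_distrib, ← Finset.mul_sum, ← Finset.mul_sum]
  have h2 : ∑ p ∈ (X + 2).primesBelow, 1 / (p : ℝ) ≤ Real.log (Real.log (X + 1 : ℕ)) + 8 := by
    have h3 := Pool.Agent.GBQ.rhl_recip (X + 1) (by omega)
    have h4 : (X + 2).primesBelow ⊆ {2} ∪ (Ioc 2 (X + 1)).filter Nat.Prime := by
      intro p hp
      have hp1 := Nat.lt_of_mem_primesBelow hp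
      have hp2 := Nat.prime_of_mem_primesBelow hp
      rw [mem_union, mem_singleton, mem_filter, mem_Ioc]
      rcases Nat.lt_or_ge 2 p with h7 | h7
      · exact Or.inr ⟨⟨h7, by omega⟩, hp2⟩
      · have := hp2.two_le
        exact Or.inl (by omega)
    calc ∑ p ∈ (X + 2).primesBelow, (1 : ℝ) / p
        ≤ ∑ p ∈ {2} ∪ (Ioc 2 (X + 1)).filter Nat.Prime, (1 : ℝ) / p :=
          sum_le_sum_of_subset_of_nonneg h4 (fun _ _ _ => by positivity)
      _ ≤ ∑ p ∈ ({2} : Finset ℕ), (1 : ℝ) / p +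
          ∑ p ∈ (Ioc 2 (X + 1)).filter Nat.Prime, (1 : ℝ) / p := by
          rw [← sum_union_inter]
          have : 0 ≤ ∑ p ∈ ({2} : Finset ℕ) ∩ (Ioc 2 (X + 1)).filter Nat.Prime, (1 : ℝ) / p :=
            sum_nonneg fun _ _ => by positivity
          linarith
      _ ≤ _ := by
          rw [sum_singleton, sum_filter]
          have : (1 : ℝ) / (2 : ℕ) ≤ 1 / 2 := by norm_num
          linarith
  have h3 : ∑ p ∈ (X + 2).primesBelow, 1 / (p : ℝ) ^ 2 ≤ Real.pi ^ 2 / 6 :=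
    sum_le_hasSum _ (fun _ _ => by positivity) hasSum_zeta_two
  have hX2 : (2 : ℝ) ≤ X := by exact_mod_cast hX
  have hlX : 0 < Real.log X := Real.log_pos (by linarith)
  have h4 : Real.log (X + 1 : ℕ) ≤ 2 * Real.log X := by
    rw [← Real.log_rpow (by linarith), Real.rpow_two]
    refine Real.log_le_log (by positivity) ?_
    push_cast
    nlinarith
  have h5 : 0 < Real.log (X + 1 : ℕ) := Real.log_pos (by push_cast; linarith)
  calc Real.exp (9 / 10 * ∑ p ∈ (X + 2).primesBelow, 1 / (p : ℝ) +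
        36 * ∑ p ∈ (X + 2).primesBelow, 1 / (p : ℝ) ^ 2) ≤
      Real.exp (9 / 10 * Real.log (Real.log (X + 1 : ℕ)) + (72 + 36 * (Real.pi ^ 2 / 6))) :=
        Real.exp_le_exp.2 (by linarith)
    _ = Real.exp (72 + 36 * (Real.pi ^ 2 / 6)) * Real.log (X + 1 : ℕ) ^ (9 / 10 : ℝ) := by
        rw [Real.exp_add, Real.rpow_def_of_pos h5, mul_comm (9 / 10 : ℝ), mul_comm]
    _ ≤ _ := mul_le_mul_of_nonneg_left (Real.rpow_le_rpow h5.le h4 (by norm_num))
        (Real.exp_pos _).le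

theorem thm_Ome : St_Ome := by
  refine ⟨Real.exp (72 + 36 * (Real.pi ^ 2 / 6)) * 2 ^ (9 / 10 : ℝ), by positivity,
    fun X T hX => ?_⟩
  have hX2 : (2 : ℝ) ≤ X := by exact_mod_cast hX
  have hlX : 0 < Real.log X := Real.log_pos (by linarith)
  have h1 : (((Icc 1 X).filter (fun v => T < (cardFactors v : ℝ))).card : ℝ) *
      (19 / 10 : ℝ) ^ T ≤ ∑ v ∈ Icc 1 X, (19 / 10 : ℝ) ^ (cardFactors v) := by
    calc _ = ∑ v ∈ (Icc 1 X).filter (fun v => T < (cardFactors v : ℝ)), (19 / 10 : ℝ) ^ T := by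
          rw [Finset.sum_const, nsmul_eq_mul]
      _ ≤ ∑ v ∈ (Icc 1 X).filter (fun v => T < (cardFactors v : ℝ)), (19 / 10 : ℝ) ^ (cardFactors v) := by
          refine Finset.sum_le_sum fun v hv => ?_
          rw [mem_filter] at hv
          rw [← Real.rpow_natCast]
          exact Real.rpow_le_rpow_of_exponent_le (by norm_num) hv.2.le
      _ ≤ _ := Finset.sum_le_sum_of_subset_of_nonneg (filter_subset _ _) fun _ _ _ => by positivity
  have h2 := (h1.trans (ome_sum X)).trans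
    (mul_le_mul_of_nonneg_left ((ome_prod X).trans (ome_exp X hX)) (Nat.cast_nonneg X))
  have h3 : (0 : ℝ) < (19 / 10 : ℝ) ^ T := by positivity
  rw [← le_div_iff₀ h3] at h2
  refine h2.trans (le_of_eq ?_)
  rw [Real.mul_rpow (by norm_num) hlX.le, Real.rpow_neg (by norm_num), div_eq_mul_inv]
  ring


end Pool.Agent.EVN
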