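import Mathlib
import Pool.Agent.EVN.Asm
import Pool.Agent.EVN.Ome
import Pool.Agent.EVN.QKO
import Pool.Agent.EVN.BGO
import Pool.Agent.EVN.T4G
import Pool.Agent.EVN.Fin2

set_option autoImplicit false

/-! Assembly of the second form of the theorem on every `n` and almost all `m`. -/

namespace Pool.Agent.EVN

open Pool.Agent Finset

theorem t4g : St_T4G := thm_T4G SI.gap

theorem densP : DensP Phi := thm_QKO thm_Ome SI.qk

theorem bigP : BigP Phi := thm_BGO GBQ.thm_Big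

theorem final2 : ∀ A : ℕ, ∃ C n₀ : ℕ, ∀ n ≥ n₀,
    ∀ x : ℕ, 1 ≤ x → (((Ioc x (2 * x)).filter (fun m => 2 * m + 1 < n ∧
      (∃ p ∈ m.primeFactors, Real.log n ^ C < (p : ℝ)) ∧
      (SolP Phi m n = ∅ ∨ (12 * m ≤ n ∧ ((SolP Phi m n).card : ℝ) < n / Real.log n ^ 5)))).card : ℝ)
      ≤ x / Real.log n ^ A :=
  thm_Fin2 key t4g Phi densP bigP

/-- the theorem for `m ≥ n ^ (1/4 + ε)` -/
theorem t4phi : ∀ ε : ℝ, 0 < ε → ∃ n₀ : ℕ,
    ∀ n m : ℕ, n₀ ≤ n → (n : ℝ) ^ (1 / 4 + ε) ≤ m → 2 * m + 1 < n →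
    (SolP Phi m n).Nonempty ∧ (12 * m ≤ n → (n : ℝ) / Real.log n ^ 5 ≤ ((SolP Phi m n).card : ℝ)) :=
  t4g Phi densP bigP

end Pool.Agent.EVN
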