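import Mathlib
import Pool.Agent.EVN.Stmts2

set_option autoImplicit false

/-!
# EVN, third form: power savings

THEOREM.  There are `κ > 0` and `C`, `n₀` such that for all `n ≥ n₀`: (i) for all `x ≥ 1` and
`z ≥ (log n)^C` all but `x z^{-κ}` of the `m ∈ (x, 2x]` with `2m + 1 < n` that have a prime factor
`> z` are good; (ii) if `log x ≥ C (log log n)^2`, all but `x exp(-κ √(log x))` of the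
`m ∈ (x, 2x]` with `2m + 1 < n` are good.

The proofs are those of the modules Spa, Ker, VB, Key, Fin with `P^{-κ}` in place of
`(log n)^{-A}`: copy these files (with new names for the auxiliary lemmas) and change the parameters.
-/

namespace Pool.Agent.EVN

open Finset Filter MeasureTheory
open Pool.Agent.GBQ (ee)
open Pool.Agent.SI (nit DP IsW Wd)

/-- SPA3.

Proof.  As `St_Spa` (EVN/Spa.lean) with `θ = P^{-η}` in place of `L^{-A}`: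
`ℓ = ⌈log T / log(2P)⌉`, `T = n²`, `(2P)^{ℓ-1} < T`, the measure is at most
`C 2^ℓ (2 + ℓ log 2P) ℓ! θ^{-2ℓ}`, `θ^{-2ℓ} = P^{2ηℓ} ≤ ((2P)^{ℓ-1})^{2η} (2P)^{2η} ≤ n^{4η} (4n)^{2η}
≤ n^{6η} 4^{2η}`; with `η = ε/24` (say) this is `≤ 2 n^{ε/4}`, and `C 2^ℓ (2 + ℓ log 2P) ℓ! ≤ n^{ε/2}`
for `C'` large as before (`ℓ ≤ 1 + 2L/(C' log L)`). -/
def St_Spa3 : Prop := ∀ ε : ℝ, 0 < ε → ∃ η : ℝ, 0 < η ∧ ∃ C' n₀ : ℕ, ∀ n ≥ n₀, ∀ P : ℕ,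
  Real.log n ^ C' ≤ P → P ≤ 2 * n → ∀ S : Finset ℕ, (∀ p ∈ S, p.Prime ∧ P < p ∧ p ≤ 2 * P) →
  volume {u : ℝ | |u| ≤ (n : ℝ) ^ 2 ∧ (P : ℝ) ^ (1 - η) < ‖∑ p ∈ S, nit u p‖} ≤
    ENNReal.ofReal ((n : ℝ) ^ ε)

/-- KER3.

Proof.  As `St_Ker` (EVN/Ker.lean).  Let `η₁` be the `η` of SPA3 for `ε/2`, diminished so that
`η₁ ≤ ε/2` and `η₁ ≤ 1/2` (a smaller `η` gives a larger threshold, so SPA3 holds for it as well),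
`H = ⌈P^{η₁/2}⌉`; `H n^{ε/2} ≤ n^ε` for large `n` (`P ≤ 2n`).  For `u ∉ U`:
`∑_h |K_h| + 2(P/H + 1) ≤ 2 P^{η₁/2} P^{1-η₁} + 2 P^{1-η₁/2} + 2 ≤ 6 P^{1-η₁/2}`, in total
`(2M/P) 6 P^{1-η₁/2} = 12 M P^{-η₁/2} ≤ M P^{-η}` with `η = η₁/4`, as `P ≥ L^{C'}` is large. -/
def St_Ker3 : Prop := ∀ ε : ℝ, 0 < ε → ∃ η : ℝ, 0 < η ∧ ∃ C' n₀ : ℕ, ∀ n ≥ n₀, ∀ M P : ℕ, M ≤ n →
  Real.log n ^ C' ≤ P → P ≤ 2 * M → ∃ U : Set ℝ, MeasurableSet U ∧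
    volume U ≤ ENNReal.ofReal ((n : ℝ) ^ ε) ∧ ∀ u : ℝ, |u| ≤ (n : ℝ) ^ 2 → u ∉ U →
      ‖∑ m ∈ Ioc M (2 * M), ((om P m : ℝ) : ℂ) * nit u m‖ ≤ M * (P : ℝ) ^ (-η)

/-- VB3.

Proof.  As `St_VB` (EVN/VB.lean), with KER3 for `ε = 1/100`, `e₁ = M P^{-η}`:
`∑_m om P m |∫ h₁ nit|² ≤ M P^{-η} C² X² R² L⁴ + 3M n^{1/100} C X² R² n^{-1/75} L`, and the rest is
`≤ 6 M X² R² n^{-1/10}`.  `κ = min(η/2, 1/400)`: `P^{η/2} ≥ L^{C' η/2} ≥ 8 C² L⁴`, and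
`P^{-κ} ≥ n^{-1/400}` (`P ≤ 2M ≤ 2 n^{1/2} ≤ n`), `n^{1/100 - 1/75} = n^{-1/300}`. -/
def St_VB3 : Prop := ∀ w : ℝ → ℝ, IsW w → ∃ κ : ℝ, 0 < κ ∧ ∀ C₀ : ℕ, ∃ C' n₀ : ℕ, ∀ n ≥ n₀,
  ∀ (M R P : ℕ) (Q : Finset ℕ), Q ⊆ Ioc R (2 * R) → 16 * (M * R) ≤ n →
  (n : ℝ) ≤ Real.log n ^ C₀ * (M * R) → (M : ℝ) ≤ (n : ℝ) ^ (1 / 2 : ℝ) →
  Real.log n ^ C' ≤ P → P ≤ 2 * M →
  ∑ m ∈ Ioc M (2 * M), (om P m : ℝ) *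
    (∑ q ∈ Q, (Tq w (1 / (4 * R)) n (M * R) m q -
      Tq w ((n : ℝ) ^ (-(1 / 4) : ℝ)) n (M * R) m q)) ^ 2 ≤
    M * ((M * R : ℝ) * R) ^ 2 * (P : ℝ) ^ (-κ)

/-- KEY3.

Proof.  As `St_Key` (EVN/Key.lean): `|D(m)| ≥ c₁ X R/(4 L^{C₀})` and `om P m ≥ 1` for the `m` that are
counted, so by VB3 their number is at most `M P^{-κ₁} 16 L^{2C₀}/c₁² ≤ M P^{-κ}`, `κ = κ₁/2`, as
`P^{κ₁/2} ≥ L^{C' κ₁/2} ≥ 16 L^{2C₀}/c₁²`. -/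
def St_Key3 : Prop := ∃ c κ : ℝ, 0 < c ∧ 0 < κ ∧ ∀ C₀ : ℕ, ∃ C' n₀ : ℕ, ∀ n ≥ n₀,
  ∀ (M R P : ℕ) (Q : Finset ℕ), Q ⊆ Ioc R (2 * R) → (R : ℝ) ≤ Real.log n ^ C₀ * Q.card →
  16 * (M * R) ≤ n → (n : ℝ) ≤ Real.log n ^ C₀ * (M * R) → (M : ℝ) ≤ (n : ℝ) ^ (1 / 2 : ℝ) →
  Real.log n ^ C' ≤ P → P ≤ 2 * M →
  (((Ioc M (2 * M)).filter (fun m => 1 ≤ om P m ∧ ((SolQ Q m n).card : ℝ) <
    c * Q.card * M / Real.log n)).card : ℝ) ≤ M * (P : ℝ) ^ (-κ)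

/-- FIN3.

Proof.  As `St_Fin2` (EVN/Fin2.lean).  `κ₁`, `C'` from KEY3 with `C₀ = 5`; `κ = κ₁/2`, `C` with
`C ≥ C' + 1` and `C κ ≥ 4`.  If `z ≥ 2x` there is no `m`.  An `m ∈ (x, 2x]` with a prime factor `p > z`
has `om P m ≥ 1` for some `P = 2^i` (`2^i < p ≤ 2^{i+1}`), `L^{C'} ≤ z/2 ≤ P ≤ 2x`.  The number of
exceptions is at most the sum over the good `R` (at most `2L`) and over these `P` (at most `2L`) of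
`M P^{-κ₁} ≤ M (z/2)^{-κ₁}`, i.e. `≤ 4L² 2^{κ₁} M z^{-κ₁} ≤ M z^{-κ}`, as `z^{κ} ≥ L^{Cκ} ≥
4 L² 2^{κ₁}` (one may assume `κ₁ ≤ 1`). -/
def St_Fin3 : Prop := ∀ Φ : ℕ → ℕ → Prop, DensP Φ → BigP Φ → ∃ κ : ℝ, 0 < κ ∧ ∃ C n₀ : ℕ,
  ∀ n ≥ n₀, ∀ x : ℕ, 1 ≤ x → ∀ z : ℝ, Real.log n ^ C ≤ z →
  (((Ioc x (2 * x)).filter (fun m => 2 * m + 1 < n ∧ (∃ p ∈ m.primeFactors, z < (p : ℝ)) ∧
    (SolP Φ m n = ∅ ∨ (12 * m ≤ n ∧ ((SolP Φ m n).card : ℝ) < n / Real.log n ^ 5)))).card : ℝ) ≤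
    x * z ^ (-κ)

/-- RAN.  Numbers without large prime factors (Rankin).

Proof.  `σ = 1 - 1/(2 log y) > 0`.  The number is at most `∑_{m y-smooth} (2x/m)^σ =
(2x)^σ ∏_{p ≤ y} (1 - p^{-σ})^{-1} ≤ 2 x exp(-log x/(2 log y)) ∏_{p ≤ y} (1 - p^{-σ})^{-1}`
(`EulerProduct.prod_primesBelow_tsum_eq_tsum_smoothNumbers` or the versions for a completely
multiplicative function; or finite partial sums).  `t_p = p^{-σ} = p^{-1} e^{log p/(2 log y)} ≤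
e^{1/2}/p ≤ 0.825`, `(1 - t)^{-1} ≤ exp(t + 3 t²/2)` for `0 ≤ t ≤ 0.825`, and
`∑_{p ≤ y} e^{1/2}/p ≤ (5/3) log(1 + log y) + C` (Mertens, upper bound only; the upper bound
`∑_{p ≤ y} 1/p ≤ log log y + C` is in the library), `∑ 1/p² < ∞`. -/
def St_Ran : Prop := ∃ C : ℝ, 0 < C ∧ ∀ x y : ℕ, 1 ≤ x → 2 ≤ y →
  (((Ioc x (2 * x)).filter (fun m => ∀ p ∈ m.primeFactors, p ≤ y)).card : ℝ) ≤
    C * x * (1 + Real.log y) ^ 3 * Real.exp (-(Real.log x / (2 * Real.log y)))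

/-- COR3.

Proof.  `κ₁`, `C₁` from FIN3, `z = exp(√(log x))`.  `C = C₁² + 1`: `C (log log n)² ≤ log x` gives
`(log n)^{C₁} = exp(C₁ log log n) ≤ exp(√(log x)) = z`, and `log x → ∞` with `n`.  The `m` with a prime
factor `> z`: at most `x exp(-κ₁ √(log x))` are bad.  The others have all prime factors
`≤ y = ⌊z⌋`, RAN: at most `C x (1 + √(log x))³ exp(-√(log x)/2)` (`log y ≤ √(log x)`).
`κ = min(κ₁/2, 1/4)`. -/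
def St_Cor3 : Prop := ∀ Φ : ℕ → ℕ → Prop, DensP Φ → BigP Φ → ∃ κ : ℝ, 0 < κ ∧ ∃ C n₀ : ℕ,
  ∀ n ≥ n₀, ∀ x : ℕ, 1 ≤ x → C * Real.log (Real.log n) ^ 2 ≤ Real.log x →
  (((Ioc x (2 * x)).filter (fun m => 2 * m + 1 < n ∧
    (SolP Φ m n = ∅ ∨ (12 * m ≤ n ∧ ((SolP Φ m n).card : ℝ) < n / Real.log n ^ 5)))).card : ℝ) ≤
    x * Real.exp (-(κ * Real.sqrt (Real.log x)))

end Pool.Agent.EVN
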