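import Pool.Agent.EVN.Stmts3

/-!
# EVN, third form: the module COR3 (helper33)
-/

set_option autoImplicit false

namespace Pool.Agent.EVN

open Finset Filter MeasureTheory
open Pool.Agent.GBQ (ee)
open Pool.Agent.SI (nit DP IsW Wd)

theorem cor3_cube (s : ℝ) (hs : 1 ≤ s) :
    (1 + s) ^ 3 * Real.exp (-(s / 4)) ≤ 49152 / s := by
  have h1 := Real.pow_div_factorial_le_exp (s / 4) (by linarith) 4
  have h2 : (s / 4) ^ 4 / ((4).factorial : ℝ) = s ^ 4 / 6144 := by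
    have : ((4).factorial : ℝ) = 24 := by norm_num [Nat.factorial]
    rw [this]
    ring
  rw [h2] at h1
  have h3 : (1 + s) ^ 3 ≤ (2 * s) ^ 3 := pow_le_pow_left₀ (by linarith) (by linarith) 3
  have h4 : 0 < Real.exp (s / 4) := Real.exp_pos _
  have h5 : 0 < s := by linarith
  rw [Real.exp_neg, ← div_eq_mul_inv, div_le_div_iff₀ h4 h5]
  calc (1 + s) ^ 3 * s ≤ (2 * s) ^ 3 * s := mul_le_mul_of_nonneg_right h3 h5.le
    _ = 49152 * (s ^ 4 / 6144) := by ring
    _ ≤ 49152 * Real.exp (s / 4) := by linarith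

theorem cor3_half (κ₁ CR s : ℝ) (hκ : 0 < κ₁) (hC : 0 < CR)
    (hs : 1 + 98304 * CR + 2 / κ₁ ≤ s) :
    Real.exp (-(κ₁ * s)) + CR * (1 + s) ^ 3 * Real.exp (-(s / 2)) ≤
      Real.exp (-(min (κ₁ / 2) (1 / 4) * s)) := by
  have h0 : 0 < 2 / κ₁ := by positivity
  have hs1 : 1 ≤ s := by nlinarith
  have hspos : 0 < s := by linarith
  set κ : ℝ := min (κ₁ / 2) (1 / 4) with hκdef
  have hk1 : κ ≤ κ₁ / 2 := min_le_left _ _
  have hk2 : κ ≤ 1 / 4 := min_le_right _ _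
  have hE : 0 < Real.exp (-(κ * s)) := Real.exp_pos _
  -- first term
  have h1 : Real.exp (-(κ₁ * s)) ≤ 1 / 2 * Real.exp (-(κ * s)) := by
    have e1 : Real.exp (-(κ₁ * s)) = Real.exp (-(κ₁ * s / 2)) * Real.exp (-(κ₁ * s / 2)) := by
      rw [← Real.exp_add]
      congr 1
      ring
    have e2 : Real.exp (-(κ₁ * s / 2)) ≤ Real.exp (-(κ * s)) := by
      apply Real.exp_le_exp.2
      nlinarith
    have e3 : Real.exp (-(κ₁ * s / 2)) ≤ 1 / 2 := by
      rw [Real.exp_neg, one_div]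
      apply inv_anti₀ (by norm_num)
      have e4 := Real.add_one_le_exp (κ₁ * s / 2)
      have e5 : 2 / κ₁ ≤ s := by nlinarith
      have e6 : 2 ≤ s * κ₁ := by rwa [div_le_iff₀ hκ] at e5
      nlinarith
    rw [e1]
    exact mul_le_mul e3 e2 (Real.exp_pos _).le (by norm_num)
  -- second term
  have h2 : CR * (1 + s) ^ 3 * Real.exp (-(s / 2)) ≤ 1 / 2 * Real.exp (-(κ * s)) := by
    have e1 : Real.exp (-(s / 2)) = Real.exp (-(s / 4)) * Real.exp (-(s / 4)) := by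
      rw [← Real.exp_add]
      congr 1
      ring
    have e2 : Real.exp (-(s / 4)) ≤ Real.exp (-(κ * s)) := by
      apply Real.exp_le_exp.2
      nlinarith
    have e3 := cor3_cube s hs1
    have e4 : CR * ((1 + s) ^ 3 * Real.exp (-(s / 4))) ≤ 1 / 2 := by
      have e5 : CR * ((1 + s) ^ 3 * Real.exp (-(s / 4))) ≤ CR * (49152 / s) :=
        mul_le_mul_of_nonneg_left e3 hC.le
      refine e5.trans ?_
      rw [mul_div_assoc', div_le_div_iff₀ hspos (by norm_num)]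
      nlinarith
    rw [e1]
    calc CR * (1 + s) ^ 3 * (Real.exp (-(s / 4)) * Real.exp (-(s / 4)))
        = (CR * ((1 + s) ^ 3 * Real.exp (-(s / 4)))) * Real.exp (-(s / 4)) := by ring
      _ ≤ 1 / 2 * Real.exp (-(κ * s)) :=
        mul_le_mul e4 e2 (Real.exp_pos _).le (by norm_num)
  linarith

theorem thm_Cor3 (h1 : St_Fin3) (h2 : St_Ran) : St_Cor3 := by
  intro Φ hD hB
  obtain ⟨κ₁, hκ₁, C₁, n₁, hF⟩ := h1 Φ hD hB
  obtain ⟨CR, hCR, hR⟩ := h2
  set s₀ : ℝ := 1 + 98304 * CR + 2 / κ₁ with hs₀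
  have hs₀1 : 1 ≤ s₀ := by
    have : 0 < 2 / κ₁ := by positivity
    rw [hs₀]
    nlinarith
  refine ⟨min (κ₁ / 2) (1 / 4), lt_min (by linarith) (by norm_num), C₁ ^ 2 + 1,
    max n₁ ⌈Real.exp (Real.exp s₀)⌉₊, ?_⟩
  intro n hn x hx hxn
  have hn1 : n₁ ≤ n := (le_max_left _ _).trans hn
  have hn2 : Real.exp (Real.exp s₀) ≤ n :=
    (Nat.le_ceil _).trans (by exact_mod_cast (le_max_right _ _).trans hn)
  have hlog : Real.exp s₀ ≤ Real.log n := by
    rw [Real.le_log_iff_exp_le (lt_of_lt_of_le (Real.exp_pos _) hn2)]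
    exact hn2
  have hlogpos : 0 < Real.log n := lt_of_lt_of_le (Real.exp_pos _) hlog
  have hLL : s₀ ≤ Real.log (Real.log n) := by
    rw [Real.le_log_iff_exp_le hlogpos]
    exact hlog
  set LL : ℝ := Real.log (Real.log n) with hLLdef
  have hLL1 : 1 ≤ LL := hs₀1.trans hLL
  set s : ℝ := Real.sqrt (Real.log x) with hs
  have hx1 : (1 : ℝ) ≤ x := by exact_mod_cast hx
  have hlx : 0 ≤ Real.log x := Real.log_nonneg hx1
  have hss : s ^ 2 = Real.log x := Real.sq_sqrt hlx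
  push_cast at hxn
  have hs1 : LL ≤ s := by
    apply Real.le_sqrt_of_sq_le
    have : 0 ≤ (C₁ : ℝ) ^ 2 * LL ^ 2 := by positivity
    nlinarith
  have hs2 : (C₁ : ℝ) * LL ≤ s := by
    apply Real.le_sqrt_of_sq_le
    have : 0 ≤ LL ^ 2 := by positivity
    nlinarith
  have hs3 : s₀ ≤ s := hLL.trans hs1
  have hspos : 0 < s := by linarith
  -- the threshold
  have hz : Real.log n ^ C₁ ≤ Real.exp s := by
    have e1 : Real.log n ^ C₁ = Real.exp (C₁ * LL) := by
      rw [Real.exp_nat_mul, hLLdef, Real.exp_log hlogpos]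
    rw [e1]
    exact Real.exp_le_exp.2 hs2
  have hA := hF n hn1 x hx (Real.exp s) hz
  have hzk : (Real.exp s) ^ (-κ₁) = Real.exp (-(κ₁ * s)) := by
    rw [← Real.exp_mul]
    congr 1
    ring
  rw [hzk] at hA
  -- smooth numbers
  set y : ℕ := ⌊Real.exp s⌋₊ with hy
  have hes : (2 : ℝ) ≤ Real.exp s := by
    have := Real.add_one_le_exp s
    linarith
  have hy2 : 2 ≤ y := Nat.le_floor (by exact_mod_cast hes)
  have hyR : (2 : ℝ) ≤ y := by exact_mod_cast hy2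
  have hlogy : Real.log y ≤ s := by
    have e1 : (y : ℝ) ≤ Real.exp s := Nat.floor_le (Real.exp_pos _).le
    have e2 := Real.log_le_log (by linarith) e1
    rwa [Real.log_exp] at e2
  have hlogy0 : 0 < Real.log y := Real.log_pos (by linarith)
  have hBd := hR x y hx hy2
  have hBd2 : CR * x * (1 + Real.log y) ^ 3 * Real.exp (-(Real.log x / (2 * Real.log y))) ≤
      x * (CR * (1 + s) ^ 3 * Real.exp (-(s / 2))) := by
    have e1 : (1 + Real.log y) ^ 3 ≤ (1 + s) ^ 3 :=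
      pow_le_pow_left₀ (by linarith) (by linarith) 3
    have e2 : Real.exp (-(Real.log x / (2 * Real.log y))) ≤ Real.exp (-(s / 2)) := by
      apply Real.exp_le_exp.2
      apply neg_le_neg
      rw [← hss, div_le_div_iff₀ (by norm_num) (by positivity)]
      nlinarith
    calc CR * x * (1 + Real.log y) ^ 3 * Real.exp (-(Real.log x / (2 * Real.log y)))
        ≤ CR * x * (1 + s) ^ 3 * Real.exp (-(s / 2)) := by
          apply mul_le_mul _ e2 (Real.exp_pos _).le (by positivity)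
          exact mul_le_mul_of_nonneg_left e1 (by positivity)
      _ = _ := by ring
  have hsub : ((Ioc x (2 * x)).filter (fun m => 2 * m + 1 < n ∧
      (SolP Φ m n = ∅ ∨ (12 * m ≤ n ∧ ((SolP Φ m n).card : ℝ) < n / Real.log n ^ 5)))) ⊆
      ((Ioc x (2 * x)).filter (fun m => 2 * m + 1 < n ∧
        (∃ p ∈ m.primeFactors, Real.exp s < (p : ℝ)) ∧
        (SolP Φ m n = ∅ ∨ (12 * m ≤ n ∧ ((SolP Φ m n).card : ℝ) < n / Real.log n ^ 5)))) ∪
      ((Ioc x (2 * x)).filter (fun m => ∀ p ∈ m.primeFactors, p ≤ y)) := by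
    intro m hm
    rw [mem_filter] at hm
    rw [mem_union, mem_filter, mem_filter]
    by_cases hp : ∃ p ∈ m.primeFactors, Real.exp s < (p : ℝ)
    · exact Or.inl ⟨hm.1, hm.2.1, hp, hm.2.2⟩
    · refine Or.inr ⟨hm.1, fun p hpm => ?_⟩
      push Not at hp
      exact Nat.le_floor (hp p hpm)
  have hcard := (card_le_card hsub).trans (card_union_le _ _)
  have hcardR : (((Ioc x (2 * x)).filter (fun m => 2 * m + 1 < n ∧
      (SolP Φ m n = ∅ ∨ (12 * m ≤ n ∧ ((SolP Φ m n).card : ℝ) < n / Real.log n ^ 5)))).card : ℝ) ≤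
      (((Ioc x (2 * x)).filter (fun m => 2 * m + 1 < n ∧
        (∃ p ∈ m.primeFactors, Real.exp s < (p : ℝ)) ∧
        (SolP Φ m n = ∅ ∨ (12 * m ≤ n ∧ ((SolP Φ m n).card : ℝ) <
          n / Real.log n ^ 5)))).card : ℝ) +
      (((Ioc x (2 * x)).filter (fun m => ∀ p ∈ m.primeFactors, p ≤ y)).card : ℝ) := by
    exact_mod_cast hcard
  have hfin := cor3_half κ₁ CR s hκ₁ hCR hs3
  have hxpos : (0 : ℝ) < x := by linarith
  calc _ ≤ _ := hcardR
    _ ≤ x * Real.exp (-(κ₁ * s)) + x * (CR * (1 + s) ^ 3 * Real.exp (-(s / 2))) :=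
      add_le_add hA (hBd.trans hBd2)
    _ = x * (Real.exp (-(κ₁ * s)) + CR * (1 + s) ^ 3 * Real.exp (-(s / 2))) := by ring
    _ ≤ x * Real.exp (-(min (κ₁ / 2) (1 / 4) * s)) :=
      mul_le_mul_of_nonneg_left hfin hxpos.le

end Pool.Agent.EVN
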