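import Pool.Agent.EVN.Stmts3
import Pool.Agent.EVN.Ker

set_option autoImplicit false
set_option linter.unusedVariables false

/-!
# EVN: the kernel with a power saving (KER3)
-/

namespace Pool.Agent.EVN

open Finset Filter MeasureTheory
open Pool.Agent.SI (nit)

/-- the powers of `P` in terms of `a = P ^ (η₁ / 4)` -/
theorem ker3_pow {P : ℕ} (hP : 0 < P) (η₁ : ℝ) :
    (P : ℝ) ^ (η₁ / 2) = ((P : ℝ) ^ (η₁ / 4)) ^ 2 ∧
    (P : ℝ) ^ (1 - η₁) = P / ((P : ℝ) ^ (η₁ / 4)) ^ 4 ∧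
    (P : ℝ) ^ (-(η₁ / 4)) = ((P : ℝ) ^ (η₁ / 4))⁻¹ := by
  have hP0 : (0 : ℝ) < P := by exact_mod_cast hP
  refine ⟨?_, ?_, ?_⟩
  · rw [← Real.rpow_natCast, ← Real.rpow_mul hP0.le]
    congr 1
    push_cast
    ring
  · rw [← Real.rpow_natCast, ← Real.rpow_mul hP0.le, Real.rpow_sub hP0, Real.rpow_one]
    congr 2
    push_cast
    ring
  · rw [Real.rpow_neg hP0.le]

/-- the final numerical inequality -/
theorem ker3_num {M P H a : ℝ} (hM : 0 ≤ M) (hP : 0 < P) (ha : 16 ≤ a) (hH1 : a ^ 2 ≤ H)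
    (hH2 : H ≤ 2 * a ^ 2) (hPa : a ^ 2 ≤ P) :
    (2 * M / P) * (2 * (H * (P / a ^ 4) + (P / H + 1))) ≤ M * a⁻¹ := by
  have ha0 : 0 < a := by linarith
  have h2 : H * (P / a ^ 4) ≤ 2 * (P / a ^ 2) := by
    calc H * (P / a ^ 4) ≤ (2 * a ^ 2) * (P / a ^ 4) :=
          mul_le_mul_of_nonneg_right hH2 (by positivity)
      _ = 2 * (P / a ^ 2) := by
          field_simp
  have h3 : P / H ≤ P / a ^ 2 := div_le_div_of_nonneg_left hP.le (by positivity) hH1
  have h4 : (1 : ℝ) ≤ P / a ^ 2 := by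
    rw [le_div_iff₀ (by positivity), one_mul]
    exact hPa
  have h5 : 0 ≤ 2 * M / P := by positivity
  calc (2 * M / P) * (2 * (H * (P / a ^ 4) + (P / H + 1)))
      ≤ (2 * M / P) * (2 * (2 * (P / a ^ 2) + (P / a ^ 2 + P / a ^ 2))) := by
        refine mul_le_mul_of_nonneg_left ?_ h5
        linarith
    _ = M * (16 / a ^ 2) := by
        field_simp
        ring
    _ ≤ M * a⁻¹ := by
        refine mul_le_mul_of_nonneg_left ?_ hM
        rw [inv_eq_one_div, div_le_div_iff₀ (by positivity) ha0]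
        nlinarith

theorem thm_Ker3 (hSpa : St_Spa3) : St_Ker3 := by
  intro ε hε
  obtain ⟨ηs, hηs, C₁, n₁, hS⟩ := hSpa (ε / 2) (by positivity)
  obtain ⟨η₁, hη₁, hη₁s, hη₁e, hη₁h⟩ : ∃ η₁ : ℝ, 0 < η₁ ∧ η₁ ≤ ηs ∧ η₁ ≤ ε / 2 ∧ η₁ ≤ 1 / 2 :=
    ⟨min ηs (min (ε / 2) (1 / 2)), lt_min hηs (lt_min (by positivity) (by norm_num)),
      min_le_left _ _, (min_le_right _ _).trans (min_le_left _ _),
      (min_le_right _ _).trans (min_le_right _ _)⟩
  have hpow : ∀ᶠ n : ℕ in atTop, 2 * (2 * (n : ℝ)) ^ (ε / 4) ≤ (n : ℝ) ^ (ε / 2) := by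
    have h1 : Tendsto (fun n : ℕ => (n : ℝ) ^ (ε / 4)) atTop atTop :=
      (tendsto_rpow_atTop (by positivity)).comp tendsto_natCast_atTop_atTop
    filter_upwards [h1.eventually_ge_atTop (2 * (2 : ℝ) ^ (ε / 4)), eventually_ge_atTop 1]
      with n hn hn1
    have hn0 : (0 : ℝ) < n := by exact_mod_cast hn1
    have h2 : (n : ℝ) ^ (ε / 2) = (n : ℝ) ^ (ε / 4) * (n : ℝ) ^ (ε / 4) := by
      rw [← Real.rpow_add hn0]
      congr 1
      ring
    rw [h2, Real.mul_rpow (by norm_num) hn0.le, ← mul_assoc]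
    exact mul_le_mul_of_nonneg_right hn (by positivity)
  have hbig : ∀ᶠ n : ℕ in atTop, (16 : ℝ) ≤ Real.log n :=
    (Real.tendsto_log_atTop.comp tendsto_natCast_atTop_atTop).eventually_ge_atTop 16
  obtain ⟨n₂, hn₂⟩ := eventually_atTop.mp (hpow.and hbig)
  refine ⟨η₁ / 4, by positivity, max C₁ ⌈4 / η₁⌉₊, max n₁ n₂, ?_⟩
  intro n hn M P hM hP hPM
  obtain ⟨hl1, hL⟩ := hn₂ n ((le_max_right _ _).trans hn)
  set L := Real.log n with hLdef
  have hL0 : 0 < L := by linarith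
  have hL1 : 1 ≤ L := by linarith
  have hPC : L ^ C₁ ≤ P := (pow_le_pow_right₀ hL1 (le_max_left _ _)).trans hP
  have hPA : L ^ ⌈4 / η₁⌉₊ ≤ P := (pow_le_pow_right₀ hL1 (le_max_right _ _)).trans hP
  have hP0 : (0 : ℝ) < P := (by positivity : 0 < L ^ C₁).trans_le hPC
  have hP1 : (1 : ℝ) ≤ P := (one_le_pow₀ hL1).trans hPC
  have hP0' : 0 < P := by exact_mod_cast hP0
  obtain ⟨e2, e4, en⟩ := ker3_pow hP0' η₁
  obtain ⟨a, hadef⟩ : ∃ a : ℝ, a = (P : ℝ) ^ (η₁ / 4) := ⟨_, rfl⟩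
  rw [← hadef] at e2 e4 en
  have ha : 16 ≤ a := by
    refine hL.trans ?_
    have h1 : (L ^ ⌈4 / η₁⌉₊) ^ (η₁ / 4) ≤ (P : ℝ) ^ (η₁ / 4) :=
      Real.rpow_le_rpow (by positivity) hPA (by positivity)
    rw [hadef]
    refine le_trans ?_ h1
    rw [← Real.rpow_natCast, ← Real.rpow_mul hL0.le]
    have h2 : (1 : ℝ) ≤ (⌈4 / η₁⌉₊ : ℝ) * (η₁ / 4) := by
      have h3 : 4 / η₁ ≤ (⌈4 / η₁⌉₊ : ℝ) := Nat.le_ceil _
      calc (1 : ℝ) = (4 / η₁) * (η₁ / 4) := by field_simp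
        _ ≤ _ := mul_le_mul_of_nonneg_right h3 (by positivity)
    calc L = L ^ (1 : ℝ) := (Real.rpow_one L).symm
      _ ≤ _ := Real.rpow_le_rpow_of_exponent_le hL1 h2
  have ha0 : 0 < a := by linarith
  have ha2P : a ^ 2 ≤ P := by
    rw [← e2]
    calc (P : ℝ) ^ (η₁ / 2) ≤ (P : ℝ) ^ (1 : ℝ) :=
          Real.rpow_le_rpow_of_exponent_le hP1 (by linarith)
      _ = P := Real.rpow_one _
  have ha2 : 1 ≤ a ^ 2 := by nlinarith
  set H := ⌈a ^ 2⌉₊ with hHdef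
  have hH0 : 0 < H := Nat.ceil_pos.mpr (by positivity)
  have hH1 : a ^ 2 ≤ H := Nat.le_ceil _
  have hH2 : (H : ℝ) ≤ 2 * a ^ 2 := by
    have h1 := (Nat.ceil_lt_add_one (by positivity : (0 : ℝ) ≤ a ^ 2)).le
    linarith
  have hH0' : (0 : ℝ) < H := by exact_mod_cast hH0
  set V : ℕ → Set ℝ := fun h => {u : ℝ | |u| ≤ (n : ℝ) ^ 2 ∧
    (P : ℝ) ^ (1 - η₁) < ‖kerS (kerB P H h) (kerB P H (h + 1)) u‖} with hV
  have hVm : ∀ h, MeasurableSet (V h) := by
    intro h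
    have hc := ker_cont ((Ioc (kerB P H h) (kerB P H (h + 1))).filter Nat.Prime)
    refine MeasurableSet.inter ?_ ?_
    · exact measurableSet_le continuous_abs.measurable measurable_const
    · exact measurableSet_lt measurable_const hc.norm.measurable
  have hVv : ∀ h ∈ range H, volume (V h) ≤ ENNReal.ofReal ((n : ℝ) ^ (ε / 2)) := by
    intro h hh
    rw [mem_range] at hh
    refine le_trans (measure_mono ?_) (hS n ((le_max_left _ _).trans hn) P hPC
      (hPM.trans (by omega)) ((Ioc (kerB P H h) (kerB P H (h + 1))).filter Nat.Prime) ?_)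
    · intro u hu
      refine ⟨hu.1, lt_of_le_of_lt ?_ hu.2⟩
      exact Real.rpow_le_rpow_of_exponent_le hP1 (by linarith)
    · intro p hp
      rw [mem_filter, mem_Ioc] at hp
      obtain ⟨⟨h1, h2⟩, h3⟩ := hp
      refine ⟨h3, ?_, ?_⟩
      · have h4 := ker_b_le P H h
        omega
      · have h4 := ker_b_mono P H (show h + 1 ≤ H by omega)
        rw [ker_b_top P hH0] at h4
        omega
  refine ⟨⋃ h ∈ range H, V h, ?_, ?_, ?_⟩
  · exact Finset.measurableSet_biUnion _ fun h _ => hVm h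
  · refine (measure_biUnion_finset_le _ _).trans ?_
    refine (sum_le_sum hVv).trans ?_
    rw [sum_const, card_range, nsmul_eq_mul]
    have h1 : (H : ENNReal) = ENNReal.ofReal (H : ℝ) := (ENNReal.ofReal_natCast H).symm
    rw [h1, ← ENNReal.ofReal_mul hH0'.le]
    refine ENNReal.ofReal_le_ofReal ?_
    have hn0 : (0 : ℝ) < n := by
      rcases Nat.eq_zero_or_pos n with h | h
      · rw [hLdef, h] at hL
        norm_num at hL
      · exact_mod_cast h
    have h2 : (n : ℝ) ^ ε = (n : ℝ) ^ (ε / 2) * (n : ℝ) ^ (ε / 2) := by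
      rw [← Real.rpow_add hn0]
      congr 1
      ring
    rw [h2]
    refine mul_le_mul_of_nonneg_right (hH2.trans (le_trans ?_ hl1)) (by positivity)
    refine mul_le_mul_of_nonneg_left ?_ (by norm_num)
    rw [← e2]
    have hP2n : (P : ℝ) ≤ 2 * n := by
      have h3 : P ≤ 2 * n := hPM.trans (by omega)
      exact_mod_cast h3
    calc (P : ℝ) ^ (η₁ / 2) ≤ (P : ℝ) ^ (ε / 4) :=
          Real.rpow_le_rpow_of_exponent_le hP1 (by linarith)
      _ ≤ (2 * (n : ℝ)) ^ (ε / 4) := Real.rpow_le_rpow hP0.le hP2n (by positivity)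
  · intro u hu huU
    rw [ker_sum hP0' u]
    have hK : ∀ h ∈ range H, ‖kerS (kerB P H h) (kerB P H (h + 1)) u‖ ≤ P / a ^ 4 := by
      intro h hh
      by_contra hc
      push Not at hc
      refine huU (Set.mem_biUnion hh ⟨hu, ?_⟩)
      rw [e4]
      exact hc
    have hsum : ∑ h ∈ range H, ‖kerS (kerB P H h) (kerB P H (h + 1)) u‖ ≤
        H * (P / a ^ 4) := by
      refine (sum_le_sum hK).trans ?_
      rw [sum_const, card_range, nsmul_eq_mul]
    have hM0 : (0 : ℝ) ≤ M := Nat.cast_nonneg M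
    have hterm : ∀ k ∈ Icc 1 (2 * M / P), ‖nit u k *
        ∑ p ∈ (Ioc P (2 * P)).filter (fun p => p.Prime ∧ M / k < p ∧ p ≤ 2 * M / k), nit u p‖ ≤
        2 * (H * (P / a ^ 4) + (P / H + 1)) := by
      intro k hk
      rw [norm_mul, ker_nit_norm, one_mul]
      refine (ker_int hH0 u (Nat.div_le_div_right (by omega))).trans ?_
      linarith
    refine (norm_sum_le _ _).trans ((sum_le_sum hterm).trans ?_)
    rw [sum_const, Nat.card_Icc, add_tsub_cancel_right, nsmul_eq_mul]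
    have h1 : ((2 * M / P : ℕ) : ℝ) ≤ 2 * M / P := by
      have := Nat.cast_div_le (α := ℝ) (m := 2 * M) (n := P)
      push_cast at this
      exact this
    rw [en]
    refine le_trans (mul_le_mul_of_nonneg_right h1 (by positivity)) ?_
    exact ker3_num hM0 hP0 ha hH1 hH2 ha2P

end Pool.Agent.EVN
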