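import Pool.Agent.EVN.Stmts3
import Pool.Agent.EVN.Key

set_option autoImplicit false

/-!
# EVN, KEY3: the number of bad `m` in a dyadic interval, with a power saving in `P`
-/

namespace Pool.Agent.EVN

open Finset Filter MeasureTheory
open Pool.Agent.SI (nit DP IsW Wd)

/-- the choice of the exponent: `L^C ≤ P` gives `16 L^(2C₀)/c₁² ≤ P^(κ/2)` -/
lemma key3_pow {κ c₁ L P : ℝ} {C₀ C : ℕ} (hκ : 0 < κ) (hL : 1 ≤ L)
    (hLc : 16 / c₁ ^ 2 ≤ L) (hC : (2 * C₀ + 1 : ℝ) ≤ C * (κ / 2)) (hP : L ^ C ≤ P) :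
    16 * L ^ (2 * C₀) / c₁ ^ 2 ≤ P ^ (κ / 2) := by
  have hL0 : 0 < L := by linarith
  have h1 : (L ^ C) ^ (κ / 2) ≤ P ^ (κ / 2) :=
    Real.rpow_le_rpow (pow_nonneg hL0.le _) hP (by positivity)
  have h2 : (L ^ C) ^ (κ / 2) = L ^ ((C : ℝ) * (κ / 2)) := by
    rw [← Real.rpow_natCast, ← Real.rpow_mul hL0.le]
  have h3 : L ^ ((2 * C₀ + 1 : ℕ) : ℝ) ≤ L ^ ((C : ℝ) * (κ / 2)) := by
    apply Real.rpow_le_rpow_of_exponent_le hL
    push_cast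
    exact hC
  rw [Real.rpow_natCast] at h3
  have h4 : 16 * L ^ (2 * C₀) / c₁ ^ 2 ≤ L ^ (2 * C₀ + 1) := by
    have e : 16 * L ^ (2 * C₀) / c₁ ^ 2 = L ^ (2 * C₀) * (16 / c₁ ^ 2) := by ring
    rw [e, pow_succ]
    exact mul_le_mul_of_nonneg_left hLc (pow_nonneg hL0.le _)
  rw [h2] at h1
  linarith

theorem thm_Key3 (h1 : Pool.Agent.SI.St_W) (h2 : St_VB3) (h3 : St_Low) (h4 : St_Cnt) :
    St_Key3 := by
  classical
  obtain ⟨w, hw⟩ := h1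
  obtain ⟨c₁, hc₁, hLow⟩ := h3 w hw
  obtain ⟨W, hW, nC, hCnt⟩ := h4 w hw
  obtain ⟨κ, hκ, hVB⟩ := h2 w hw
  refine ⟨c₁ / (8 * W), κ / 2, by positivity, by positivity, ?_⟩
  intro C₀
  obtain ⟨nL, hL⟩ := hLow (C₀ + 2) C₀
  obtain ⟨C₁, nV, hV⟩ := hVB C₀
  obtain ⟨C₂, hC₂⟩ := exists_nat_ge ((2 * C₀ + 1 : ℝ) / (κ / 2))
  obtain ⟨nB, hB⟩ := Filter.eventually_atTop.mp ((key_large (8 * W / c₁) (2 * C₀ + 2)).and
    ((key_log_large (2 + 16 / c₁ ^ 2)).and (eventually_ge_atTop 1)))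
  refine ⟨max C₁ C₂, max (max nL nC) (max nV nB), ?_⟩
  intro n hn M R P Q hQ hRQ hn16 hnX hMn hP hP2
  have hnL : nL ≤ n := le_trans (le_trans (le_max_left _ _) (le_max_left _ _)) hn
  have hnC : nC ≤ n := le_trans (le_trans (le_max_right _ _) (le_max_left _ _)) hn
  have hnV : nV ≤ n := le_trans (le_trans (le_max_left _ _) (le_max_right _ _)) hn
  have hnB : nB ≤ n := le_trans (le_trans (le_max_right _ _) (le_max_right _ _)) hn
  obtain ⟨hbig, hlog, hn1⟩ := hB n hnB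
  set L : ℝ := Real.log n with hLdef
  have hc2 : 0 < 16 / c₁ ^ 2 := by positivity
  have hL2 : 2 ≤ L := by linarith
  have hL0 : 0 < L := by linarith
  have hnpos : (0 : ℝ) < n := by exact_mod_cast hn1
  have hMR : 0 < M * R := by
    rcases Nat.eq_zero_or_pos (M * R) with h | h
    · exfalso
      have h' : ((M : ℝ) * R) = 0 := by exact_mod_cast h
      rw [h', mul_zero] at hnX
      linarith
    · exact h
  have hM1 : 0 < M := Nat.pos_of_mul_pos_right hMR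
  have hR1 : 0 < R := Nat.pos_of_mul_pos_left hMR
  have hM0 : (0 : ℝ) < M := by exact_mod_cast hM1
  have hR0 : (0 : ℝ) < R := by exact_mod_cast hR1
  have hP1 : L ^ C₁ ≤ P := (pow_le_pow_right₀ (by linarith) (le_max_left _ _)).trans hP
  have hP0 : (0 : ℝ) < P := lt_of_lt_of_le (pow_pos hL0 _) hP1
  have hPC : 16 * L ^ (2 * C₀) / c₁ ^ 2 ≤ (P : ℝ) ^ (κ / 2) := by
    refine key3_pow (C := max C₁ C₂) hκ (by linarith) (by linarith) ?_ hP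
    have h5 : (2 * C₀ + 1 : ℝ) ≤ C₂ * (κ / 2) := by
      rw [div_le_iff₀ (by positivity)] at hC₂
      exact hC₂
    have h6 : ((C₂ : ℕ) : ℝ) ≤ ((max C₁ C₂ : ℕ) : ℝ) := by
      exact_mod_cast le_max_right _ _
    exact h5.trans (mul_le_mul_of_nonneg_right h6 (by positivity))
  have hVB' := hV n hnV M R P Q hQ hn16 hnX hMn hP1 hP2
  set F := (Ioc M (2 * M)).filter (fun m => 1 ≤ om P m ∧ ((SolQ Q m n).card : ℝ) <
    c₁ / (8 * W) * Q.card * M / L) with hF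
  set D : ℕ → ℝ := fun m => ∑ q ∈ Q, (Tq w (1 / (4 * R)) n (M * R) m q -
      Tq w ((n : ℝ) ^ (-(1 / 4) : ℝ)) n (M * R) m q) with hD
  have hone : ∀ m ∈ F, (c₁ * ((M : ℝ) * R) * R / (4 * L ^ C₀)) ^ 2 ≤ (om P m : ℝ) * D m ^ 2 := by
    intro m hm
    rw [hF, Finset.mem_filter, Finset.mem_Ioc] at hm
    obtain ⟨⟨hm1, hm2⟩, hom, hS⟩ := hm
    have hd : (0 : ℝ) ≤ (n : ℝ) ^ (-(1 / 4) : ℝ) := by positivity
    have hlow := hL n hnL M R m hn16 hnX hMn hm1 hm2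
    have hb2 : (R : ℝ) / Real.log n ^ (C₀ + 2) ≤ Q.card / 2 := by
      rw [← hLdef, div_le_div_iff₀ (by positivity) (by norm_num), pow_add]
      have hq0 : (0 : ℝ) ≤ Q.card := by positivity
      have h4 : (2 : ℝ) ≤ L ^ 2 := by nlinarith
      have h5 : (R : ℝ) * 2 ≤ (L ^ C₀ * Q.card) * 2 := by linarith
      have h6 : (L ^ C₀ * (Q.card : ℝ)) * 2 ≤ (L ^ C₀ * Q.card) * L ^ 2 :=
        mul_le_mul_of_nonneg_left h4 (by positivity)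
      nlinarith
    have hDl := key_low (T := fun q => Tq w ((n : ℝ) ^ (-(1 / 4) : ℝ)) n (M * R) m q)
      (y := c₁ * ((M : ℝ) * R)) hQ (by positivity)
      (fun q => key_Tq_nonneg hw hd n (M * R) m q) hlow hb2
    have hDs := hCnt n hnC M R m Q hR1 hQ hn16 hm1 hm2
    have hsq : Real.sqrt n ^ 2 ≤ L ^ C₀ * ((M : ℝ) * R) := by
      rw [Real.sq_sqrt hnpos.le]
      exact hnX
    have key := key_one (C₀ := C₀) hc₁ hW hL2 hM0 hR0 rfl hRQ hsq (Real.sqrt_nonneg _) hbig hS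
      hDl hDs
    have hDm : D m = (∑ q ∈ Q, Tq w (1 / (4 * R)) n (M * R) m q) -
        ∑ q ∈ Q, Tq w ((n : ℝ) ^ (-(1 / 4) : ℝ)) n (M * R) m q := by
      rw [hD]
      exact Finset.sum_sub_distrib _ _
    have hom' : (1 : ℝ) ≤ (om P m : ℝ) := by exact_mod_cast hom
    rw [← hDm] at key
    have : 0 ≤ D m ^ 2 := sq_nonneg _
    nlinarith
  have hsum : (F.card : ℝ) * (c₁ * ((M : ℝ) * R) * R / (4 * L ^ C₀)) ^ 2 ≤
      ∑ m ∈ Ioc M (2 * M), (om P m : ℝ) * D m ^ 2 := by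
    have h4 : (F.card : ℝ) * (c₁ * ((M : ℝ) * R) * R / (4 * L ^ C₀)) ^ 2 ≤
        ∑ m ∈ F, (om P m : ℝ) * D m ^ 2 := by
      have := Finset.card_nsmul_le_sum F (fun m => (om P m : ℝ) * D m ^ 2)
        ((c₁ * ((M : ℝ) * R) * R / (4 * L ^ C₀)) ^ 2) hone
      simpa [nsmul_eq_mul] using this
    refine h4.trans (Finset.sum_le_sum_of_subset_of_nonneg (Finset.filter_subset _ _) ?_)
    intro m _ _
    positivity
  have hfin := hsum.trans hVB'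
  -- `F.card * c₁² X² R² / (16 L^(2C₀)) ≤ M X² R² P^(-κ)`
  have hXR : 0 < ((M : ℝ) * R * R) ^ 2 := by positivity
  have h9 : (F.card : ℝ) * (c₁ ^ 2 / (16 * L ^ (2 * C₀))) ≤ M * (P : ℝ) ^ (-κ) := by
    have h8 : (F.card : ℝ) * (c₁ ^ 2 / (16 * L ^ (2 * C₀))) * ((M : ℝ) * R * R) ^ 2 ≤
        (M * (P : ℝ) ^ (-κ)) * ((M : ℝ) * R * R) ^ 2 := by
      have e1 : (F.card : ℝ) * (c₁ * ((M : ℝ) * R) * R / (4 * L ^ C₀)) ^ 2 =
          (F.card : ℝ) * (c₁ ^ 2 / (16 * L ^ (2 * C₀))) * ((M : ℝ) * R * R) ^ 2 := by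
        rw [div_pow, mul_pow, mul_pow, mul_pow 4, ← pow_mul, mul_comm C₀ 2]
        ring
      have e2 : (M : ℝ) * ((M * R : ℝ) * R) ^ 2 * (P : ℝ) ^ (-κ) =
          (M * (P : ℝ) ^ (-κ)) * ((M : ℝ) * R * R) ^ 2 := by ring
      rw [e1, e2] at hfin
      exact hfin
    exact le_of_mul_le_mul_right h8 hXR
  have hX0 : (0 : ℝ) < 16 * L ^ (2 * C₀) / c₁ ^ 2 := by positivity
  have h11 : (F.card : ℝ) ≤ M * (P : ℝ) ^ (-κ) * (16 * L ^ (2 * C₀) / c₁ ^ 2) := by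
    have e5 : (F.card : ℝ) = (F.card : ℝ) * (c₁ ^ 2 / (16 * L ^ (2 * C₀))) *
        (16 * L ^ (2 * C₀) / c₁ ^ 2) := by
      have : L ^ (2 * C₀) ≠ 0 := (pow_pos hL0 _).ne'
      field_simp
    rw [e5]
    exact mul_le_mul_of_nonneg_right h9 hX0.le
  have h12 : (M : ℝ) * (P : ℝ) ^ (-κ) * (16 * L ^ (2 * C₀) / c₁ ^ 2) ≤
      M * (P : ℝ) ^ (-κ) * (P : ℝ) ^ (κ / 2) :=
    mul_le_mul_of_nonneg_left hPC (by positivity)
  have h13 : (M : ℝ) * (P : ℝ) ^ (-κ) * (P : ℝ) ^ (κ / 2) = M * (P : ℝ) ^ (-(κ / 2)) := by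
    rw [mul_assoc, ← Real.rpow_add hP0]
    congr 2
    ring
  linarith

end Pool.Agent.EVN
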