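import Mathlib
import Pool.Agent.EVN.Stmts3
import Pool.Agent.GBQ.RhoLow

set_option autoImplicit false

/-!
# EVN / Ran

Numbers without large prime factors: the method of Rankin.
-/

namespace Pool.Agent.EVN

open Finset

/-- primes up to `y` -/
def ran_P (y : ℕ) : Finset ℕ := (range (y + 1)).filter Nat.Prime

theorem ran_mem {y p : ℕ} : p ∈ ran_P y ↔ p ≤ y ∧ p.Prime := by
  unfold ran_P
  rw [mem_filter, mem_range]
  constructor
  · rintro ⟨h, h'⟩; exact ⟨by omega, h'⟩
  · rintro ⟨h, h'⟩; exact ⟨by omega, h'⟩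

/-- second theorem of Mertens, upper bound -/
theorem ran_recip (y : ℕ) (hy : 2 ≤ y) :
    ∑ p ∈ ran_P y, 1 / (p : ℝ) ≤ 8 + Real.log (1 + Real.log y) := by
  have hly : 0 < Real.log y := Real.log_pos (by exact_mod_cast (by omega : 1 < y))
  have hpr : ran_P y = insert 2 ((Ioc 2 y).filter Nat.Prime) := by
    ext p
    rw [ran_mem, mem_insert, mem_filter, mem_Ioc]
    constructor
    · rintro ⟨h1, h2⟩
      rcases Nat.lt_or_ge 2 p with h3 | h3
      · exact Or.inr ⟨⟨h3, h1⟩, h2⟩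
      · left
        have := h2.two_le
        omega
    · rintro (rfl | ⟨⟨h1, h2⟩, h3⟩)
      · exact ⟨by omega, Nat.prime_two⟩
      · exact ⟨h2, h3⟩
  have h0 : 0 ≤ Real.log (1 + Real.log y) := Real.log_nonneg (by linarith)
  rw [hpr, sum_insert (by simp), sum_filter]
  have h1 : ∑ j ∈ Ioc 2 y, (if j.Prime then 1 / (j : ℝ) else 0) ≤
      7 + Real.log (1 + Real.log y) := by
    rcases Nat.lt_or_ge 2 y with h | h
    · have h2 := Pool.Agent.GBQ.rhl_recip y (by omega)
      have h3 : Real.log (Real.log y) ≤ Real.log (1 + Real.log y) :=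
        Real.log_le_log hly (by linarith)
      linarith
    · have : y = 2 := by omega
      subst this
      simp only [Ioc_self, sum_empty]
      linarith
  have h2 : (1 : ℝ) / ((2 : ℕ) : ℝ) ≤ 1 := by norm_num
  linarith

theorem ran_exp_half : Real.exp (1 / 2) ≤ 1.65 := by
  have h1 : Real.exp (1 / 2) * Real.exp (1 / 2) = Real.exp 1 := by
    rw [← Real.exp_add]
    norm_num
  have h2 := Real.exp_one_lt_d9
  by_contra h
  push Not at h
  nlinarith

/-- the weight of a prime -/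
theorem ran_wt {y p : ℕ} (hy : 2 ≤ y) (hp : p.Prime) (hpy : p ≤ y) :
    (p : ℝ) ^ (-(1 - 1 / (2 * Real.log y))) ≤ 1.65 * (1 / (p : ℝ)) := by
  have hly : 0 < Real.log y := Real.log_pos (by exact_mod_cast (by omega : 1 < y))
  have hp0 : (0 : ℝ) < p := by exact_mod_cast hp.pos
  have h1 : (p : ℝ) ^ (-(1 - 1 / (2 * Real.log y))) =
      (1 / (p : ℝ)) * (p : ℝ) ^ (1 / (2 * Real.log y)) := by
    rw [show -(1 - 1 / (2 * Real.log y)) = -1 + 1 / (2 * Real.log y) by ring,
      Real.rpow_add hp0, Real.rpow_neg_one, inv_eq_one_div]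
  rw [h1, mul_comm]
  refine mul_le_mul_of_nonneg_right ?_ (by positivity)
  refine le_trans ?_ ran_exp_half
  rw [Real.rpow_def_of_pos hp0]
  apply Real.exp_le_exp.2
  have h2 : Real.log p ≤ Real.log y := Real.log_le_log hp0 (by exact_mod_cast hpy)
  rw [mul_one_div, div_le_div_iff₀ (by positivity) (by norm_num)]
  linarith

/-- one factor of the Euler product -/
theorem ran_factor {t : ℝ} (h0 : 0 ≤ t) (h1 : t ≤ 0.825) :
    (1 - t)⁻¹ ≤ Real.exp (t + 6 * t ^ 2) := by
  have h2 : 0 < 1 - t := by linarith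
  have h3 : (1 - t)⁻¹ = t / (1 - t) + 1 := by
    field_simp
    ring
  have h4 : t / (1 - t) ≤ t + 6 * t ^ 2 := by
    rw [div_le_iff₀ h2]
    nlinarith [mul_nonneg h0 h0, mul_nonneg (mul_nonneg h0 h0) (by linarith : 0 ≤ 0.825 - t)]
  rw [h3]
  exact (Real.add_one_le_exp _).trans (Real.exp_le_exp.2 h4)

/-- the completely multiplicative weight -/
noncomputable def ran_hom (σ : ℝ) : ℕ →* ℝ where
  toFun n := (n : ℝ) ^ (-σ)
  map_one' := by simp
  map_mul' a b := by
    push_cast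
    exact Real.mul_rpow (Nat.cast_nonneg a) (Nat.cast_nonneg b)

theorem thm_Ran : St_Ran := by
  have hsum : Summable (fun n : ℕ => 1 / (n : ℝ) ^ 2) :=
    Real.summable_one_div_nat_pow.mpr (by norm_num)
  obtain ⟨Z, hZ⟩ : ∃ Z : ℝ, Z = ∑' n : ℕ, 1 / (n : ℝ) ^ 2 := ⟨_, rfl⟩
  refine ⟨2 * Real.exp (24 + 17 * Z), by positivity, fun x y hx hy => ?_⟩
  have hly : 0 < Real.log y := Real.log_pos (by exact_mod_cast (by omega : 1 < y))
  have hly2 : Real.log 2 ≤ Real.log y := Real.log_le_log (by norm_num) (by exact_mod_cast hy)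
  have hl2 := Real.log_two_gt_d9
  have hx0 : (0 : ℝ) < x := by exact_mod_cast hx
  obtain ⟨s, hs⟩ : ∃ s : ℝ, s = 1 / (2 * Real.log y) := ⟨_, rfl⟩
  have hs0 : 0 < s := by rw [hs]; positivity
  have hs1 : s < 1 := by
    rw [hs, div_lt_one (by positivity)]
    linarith
  have hwt : ∀ p ∈ ran_P y, (p : ℝ) ^ (-(1 - s)) ≤ 1.65 * (1 / (p : ℝ)) := by
    intro p hp
    rw [ran_mem] at hp
    rw [hs]
    exact ran_wt hy hp.2 hp.1
  -- the Euler product
  have hE := EulerProduct.summable_and_hasSum_factoredNumbers_prod_filter_prime_geometric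
    (f := ran_hom (1 - s)) (by
      intro p hp
      show ‖((p : ℝ)) ^ (-(1 - s))‖ < 1
      rw [Real.norm_of_nonneg (by positivity)]
      exact Real.rpow_lt_one_of_one_lt_of_neg (by exact_mod_cast hp.one_lt) (by linarith))
    (range (y + 1))
  have hprod : ∏ p ∈ range (y + 1) with p.Prime, (1 - ran_hom (1 - s) p)⁻¹ ≤
      Real.exp (24 + 17 * Z) * (1 + Real.log y) ^ 3 := by
    have h1 : ∏ p ∈ range (y + 1) with p.Prime, (1 - ran_hom (1 - s) p)⁻¹ ≤
        ∏ p ∈ ran_P y, Real.exp ((p : ℝ) ^ (-(1 - s)) + 6 * ((p : ℝ) ^ (-(1 - s))) ^ 2) := by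
      refine prod_le_prod ?_ ?_
      · intro p hp
        have h2 := hwt p hp
        have h3 : (2 : ℝ) ≤ p := by exact_mod_cast (ran_mem.1 hp).2.two_le
        have h4 : 1 / (p : ℝ) ≤ 1 / 2 := one_div_le_one_div_of_le (by norm_num) h3
        apply inv_nonneg.2
        show (0 : ℝ) ≤ 1 - (p : ℝ) ^ (-(1 - s))
        linarith
      · intro p hp
        have h2 := hwt p hp
        have h3 : (2 : ℝ) ≤ p := by exact_mod_cast (ran_mem.1 hp).2.two_le
        have h4 : 1 / (p : ℝ) ≤ 1 / 2 := one_div_le_one_div_of_le (by norm_num) h3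
        have h5 : ran_hom (1 - s) p = (p : ℝ) ^ (-(1 - s)) := rfl
        rw [h5]
        exact ran_factor (by positivity) (by linarith)
    rw [← Real.exp_sum, sum_add_distrib] at h1
    refine h1.trans ?_
    have h5 : ∑ p ∈ ran_P y, (p : ℝ) ^ (-(1 - s)) ≤ 3 * (8 + Real.log (1 + Real.log y)) := by
      have h6 := ran_recip y hy
      have h7 : 0 ≤ ∑ p ∈ ran_P y, 1 / (p : ℝ) := sum_nonneg fun _ _ => by positivity
      calc ∑ p ∈ ran_P y, (p : ℝ) ^ (-(1 - s)) ≤ ∑ p ∈ ran_P y, 1.65 * (1 / (p : ℝ)) :=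
            sum_le_sum hwt
        _ = 1.65 * ∑ p ∈ ran_P y, 1 / (p : ℝ) := by rw [← mul_sum]
        _ ≤ 3 * ∑ p ∈ ran_P y, 1 / (p : ℝ) := by nlinarith
        _ ≤ _ := by linarith
    have h8 : ∑ p ∈ ran_P y, 6 * ((p : ℝ) ^ (-(1 - s))) ^ 2 ≤ 17 * Z := by
      calc ∑ p ∈ ran_P y, 6 * ((p : ℝ) ^ (-(1 - s))) ^ 2 ≤
          ∑ p ∈ ran_P y, 17 * (1 / (p : ℝ) ^ 2) := by
            apply sum_le_sum
            intro p hp
            have h9 := hwt p hp
            have h10 : 0 ≤ (p : ℝ) ^ (-(1 - s)) := by positivity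
            have h11 : ((p : ℝ) ^ (-(1 - s))) ^ 2 ≤ (1.65 * (1 / (p : ℝ))) ^ 2 :=
              pow_le_pow_left₀ h10 h9 2
            have h12 : (1.65 * (1 / (p : ℝ))) ^ 2 = 2.7225 * (1 / (p : ℝ) ^ 2) := by ring
            have h13 : 0 ≤ 1 / (p : ℝ) ^ 2 := by positivity
            rw [h12] at h11
            linarith
        _ = 17 * ∑ p ∈ ran_P y, 1 / (p : ℝ) ^ 2 := by rw [← mul_sum]
        _ ≤ 17 * Z := by
            rw [hZ]
            exact mul_le_mul_of_nonneg_left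
              (hsum.sum_le_tsum _ (fun _ _ => by positivity)) (by norm_num)
    calc Real.exp (∑ p ∈ ran_P y, (p : ℝ) ^ (-(1 - s)) +
          ∑ p ∈ ran_P y, 6 * ((p : ℝ) ^ (-(1 - s))) ^ 2) ≤
        Real.exp ((24 + 17 * Z) + 3 * Real.log (1 + Real.log y)) := by
          apply Real.exp_le_exp.2
          linarith
      _ = _ := by
          rw [Real.exp_add]
          congr 1
          rw [mul_comm, Real.exp_mul, Real.exp_log (by linarith)]
          norm_num
  -- the sum over the smooth numbers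
  set S : Finset ℕ := (Ioc x (2 * x)).filter (fun m => ∀ p ∈ m.primeFactors, p ≤ y) with hS
  have hmem : ∀ m ∈ S, m ∈ Nat.factoredNumbers (range (y + 1)) := by
    intro m hm
    rw [hS, mem_filter, mem_Ioc] at hm
    refine ⟨by omega, fun p hp => ?_⟩
    rw [mem_range]
    have := hm.2 p (Nat.mem_primeFactors_iff_mem_primeFactorsList.2 hp)
    omega
  have hsumS : ∑ m ∈ S, (m : ℝ) ^ (-(1 - s)) ≤ Real.exp (24 + 17 * Z) * (1 + Real.log y) ^ 3 := by
    refine le_trans ?_ hprod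
    have h1 : ∑ m ∈ S, (m : ℝ) ^ (-(1 - s)) =
        ∑ m ∈ S.attach, (ran_hom (1 - s)) ((⟨m.1, hmem m.1 m.2⟩ :
          Nat.factoredNumbers (range (y + 1))) : ℕ) := by
      rw [← sum_attach]
      rfl
    rw [h1]
    have h2 : Function.Injective (fun m : {m // m ∈ S} => (⟨m.1, hmem m.1 m.2⟩ :
          Nat.factoredNumbers (range (y + 1)))) := by
      intro a b hab
      exact Subtype.ext (congrArg (fun z : Nat.factoredNumbers (range (y + 1)) => (z : ℕ)) hab)
    have h3 := sum_le_hasSum (S.attach.map ⟨_, h2⟩) (fun m _ => by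
      show (0 : ℝ) ≤ ((m : ℕ) : ℝ) ^ (-(1 - s))
      positivity) hE.2
    rw [sum_map] at h3
    exact h3
  have h2x : (2 * (x : ℝ)) ^ (1 - s) ≤ 2 * x * Real.exp (-(Real.log x / (2 * Real.log y))) := by
    rw [sub_eq_add_neg, Real.rpow_add (by positivity), Real.rpow_one]
    apply mul_le_mul_of_nonneg_left _ (by positivity)
    rw [Real.rpow_def_of_pos (by positivity)]
    apply Real.exp_le_exp.2
    have h3 : Real.log x ≤ Real.log (2 * x) := Real.log_le_log hx0 (by linarith)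
    have h4 : Real.log x / (2 * Real.log y) = Real.log x * s := by
      rw [hs]
      ring
    rw [h4]
    nlinarith
  have hcard : (S.card : ℝ) ≤ (2 * (x : ℝ)) ^ (1 - s) * ∑ m ∈ S, (m : ℝ) ^ (-(1 - s)) := by
    rw [mul_sum, ← nsmul_one, ← sum_const]
    apply sum_le_sum
    intro m hm
    rw [hS, mem_filter, mem_Ioc] at hm
    have hm0 : (0 : ℝ) < m := by
      have : 0 < m := by omega
      exact_mod_cast this
    have hm1 : (m : ℝ) ≤ 2 * x := by exact_mod_cast hm.1.2
    rw [Real.rpow_neg hm0.le, ← div_eq_mul_inv, one_le_div (by positivity)]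
    exact Real.rpow_le_rpow hm0.le hm1 (by linarith)
  calc (S.card : ℝ) ≤ (2 * (x : ℝ)) ^ (1 - s) * ∑ m ∈ S, (m : ℝ) ^ (-(1 - s)) := hcard
    _ ≤ (2 * x * Real.exp (-(Real.log x / (2 * Real.log y)))) *
        (Real.exp (24 + 17 * Z) * (1 + Real.log y) ^ 3) :=
        mul_le_mul h2x hsumS (sum_nonneg fun _ _ => by positivity) (by positivity)
    _ = _ := by ring

end Pool.Agent.EVN
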