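import Pool.Agent.EVN.Stmts3
import Pool.Agent.EVN.Spa

set_option autoImplicit false

/-!
# EVN3 / Spa3: large values of short prime polynomials are rare, power saving (helper56)
-/

namespace Pool.Agent.EVN

open Finset Filter MeasureTheory
open Pool.Agent.SI (nit DP IsW Wd)

theorem spa3_pow (n P l : ℕ) (hn : 4 ≤ n) (hP2 : P ≤ 2 * n) (hl : (2 * P) ^ (l - 1) < n ^ 2)
    (hl1 : 1 ≤ l) : P ^ l ≤ n ^ 4 := by
  calc P ^ l ≤ (2 * P) ^ l := Nat.pow_le_pow_left (by omega) _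
    _ = (2 * P) ^ (l - 1) * (2 * P) := (pow_sub_one_mul (by omega) _).symm
    _ ≤ n ^ 2 * n ^ 2 := Nat.mul_le_mul hl.le (by nlinarith)
    _ = n ^ 4 := by ring

theorem spa3_theta (n P l : ℕ) (ε : ℝ) (hε : 0 < ε) (hn : 4 ≤ n) (hP2 : P ≤ 2 * n)
    (hl : (2 * P) ^ (l - 1) < n ^ 2) (hl1 : 1 ≤ l) :
    ((P : ℝ) ^ (ε / 24)) ^ (2 * l) ≤ (n : ℝ) ^ (ε / 2) := by
  have hn0 : (0 : ℝ) ≤ n := Nat.cast_nonneg n
  have hn1 : (1 : ℝ) ≤ n := by exact_mod_cast (by omega : 1 ≤ n)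
  have hP0 : (0 : ℝ) ≤ P := Nat.cast_nonneg P
  have h1 : (P : ℝ) ^ l ≤ (n : ℝ) ^ 4 := by exact_mod_cast spa3_pow n P l hn hP2 hl hl1
  calc ((P : ℝ) ^ (ε / 24)) ^ (2 * l) = ((P : ℝ) ^ l) ^ (ε / 12) := by
        rw [← Real.rpow_natCast, ← Real.rpow_mul hP0, ← Real.rpow_natCast, ← Real.rpow_mul hP0]
        congr 1
        push_cast
        ring
    _ ≤ ((n : ℝ) ^ 4) ^ (ε / 12) := Real.rpow_le_rpow (by positivity) h1 (by positivity)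
    _ = (n : ℝ) ^ (ε / 3) := by
        rw [← Real.rpow_natCast, ← Real.rpow_mul hn0]
        congr 1
        push_cast
        ring
    _ ≤ (n : ℝ) ^ (ε / 2) := Real.rpow_le_rpow_of_exponent_le hn1 (by linarith)

theorem thm_Spa3 (h : Pool.Agent.SI.St_MV) : St_Spa3 := by
  intro ε hε
  obtain ⟨C, hC, hMV⟩ := h
  obtain ⟨C', hev⟩ := spa_num C hC 0 (ε / 2) (half_pos hε)
  obtain ⟨n₀, hn₀⟩ := eventually_atTop.1 (hev.and (eventually_ge_atTop 4))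
  refine ⟨ε / 24, by positivity, C', n₀, fun n hn P hP1 hP2 S hS => ?_⟩
  obtain ⟨⟨hn1, hL0, key⟩, hn4⟩ := hn₀ n hn
  have hn0 : (0 : ℝ) < n := by exact_mod_cast (by omega : 0 < n)
  have hP0 : (0 : ℝ) < P := lt_of_lt_of_le (by positivity) hP1
  have hP : 0 < P := by exact_mod_cast hP0
  have hb : 1 < 2 * P := by omega
  set l := Nat.clog (2 * P) (n ^ 2) with hl
  have hn2 : 1 < n ^ 2 := Nat.one_lt_pow (by norm_num) hn1
  have h1 : n ^ 2 ≤ (2 * P) ^ l := Nat.le_pow_clog hb _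
  have h2 : (2 * P) ^ (l - 1) < n ^ 2 := Nat.pow_pred_clog_lt_self hb hn2
  have h3 : 1 ≤ l := Nat.clog_pos hb hn2
  have hθ : 0 < (P : ℝ) ^ (ε / 24) := Real.rpow_pos_of_pos hP0 _
  have e1 : (P : ℝ) ^ (1 - ε / 24) = P / (P : ℝ) ^ (ε / 24) := by
    rw [Real.rpow_sub hP0, Real.rpow_one]
  rw [e1]
  refine (spa_one hC hMV S P l hP hS ((n : ℝ) ^ 2) ((P : ℝ) ^ (ε / 24)) (by exact_mod_cast hn2.le)
    hθ (by exact_mod_cast h1)).trans (ENNReal.ofReal_le_ofReal ?_)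
  have k1 := key P l hP1 hP2 h2 h3
  rw [pow_zero, one_pow, mul_one] at k1
  have k2 := spa3_theta n P l ε hε hn4 hP2 h2 h3
  calc C * (2 + l * Real.log (2 * P)) * 2 ^ l * l.factorial * ((P : ℝ) ^ (ε / 24)) ^ (2 * l) ≤
      (n : ℝ) ^ (ε / 2) * (n : ℝ) ^ (ε / 2) :=
        mul_le_mul k1 k2 (by positivity) (Real.rpow_nonneg hn0.le _)
    _ = (n : ℝ) ^ ε := by rw [← Real.rpow_add hn0, add_halves]

end Pool.Agent.EVN
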