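import Pool.Agent.EVN.Stmts3
import Pool.Agent.EVN.VB

set_option autoImplicit false

/-!
# EVN3 / VB3: the variance over `m`, power saving (helper56, after EVN/VB.lean of helper92)
-/

namespace Pool.Agent.EVN

open Finset Filter MeasureTheory
open Pool.Agent.SI (nit DP IsW Wd)

theorem vb3_ev (C : ℝ) : ∀ᶠ n : ℕ in atTop, 4 ≤ n ∧ 1 ≤ Real.log n ∧ 8 * C ^ 2 ≤ Real.log n ∧
    40 * C * Real.log n ≤ (n : ℝ) ^ (1 / 1200 : ℝ) ∧
    40 ≤ (n : ℝ) ^ (39 / 400 : ℝ) ∧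
    4 * Real.pi * (n : ℝ) ^ (13 / 12 : ℝ) ≤ (n : ℝ) ^ 2 := by
  have key : ∀ (c s : ℝ) (k : ℕ), 0 < s → ∀ᶠ n : ℕ in atTop, c * Real.log n ^ k ≤ (n : ℝ) ^ s := by
    intro c s k hs
    have h1 := (isLittleO_log_rpow_rpow_atTop ((k : ℕ) : ℝ) hs).bound
      (show (0 : ℝ) < 1 / (|c| + 1) by positivity)
    have h2 := tendsto_natCast_atTop_atTop.eventually h1
    filter_upwards [h2, eventually_ge_atTop 1] with n hn hn1
    rw [Real.rpow_natCast] at hn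
    have h3 : (0 : ℝ) ≤ Real.log n := Real.log_natCast_nonneg n
    rw [Real.norm_of_nonneg (pow_nonneg h3 _),
      Real.norm_of_nonneg (Real.rpow_nonneg (Nat.cast_nonneg n) _)] at hn
    have h4 : (0 : ℝ) < |c| + 1 := by positivity
    rw [one_div_mul_eq_div, le_div_iff₀ h4] at hn
    have h5 : c * Real.log n ^ k ≤ Real.log n ^ k * (|c| + 1) := by
      have : (0 : ℝ) ≤ Real.log n ^ k := pow_nonneg h3 _
      have h6 := le_abs_self c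
      nlinarith
    linarith
  filter_upwards [vb_ev C 0, eventually_ge_atTop 4, key (40 * C) (1 / 1200) 1 (by norm_num),
    key 40 (39 / 400) 0 (by norm_num)] with n h1 h2 h3 h4
  rw [pow_one] at h3
  rw [pow_zero, mul_one] at h4
  exact ⟨h2, h1.1, h1.2.1, h3, h4, h1.2.2.2.2⟩

/-- the sizes of the powers of `P` -/
theorem vb3_num (η κ : ℝ) (hη : 0 < η) (hκ : 0 < κ) (hκ1 : κ ≤ η / 2) (hκ2 : κ ≤ 1 / 400)
    (C L : ℝ) (C' n M P : ℕ) (hn4 : 4 ≤ n) (hL1 : 1 ≤ L) (hL2 : 8 * C ^ 2 ≤ L)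
    (hC' : 10 / η ≤ C') (hM : (M : ℝ) ≤ (n : ℝ) ^ (1 / 2 : ℝ)) (hP1 : L ^ C' ≤ P)
    (hP2 : P ≤ 2 * M) :
    8 * C ^ 2 * L ^ 4 * (P : ℝ) ^ (-η) ≤ (P : ℝ) ^ (-κ) ∧
      (n : ℝ) ^ (-(1 / 400) : ℝ) ≤ (P : ℝ) ^ (-κ) := by
  have hPL : (1 : ℝ) ≤ P := (one_le_pow₀ hL1).trans hP1
  have hP0 : (0 : ℝ) < P := by linarith
  have hL0 : (0 : ℝ) < L := by linarith
  constructor
  · have e1 : L ^ 5 ≤ (P : ℝ) ^ (η / 2) := by
      calc L ^ 5 = L ^ ((5 : ℕ) : ℝ) := (Real.rpow_natCast _ _).symm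
        _ ≤ L ^ ((C' : ℝ) * (η / 2)) := by
            refine Real.rpow_le_rpow_of_exponent_le hL1 ?_
            rw [div_le_iff₀ hη] at hC'
            push_cast
            linarith
        _ = (L ^ C') ^ (η / 2) := by rw [Real.rpow_mul hL0.le, Real.rpow_natCast]
        _ ≤ (P : ℝ) ^ (η / 2) := Real.rpow_le_rpow (by positivity) hP1 (by positivity)
    have e2 : 8 * C ^ 2 * L ^ 4 ≤ (P : ℝ) ^ (η / 2) := by
      refine le_trans ?_ e1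
      calc 8 * C ^ 2 * L ^ 4 ≤ L * L ^ 4 := mul_le_mul_of_nonneg_right hL2 (by positivity)
        _ = L ^ 5 := by ring
    calc 8 * C ^ 2 * L ^ 4 * (P : ℝ) ^ (-η) ≤ (P : ℝ) ^ (η / 2) * (P : ℝ) ^ (-η) :=
          mul_le_mul_of_nonneg_right e2 (Real.rpow_nonneg hP0.le _)
      _ = (P : ℝ) ^ (-(η / 2)) := by
          rw [← Real.rpow_add hP0]
          congr 1
          ring
      _ ≤ (P : ℝ) ^ (-κ) := Real.rpow_le_rpow_of_exponent_le hPL (by linarith)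
  · have hn0 : (0 : ℝ) < n := by exact_mod_cast (by omega : 0 < n)
    have hPn : (P : ℝ) ≤ n := by
      have e1 : (P : ℝ) ≤ 2 * M := by exact_mod_cast hP2
      have e2 : (2 : ℝ) ≤ (n : ℝ) ^ (1 / 2 : ℝ) := by
        have e3 : (2 : ℝ) = (4 : ℝ) ^ (1 / 2 : ℝ) := by
          rw [← Real.sqrt_eq_rpow, show (4 : ℝ) = 2 ^ 2 by norm_num, Real.sqrt_sq (by norm_num)]
        exact e3.le.trans (Real.rpow_le_rpow (by norm_num) (by exact_mod_cast hn4) (by norm_num))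
      calc (P : ℝ) ≤ 2 * M := e1
        _ ≤ (n : ℝ) ^ (1 / 2 : ℝ) * (n : ℝ) ^ (1 / 2 : ℝ) :=
            mul_le_mul e2 hM (Nat.cast_nonneg _) (by positivity)
        _ = n := by
            rw [← Real.rpow_add hn0]
            norm_num
    rw [Real.rpow_neg hn0.le, Real.rpow_neg hP0.le]
    refine inv_anti₀ (Real.rpow_pos_of_pos hP0 _) ?_
    calc (P : ℝ) ^ κ ≤ (P : ℝ) ^ (1 / 400 : ℝ) := Real.rpow_le_rpow_of_exponent_le hPL hκ2
      _ ≤ (n : ℝ) ^ (1 / 400 : ℝ) := Real.rpow_le_rpow hP0.le hPn (by norm_num)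

theorem thm_VB3 (h1 : St_FI) (h2 : St_VM) (h3 : St_VT) (h4 : St_Ker3) (h5 : St_Dua) :
    St_VB3 := by
  intro w hw
  obtain ⟨η, hη, CK, n₃, hK⟩ := h4 (1 / 100) (by norm_num)
  have hκ : 0 < min (η / 2) (1 / 400) := lt_min (by positivity) (by norm_num)
  refine ⟨min (η / 2) (1 / 400), hκ, fun C₀ => ?_⟩
  obtain ⟨C, n₁, hC, hVM⟩ := h2 w hw C₀
  obtain ⟨n₂, hVT⟩ := h3 w hw C₀
  obtain ⟨n₄, hn₄⟩ := eventually_atTop.1 (vb3_ev C)
  refine ⟨max CK ⌈10 / η⌉₊, max (max n₁ n₂) (max n₃ n₄),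
    fun n hn M R P Q hQ hMR hlog hM hP1 hP2 => ?_⟩
  have hn1 : n₁ ≤ n := le_trans (le_trans (le_max_left _ _) (le_max_left _ _)) hn
  have hn2 : n₂ ≤ n := le_trans (le_trans (le_max_right _ _) (le_max_left _ _)) hn
  have hn3 : n₃ ≤ n := le_trans (le_trans (le_max_left _ _) (le_max_right _ _)) hn
  have hn4 : n₄ ≤ n := le_trans (le_trans (le_max_right _ _) (le_max_right _ _)) hn
  obtain ⟨hn44, hL1, hL2, hL3, hL4, hL5⟩ := hn₄ n hn4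
  obtain ⟨v1, v2⟩ := hVM n hn1 M R Q hQ hMR hlog hM
  have v3 := hVT n hn2 M R Q hQ hMR hlog hM
  set L := Real.log n with hLdef
  have hn0 : (0 : ℝ) < n := by
    rcases Nat.eq_zero_or_pos n with h0 | h0
    · rw [hLdef, h0, Nat.cast_zero, Real.log_zero] at hL1
      linarith
    · exact_mod_cast h0
  have hn1' : (1 : ℝ) ≤ n := by exact_mod_cast (by exact_mod_cast hn0 : 0 < n)
  have hMR0 : 0 < M * R := by
    rcases Nat.eq_zero_or_pos (M * R) with h0 | h0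
    · exfalso
      have : ((M : ℝ) * R) = 0 := by exact_mod_cast h0
      rw [this, mul_zero] at hlog
      linarith
    · exact h0
  have hM0 : 0 < M := Nat.pos_of_mul_pos_right hMR0
  have hR0 : 0 < R := Nat.pos_of_mul_pos_left hMR0
  have hMn : M ≤ n := by
    have : (M : ℝ) ≤ n := hM.trans (by
      calc (n : ℝ) ^ (1 / 2 : ℝ) ≤ (n : ℝ) ^ (1 : ℝ) :=
            Real.rpow_le_rpow_of_exponent_le hn1' (by norm_num)
        _ = n := Real.rpow_one _)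
    exact_mod_cast this
  have hPpos : 0 < P := by
    have : (0 : ℝ) < P := lt_of_lt_of_le (by positivity) hP1
    exact_mod_cast this
  obtain ⟨U, hU1, hU2, hU3⟩ := hK n hn3 M P hMn
    ((pow_le_pow_right₀ hL1 (le_max_left _ _)).trans hP1) hP2
  have hRr : (0 : ℝ) < R := by exact_mod_cast hR0
  have hMr : (0 : ℝ) < M := by exact_mod_cast hM0
  obtain ⟨f1, f2, f3⟩ := h1 w hw (aL n (M * R)) (ind Q) (5 * (M * R)) (2 * R) (1 / (4 * R))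
    ((n : ℝ) ^ (-(1 / 4) : ℝ)) (by positivity) (Real.rpow_pos_of_pos hn0 _)
  change Continuous (h0 w n M R Q) at f1
  change Integrable (h0 w n M R Q) at f2
  set F : ℝ → ℂ := h0 w n M R Q with hFdef
  set G : ℝ → ℂ := (Mid n).indicator F with hGdef
  have hmid := vb_mid n
  have hG1 : Integrable G := f2.indicator hmid
  have hG2 : Integrable (fun ξ => ‖G ξ‖ ^ 2) := by
    have e1 : (fun ξ => ‖G ξ‖ ^ 2) = (Mid n).indicator (fun ξ => ‖F ξ‖ ^ 2) := by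
      funext ξ
      by_cases hξ : ξ ∈ Mid n
      · rw [hGdef, Set.indicator_of_mem hξ, Set.indicator_of_mem hξ]
      · rw [hGdef, Set.indicator_of_notMem hξ, Set.indicator_of_notMem hξ, norm_zero]
        norm_num
    rw [e1, integrable_indicator_iff hmid]
    have e2 : Mid n ⊆ Set.Icc (-((n : ℝ) ^ (13 / 12 : ℝ))) ((n : ℝ) ^ (13 / 12 : ℝ)) :=
      fun ξ hξ => Set.mem_Icc.2 (abs_le.1 (vb_mid_sub hξ))
    exact ((f1.norm.pow 2).integrableOn_Icc).mono_set e2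
  have hG3 : ∫ ξ : ℝ, ‖G ξ‖ = ∫ ξ in Mid n, ‖F ξ‖ := by
    rw [← integral_indicator hmid]
    refine integral_congr_ae (Eventually.of_forall fun ξ => ?_)
    by_cases hξ : ξ ∈ Mid n
    · simp only [hGdef, Set.indicator_of_mem hξ]
    · simp only [hGdef, Set.indicator_of_notMem hξ, norm_zero]
  have hG4 : ∫ ξ : ℝ, ‖G ξ‖ ^ 2 = ∫ ξ in Mid n, ‖F ξ‖ ^ 2 := by
    rw [← integral_indicator hmid]
    refine integral_congr_ae (Eventually.of_forall fun ξ => ?_)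
    by_cases hξ : ξ ∈ Mid n
    · simp only [hGdef, Set.indicator_of_mem hξ]
    · simp only [hGdef, Set.indicator_of_notMem hξ, norm_zero]
      norm_num
  have hG5 : ∀ m : ℕ, ∫ ξ : ℝ, G ξ * nit (2 * Real.pi * ξ) m =
      ∫ ξ in Mid n, F ξ * nit (2 * Real.pi * ξ) m := by
    intro m
    rw [← integral_indicator hmid]
    refine integral_congr_ae (Eventually.of_forall fun ξ => ?_)
    by_cases hξ : ξ ∈ Mid n
    · simp only [hGdef, Set.indicator_of_mem hξ]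
    · simp only [hGdef, Set.indicator_of_notMem hξ, zero_mul]
  have hdua := h5 (Ioc M (2 * M)) (fun m => (om P m : ℝ)) G ((n : ℝ) ^ (13 / 12 : ℝ))
    (M * (P : ℝ) ^ (-η)) (5 * M) ((n : ℝ) ^ (1 / 100 : ℝ)) U
    (fun m hm => ⟨by rw [mem_Ioc] at hm; omega, Nat.cast_nonneg _⟩)
    (Real.rpow_nonneg hn0.le _) (by positivity) (Real.rpow_nonneg hn0.le _)
    (vb_om M P hPpos hP2) hU1 hU2
    (fun u hu hu' => hU3 u (hu.trans hL5) hu') hG1 hG2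
    (fun ξ hξ => by
      rw [hGdef, Set.indicator_of_notMem]
      intro h0
      exact absurd (vb_mid_sub h0) (not_le.2 hξ))
  set Y : ℝ := (M * R : ℝ) * R with hYdef
  have hY0 : 0 < Y := by positivity
  -- the inner sum
  have hD : ∀ m ∈ Ioc M (2 * M), (∑ q ∈ Q, (Tq w (1 / (4 * R)) n (M * R) m q -
      Tq w ((n : ℝ) ^ (-(1 / 4) : ℝ)) n (M * R) m q)) ^ 2 ≤
      2 * ‖∫ ξ : ℝ, G ξ * nit (2 * Real.pi * ξ) m‖ ^ 2 +
        2 * (Y * (n : ℝ) ^ (-(1 / 20) : ℝ)) ^ 2 := by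
    intro m hm
    rw [mem_Ioc] at hm
    have e1 := f3 m (by omega)
    rw [vb_sum w _ _ n (M * R) R m Q hQ] at e1
    change _ = ∫ ξ : ℝ, F ξ * nit (2 * Real.pi * ξ) m at e1
    have e2 : Integrable (fun ξ : ℝ => F ξ * nit (2 * Real.pi * ξ) m) :=
      f2.mul_bdd (c := 1) (vb_cont_nit m).aestronglyMeasurable
        (Eventually.of_forall fun ξ => (vb_norm_nit _ _).le)
    rw [← integral_add_compl hmid e2, ← hG5] at e1
    set D := ∑ q ∈ Q, (Tq w (1 / (4 * R)) n (M * R) m q -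
      Tq w ((n : ℝ) ^ (-(1 / 4) : ℝ)) n (M * R) m q) with hDdef
    have e3 : |D| ≤ ‖∫ ξ : ℝ, G ξ * nit (2 * Real.pi * ξ) m‖ + Y * (n : ℝ) ^ (-(1 / 20) : ℝ) := by
      have e4 : |D| = ‖((D : ℝ) : ℂ)‖ := by rw [Complex.norm_real, Real.norm_eq_abs]
      rw [e4, e1]
      exact (norm_add_le _ _).trans (add_le_add le_rfl (v3 m))
    rw [← sq_abs]
    have e5 := abs_nonneg D
    nlinarith [sq_nonneg (‖∫ ξ : ℝ, G ξ * nit (2 * Real.pi * ξ) m‖ - Y * (n : ℝ) ^ (-(1 / 20) : ℝ))]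
  have hsum : ∑ m ∈ Ioc M (2 * M), (om P m : ℝ) *
      (∑ q ∈ Q, (Tq w (1 / (4 * R)) n (M * R) m q -
        Tq w ((n : ℝ) ^ (-(1 / 4) : ℝ)) n (M * R) m q)) ^ 2 ≤
      2 * (∑ m ∈ Ioc M (2 * M), (om P m : ℝ) * ‖∫ ξ : ℝ, G ξ * nit (2 * Real.pi * ξ) m‖ ^ 2) +
        (5 * M) * (2 * (Y * (n : ℝ) ^ (-(1 / 20) : ℝ)) ^ 2) := by
    calc _ ≤ ∑ m ∈ Ioc M (2 * M), (om P m : ℝ) *
        (2 * ‖∫ ξ : ℝ, G ξ * nit (2 * Real.pi * ξ) m‖ ^ 2 +
        2 * (Y * (n : ℝ) ^ (-(1 / 20) : ℝ)) ^ 2) :=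
          Finset.sum_le_sum fun m hm => mul_le_mul_of_nonneg_left (hD m hm) (Nat.cast_nonneg _)
      _ = 2 * (∑ m ∈ Ioc M (2 * M), (om P m : ℝ) * ‖∫ ξ : ℝ, G ξ * nit (2 * Real.pi * ξ) m‖ ^ 2) +
        (∑ m ∈ Ioc M (2 * M), (om P m : ℝ)) * (2 * (Y * (n : ℝ) ^ (-(1 / 20) : ℝ)) ^ 2) := by
          rw [Finset.mul_sum, Finset.sum_mul, ← Finset.sum_add_distrib]
          exact Finset.sum_congr rfl fun m _ => by ring
      _ ≤ _ := by
          have := mul_le_mul_of_nonneg_right (vb_om M P hPpos hP2)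
            (show 0 ≤ 2 * (Y * (n : ℝ) ^ (-(1 / 20) : ℝ)) ^ 2 by positivity)
          linarith
  refine hsum.trans ?_
  rw [hG3, hG4] at hdua
  have hI0 : 0 ≤ ∫ ξ in Mid n, ‖F ξ‖ := integral_nonneg fun _ => norm_nonneg _
  have hL0 : (0 : ℝ) < L := by linarith
  obtain ⟨q1, q2⟩ := vb3_num η _ hη hκ (min_le_left _ _) (min_le_right _ _) C L
    (max CK ⌈10 / η⌉₊) n M P hn44 hL1 hL2 (by
      push_cast
      exact (Nat.le_ceil _).trans (le_max_right _ _)) hM hP1 hP2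
  set E : ℝ := (P : ℝ) ^ (-(min (η / 2) (1 / 400))) with hE
  have hPr : (0 : ℝ) < P := by exact_mod_cast hPpos
  have hE0 : 0 < E := Real.rpow_pos_of_pos hPr _
  have t1 : (M : ℝ) * (P : ℝ) ^ (-η) * (∫ ξ in Mid n, ‖F ξ‖) ^ 2 ≤ M * Y ^ 2 * E * (1 / 8) := by
    have e1 : (∫ ξ in Mid n, ‖F ξ‖) ^ 2 ≤ (C * Y * L ^ 2) ^ 2 := pow_le_pow_left₀ hI0 v2 2
    calc (M : ℝ) * (P : ℝ) ^ (-η) * (∫ ξ in Mid n, ‖F ξ‖) ^ 2 ≤
        M * (P : ℝ) ^ (-η) * (C * Y * L ^ 2) ^ 2 := mul_le_mul_of_nonneg_left e1 (by positivity)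
      _ = M * Y ^ 2 * (8 * C ^ 2 * L ^ 4 * (P : ℝ) ^ (-η)) * (1 / 8) := by ring
      _ ≤ M * Y ^ 2 * E * (1 / 8) :=
          mul_le_mul_of_nonneg_right (mul_le_mul_of_nonneg_left q1 (by positivity)) (by norm_num)
  have t2 : 5 * (M : ℝ) * (n : ℝ) ^ (1 / 100 : ℝ) * ∫ ξ in Mid n, ‖F ξ‖ ^ 2 ≤
      M * Y ^ 2 * E * (1 / 8) := by
    have e1 : (n : ℝ) ^ (1 / 100 : ℝ) * (n : ℝ) ^ (-(1 / 75) : ℝ) =
        ((n : ℝ) ^ (1 / 1200 : ℝ))⁻¹ * (n : ℝ) ^ (-(1 / 400) : ℝ) := by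
      rw [← Real.rpow_add hn0, ← Real.rpow_neg hn0.le, ← Real.rpow_add hn0]
      norm_num
    have e2 : (0 : ℝ) < (n : ℝ) ^ (1 / 1200 : ℝ) := Real.rpow_pos_of_pos hn0 _
    have e3 : 40 * C * L * ((n : ℝ) ^ (1 / 1200 : ℝ))⁻¹ ≤ 1 := by
      rw [mul_inv_le_iff₀ e2, one_mul]
      exact hL3
    calc 5 * (M : ℝ) * (n : ℝ) ^ (1 / 100 : ℝ) * ∫ ξ in Mid n, ‖F ξ‖ ^ 2 ≤
        5 * (M : ℝ) * (n : ℝ) ^ (1 / 100 : ℝ) * (C * Y ^ 2 * (n : ℝ) ^ (-(1 / 75) : ℝ) * L) :=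
          mul_le_mul_of_nonneg_left v1 (by positivity)
      _ = 5 * M * C * Y ^ 2 * L * ((n : ℝ) ^ (1 / 100 : ℝ) * (n : ℝ) ^ (-(1 / 75) : ℝ)) := by ring
      _ = M * Y ^ 2 * (40 * C * L * ((n : ℝ) ^ (1 / 1200 : ℝ))⁻¹) *
            (n : ℝ) ^ (-(1 / 400) : ℝ) * (1 / 8) := by
          rw [e1]
          ring
      _ ≤ M * Y ^ 2 * 1 * (n : ℝ) ^ (-(1 / 400) : ℝ) * (1 / 8) := by
          refine mul_le_mul_of_nonneg_right (mul_le_mul_of_nonneg_right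
            (mul_le_mul_of_nonneg_left e3 (by positivity)) (Real.rpow_nonneg hn0.le _)) (by norm_num)
      _ ≤ M * Y ^ 2 * E * (1 / 8) := by
          rw [mul_one]
          exact mul_le_mul_of_nonneg_right (mul_le_mul_of_nonneg_left q2 (by positivity))
            (by norm_num)
  have t3 : 5 * (M : ℝ) * (2 * (Y * (n : ℝ) ^ (-(1 / 20) : ℝ)) ^ 2) ≤ M * Y ^ 2 * E * (1 / 4) := by
    have e1 : ((n : ℝ) ^ (-(1 / 20) : ℝ)) ^ 2 =
        ((n : ℝ) ^ (39 / 400 : ℝ))⁻¹ * (n : ℝ) ^ (-(1 / 400) : ℝ) := by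
      rw [← Real.rpow_natCast, ← Real.rpow_mul hn0.le, ← Real.rpow_neg hn0.le, ← Real.rpow_add hn0]
      norm_num
    have e2 : (0 : ℝ) < (n : ℝ) ^ (39 / 400 : ℝ) := Real.rpow_pos_of_pos hn0 _
    have e3 : 40 * ((n : ℝ) ^ (39 / 400 : ℝ))⁻¹ ≤ 1 := by
      rw [mul_inv_le_iff₀ e2, one_mul]
      exact hL4
    calc 5 * (M : ℝ) * (2 * (Y * (n : ℝ) ^ (-(1 / 20) : ℝ)) ^ 2) =
        10 * M * Y ^ 2 * ((n : ℝ) ^ (-(1 / 20) : ℝ)) ^ 2 := by ring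
      _ = M * Y ^ 2 * (40 * ((n : ℝ) ^ (39 / 400 : ℝ))⁻¹) * (n : ℝ) ^ (-(1 / 400) : ℝ) *
          (1 / 4) := by
          rw [e1]
          ring
      _ ≤ M * Y ^ 2 * 1 * (n : ℝ) ^ (-(1 / 400) : ℝ) * (1 / 4) := by
          refine mul_le_mul_of_nonneg_right (mul_le_mul_of_nonneg_right
            (mul_le_mul_of_nonneg_left e3 (by positivity)) (Real.rpow_nonneg hn0.le _)) (by norm_num)
      _ ≤ M * Y ^ 2 * E * (1 / 4) := by
          rw [mul_one]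
          exact mul_le_mul_of_nonneg_right (mul_le_mul_of_nonneg_left q2 (by positivity))
            (by norm_num)
  have t4 : 0 ≤ M * Y ^ 2 * E := by positivity
  linarith

end Pool.Agent.EVN
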