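import Mathlib
import Pool.Agent.EVN.Asm2
import Pool.Agent.EVN.Spa3
import Pool.Agent.EVN.Ker3
import Pool.Agent.EVN.VB3
import Pool.Agent.EVN.Key3
import Pool.Agent.EVN.Fin3
import Pool.Agent.EVN.Ran
import Pool.Agent.EVN.Cor3

set_option autoImplicit false

/-! Assembly of the third form of the theorem on every `n` and almost all `m`. -/

namespace Pool.Agent.EVN

open Pool.Agent Finset

theorem vb3 : St_VB3 :=
  thm_VB3 thm_FI (thm_VM sup (thm_MVD SI.thm_MV) SI.thm_Four) (thm_VT SI.thm_Four)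
    (thm_Ker3 (thm_Spa3 SI.thm_MV)) thm_Dua

theorem key3 : St_Key3 := thm_Key3 SI.thm_W vb3 (thm_Low SI.gap) thm_Cnt

theorem fin3 : St_Fin3 := thm_Fin3 key3 t4g

theorem cor3 : St_Cor3 := thm_Cor3 fin3 thm_Ran

/-- parts (i) and (ii) with the same constants -/
theorem final3 : ∃ κ : ℝ, 0 < κ ∧ ∃ C n₀ : ℕ, ∀ n ≥ n₀, ∀ x : ℕ, 1 ≤ x →
    (∀ z : ℝ, Real.log n ^ C ≤ z →
      (((Ioc x (2 * x)).filter (fun m => 2 * m + 1 < n ∧ (∃ p ∈ m.primeFactors, z < (p : ℝ)) ∧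
        (SolP Phi m n = ∅ ∨ (12 * m ≤ n ∧ ((SolP Phi m n).card : ℝ) < n / Real.log n ^ 5)))).card
          : ℝ) ≤ x * z ^ (-κ)) ∧
    (C * Real.log (Real.log n) ^ 2 ≤ Real.log x →
      (((Ioc x (2 * x)).filter (fun m => 2 * m + 1 < n ∧
        (SolP Phi m n = ∅ ∨ (12 * m ≤ n ∧ ((SolP Phi m n).card : ℝ) < n / Real.log n ^ 5)))).card
          : ℝ) ≤ x * Real.exp (-(κ * Real.sqrt (Real.log x)))) := by
  obtain ⟨κ₁, hκ₁, C₁, n₁, h₁⟩ := fin3 Phi densP bigP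
  obtain ⟨κ₂, hκ₂, C₂, n₂, h₂⟩ := cor3 Phi densP bigP
  refine ⟨min κ₁ κ₂, lt_min hκ₁ hκ₂, max C₁ C₂, max 3 (max n₁ n₂), fun n hn x hx => ?_⟩
  have hn3 : 3 ≤ n := (le_max_left _ _).trans hn
  have hn1 : n₁ ≤ n := ((le_max_left _ _).trans (le_max_right _ _)).trans hn
  have hn2 : n₂ ≤ n := ((le_max_right _ _).trans (le_max_right _ _)).trans hn
  have hL : 1 ≤ Real.log n := by
    rw [Real.le_log_iff_exp_le (by positivity)]
    have h3 : (3 : ℝ) ≤ n := by exact_mod_cast hn3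
    linarith [Real.exp_one_lt_d9]
  constructor
  · intro z hz
    have hz1 : 1 ≤ z := (one_le_pow₀ hL).trans hz
    have hz2 : Real.log n ^ C₁ ≤ z := (pow_le_pow_right₀ hL (le_max_left _ _)).trans hz
    refine (h₁ n hn1 x hx z hz2).trans ?_
    refine mul_le_mul_of_nonneg_left ?_ (by positivity)
    exact Real.rpow_le_rpow_of_exponent_le hz1 (by linarith [min_le_left κ₁ κ₂])
  · intro hC
    have hC2 : (C₂ : ℝ) * Real.log (Real.log n) ^ 2 ≤ Real.log x := by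
      refine le_trans ?_ hC
      refine mul_le_mul_of_nonneg_right ?_ (by positivity)
      exact_mod_cast le_max_right C₁ C₂
    refine (h₂ n hn2 x hx hC2).trans ?_
    refine mul_le_mul_of_nonneg_left ?_ (by positivity)
    rw [Real.exp_le_exp]
    have h4 : min κ₁ κ₂ * Real.sqrt (Real.log x) ≤ κ₂ * Real.sqrt (Real.log x) :=
      mul_le_mul_of_nonneg_right (min_le_right _ _) (Real.sqrt_nonneg _)
    linarith

end Pool.Agent.EVN
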