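import Pool.Agent.EVN.Stmts4
import Pool.Agent.EVN.Fin3

set_option autoImplicit false

/-!
# EVN / Fin4: a rough divisor in place of a prime divisor (the proof is that of EVN/Fin3.lean)
-/

namespace Pool.Agent.EVN

open Finset Filter MeasureTheory
open Pool.Agent.GBQ (ee)
open Pool.Agent.SI (nit DP IsW Wd)

open scoped Classical in
theorem thm_Fin4 (h1 : St_Key4) (h2 : St_T4G) : St_Fin4 := by
  intro Φ hD hB
  obtain ⟨c, κ, hc, hκ, hkey⟩ := h1
  obtain ⟨C', n₁, hkey⟩ := hkey 6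
  obtain ⟨κ₂, hκ₂, hκ₂1, hκ₂κ⟩ : ∃ κ₂ : ℝ, 0 < κ₂ ∧ κ₂ ≤ 1 ∧ κ₂ ≤ κ :=
    ⟨min κ 1, lt_min hκ one_pos, min_le_right _ _, min_le_left _ _⟩
  obtain ⟨n₂, hT4⟩ := h2 Φ hD hB (1 / 20) (by norm_num)
  obtain ⟨c₀, n₃, hc₀, hQK⟩ := hD
  set L₀ : ℝ := 64 + 32 / c₀ + 1024 / (c * c₀) + 4 with hL₀
  have hev : ∀ᶠ n : ℕ in atTop, L₀ ≤ Real.log n ∧ n₃ ≤ n ∧
      64 * (n : ℝ) ^ (3 / 10 : ℝ) ≤ n ∧ n₁ ≤ n ∧ n₂ ≤ n := by
    have t1 : Tendsto (fun n : ℕ => Real.log n) atTop atTop :=
      Real.tendsto_log_atTop.comp (tendsto_natCast_atTop_atTop (R := ℝ))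
    have t3 : Tendsto (fun n : ℕ => (n : ℝ) ^ (7 / 10 : ℝ)) atTop atTop :=
      (tendsto_rpow_atTop (by norm_num)).comp (tendsto_natCast_atTop_atTop (R := ℝ))
    filter_upwards [t1.eventually_ge_atTop L₀, eventually_ge_atTop n₃,
      t3.eventually_ge_atTop 64, eventually_ge_atTop n₁, eventually_ge_atTop n₂,
      eventually_ge_atTop 1] with n e1 e2 e3 e4 e5 e6
    refine ⟨e1, e2, ?_, e4, e5⟩
    have hn0 : (0 : ℝ) < n := by exact_mod_cast e6
    calc 64 * (n : ℝ) ^ (3 / 10 : ℝ) ≤ (n : ℝ) ^ (7 / 10 : ℝ) * (n : ℝ) ^ (3 / 10 : ℝ) :=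
          mul_le_mul_of_nonneg_right e3 (by positivity)
      _ = n := by
          rw [← Real.rpow_add hn0]
          norm_num
  obtain ⟨n₀, hn₀⟩ := eventually_atTop.1 hev
  refine ⟨κ₂ / 2, by positivity, C' + 2 + ⌈8 / κ₂⌉₊, n₀, ?_⟩
  intro n hn x hx w z hw hz
  obtain ⟨e1, e2, e3, e4, e5⟩ := hn₀ n hn
  set L := Real.log n with hL
  have hq1 : 0 ≤ 32 / c₀ := by positivity
  have hq2 : 0 ≤ 1024 / (c * c₀) := by positivity
  have hL64 : 64 ≤ L := by linarith
  have hLc : 32 / c₀ ≤ L := by linarith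
  have hLcc : 1024 / (c * c₀) ≤ L := by linarith
  have hL0 : 0 < L := by linarith
  have hn1 : (1 : ℝ) < n := by
    by_contra hcon
    rw [not_lt] at hcon
    have := Real.log_nonpos (Nat.cast_nonneg n) hcon
    linarith
  have hn0 : (0 : ℝ) < n := by linarith
  have hx0 : (0 : ℝ) < x := by exact_mod_cast (by omega : 0 < x)
  have hL1 : (1 : ℝ) ≤ L := by linarith
  have hzC : L ^ (C' + 2) ≤ z := (pow_le_pow_right₀ hL1 (by omega)).trans hz
  have hwC : L ^ C' ≤ w := (pow_le_pow_right₀ hL1 (by omega)).trans hw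
  have hLC1 : 1 ≤ L ^ C' := one_le_pow₀ (by linarith)
  have hz4 : 4 * L ^ C' ≤ z := by
    refine le_trans ?_ hzC
    have h6 : (4 : ℝ) ≤ L ^ 2 := by nlinarith
    calc 4 * L ^ C' ≤ L ^ 2 * L ^ C' := mul_le_mul_of_nonneg_right h6 (by positivity)
      _ = L ^ (C' + 2) := by ring
  have hz2 : 2 ≤ z := by linarith
  have hz0 : 0 < z := by linarith
  have hRHS : 0 ≤ (x : ℝ) * z ^ (-(κ₂ / 2)) := by positivity
  rcases le_or_gt ((n : ℝ) ^ (1 / 4 + 1 / 20 : ℝ)) (x : ℝ) with hbig | hsmall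
  · -- large `x`
    have hempty : (Ioc x (2 * x)).filter (fun m => 2 * m + 1 < n ∧
        (∃ d : ℕ, d ∣ m ∧ Rough w d ∧ z < (d : ℝ)) ∧ (SolP Φ m n = ∅ ∨
        (12 * m ≤ n ∧ ((SolP Φ m n).card : ℝ) < n / L ^ 5))) = ∅ := by
      classical
      rw [filter_eq_empty_iff]
      rintro m hm ⟨hm1, -, hm2⟩
      rw [mem_Ioc] at hm
      have hxm : (x : ℝ) ≤ m := by exact_mod_cast hm.1.le
      obtain ⟨hP1, hP3⟩ := hT4 n m e5 (hbig.trans hxm) hm1
      rcases hm2 with h | ⟨h, h'⟩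
      · exact hP1.ne_empty h
      · have h5 := hP3 h
        linarith
    rw [hempty]
    simpa using hRHS
  · -- small `x`
    have hexp : (1 / 4 + 1 / 20 : ℝ) = 3 / 10 := by norm_num
    rw [hexp] at hsmall
    have h64 : 64 * x ≤ n := by
      have : (64 : ℝ) * x ≤ n := by linarith
      exact_mod_cast this
    set K : ℕ := n / (32 * x) with hK
    have hx32 : 0 < 32 * x := by omega
    have hK2 : 2 ≤ K := by
      rw [hK, Nat.le_div_iff_mul_le hx32]
      omega
    have hKn : K ≤ n := Nat.div_le_self _ _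
    have hKx : 32 * (x * K) ≤ n := by
      have := Nat.mul_div_le n (32 * x)
      calc 32 * (x * K) = 32 * x * K := by ring
        _ ≤ n := this
    have hKx' : n ≤ 64 * (x * K) := by
      have h5 : n < 32 * x * (K + 1) := Nat.lt_mul_div_succ n hx32
      have h6 : 32 * x * (K + 1) ≤ 64 * (x * K) := by
        calc 32 * x * (K + 1) ≤ 32 * x * (K + K) := Nat.mul_le_mul_left _ (by omega)
          _ = 64 * (x * K) := by ring
      omega
    have hK0 : (0 : ℝ) < K := by exact_mod_cast (by omega : 0 < K)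
    have hKx'R : (n : ℝ) ≤ 64 * (x * K) := by exact_mod_cast hKx'
    obtain ⟨S, hS1, hS2⟩ := hQK n e2 K hK2 hKn
    have hS2' : c₀ * K / (8 * L ^ 3) ≤ (S.card : ℝ) := by
      refine le_trans ?_ hS2
      have h5 : Real.log K ≤ L := Real.log_le_log hK0 (by exact_mod_cast hKn)
      have h5' : 0 ≤ Real.log K := Real.log_natCast_nonneg K
      have h6 : (1 + Real.log K) ^ 3 ≤ (2 * L) ^ 3 := pow_le_pow_left₀ (by linarith) (by linarith) 3
      have h7 : (2 * L) ^ 3 = 8 * L ^ 3 := by ring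
      rw [h7] at h6
      exact div_le_div_of_nonneg_left (by positivity) (by positivity) h6
    have hlogK := fin_log (by omega : 1 ≤ K) hKn (by linarith : 2 ≤ L)
    have hbigS : 4 * K / L ^ 4 ≤ (S.card : ℝ) := by
      refine le_trans ?_ hS2'
      rw [div_le_iff₀ hc₀] at hLc
      rw [div_le_div_iff₀ (by positivity) (by positivity)]
      calc 4 * (K : ℝ) * (8 * L ^ 3) = 32 * (K * L ^ 3) := by ring
        _ ≤ L * c₀ * (K * L ^ 3) := mul_le_mul_of_nonneg_right hLc (by positivity)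
        _ = c₀ * K * L ^ 4 := by ring
    have hS12 : ∀ q ∈ S, 2 ≤ q ∧ q ≤ K := fun q hq =>
      ⟨(hS1 q hq).2.1.two_le, (hS1 q hq).1⟩
    have hgood := fin_good hS12 hL0 hlogK (by omega) hbigS
    set G := (range (Nat.log 2 K + 1)).filter (fun j =>
      ((2 ^ j : ℕ) : ℝ) ≤ L ^ 5 * (fin_S S j).card ∧ (K : ℝ) ≤ L ^ 5 * ((2 ^ j : ℕ) : ℝ)) with hG
    set I := (range (Nat.log 2 (2 * x) + 1)).filter (fun i => z / 2 ≤ ((2 ^ i : ℕ) : ℝ)) with hI
    set E : ℕ → ℕ → Finset ℕ := fun j i => (Ioc x (2 * x)).filter (fun m => 1 ≤ omR w (2 ^ i) m ∧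
      ((SolQ (fin_S S j) m n).card : ℝ) < c * (fin_S S j).card * x / L) with hE
    have hEcard : ∀ j ∈ G, ∀ i ∈ I, ((E j i).card : ℝ) ≤ x * (2 * z ^ (-κ₂)) := by
      intro j hj i hi
      rw [hG, mem_filter, mem_range] at hj
      obtain ⟨hj1, hj2, hj3⟩ := hj
      rw [hI, mem_filter, mem_range] at hi
      obtain ⟨hi1, hi2⟩ := hi
      have h5 : 2 ^ j ≤ K :=
        (Nat.pow_le_pow_right (by norm_num) (by omega : j ≤ Nat.log 2 K)).trans
          (Nat.pow_log_le_self 2 (by omega))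
      have h6 : 2 ^ i ≤ 2 * x :=
        (Nat.pow_le_pow_right (by norm_num) (by omega : i ≤ Nat.log 2 (2 * x))).trans
          (Nat.pow_log_le_self 2 (by omega))
      have h7 := fin3_pow (κ := κ) hκ₂ hκ₂1 hκ₂κ hz2 hi2
      refine le_trans (hkey n e4 w x (2 ^ j) (2 ^ i) (fin_S S j)
        (fin_S_sub (fun q hq => (hS12 q hq).1) j) ?_ ?_ ?_ ?_ hwC (by linarith) h6)
        (mul_le_mul_of_nonneg_left h7 hx0.le)
      · refine hj2.trans (mul_le_mul_of_nonneg_right ?_ (Nat.cast_nonneg _))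
        exact pow_le_pow_right₀ (by linarith) (by norm_num)
      · calc 16 * (x * 2 ^ j) ≤ 16 * (x * K) :=
              Nat.mul_le_mul_left _ (Nat.mul_le_mul_left _ h5)
          _ ≤ n := by omega
      · calc (n : ℝ) ≤ 64 * (x * K) := hKx'R
          _ ≤ 64 * (x * (L ^ 5 * ((2 ^ j : ℕ) : ℝ))) := by
              refine mul_le_mul_of_nonneg_left ?_ (by norm_num)
              exact mul_le_mul_of_nonneg_left hj3 hx0.le
          _ ≤ L * (x * (L ^ 5 * ((2 ^ j : ℕ) : ℝ))) :=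
              mul_le_mul_of_nonneg_right hL64 (by positivity)
          _ = L ^ 6 * (x * ((2 ^ j : ℕ) : ℝ)) := by ring
      · refine hsmall.le.trans ?_
        exact Real.rpow_le_rpow_of_exponent_le hn1.le (by norm_num)
    have hsub : (Ioc x (2 * x)).filter (fun m => 2 * m + 1 < n ∧
        (∃ d : ℕ, d ∣ m ∧ Rough w d ∧ z < (d : ℝ)) ∧ (SolP Φ m n = ∅ ∨
        (12 * m ≤ n ∧ ((SolP Φ m n).card : ℝ) < n / L ^ 5))) ⊆
        (G.biUnion fun j => I.biUnion fun i => E j i) := by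
      classical
      intro m hm
      rw [mem_filter] at hm
      obtain ⟨hm1, -, ⟨p, hpm, hpr, hp2⟩, hm3⟩ := hm
      by_contra hcE
      have hpp : 2 ≤ p := by
        have : (2 : ℝ) ≤ p := by linarith
        exact_mod_cast this
      rw [mem_Ioc] at hm1
      have hple : p ≤ 2 * x := (Nat.le_of_dvd (by omega) hpm).trans hm1.2
      obtain ⟨q1, q2⟩ := fin_pos hpp
      set i := Nat.log 2 (p - 1) with hi
      have hiI : i ∈ I := by
        rw [hI, mem_filter, mem_range]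
        constructor
        · have : i ≤ Nat.log 2 (2 * x) := Nat.log_mono_right (by omega)
          omega
        · have h6 : (p : ℝ) ≤ 2 * ((2 ^ i : ℕ) : ℝ) := by exact_mod_cast q2
          linarith
      have hom : 1 ≤ omR w (2 ^ i) m := by
        unfold omR
        rw [Nat.succ_le_iff, card_pos]
        exact ⟨p, mem_filter.2 ⟨mem_Ioc.2 ⟨q1, q2⟩, hpr, hpm⟩⟩
      have hall : ∀ j ∈ G, c * (fin_S S j).card * x / L ≤
          ((SolQ (fin_S S j) m n).card : ℝ) := by
        intro j hj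
        by_contra hc2
        rw [not_le] at hc2
        apply hcE
        rw [mem_biUnion]
        refine ⟨j, hj, ?_⟩
        rw [mem_biUnion]
        refine ⟨i, hiI, ?_⟩
        rw [hE]
        exact mem_filter.2 ⟨mem_Ioc.2 hm1, hom, hc2⟩
      have hcard : (n : ℝ) / L ^ 5 ≤ (SolP Φ m n).card := by
        have h6 := fin2_SolP_card (fun q hq => (hS1 q hq).2) G m
        have h7 : (∑ j ∈ G, ((SolQ (fin_S S j) m n).card : ℝ)) ≤ ((SolP Φ m n).card : ℝ) := by
          exact_mod_cast h6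
        refine le_trans ?_ ((sum_le_sum hall).trans h7)
        have h8 : ∑ j ∈ G, c * ((fin_S S j).card : ℝ) * x / L =
            c * x / L * ∑ j ∈ G, ((fin_S S j).card : ℝ) := by
          rw [mul_sum]
          exact sum_congr rfl fun j _ => by ring
        rw [h8]
        calc (n : ℝ) / L ^ 5 ≤ c * c₀ * n / (1024 * L ^ 4) := by
              rw [div_le_iff₀ (by positivity)] at hLcc
              rw [div_le_div_iff₀ (by positivity) (by positivity)]
              calc (n : ℝ) * (1024 * L ^ 4) = 1024 * (n * L ^ 4) := by ring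
                _ ≤ L * (c * c₀) * (n * L ^ 4) :=
                    mul_le_mul_of_nonneg_right hLcc (by positivity)
                _ = c * c₀ * n * L ^ 5 := by ring
          _ ≤ c * c₀ * (64 * (x * K)) / (1024 * L ^ 4) := by
              refine div_le_div_of_nonneg_right ?_ (by positivity)
              exact mul_le_mul_of_nonneg_left hKx'R (by positivity)
          _ = c * x / L * ((c₀ * K / (8 * L ^ 3)) / 2) := by
              field_simp
              ring
          _ ≤ c * x / L * ((S.card : ℝ) / 2) := by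
              refine mul_le_mul_of_nonneg_left ?_ (by positivity)
              exact div_le_div_of_nonneg_right hS2' (by norm_num)
          _ ≤ _ := mul_le_mul_of_nonneg_left hgood (by positivity)
      rcases hm3 with h | ⟨-, h'⟩
      · rw [h, card_empty, Nat.cast_zero] at hcard
        have : 0 < (n : ℝ) / L ^ 5 := by positivity
        linarith
      · linarith
    have hcard1 : ((G.biUnion fun j => I.biUnion fun i => E j i).card : ℝ) ≤
        (2 * L) * ((2 * L) * (x * (2 * z ^ (-κ₂)))) := by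
      have hIc : ((I.card : ℕ) : ℝ) ≤ 2 * L := by
        have h5 := fin_log (by omega : 1 ≤ 2 * x) (by omega : 2 * x ≤ n) (by linarith : 2 ≤ L)
        refine le_trans ?_ h5
        have h6 := card_filter_le (range (Nat.log 2 (2 * x) + 1))
          (fun i => z / 2 ≤ ((2 ^ i : ℕ) : ℝ))
        rw [card_range] at h6
        exact_mod_cast h6
      have hGc : ((G.card : ℕ) : ℝ) ≤ 2 * L := by
        refine le_trans ?_ hlogK
        have h6 := card_filter_le (range (Nat.log 2 K + 1)) (fun j =>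
          ((2 ^ j : ℕ) : ℝ) ≤ L ^ 5 * (fin_S S j).card ∧ (K : ℝ) ≤ L ^ 5 * ((2 ^ j : ℕ) : ℝ))
        rw [card_range] at h6
        exact_mod_cast h6
      have h5 : (G.biUnion fun j => I.biUnion fun i => E j i).card ≤
          ∑ j ∈ G, ∑ i ∈ I, (E j i).card :=
        card_biUnion_le.trans (sum_le_sum fun j _ => card_biUnion_le)
      have h6 : ((G.biUnion fun j => I.biUnion fun i => E j i).card : ℝ) ≤
          ∑ j ∈ G, ∑ i ∈ I, ((E j i).card : ℝ) := by exact_mod_cast h5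
      refine h6.trans ?_
      have h7 : ∀ j ∈ G, ∑ i ∈ I, ((E j i).card : ℝ) ≤ (2 * L) * (x * (2 * z ^ (-κ₂))) := by
        intro j hj
        refine (sum_le_card_nsmul _ _ _ (hEcard j hj)).trans ?_
        rw [nsmul_eq_mul]
        exact mul_le_mul_of_nonneg_right hIc (by positivity)
      refine (sum_le_card_nsmul _ _ _ h7).trans ?_
      rw [nsmul_eq_mul]
      exact mul_le_mul_of_nonneg_right hGc (by positivity)
    have hfin : (((Ioc x (2 * x)).filter (fun m => 2 * m + 1 < n ∧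
        (∃ d : ℕ, d ∣ m ∧ Rough w d ∧ z < (d : ℝ)) ∧ (SolP Φ m n = ∅ ∨
        (12 * m ≤ n ∧ ((SolP Φ m n).card : ℝ) < n / L ^ 5)))).card : ℝ) ≤
        ((G.biUnion fun j => I.biUnion fun i => E j i).card : ℝ) :=
      Nat.cast_le.2 (card_le_card hsub)
    refine hfin.trans (hcard1.trans ?_)
    have h7 := fin3_num hκ₂ hκ₂1 hL64 (C := C' + 2 + ⌈8 / κ₂⌉₊) ?_ hz
    · calc (2 * L) * ((2 * L) * (x * (2 * z ^ (-κ₂)))) =
            x * ((2 * L) * ((2 * L) * (2 * z ^ (-κ₂)))) := by ring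
        _ ≤ x * z ^ (-(κ₂ / 2)) := mul_le_mul_of_nonneg_left h7 hx0.le
    · push_cast
      have h8 := Nat.le_ceil (8 / κ₂)
      have h9 : (0 : ℝ) ≤ C' := Nat.cast_nonneg _
      linarith

end Pool.Agent.EVN
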