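import Pool.Agent.EVN.Stmts4
import Pool.Agent.EVN.Ker
import Pool.Agent.EVN.Ker3

set_option autoImplicit false
set_option linter.unusedVariables false

/-!
# EVN: the kernel with rough divisors (KER4)
-/

namespace Pool.Agent.EVN

open Finset Filter MeasureTheory
open Pool.Agent.SI (nit)

section

variable (T : ℕ → Prop) [DecidablePred T]

/-- sum over the `d` in `(a, b]` with `T d` -/
noncomputable def ker4S (a b : ℕ) (u : ℝ) : ℂ := ∑ p ∈ (Ioc a b).filter T, nit u p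

theorem ker4_add {a b c : ℕ} (hab : a ≤ b) (hbc : b ≤ c) (u : ℝ) :
    ker4S T a c u = ker4S T a b u + ker4S T b c u := by
  unfold ker4S
  rw [sum_filter, sum_filter, sum_filter, sum_Ioc_consecutive _ hab hbc]

theorem ker4_card {a b : ℕ} (u : ℝ) : ‖ker4S T a b u‖ ≤ ((b - a : ℕ) : ℝ) := by
  unfold ker4S
  refine (norm_sum_le _ _).trans ?_
  simp only [ker_nit_norm, sum_const, nsmul_eq_mul, mul_one]
  have h := card_filter_le (Ioc a b) T
  rw [Nat.card_Ioc] at h
  exact_mod_cast h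

/-- initial intervals -/
theorem ker4_pre {P H : ℕ} (hH : 0 < H) (u : ℝ) {k : ℕ} (hk : k ≤ H) :
    ∀ x ≤ kerB P H k, ‖ker4S T P x u‖ ≤
      ∑ h ∈ range H, ‖ker4S T (kerB P H h) (kerB P H (h + 1)) u‖ + (P / H + 1) := by
  have hpos : (0 : ℝ) ≤ P / H + 1 := by positivity
  have hfull : ∀ k, ker4S T P (kerB P H k) u =
      ∑ h ∈ range k, ker4S T (kerB P H h) (kerB P H (h + 1)) u := by
    intro k
    induction k with
    | zero => simp [ker_b_zero, ker4S]
    | succ k ih =>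
      rw [sum_range_succ, ← ih]
      exact ker4_add T (ker_b_le P H k) (ker_b_mono P H (Nat.le_succ k)) u
  induction k with
  | zero =>
    intro x hx
    rw [ker_b_zero] at hx
    have h1 : ker4S T P x u = 0 := by
      unfold ker4S
      rw [Ioc_eq_empty (by omega)]
      simp
    rw [h1, norm_zero]
    have h2 : (0 : ℝ) ≤ ∑ h ∈ range H, ‖ker4S T (kerB P H h) (kerB P H (h + 1)) u‖ :=
      sum_nonneg fun _ _ => norm_nonneg _
    linarith
  | succ k ih =>
    intro x hx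
    by_cases hxk : x ≤ kerB P H k
    · exact ih (by omega) x hxk
    · push Not at hxk
      have hP : P ≤ kerB P H k := ker_b_le P H k
      rw [ker4_add T hP hxk.le u]
      refine (norm_add_le _ _).trans (add_le_add ?_ ?_)
      · rw [hfull]
        refine (norm_sum_le _ _).trans ?_
        exact sum_le_sum_of_subset_of_nonneg (range_subset_range.mpr (by omega))
          fun _ _ _ => norm_nonneg _
      · refine (ker4_card T u).trans ?_
        rw [Nat.cast_sub hxk.le]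
        have h1 : (x : ℝ) ≤ kerB P H (k + 1) := by exact_mod_cast hx
        have h2 := ker_b_step P hH k
        linarith

/-- any interval -/
theorem ker4_int {P H : ℕ} (hH : 0 < H) (u : ℝ) {a b : ℕ} (hab : a ≤ b) :
    ‖∑ p ∈ (Ioc P (2 * P)).filter (fun p => T p ∧ a < p ∧ p ≤ b), nit u p‖ ≤
      2 * (∑ h ∈ range H, ‖ker4S T (kerB P H h) (kerB P H (h + 1)) u‖ + (P / H + 1)) := by
  have h0 := ker4_pre T (P := P) hH u (le_refl H)
  rw [ker_b_top P hH] at h0
  have h1 := h0 (min (2 * P) b) (min_le_left _ _)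
  have h2 := h0 (min (2 * P) a) (min_le_left _ _)
  have h3 : ∑ p ∈ (Ioc P (2 * P)).filter (fun p => T p ∧ a < p ∧ p ≤ b), nit u p =
      ker4S T P (min (2 * P) b) u - ker4S T P (min (2 * P) a) u := by
    rw [eq_sub_iff_add_eq, add_comm]
    unfold ker4S
    rw [← sum_union]
    · refine sum_congr ?_ fun _ _ => rfl
      ext p
      simp only [mem_union, mem_filter, mem_Ioc, le_min_iff]
      constructor
      · rintro (⟨⟨h1, h2, h3⟩, h4⟩ | ⟨⟨h1, h2⟩, h3, h4, h5⟩)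
        · exact ⟨⟨h1, h2, h3.trans hab⟩, h4⟩
        · exact ⟨⟨h1, h2, h5⟩, h3⟩
      · rintro ⟨⟨h1, h2, h3⟩, h4⟩
        by_cases h5 : p ≤ a
        · exact Or.inl ⟨⟨h1, h2, h5⟩, h4⟩
        · exact Or.inr ⟨⟨h1, h2⟩, h4, by omega, h3⟩
    · rw [disjoint_left]
      intro p hp hp'
      simp only [mem_filter, mem_Ioc, le_min_iff] at hp hp'
      omega
  rw [h3]
  refine (norm_sub_le _ _).trans ?_
  linarith

/-- the sum over `m = m' p` -/
theorem ker4_sum {M P : ℕ} (hP : 0 < P) (u : ℝ) :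
    ∑ m ∈ Ioc M (2 * M), ((((Ioc P (2 * P)).filter (fun p => T p ∧ p ∣ m)).card : ℝ) : ℂ) * nit u m =
      ∑ k ∈ Icc 1 (2 * M / P), nit u k *
        ∑ p ∈ (Ioc P (2 * P)).filter (fun p => T p ∧ M / k < p ∧ p ≤ 2 * M / k), nit u p := by
  have h1 : ∀ m ∈ Ioc M (2 * M), ((((Ioc P (2 * P)).filter (fun p => T p ∧ p ∣ m)).card : ℝ) : ℂ) * nit u m =
      ∑ p ∈ (Ioc P (2 * P)).filter T, if p ∣ m then nit u m else 0 := by
    intro m hm
    rw [← sum_filter, filter_filter, sum_const, nsmul_eq_mul]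
    push_cast
    rfl
  rw [sum_congr rfl h1]
  have h2 : ∀ k ∈ Icc 1 (2 * M / P), nit u k *
      ∑ p ∈ (Ioc P (2 * P)).filter (fun p => T p ∧ M / k < p ∧ p ≤ 2 * M / k), nit u p =
      ∑ p ∈ (Ioc P (2 * P)).filter T,
        if M / k < p ∧ p ≤ 2 * M / k then nit u k * nit u p else 0 := by
    intro k hk
    rw [← sum_filter, filter_filter, mul_sum]
  rw [sum_congr rfl h2, sum_comm]
  conv_rhs => rw [sum_comm]
  refine sum_congr rfl fun p hp => ?_
  rw [mem_filter, mem_Ioc] at hp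
  obtain ⟨⟨hp1, hp2⟩, hp3⟩ := hp
  rw [← sum_filter, ← sum_filter]
  refine sum_nbij' (fun m => m / p) (fun k => k * p) ?_ ?_ ?_ ?_ ?_
  · intro m hm
    simp only [mem_filter, mem_Ioc, mem_Icc] at hm ⊢
    obtain ⟨⟨hm1, hm2⟩, ⟨k, rfl⟩⟩ := hm
    rw [Nat.mul_div_cancel_left _ (by omega)]
    have hk : 0 < k := by
      rcases Nat.eq_zero_or_pos k with h | h
      · subst h
        omega
      · exact h
    refine ⟨⟨hk, ?_⟩, ?_, ?_⟩
    · rw [Nat.le_div_iff_mul_le hP]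
      calc k * P ≤ k * p := Nat.mul_le_mul_left _ hp1.le
        _ = p * k := mul_comm _ _
        _ ≤ 2 * M := hm2
    · rw [Nat.div_lt_iff_lt_mul hk]
      exact hm1
    · rw [Nat.le_div_iff_mul_le hk]
      exact hm2
  · intro k hk
    simp only [mem_filter, mem_Ioc, mem_Icc] at hk ⊢
    obtain ⟨⟨hk1, hk2⟩, hk3, hk4⟩ := hk
    rw [Nat.div_lt_iff_lt_mul hk1] at hk3
    rw [Nat.le_div_iff_mul_le hk1] at hk4
    rw [mul_comm] at hk3 hk4
    exact ⟨⟨hk3, hk4⟩, Dvd.intro_left k rfl⟩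
  · intro m hm
    simp only [mem_filter, mem_Ioc] at hm
    exact Nat.div_mul_cancel hm.2
  · intro k hk
    exact Nat.mul_div_cancel k (by omega)
  · intro m hm
    simp only [mem_filter, mem_Ioc] at hm
    obtain ⟨⟨hm1, hm2⟩, ⟨k, rfl⟩⟩ := hm
    rw [Nat.mul_div_cancel_left _ (by omega)]
    have hk : 0 < k := by
      rcases Nat.eq_zero_or_pos k with h | h
      · subst h
        omega
      · exact h
    rw [ker_nit_mul u (by omega) hk, mul_comm]

end

theorem thm_Ker4 (hSpa : St_Spa4) : St_Ker4 := by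
  classical
  intro ε hε
  obtain ⟨ηs, hηs, C₁, n₁, hS⟩ := hSpa (ε / 2) (by positivity)
  obtain ⟨η₁, hη₁, hη₁s, hη₁e, hη₁h⟩ : ∃ η₁ : ℝ, 0 < η₁ ∧ η₁ ≤ ηs ∧ η₁ ≤ ε / 2 ∧ η₁ ≤ 1 / 2 :=
    ⟨min ηs (min (ε / 2) (1 / 2)), lt_min hηs (lt_min (by positivity) (by norm_num)),
      min_le_left _ _, (min_le_right _ _).trans (min_le_left _ _),
      (min_le_right _ _).trans (min_le_right _ _)⟩
  have hpow : ∀ᶠ n : ℕ in atTop, 2 * (2 * (n : ℝ)) ^ (ε / 4) ≤ (n : ℝ) ^ (ε / 2) := by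
    have h1 : Tendsto (fun n : ℕ => (n : ℝ) ^ (ε / 4)) atTop atTop :=
      (tendsto_rpow_atTop (by positivity)).comp tendsto_natCast_atTop_atTop
    filter_upwards [h1.eventually_ge_atTop (2 * (2 : ℝ) ^ (ε / 4)), eventually_ge_atTop 1]
      with n hn hn1
    have hn0 : (0 : ℝ) < n := by exact_mod_cast hn1
    have h2 : (n : ℝ) ^ (ε / 2) = (n : ℝ) ^ (ε / 4) * (n : ℝ) ^ (ε / 4) := by
      rw [← Real.rpow_add hn0]
      congr 1
      ring
    rw [h2, Real.mul_rpow (by norm_num) hn0.le, ← mul_assoc]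
    exact mul_le_mul_of_nonneg_right hn (by positivity)
  have hbig : ∀ᶠ n : ℕ in atTop, (16 : ℝ) ≤ Real.log n :=
    (Real.tendsto_log_atTop.comp tendsto_natCast_atTop_atTop).eventually_ge_atTop 16
  obtain ⟨n₂, hn₂⟩ := eventually_atTop.mp (hpow.and hbig)
  refine ⟨η₁ / 4, by positivity, max C₁ ⌈4 / η₁⌉₊, max n₁ n₂, ?_⟩
  intro n hn z M P hM hz hP hPM
  obtain ⟨hl1, hL⟩ := hn₂ n ((le_max_right _ _).trans hn)
  set L := Real.log n with hLdef
  have hL0 : 0 < L := by linarith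
  have hL1 : 1 ≤ L := by linarith
  have hPC : L ^ C₁ ≤ P := (pow_le_pow_right₀ hL1 (le_max_left _ _)).trans hP
  have hzC : L ^ C₁ ≤ z := (pow_le_pow_right₀ hL1 (le_max_left _ _)).trans hz
  have hPA : L ^ ⌈4 / η₁⌉₊ ≤ P := (pow_le_pow_right₀ hL1 (le_max_right _ _)).trans hP
  have hP0 : (0 : ℝ) < P := (by positivity : 0 < L ^ C₁).trans_le hPC
  have hP1 : (1 : ℝ) ≤ P := (one_le_pow₀ hL1).trans hPC
  have hP0' : 0 < P := by exact_mod_cast hP0
  obtain ⟨e2, e4, en⟩ := ker3_pow hP0' η₁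
  obtain ⟨a, hadef⟩ : ∃ a : ℝ, a = (P : ℝ) ^ (η₁ / 4) := ⟨_, rfl⟩
  rw [← hadef] at e2 e4 en
  have ha : 16 ≤ a := by
    refine hL.trans ?_
    have h1 : (L ^ ⌈4 / η₁⌉₊) ^ (η₁ / 4) ≤ (P : ℝ) ^ (η₁ / 4) :=
      Real.rpow_le_rpow (by positivity) hPA (by positivity)
    rw [hadef]
    refine le_trans ?_ h1
    rw [← Real.rpow_natCast, ← Real.rpow_mul hL0.le]
    have h2 : (1 : ℝ) ≤ (⌈4 / η₁⌉₊ : ℝ) * (η₁ / 4) := by
      have h3 : 4 / η₁ ≤ (⌈4 / η₁⌉₊ : ℝ) := Nat.le_ceil _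
      calc (1 : ℝ) = (4 / η₁) * (η₁ / 4) := by field_simp
        _ ≤ _ := mul_le_mul_of_nonneg_right h3 (by positivity)
    calc L = L ^ (1 : ℝ) := (Real.rpow_one L).symm
      _ ≤ _ := Real.rpow_le_rpow_of_exponent_le hL1 h2
  have ha0 : 0 < a := by linarith
  have ha2P : a ^ 2 ≤ P := by
    rw [← e2]
    calc (P : ℝ) ^ (η₁ / 2) ≤ (P : ℝ) ^ (1 : ℝ) :=
          Real.rpow_le_rpow_of_exponent_le hP1 (by linarith)
      _ = P := Real.rpow_one _
  have ha2 : 1 ≤ a ^ 2 := by nlinarith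
  set H := ⌈a ^ 2⌉₊ with hHdef
  have hH0 : 0 < H := Nat.ceil_pos.mpr (by positivity)
  have hH1 : a ^ 2 ≤ H := Nat.le_ceil _
  have hH2 : (H : ℝ) ≤ 2 * a ^ 2 := by
    have h1 := (Nat.ceil_lt_add_one (by positivity : (0 : ℝ) ≤ a ^ 2)).le
    linarith
  have hH0' : (0 : ℝ) < H := by exact_mod_cast hH0
  set V : ℕ → Set ℝ := fun h => {u : ℝ | |u| ≤ (n : ℝ) ^ 2 ∧
    (P : ℝ) ^ (1 - η₁) < ‖ker4S (Rough z) (kerB P H h) (kerB P H (h + 1)) u‖} with hV
  have hVm : ∀ h, MeasurableSet (V h) := by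
    intro h
    have hc := ker_cont ((Ioc (kerB P H h) (kerB P H (h + 1))).filter (Rough z))
    refine MeasurableSet.inter ?_ ?_
    · exact measurableSet_le continuous_abs.measurable measurable_const
    · exact measurableSet_lt measurable_const hc.norm.measurable
  have hVv : ∀ h ∈ range H, volume (V h) ≤ ENNReal.ofReal ((n : ℝ) ^ (ε / 2)) := by
    intro h hh
    rw [mem_range] at hh
    refine le_trans (measure_mono ?_) (hS n ((le_max_left _ _).trans hn) z P hzC hPC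
      (hPM.trans (by omega)) ((Ioc (kerB P H h) (kerB P H (h + 1))).filter (Rough z)) ?_)
    · intro u hu
      refine ⟨hu.1, lt_of_le_of_lt ?_ hu.2⟩
      exact Real.rpow_le_rpow_of_exponent_le hP1 (by linarith)
    · intro p hp
      rw [mem_filter, mem_Ioc] at hp
      obtain ⟨⟨h1, h2⟩, h3⟩ := hp
      refine ⟨h3, ?_, ?_⟩
      · have h4 := ker_b_le P H h
        omega
      · have h4 := ker_b_mono P H (show h + 1 ≤ H by omega)
        rw [ker_b_top P hH0] at h4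
        omega
  refine ⟨⋃ h ∈ range H, V h, ?_, ?_, ?_⟩
  · exact Finset.measurableSet_biUnion _ fun h _ => hVm h
  · refine (measure_biUnion_finset_le _ _).trans ?_
    refine (sum_le_sum hVv).trans ?_
    rw [sum_const, card_range, nsmul_eq_mul]
    have h1 : (H : ENNReal) = ENNReal.ofReal (H : ℝ) := (ENNReal.ofReal_natCast H).symm
    rw [h1, ← ENNReal.ofReal_mul hH0'.le]
    refine ENNReal.ofReal_le_ofReal ?_
    have hn0 : (0 : ℝ) < n := by
      rcases Nat.eq_zero_or_pos n with h | h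
      · rw [hLdef, h] at hL
        norm_num at hL
      · exact_mod_cast h
    have h2 : (n : ℝ) ^ ε = (n : ℝ) ^ (ε / 2) * (n : ℝ) ^ (ε / 2) := by
      rw [← Real.rpow_add hn0]
      congr 1
      ring
    rw [h2]
    refine mul_le_mul_of_nonneg_right (hH2.trans (le_trans ?_ hl1)) (by positivity)
    refine mul_le_mul_of_nonneg_left ?_ (by norm_num)
    rw [← e2]
    have hP2n : (P : ℝ) ≤ 2 * n := by
      have h3 : P ≤ 2 * n := hPM.trans (by omega)
      exact_mod_cast h3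
    calc (P : ℝ) ^ (η₁ / 2) ≤ (P : ℝ) ^ (ε / 4) :=
          Real.rpow_le_rpow_of_exponent_le hP1 (by linarith)
      _ ≤ (2 * (n : ℝ)) ^ (ε / 4) := Real.rpow_le_rpow hP0.le hP2n (by positivity)
  · intro u hu huU
    have hom : ∀ m, omR z P m = ((Ioc P (2 * P)).filter (fun p => Rough z p ∧ p ∣ m)).card := by
      intro m
      unfold omR
      congr!
    simp only [hom]
    rw [ker4_sum (Rough z) hP0' u]
    have hK : ∀ h ∈ range H, ‖ker4S (Rough z) (kerB P H h) (kerB P H (h + 1)) u‖ ≤ P / a ^ 4 := by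
      intro h hh
      by_contra hc
      push Not at hc
      refine huU (Set.mem_biUnion hh ⟨hu, ?_⟩)
      rw [e4]
      exact hc
    have hsum : ∑ h ∈ range H, ‖ker4S (Rough z) (kerB P H h) (kerB P H (h + 1)) u‖ ≤
        H * (P / a ^ 4) := by
      refine (sum_le_sum hK).trans ?_
      rw [sum_const, card_range, nsmul_eq_mul]
    have hM0 : (0 : ℝ) ≤ M := Nat.cast_nonneg M
    have hterm : ∀ k ∈ Icc 1 (2 * M / P), ‖nit u k *
        ∑ p ∈ (Ioc P (2 * P)).filter (fun p => Rough z p ∧ M / k < p ∧ p ≤ 2 * M / k), nit u p‖ ≤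
        2 * (H * (P / a ^ 4) + (P / H + 1)) := by
      intro k hk
      rw [norm_mul, ker_nit_norm, one_mul]
      refine (ker4_int (Rough z) hH0 u (Nat.div_le_div_right (by omega))).trans ?_
      linarith
    refine (norm_sum_le _ _).trans ((sum_le_sum hterm).trans ?_)
    rw [sum_const, Nat.card_Icc, add_tsub_cancel_right, nsmul_eq_mul]
    have h1 : ((2 * M / P : ℕ) : ℝ) ≤ 2 * M / P := by
      have := Nat.cast_div_le (α := ℝ) (m := 2 * M) (n := P)
      push_cast at this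
      exact this
    rw [en]
    refine le_trans (mul_le_mul_of_nonneg_right h1 (by positivity)) ?_
    exact ker3_num hM0 hP0 ha hH1 hH2 ha2P

end Pool.Agent.EVN
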