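import Mathlib
import Pool.Agent.EVN.Stmts3

set_option autoImplicit false

/-!
# EVN, fourth form: a power saving in `x` (helper71, R21)

THEOREM.  There are `κ > 0` and `C`, `n₀` such that for all `n ≥ n₀` and all `x` such that
`u = log x / log log n ≥ C (log log log n)^2` all but `x u^(-κ u)` of the `m ∈ (x, 2x]` with
`2m + 1 < n` are good; so all but `x^(1 - κ c/2)` if `log x ≥ (log n)^c`.

The weight `om P m` (number of the primes in `(P, 2P]` dividing `m`) of the third form is replaced by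
`omR z P m`, the number of the divisors `d ∈ (P, 2P]` of `m` all of whose prime factors are `> z`,
`z ≥ (log n)^C`.  The proofs are those of the modules Spa3, Ker3, VB3, Key3, Fin3 with `d` rough in
place of `p` prime: copy these files (new names for the auxiliary lemmas).
-/

namespace Pool.Agent.EVN

open Finset Filter MeasureTheory
open Pool.Agent.GBQ (ee)
open Pool.Agent.SI (nit DP IsW Wd)

/-- all prime factors of `d` are `> z` -/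
def Rough (z : ℝ) (d : ℕ) : Prop := ∀ p : ℕ, p.Prime → p ∣ d → z < p

open scoped Classical in
/-- the number of the divisors of `m` in `(P, 2P]` all of whose prime factors are `> z` -/
noncomputable def omR (z : ℝ) (P m : ℕ) : ℕ :=
  ((Ioc P (2 * P)).filter (fun d => Rough z d ∧ d ∣ m)).card

/-- SPA4.

Proof.  As `St_Spa3` (EVN/Spa.lean, Spa3.lean).  The only use of `p` prime is `spa_r_le`
(`r(N) ≤ ℓ!`).  Now: the number `r(N)` of the `v : Fin ℓ → S` with `∏ v_i = N` is `≤ ℓ^Ω(N)`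
(induction on `N`: let `p ∣ N` be prime; `v` is determined by an `i` with `p ∣ v_i` and by the tuple
with `v_i / p` in place of `v_i`, of product `N / p`), and `z^Ω(N) ≤ N ≤ (2P)^ℓ ≤ n^2 · 2P ≤ n^4`
(`(2P)^(ℓ-1) < n^2`), `L^C' ≤ z`, `ℓ ≤ L` (as in `spa_num`): `(ℓ^Ω)^C' ≤ (L^C')^Ω ≤ n^4`, so
`r(N) ≤ n^(4/C')`, which takes the place of `ℓ! ≤ L^ℓ ≤ L n^(2/C')`. -/
def St_Spa4 : Prop := ∀ ε : ℝ, 0 < ε → ∃ η : ℝ, 0 < η ∧ ∃ C' n₀ : ℕ, ∀ n ≥ n₀, ∀ (z : ℝ) (P : ℕ),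
  Real.log n ^ C' ≤ z → Real.log n ^ C' ≤ P → P ≤ 2 * n → ∀ S : Finset ℕ,
  (∀ d ∈ S, Rough z d ∧ P < d ∧ d ≤ 2 * P) →
  volume {u : ℝ | |u| ≤ (n : ℝ) ^ 2 ∧ (P : ℝ) ^ (1 - η) < ‖∑ d ∈ S, nit u d‖} ≤
    ENNReal.ofReal ((n : ℝ) ^ ε)

/-- KER4.

Proof.  As `St_Ker3` (EVN/Ker3.lean) with `kerR a b u = ∑ d ∈ (Ioc a b) rough, nit u d` in place of
`kerS`; the lemmas `ker_add, ker_card, ker_pre, ker_int, ker_sum` of EVN/Ker.lean hold for any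
subset of the integers in place of the primes. -/
def St_Ker4 : Prop := ∀ ε : ℝ, 0 < ε → ∃ η : ℝ, 0 < η ∧ ∃ C' n₀ : ℕ, ∀ n ≥ n₀, ∀ (z : ℝ) (M P : ℕ),
  M ≤ n → Real.log n ^ C' ≤ z → Real.log n ^ C' ≤ P → P ≤ 2 * M → ∃ U : Set ℝ, MeasurableSet U ∧
    volume U ≤ ENNReal.ofReal ((n : ℝ) ^ ε) ∧ ∀ u : ℝ, |u| ≤ (n : ℝ) ^ 2 → u ∉ U →
      ‖∑ m ∈ Ioc M (2 * M), ((omR z P m : ℝ) : ℂ) * nit u m‖ ≤ M * (P : ℝ) ^ (-η)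

/-- VB4.

Proof.  As `St_VB3` (EVN/VB3.lean).  `∑_{m ∈ (M,2M]} omR z P m ≤ 5 M` as for `om`
(first lemma of EVN/VB.lean: `≤ ∑_{d ∈ (P,2P]} (M/d + 1) ≤ 3 M`). -/
def St_VB4 : Prop := ∀ w : ℝ → ℝ, IsW w → ∃ κ : ℝ, 0 < κ ∧ ∀ C₀ : ℕ, ∃ C' n₀ : ℕ, ∀ n ≥ n₀,
  ∀ (z : ℝ) (M R P : ℕ) (Q : Finset ℕ), Q ⊆ Ioc R (2 * R) → 16 * (M * R) ≤ n →
  (n : ℝ) ≤ Real.log n ^ C₀ * (M * R) → (M : ℝ) ≤ (n : ℝ) ^ (1 / 2 : ℝ) →
  Real.log n ^ C' ≤ z → Real.log n ^ C' ≤ P → P ≤ 2 * M →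
  ∑ m ∈ Ioc M (2 * M), (omR z P m : ℝ) *
    (∑ q ∈ Q, (Tq w (1 / (4 * R)) n (M * R) m q -
      Tq w ((n : ℝ) ^ (-(1 / 4) : ℝ)) n (M * R) m q)) ^ 2 ≤
    M * ((M * R : ℝ) * R) ^ 2 * (P : ℝ) ^ (-κ)

/-- KEY4.

Proof.  As `St_Key3` (EVN/Key3.lean). -/
def St_Key4 : Prop := ∃ c κ : ℝ, 0 < c ∧ 0 < κ ∧ ∀ C₀ : ℕ, ∃ C' n₀ : ℕ, ∀ n ≥ n₀,
  ∀ (z : ℝ) (M R P : ℕ) (Q : Finset ℕ), Q ⊆ Ioc R (2 * R) → (R : ℝ) ≤ Real.log n ^ C₀ * Q.card →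
  16 * (M * R) ≤ n → (n : ℝ) ≤ Real.log n ^ C₀ * (M * R) → (M : ℝ) ≤ (n : ℝ) ^ (1 / 2 : ℝ) →
  Real.log n ^ C' ≤ z → Real.log n ^ C' ≤ P → P ≤ 2 * M →
  (((Ioc M (2 * M)).filter (fun m => 1 ≤ omR z P m ∧ ((SolQ Q m n).card : ℝ) <
    c * Q.card * M / Real.log n)).card : ℝ) ≤ M * (P : ℝ) ^ (-κ)

open scoped Classical in
/-- FIN4.

Proof.  As `St_Fin3` (EVN/Fin3.lean), `y` in place of its `z`.  If `y ≥ 2x` there is no `m`.  An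
`m ∈ (x, 2x]` with a divisor `d > y`, `d` rough, has `omR z P m ≥ 1` for some `P = 2^i`
(`2^i < d ≤ 2^(i+1)`), `L^C' ≤ y/2 ≤ P ≤ 2x`.  The rest is the same. -/
def St_Fin4 : Prop := ∀ Φ : ℕ → ℕ → Prop, DensP Φ → BigP Φ → ∃ κ : ℝ, 0 < κ ∧ ∃ C n₀ : ℕ,
  ∀ n ≥ n₀, ∀ x : ℕ, 1 ≤ x → ∀ z y : ℝ, Real.log n ^ C ≤ z → Real.log n ^ C ≤ y →
  (((Ioc x (2 * x)).filter (fun m => 2 * m + 1 < n ∧
    (∃ d : ℕ, d ∣ m ∧ Rough z d ∧ y < (d : ℝ)) ∧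
    (SolP Φ m n = ∅ ∨ (12 * m ≤ n ∧ ((SolP Φ m n).card : ℝ) < n / Real.log n ^ 5)))).card : ℝ) ≤
    x * y ^ (-κ)

open scoped Classical in
/-- RAN4.  Numbers whose smooth part is large (Rankin).

Proof.  Every `m` that is counted is a multiple of some `s` (`s = m / d`, `d` the largest rough
divisor of `m`, namely `s = ∏_{p ≤ z} p^{v_p(m)}`) all of whose prime factors are `≤ z`, with
`s^2 > x` (`d^2 ≤ x` and `s d = m > x`), `s ≤ 2x`.  For each `s` there are at most `x/s + 1 ≤ 3x/s`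
such `m`.  Hence the number is at most `3x ∑_s 1/s ≤ 3x x^(-δ/2) ∑_{s z-smooth} s^(-(1-δ))`
(`1 ≤ (s^2/x)^(δ/2)`) `= 3x x^(-δ/2) ∏_{p ≤ z} (1 - p^(-(1-δ)))^(-1)`.  For `0 < δ ≤ 1/4`:
`t = p^(-(1-δ)) ≤ 2^(-3/4) ≤ 0.6`, `(1 - t)^(-1) ≤ e^(3t)`, and
`∑_{p ≤ z} p^(δ-1) ≤ z^δ ∑_{p ≤ z} 1/p ≤ z^δ (8 + log(1 + log z))` (`ran_recip`, EVN/Ran.lean).
The Euler product as in EVN/Ran.lean. -/
def St_Ran4 : Prop := ∀ (x z : ℕ) (δ : ℝ), 1 ≤ x → 2 ≤ z → 0 < δ → δ ≤ 1 / 4 →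
  (((Ioc x (2 * x)).filter (fun m => ∀ d : ℕ, d ∣ m → Rough z d → d ^ 2 ≤ x)).card : ℝ) ≤
    3 * x * (x : ℝ) ^ (-(δ / 2)) *
      Real.exp (3 * (z : ℝ) ^ δ * (8 + Real.log (1 + Real.log z)))

open scoped Classical in
/-- COR4 (form of helper14).

Proof.  `κ₁ ≤ 1`, `C₁ ≥ 2` from FIN4; `z = ⌈L^C₁⌉`, `y = √x`, `u = log x / log log n → ∞` (so
`y ≥ L^C₁`), and `x ≤ n` (otherwise there is no `m`), so `log u ≤ log log n`.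
If `m` has a rough divisor `d` with `d^2 > x`, FIN4 gives at most
`x x^(-κ₁/2) = x exp(-(κ₁/2) u log log n) ≤ x exp(-(κ₁/2) u log u)` bad `m`.  The others: RAN4 with
`δ = log u / (2 C₁ log log n) ≤ 1/4`: `x^(-δ/2) = exp(-u log u/(4 C₁))`,
`z^δ ≤ (2 L^C₁)^δ ≤ 2 √u`, `log z ≤ 2 C₁ log log n`, so
`≤ 3 x exp(-u log u/(4 C₁)) exp(6 √u (8 + log(1 + 2 C₁ log log n)))`, and
`6 √u (8 + log(1 + 2 C₁ log log n)) ≤ u log u/(8 C₁)`, because `√u ≥ √C log log log n` (`C` large in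
terms of `C₁`, `n` large).  `κ = min(κ₁/4, 1/(16 C₁))`. -/
def St_Cor4 : Prop := ∀ Φ : ℕ → ℕ → Prop, DensP Φ → BigP Φ → ∃ κ : ℝ, 0 < κ ∧ ∃ C n₀ : ℕ,
  ∀ n ≥ n₀, ∀ x : ℕ, 1 ≤ x → ∀ u : ℝ, u = Real.log x / Real.log (Real.log n) →
  C * Real.log (Real.log (Real.log n)) ^ 2 ≤ u →
  (((Ioc x (2 * x)).filter (fun m => 2 * m + 1 < n ∧
    (SolP Φ m n = ∅ ∨ (12 * m ≤ n ∧ ((SolP Φ m n).card : ℝ) < n / Real.log n ^ 5)))).card : ℝ) ≤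
    x * Real.exp (-(κ * (u * Real.log u)))

end Pool.Agent.EVN
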