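import Mathlib
import Pool.Agent.EVN.Stmts4
import Pool.Agent.EVN.Ran

set_option autoImplicit false

/-!
# EVN / Ran4

Numbers whose smooth part is large: the method of Rankin.
-/

namespace Pool.Agent.EVN

open Finset

/-- the weight of a prime is at most `3/5` -/
theorem ran4_pow {p : ℕ} {δ : ℝ} (hp : p.Prime) (h1 : δ ≤ 1 / 4) :
    (p : ℝ) ^ (-(1 - δ)) ≤ 0.6 := by
  have hp2 : (2 : ℝ) ≤ p := by exact_mod_cast hp.two_le
  have hp0 : (0 : ℝ) < p := by linarith
  have b0 : (0 : ℝ) < (2 : ℝ) ^ (3 / 4 : ℝ) := by positivity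
  have a1 : (2 : ℝ) ^ (3 / 4 : ℝ) ≤ (p : ℝ) ^ (1 - δ) :=
    (Real.rpow_le_rpow (by norm_num) hp2 (by norm_num)).trans
      (Real.rpow_le_rpow_of_exponent_le (by linarith) (by linarith))
  have b1 : ((2 : ℝ) ^ (3 / 4 : ℝ)) ^ 4 = 8 := by
    rw [← Real.rpow_natCast, ← Real.rpow_mul (by norm_num)]
    norm_num
  have b2 : (5 / 3 : ℝ) ≤ (2 : ℝ) ^ (3 / 4 : ℝ) := by
    by_contra hc
    push Not at hc
    have b3 : ((2 : ℝ) ^ (3 / 4 : ℝ)) ^ 4 < (5 / 3 : ℝ) ^ 4 :=
      pow_lt_pow_left₀ hc b0.le (by norm_num)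
    rw [b1] at b3
    norm_num at b3
  rw [Real.rpow_neg hp0.le]
  have a2 : (5 / 3 : ℝ) ≤ (p : ℝ) ^ (1 - δ) := b2.trans a1
  calc ((p : ℝ) ^ (1 - δ))⁻¹ ≤ (5 / 3 : ℝ)⁻¹ := inv_anti₀ (by norm_num) a2
    _ = 0.6 := by norm_num

/-- one factor of the Euler product -/
theorem ran4_factor {t : ℝ} (h0 : 0 ≤ t) (h1 : t ≤ 0.6) :
    (1 - t)⁻¹ ≤ Real.exp (3 * t) := by
  have h2 : 0 < 1 - t := by linarith
  have h3 : (1 - t)⁻¹ = t / (1 - t) + 1 := by
    field_simp
    ring
  have h4 : t / (1 - t) ≤ 3 * t := by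
    rw [div_le_iff₀ h2]
    nlinarith
  rw [h3]
  exact (Real.add_one_le_exp _).trans (Real.exp_le_exp.2 h4)

/-- the Euler product -/
theorem ran4_prod {z : ℕ} {δ : ℝ} (hz : 2 ≤ z) (h0 : 0 < δ) (h1 : δ ≤ 1 / 4) :
    ∏ p ∈ range (z + 1) with p.Prime, (1 - ran_hom (1 - δ) p)⁻¹ ≤
      Real.exp (3 * (z : ℝ) ^ δ * (8 + Real.log (1 + Real.log z))) := by
  have hz0 : (0 : ℝ) < z := by exact_mod_cast (by omega : 0 < z)
  have h2 : ∏ p ∈ range (z + 1) with p.Prime, (1 - ran_hom (1 - δ) p)⁻¹ ≤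
      ∏ p ∈ ran_P z, Real.exp (3 * (p : ℝ) ^ (-(1 - δ))) := by
    refine prod_le_prod ?_ ?_
    · intro p hp
      have h3 := ran4_pow (ran_mem.1 hp).2 h1
      apply inv_nonneg.2
      show (0 : ℝ) ≤ 1 - (p : ℝ) ^ (-(1 - δ))
      linarith
    · intro p hp
      have h3 := ran4_pow (ran_mem.1 hp).2 h1
      have h5 : ran_hom (1 - δ) p = (p : ℝ) ^ (-(1 - δ)) := rfl
      rw [h5]
      exact ran4_factor (by positivity) h3
  rw [← Real.exp_sum, ← mul_sum] at h2
  refine h2.trans (Real.exp_le_exp.2 ?_)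
  have h3 : ∑ p ∈ ran_P z, (p : ℝ) ^ (-(1 - δ)) ≤ ∑ p ∈ ran_P z, (z : ℝ) ^ δ * (1 / (p : ℝ)) := by
    apply sum_le_sum
    intro p hp
    rw [ran_mem] at hp
    have hp0 : (0 : ℝ) < p := by exact_mod_cast hp.2.pos
    have e1 : (p : ℝ) ^ (-(1 - δ)) = (p : ℝ) ^ δ * (1 / (p : ℝ)) := by
      rw [show -(1 - δ) = δ + -1 by ring, Real.rpow_add hp0, Real.rpow_neg_one, inv_eq_one_div]
    rw [e1]
    refine mul_le_mul_of_nonneg_right ?_ (by positivity)
    exact Real.rpow_le_rpow hp0.le (by exact_mod_cast hp.1) h0.le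
  rw [← mul_sum] at h3
  have h4 := ran_recip z hz
  have h5 : (z : ℝ) ^ δ * ∑ p ∈ ran_P z, 1 / (p : ℝ) ≤
      (z : ℝ) ^ δ * (8 + Real.log (1 + Real.log z)) :=
    mul_le_mul_of_nonneg_left h4 (by positivity)
  have h6 := h3.trans h5
  linarith

/-- the sum over numbers without large prime factors -/
theorem ran4_sum {z : ℕ} {δ : ℝ} (hz : 2 ≤ z) (h0 : 0 < δ) (h1 : δ ≤ 1 / 4) (T : Finset ℕ)
    (hT : ∀ s ∈ T, s ∈ Nat.factoredNumbers (range (z + 1))) :
    ∑ s ∈ T, (s : ℝ) ^ (-(1 - δ)) ≤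
      Real.exp (3 * (z : ℝ) ^ δ * (8 + Real.log (1 + Real.log z))) := by
  have hE := EulerProduct.summable_and_hasSum_factoredNumbers_prod_filter_prime_geometric
    (f := ran_hom (1 - δ)) (by
      intro p hp
      show ‖((p : ℝ)) ^ (-(1 - δ))‖ < 1
      rw [Real.norm_of_nonneg (by positivity)]
      exact Real.rpow_lt_one_of_one_lt_of_neg (by exact_mod_cast hp.one_lt) (by linarith))
    (range (z + 1))
  refine le_trans ?_ (ran4_prod hz h0 h1)
  have h1 : ∑ m ∈ T, (m : ℝ) ^ (-(1 - δ)) =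
      ∑ m ∈ T.attach, (ran_hom (1 - δ)) ((⟨m.1, hT m.1 m.2⟩ :
        Nat.factoredNumbers (range (z + 1))) : ℕ) := by
    rw [← sum_attach]
    rfl
  rw [h1]
  have h2 : Function.Injective (fun m : {m // m ∈ T} => (⟨m.1, hT m.1 m.2⟩ :
        Nat.factoredNumbers (range (z + 1)))) := by
    intro a b hab
    exact Subtype.ext (congrArg (fun z : Nat.factoredNumbers (range (z + 1)) => (z : ℕ)) hab)
  have h3 := sum_le_hasSum (T.attach.map ⟨_, h2⟩) (fun m _ => by
    show (0 : ℝ) ≤ ((m : ℕ) : ℝ) ^ (-(1 - δ))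
    positivity) hE.2
  rw [sum_map] at h3
  exact h3

/-- the smooth and the rough part of a number -/
theorem ran4_split (z : ℕ) : ∀ m : ℕ, m ≠ 0 → ∃ s d : ℕ, s * d = m ∧
    s ∈ Nat.factoredNumbers (range (z + 1)) ∧ Rough z d := by
  intro m
  induction m using Nat.strong_induction_on with
  | _ m ih =>
    intro hm
    by_cases h1 : m = 1
    · refine ⟨1, 1, by omega, ?_, ?_⟩
      · rw [Nat.mem_factoredNumbers']
        intro p hp hd
        exact absurd (Nat.dvd_one.1 hd) hp.one_lt.ne'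
      · intro p hp hd
        exact absurd (Nat.dvd_one.1 hd) hp.one_lt.ne'
    · have hp := Nat.minFac_prime h1
      obtain ⟨k, hk⟩ := Nat.minFac_dvd m
      set p := m.minFac with hpdef
      have hk0 : k ≠ 0 := by
        rintro rfl
        exact hm (by rw [hk, mul_zero])
      have hkm : k < m := by
        rw [hk]
        have := hp.two_le
        nlinarith [Nat.pos_of_ne_zero hk0]
      obtain ⟨s, d, hsd, hs, hd⟩ := ih k hkm hk0
      rcases Nat.lt_or_ge z p with hzp | hzp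
      · refine ⟨s, p * d, by rw [hk, ← hsd]; ring, hs, ?_⟩
        intro q hq hqd
        rcases (hq.dvd_mul).1 hqd with h2 | h2
        · have : q = p := (Nat.prime_dvd_prime_iff_eq hq hp).1 h2
          rw [this]
          exact_mod_cast hzp
        · exact hd q hq h2
      · refine ⟨p * s, d, by rw [hk, ← hsd]; ring, ?_, hd⟩
        rw [Nat.mem_factoredNumbers'] at hs ⊢
        intro q hq hqd
        rcases (hq.dvd_mul).1 hqd with h2 | h2
        · have : q = p := (Nat.prime_dvd_prime_iff_eq hq hp).1 h2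
          rw [this, mem_range]
          omega
        · exact hs q hq h2

open scoped Classical in
theorem thm_Ran4 : St_Ran4 := by
  intro x z δ hx hz h0 h1
  have hx0 : (0 : ℝ) < x := by exact_mod_cast hx
  set T : Finset ℕ := (Ioc 0 (2 * x)).filter
    (fun s => s ∈ Nat.factoredNumbers (range (z + 1)) ∧ x < s ^ 2) with hT
  set A : Finset ℕ := (Ioc x (2 * x)).filter
    (fun m => ∀ d : ℕ, d ∣ m → Rough z d → d ^ 2 ≤ x) with hA
  have hsub : A ⊆ T.biUnion (fun s => (Ioc x (2 * x)).filter (fun m => s ∣ m)) := by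
    intro m hm
    rw [hA, mem_filter, mem_Ioc] at hm
    obtain ⟨s, d, hsd, hs, hd⟩ := ran4_split z m (by omega)
    have h2 := hm.2 d ⟨s, by rw [← hsd]; ring⟩ hd
    have hs0 : 0 < s := by
      rcases Nat.eq_zero_or_pos s with h | h
      · rw [h, zero_mul] at hsd
        omega
      · exact h
    have hd0 : 0 < d := by
      rcases Nat.eq_zero_or_pos d with h | h
      · rw [h, mul_zero] at hsd
        omega
      · exact h
    rw [mem_biUnion]
    refine ⟨s, ?_, ?_⟩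
    · rw [hT, mem_filter, mem_Ioc]
      refine ⟨⟨hs0, ?_⟩, hs, ?_⟩
      · calc s = s * 1 := (mul_one s).symm
          _ ≤ s * d := Nat.mul_le_mul_left s hd0
          _ = m := hsd
          _ ≤ 2 * x := hm.1.2
      · by_contra hc
        push Not at hc
        have h3 : x < s * d := by rw [hsd]; exact hm.1.1
        have h4 : (s * d) ^ 2 ≤ x ^ 2 := by
          rw [mul_pow, pow_two x]
          exact Nat.mul_le_mul hc h2
        have h5 : x ^ 2 < (s * d) ^ 2 := Nat.pow_lt_pow_left h3 (by norm_num)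
        omega
    · rw [mem_filter, mem_Ioc]
      exact ⟨hm.1, ⟨d, hsd.symm⟩⟩
  have hcount : ∀ s ∈ T, (((Ioc x (2 * x)).filter (fun m => s ∣ m)).card : ℝ) ≤
      3 * x * (x : ℝ) ^ (-(δ / 2)) * (s : ℝ) ^ (-(1 - δ)) := by
    intro s hs
    rw [hT, mem_filter, mem_Ioc] at hs
    obtain ⟨⟨hs0, hs2⟩, -, hs3⟩ := hs
    have hs0' : (0 : ℝ) < s := by exact_mod_cast hs0
    have hs2' : (s : ℝ) ≤ 2 * x := by exact_mod_cast hs2
    have c1 : (((Ioc x (2 * x)).filter (fun m => s ∣ m)).card : ℝ) ≤ x / s + 1 := by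
      have e1 : ((Ioc x (2 * x)).filter (fun m => s ∣ m)).card ≤
          (Ioc (x / s) (2 * x / s)).card := by
        apply Finset.card_le_card_of_injOn (fun m => m / s)
        · intro m hm
          simp only [coe_filter, mem_Ioc, Set.mem_ofPred_eq] at hm
          simp only [coe_Ioc, Set.mem_Ioc]
          obtain ⟨k, hk⟩ := hm.2
          have hk2 : m / s = k := by rw [hk]; exact Nat.mul_div_cancel_left k hs0
          constructor
          · rw [hk2, Nat.div_lt_iff_lt_mul hs0, mul_comm, ← hk]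
            exact hm.1.1
          · exact Nat.div_le_div_right hm.1.2
        · intro m hm m' hm' hmm
          simp only [coe_filter, mem_Ioc, Set.mem_ofPred_eq] at hm hm'
          obtain ⟨k, hk⟩ := hm.2
          obtain ⟨k', hk'⟩ := hm'.2
          have e2 : m / s = k := by rw [hk]; exact Nat.mul_div_cancel_left k hs0
          have e3 : m' / s = k' := by rw [hk']; exact Nat.mul_div_cancel_left k' hs0
          have e4 : m / s = m' / s := hmm
          rw [hk, hk', ← e2, ← e3, e4]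
      rw [Nat.card_Ioc] at e1
      have e5 : ((2 * x / s - x / s : ℕ) : ℝ) ≤ x / s + 1 := by
        have e6 : ((2 * x / s : ℕ) : ℝ) ≤ 2 * x / s := by
          have := @Nat.cast_div_le ℝ _ _ _ (2 * x) s
          push_cast at this
          exact this
        have e7 : (x : ℝ) / s < ((x / s : ℕ) : ℝ) + 1 := by
          rw [div_lt_iff₀ hs0']
          have := Nat.lt_mul_div_succ x hs0
          have e8 : (x : ℝ) < (s : ℝ) * (((x / s : ℕ) : ℝ) + 1) := by exact_mod_cast this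
          linarith
        have e9 : x / s ≤ 2 * x / s := Nat.div_le_div_right (by omega)
        rw [Nat.cast_sub e9]
        have e10 : 2 * (x : ℝ) / s = x / s + x / s := by ring
        linarith
      exact (by exact_mod_cast e1 : (((Ioc x (2 * x)).filter (fun m => s ∣ m)).card : ℝ) ≤
        ((2 * x / s - x / s : ℕ) : ℝ)).trans e5
    have c2 : (x : ℝ) / s + 1 ≤ 3 * (x / s) := by
      have : (1 : ℝ) ≤ 2 * (x / s) := by
        rw [← mul_div_assoc, one_le_div hs0']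
        exact hs2'
      linarith
    have c3 : (1 : ℝ) ≤ (x : ℝ) ^ (-(δ / 2)) * (s : ℝ) ^ δ := by
      have d1 : (s : ℝ) ^ δ = ((s : ℝ) ^ 2) ^ (δ / 2) := by
        rw [← Real.rpow_natCast, ← Real.rpow_mul hs0'.le]
        congr 1
        push_cast
        ring
      have d2 : (x : ℝ) ^ (δ / 2) ≤ ((s : ℝ) ^ 2) ^ (δ / 2) :=
        Real.rpow_le_rpow hx0.le (by exact_mod_cast hs3.le) (by linarith)
      rw [d1, Real.rpow_neg hx0.le, inv_mul_eq_div, one_le_div (by positivity)]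
      exact d2
    have c4 : (s : ℝ) ^ (-(1 - δ)) = (s : ℝ) ^ δ * (1 / (s : ℝ)) := by
      rw [show -(1 - δ) = δ + -1 by ring, Real.rpow_add hs0', Real.rpow_neg_one, inv_eq_one_div]
    calc (((Ioc x (2 * x)).filter (fun m => s ∣ m)).card : ℝ) ≤ 3 * (x / s) := c1.trans c2
      _ = 3 * x * (1 / s) * 1 := by ring
      _ ≤ 3 * x * (1 / s) * ((x : ℝ) ^ (-(δ / 2)) * (s : ℝ) ^ δ) :=
          mul_le_mul_of_nonneg_left c3 (by positivity)
      _ = 3 * x * (x : ℝ) ^ (-(δ / 2)) * (s : ℝ) ^ (-(1 - δ)) := by rw [c4]; ring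
  calc (A.card : ℝ) ≤ ((T.biUnion (fun s => (Ioc x (2 * x)).filter (fun m => s ∣ m))).card : ℝ) := by
        exact_mod_cast card_le_card hsub
    _ ≤ ((∑ s ∈ T, ((Ioc x (2 * x)).filter (fun m => s ∣ m)).card : ℕ) : ℝ) := by
        exact_mod_cast card_biUnion_le
    _ = ∑ s ∈ T, (((Ioc x (2 * x)).filter (fun m => s ∣ m)).card : ℝ) := by push_cast; rfl
    _ ≤ ∑ s ∈ T, 3 * x * (x : ℝ) ^ (-(δ / 2)) * (s : ℝ) ^ (-(1 - δ)) := sum_le_sum hcount
    _ = 3 * x * (x : ℝ) ^ (-(δ / 2)) * ∑ s ∈ T, (s : ℝ) ^ (-(1 - δ)) := by rw [← mul_sum]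
    _ ≤ 3 * x * (x : ℝ) ^ (-(δ / 2)) *
        Real.exp (3 * (z : ℝ) ^ δ * (8 + Real.log (1 + Real.log z))) := by
        refine mul_le_mul_of_nonneg_left ?_ (by positivity)
        refine ran4_sum hz h0 h1 T fun s hs => ?_
        rw [hT, mem_filter] at hs
        exact hs.2.1

end Pool.Agent.EVN
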