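import Pool.Agent.EVN.Stmts4
import Pool.Agent.EVN.Spa3

set_option autoImplicit false

/-!
# EVN4 / Spa4: large values of short polynomials over rough numbers are rare (helper56)
-/

namespace Pool.Agent.EVN

open Finset Filter MeasureTheory
open Pool.Agent.SI (nit DP IsW Wd)

theorem spa4_count (l : ℕ) (N : ℕ) : N ≠ 0 →
    (Nat.finMulAntidiag l N).card ≤ l ^ (ArithmeticFunction.cardFactors N) := by
  classical
  induction N using induction_on_primes with
  | zero => intro h; exact absurd rfl h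
  | one =>
    intro _
    rw [ArithmeticFunction.cardFactors_one, pow_zero, Nat.finMulAntidiag_one, card_singleton]
  | prime_mul p a hp ih =>
    intro hpa
    have ha : a ≠ 0 := fun h => hpa (by rw [h, mul_zero])
    rw [ArithmeticFunction.cardFactors_mul hp.ne_zero ha,
      ArithmeticFunction.cardFactors_apply_prime hp, pow_add, pow_one]
    have hsub : Nat.finMulAntidiag l (p * a) ⊆
        ((univ : Finset (Fin l)) ×ˢ Nat.finMulAntidiag l a).image
          (fun x => Function.update x.2 x.1 (p * x.2 x.1)) := by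
      intro v hv
      rw [Nat.mem_finMulAntidiag] at hv
      have h1 : p ∣ ∏ i, v i := by rw [hv.1]; exact dvd_mul_right _ _
      obtain ⟨i, -, hi⟩ := (hp.prime.dvd_finsetProd_iff _).1 h1
      obtain ⟨b, hb⟩ := hi
      rw [mem_image]
      refine ⟨(i, Function.update v i b), ?_, ?_⟩
      · rw [mem_product]
        refine ⟨mem_univ _, ?_⟩
        rw [Nat.mem_finMulAntidiag]
        refine ⟨?_, ha⟩
        have h2 : p * ∏ j, Function.update v i b j = p * a := by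
          rw [← hv.1, ← mul_prod_erase univ (Function.update v i b) (mem_univ i),
            ← mul_prod_erase univ v (mem_univ i), Function.update_self, hb, mul_assoc]
          congr 2
          refine prod_congr rfl fun j hj => ?_
          rw [Function.update_of_ne (ne_of_mem_erase hj)]
        exact Nat.eq_of_mul_eq_mul_left hp.pos h2
      · show Function.update (Function.update v i b) i (p * Function.update v i b i) = v
        rw [Function.update_self, Function.update_idem, ← hb, Function.update_eq_self]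
    calc (Nat.finMulAntidiag l (p * a)).card ≤ _ := card_le_card hsub
      _ ≤ ((univ : Finset (Fin l)) ×ˢ Nat.finMulAntidiag l a).card := card_image_le
      _ = l * (Nat.finMulAntidiag l a).card := by
          rw [card_product, card_univ, Fintype.card_fin]
      _ ≤ l * l ^ ArithmeticFunction.cardFactors a := Nat.mul_le_mul_left _ (ih ha)

theorem spa4_r_le (S : Finset ℕ) (l N : ℕ) (hN : N ≠ 0) :
    spa_r S l N ≤ l ^ (ArithmeticFunction.cardFactors N) := by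
  refine le_trans (card_le_card ?_) (spa4_count l N hN)
  intro v hv
  rw [mem_filter] at hv
  rw [Nat.mem_finMulAntidiag]
  exact ⟨hv.2, hN⟩

theorem spa4_rough (z : ℝ) (hz : 0 ≤ z) (N : ℕ) : N ≠ 0 → Rough z N →
    z ^ (ArithmeticFunction.cardFactors N) ≤ N := by
  induction N using induction_on_primes with
  | zero => intro h; exact absurd rfl h
  | one =>
    intro _ _
    rw [ArithmeticFunction.cardFactors_one, pow_zero, Nat.cast_one]
  | prime_mul p a hp ih =>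
    intro hpa hr
    have ha : a ≠ 0 := fun h => hpa (by rw [h, mul_zero])
    rw [ArithmeticFunction.cardFactors_mul hp.ne_zero ha,
      ArithmeticFunction.cardFactors_apply_prime hp, pow_add, pow_one, Nat.cast_mul]
    refine mul_le_mul (hr p hp (dvd_mul_right _ _)).le
      (ih ha fun q hq hqa => hr q hq (hqa.mul_left _)) (by positivity) (Nat.cast_nonneg _)

theorem spa4_maps (S : Finset ℕ) (P l : ℕ) (hS : ∀ p ∈ S, P < p ∧ p ≤ 2 * P) :
    ∀ v ∈ Fintype.piFinset (fun _ : Fin l => S), ∏ i, v i ∈ Icc 1 ((2 * P) ^ l) := by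
  intro v hv
  rw [Fintype.mem_piFinset] at hv
  rw [mem_Icc]
  constructor
  · exact Nat.one_le_iff_ne_zero.2 (prod_ne_zero_iff.2 fun i _ => by
      have := (hS _ (hv i)).1
      omega)
  · calc ∏ i, v i ≤ ∏ _i : Fin l, 2 * P := prod_le_prod' fun i _ => (hS _ (hv i)).2
      _ = (2 * P) ^ l := by rw [prod_const, card_univ, Fintype.card_fin]

theorem spa4_sum_r (S : Finset ℕ) (P l : ℕ) (hS : ∀ p ∈ S, P < p ∧ p ≤ 2 * P) :
    ∑ N ∈ Icc 1 ((2 * P) ^ l), spa_r S l N = S.card ^ l := by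
  have h1 := card_eq_sum_card_fiberwise (f := fun v : Fin l → ℕ => ∏ i, v i)
    (s := Fintype.piFinset (fun _ : Fin l => S)) (t := Icc 1 ((2 * P) ^ l))
    (fun v hv => by exact_mod_cast spa4_maps S P l hS v hv)
  rw [Fintype.card_piFinset, prod_const, card_univ, Fintype.card_fin] at h1
  exact h1.symm

theorem spa4_pow (S : Finset ℕ) (P l : ℕ) (hS : ∀ p ∈ S, P < p ∧ p ≤ 2 * P) (u : ℝ) :
    (∑ p ∈ S, nit u p) ^ l = DP (fun N => (spa_r S l N : ℝ)) ((2 * P) ^ l) u := by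
  have h1 : (∑ p ∈ S, nit u p) ^ l =
      ∑ v ∈ Fintype.piFinset (fun _ : Fin l => S), nit u (∏ i, v i) := by
    have h2 := Finset.prod_univ_sum (fun _ : Fin l => S) (fun _ p => nit u p)
    rw [prod_const, card_univ, Fintype.card_fin] at h2
    rw [h2]
    refine Finset.sum_congr rfl fun v hv => ?_
    rw [Fintype.mem_piFinset] at hv
    exact (spa_nit_prod univ u v fun i _ => by
      have := (hS _ (hv i)).1
      omega).symm
  rw [h1, ← Finset.sum_fiberwise_of_maps_to (spa4_maps S P l hS)]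
  unfold Pool.Agent.SI.DP spa_r
  refine Finset.sum_congr rfl fun N _ => ?_
  rw [Finset.sum_congr rfl (g := fun _ => nit u N) fun v hv => by rw [(mem_filter.1 hv).2],
    Finset.sum_const, nsmul_eq_mul]
  push_cast
  rfl

theorem spa4_sq (S : Finset ℕ) (P l : ℕ) (hS : ∀ p ∈ S, P < p ∧ p ≤ 2 * P) (B : ℝ) (hB : 0 ≤ B)
    (hr : ∀ N ∈ Icc 1 ((2 * P) ^ l), (spa_r S l N : ℝ) ≤ B) :
    ∑ N ∈ Icc 1 ((2 * P) ^ l), ((spa_r S l N : ℝ)) ^ 2 ≤ B * (P : ℝ) ^ l := by
  have h2 : S ⊆ Ioc P (2 * P) := fun p hp => mem_Ioc.2 (hS p hp)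
  have h3 : S.card ≤ P := by
    refine (card_le_card h2).trans ?_
    rw [Nat.card_Ioc]
    omega
  calc ∑ N ∈ Icc 1 ((2 * P) ^ l), ((spa_r S l N : ℝ)) ^ 2 ≤
      ∑ N ∈ Icc 1 ((2 * P) ^ l), B * (spa_r S l N : ℝ) :=
        Finset.sum_le_sum fun N hN => by
          rw [sq]
          exact mul_le_mul_of_nonneg_right (hr N hN) (Nat.cast_nonneg _)
    _ = B * ((S.card ^ l : ℕ) : ℝ) := by
        rw [← Finset.mul_sum, ← spa4_sum_r S P l hS]
        push_cast
        rfl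
    _ ≤ B * (P : ℝ) ^ l := by
        refine mul_le_mul_of_nonneg_left ?_ hB
        exact_mod_cast Nat.pow_le_pow_left h3 l

/-- the estimate of the measure for one `l` -/
theorem spa4_one {C : ℝ} (hC : 0 < C) (hMV : ∀ (c : ℕ → ℝ) (M : ℕ) (T : ℝ), 1 ≤ M → 1 ≤ T →
    ∫ t in (-T)..T, ‖DP c M t‖ ^ 2 ≤ C * (T + M * (1 + Real.log M)) * ∑ n ∈ Icc 1 M, c n ^ 2)
    (S : Finset ℕ) (P l : ℕ) (hP : 0 < P) (hS : ∀ p ∈ S, P < p ∧ p ≤ 2 * P) (T θ B : ℝ)
    (hB0 : 0 ≤ B) (hr : ∀ N ∈ Icc 1 ((2 * P) ^ l), (spa_r S l N : ℝ) ≤ B)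
    (hT : 1 ≤ T) (hθ : 0 < θ) (hTl : T ≤ (2 * (P : ℝ)) ^ l) :
    volume {u : ℝ | |u| ≤ T ∧ P / θ < ‖∑ p ∈ S, nit u p‖} ≤
      ENNReal.ofReal (C * (2 + l * Real.log (2 * P)) * 2 ^ l * B * θ ^ (2 * l)) := by
  have hP0 : (0 : ℝ) < P := by exact_mod_cast hP
  have ha : 0 < (P / θ) ^ (2 * l) := by positivity
  have hsub : {u : ℝ | |u| ≤ T ∧ P / θ < ‖∑ p ∈ S, nit u p‖} ⊆
      {u : ℝ | |u| ≤ T ∧ (P / θ) ^ (2 * l) ≤ ‖∑ p ∈ S, nit u p‖ ^ (2 * l)} := by
    rintro u ⟨h1, h2⟩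
    exact ⟨h1, pow_le_pow_left₀ (by positivity) h2.le _⟩
  have hM1 : 1 ≤ (2 * P) ^ l := Nat.one_le_iff_ne_zero.2 (pow_ne_zero _ (by omega))
  have hB : ∫ t in (-T)..T, ‖∑ p ∈ S, nit t p‖ ^ (2 * l) ≤
      C * (T + ((2 * P) ^ l : ℕ) * (1 + Real.log ((2 * P) ^ l : ℕ))) * (B * (P : ℝ) ^ l) := by
    have h1 : (fun t : ℝ => ‖∑ p ∈ S, nit t p‖ ^ (2 * l)) =
        fun t => ‖DP (fun N => (spa_r S l N : ℝ)) ((2 * P) ^ l) t‖ ^ 2 := by
      funext t
      rw [← spa4_pow S P l hS t, norm_pow, ← pow_mul, mul_comm]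
    rw [h1]
    refine (hMV _ _ T hM1 hT).trans ?_
    refine mul_le_mul_of_nonneg_left (spa4_sq S P l hS B hB0 hr) ?_
    have h2 : 0 ≤ Real.log ((2 * P) ^ l : ℕ) := Real.log_natCast_nonneg _
    positivity
  refine (measure_mono hsub).trans ((spa_meas _ ((spa_cont S).norm.pow _) (fun u => pow_nonneg (norm_nonneg _) _) T _ _
    (by linarith) ha hB).trans (ENNReal.ofReal_le_ofReal ?_))
  rw [div_le_iff₀ ha]
  have hlog : Real.log ((2 * P) ^ l : ℕ) = l * Real.log (2 * P) := by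
    push_cast
    rw [Real.log_pow]
  have h3 : T + ((2 * P) ^ l : ℕ) * (1 + Real.log ((2 * P) ^ l : ℕ)) ≤
      (2 * (P : ℝ)) ^ l * (2 + l * Real.log (2 * P)) := by
    rw [hlog]
    push_cast
    linarith
  calc C * (T + ((2 * P) ^ l : ℕ) * (1 + Real.log ((2 * P) ^ l : ℕ))) * (B * (P : ℝ) ^ l) ≤
      C * ((2 * (P : ℝ)) ^ l * (2 + l * Real.log (2 * P))) * (B * (P : ℝ) ^ l) :=
        mul_le_mul_of_nonneg_right (mul_le_mul_of_nonneg_left h3 hC.le) (by positivity)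
    _ = C * (2 + l * Real.log (2 * P)) * 2 ^ l * B * θ ^ (2 * l) * (P / θ) ^ (2 * l) := by
        rw [div_pow, mul_pow]
        have : (P : ℝ) ^ (2 * l) = P ^ l * P ^ l := by ring
        rw [this]
        field_simp

/-- the size of `l` -/
theorem spa4_l (n P l : ℕ) (hn : 0 < n) (hL : Real.exp 4 ≤ Real.log n) (hP : Real.log n ≤ P)
    (hl1 : 1 ≤ l) (hl : (2 * P) ^ (l - 1) < n ^ 2) : (l : ℝ) ≤ Real.log n := by
  have h5 : (5 : ℝ) ≤ Real.exp 4 := by
    have := Real.add_one_le_exp (4 : ℝ)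
    linarith
  have hP0 : (0 : ℝ) < P := by linarith
  have hn0 : (0 : ℝ) < n := by exact_mod_cast hn
  have hlog4 : (4 : ℝ) ≤ Real.log (2 * P) := by
    rw [Real.le_log_iff_exp_le (by positivity)]
    linarith
  have hlr : (2 * (P : ℝ)) ^ (l - 1) < (n : ℝ) ^ 2 := by exact_mod_cast hl
  have hl2 : ((l - 1 : ℕ) : ℝ) * Real.log (2 * P) ≤ 2 * Real.log n := by
    have h1 := Real.log_le_log (by positivity) hlr.le
    rw [Real.log_pow, Real.log_pow] at h1
    push_cast at h1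
    exact h1
  have hl3 : ((l - 1 : ℕ) : ℝ) = (l : ℝ) - 1 := by
    push_cast [Nat.cast_sub hl1]
    ring
  rw [hl3] at hl2
  have hl1' : (1 : ℝ) ≤ l := by exact_mod_cast hl1
  nlinarith

/-- the number of representations -/
theorem spa4_rep (n P l C₁ : ℕ) (z : ℝ) (S : Finset ℕ) (hn : 4 ≤ n) (hC₁ : 0 < C₁)
    (hL1 : 1 ≤ Real.log n) (hlL : (l : ℝ) ≤ Real.log n) (hz : Real.log n ^ C₁ ≤ z)
    (hP2 : P ≤ 2 * n) (hl : (2 * P) ^ (l - 1) < n ^ 2) (hl1 : 1 ≤ l)
    (hS : ∀ d ∈ S, Rough z d ∧ P < d ∧ d ≤ 2 * P) :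
    ∀ N ∈ Icc 1 ((2 * P) ^ l), (spa_r S l N : ℝ) ≤ (n : ℝ) ^ (4 / (C₁ : ℝ)) := by
  intro N hN
  rw [mem_Icc] at hN
  have hn0 : (0 : ℝ) ≤ n := Nat.cast_nonneg n
  have hN0 : N ≠ 0 := by omega
  have hC0 : (0 : ℝ) < C₁ := by exact_mod_cast hC₁
  by_cases h0 : spa_r S l N = 0
  · rw [h0, Nat.cast_zero]
    exact Real.rpow_nonneg hn0 _
  have hz0 : 0 ≤ z := le_trans (by positivity) hz
  have hrough : Rough z N := by
    obtain ⟨v, hv⟩ := card_pos.1 (Nat.pos_of_ne_zero h0)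
    rw [mem_filter, Fintype.mem_piFinset] at hv
    intro p hp hpN
    rw [← hv.2] at hpN
    obtain ⟨i, -, hi⟩ := (hp.prime.dvd_finsetProd_iff _).1 hpN
    exact (hS _ (hv.1 i)).1 p hp hi
  have hNn : N ≤ n ^ 4 := by
    calc N ≤ (2 * P) ^ l := hN.2
      _ = (2 * P) ^ (l - 1) * (2 * P) := (pow_sub_one_mul (by omega) _).symm
      _ ≤ n ^ 2 * n ^ 2 := Nat.mul_le_mul hl.le (by nlinarith)
      _ = n ^ 4 := by ring
  set w := ArithmeticFunction.cardFactors N with hw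
  have h1 : (spa_r S l N : ℝ) ≤ Real.log n ^ w := by
    calc (spa_r S l N : ℝ) ≤ (l : ℝ) ^ w := by exact_mod_cast spa4_r_le S l N hN0
      _ ≤ Real.log n ^ w := pow_le_pow_left₀ (Nat.cast_nonneg _) hlL _
  have h2 : (Real.log n ^ w) ^ C₁ ≤ (n : ℝ) ^ (4 : ℝ) := by
    calc (Real.log n ^ w) ^ C₁ = (Real.log n ^ C₁) ^ w := by rw [← pow_mul, ← pow_mul, mul_comm]
      _ ≤ z ^ w := pow_le_pow_left₀ (by positivity) hz _
      _ ≤ N := spa4_rough z hz0 N hN0 hrough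
      _ ≤ (n : ℝ) ^ 4 := by exact_mod_cast hNn
      _ = (n : ℝ) ^ (4 : ℝ) := by exact_mod_cast (Real.rpow_natCast (n : ℝ) 4).symm
  refine h1.trans ?_
  have h3 := Real.rpow_le_rpow (by positivity) h2 (show (0 : ℝ) ≤ 1 / C₁ by positivity)
  rw [← Real.rpow_natCast (Real.log n ^ w) C₁, ← Real.rpow_mul (by positivity),
    mul_one_div_cancel hC0.ne', Real.rpow_one, ← Real.rpow_mul hn0, mul_one_div] at h3
  exact h3

theorem thm_Spa4 (h : Pool.Agent.SI.St_MV) : St_Spa4 := by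
  intro ε hε
  obtain ⟨C, hC, hMV⟩ := h
  obtain ⟨C', hev⟩ := spa_num C hC 0 (ε / 4) (by positivity)
  set C₁ := ⌈16 / ε⌉₊ + 1 with hC₁
  have hC₁0 : (0 : ℝ) < C₁ := by
    rw [hC₁]
    positivity
  have hC₁1 : 16 / ε ≤ C₁ := by
    rw [hC₁]
    push_cast
    exact (Nat.le_ceil _).trans (by linarith)
  have hLt : Tendsto (fun n : ℕ => Real.log n) atTop atTop :=
    Real.tendsto_log_atTop.comp tendsto_natCast_atTop_atTop
  obtain ⟨n₀, hn₀⟩ := eventually_atTop.1 ((hev.and (eventually_ge_atTop 4)).and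
    (hLt.eventually_ge_atTop (Real.exp 4)))
  refine ⟨ε / 24, by positivity, max C' C₁, n₀, fun n hn z P hz hP1 hP2 S hS => ?_⟩
  obtain ⟨⟨⟨hn1, hL0, key⟩, hn4⟩, hLe⟩ := hn₀ n hn
  have hL1 : (1 : ℝ) ≤ Real.log n := by
    have := Real.add_one_le_exp (4 : ℝ)
    linarith
  have hn0 : (0 : ℝ) < n := by exact_mod_cast (by omega : 0 < n)
  have hPC : Real.log n ^ C' ≤ P := (pow_le_pow_right₀ hL1 (le_max_left _ _)).trans hP1
  have hzC : Real.log n ^ C₁ ≤ z := (pow_le_pow_right₀ hL1 (le_max_right _ _)).trans hz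
  have hPL : Real.log n ≤ P := by
    refine le_trans ?_ hP1
    calc Real.log n = Real.log n ^ 1 := (pow_one _).symm
      _ ≤ _ := pow_le_pow_right₀ hL1 (le_trans (by omega) (le_max_right C' C₁))
  have hP0 : (0 : ℝ) < P := by linarith
  have hP : 0 < P := by exact_mod_cast hP0
  have hb : 1 < 2 * P := by omega
  set l := Nat.clog (2 * P) (n ^ 2) with hl
  have hn2 : 1 < n ^ 2 := Nat.one_lt_pow (by norm_num) hn1
  have h1 : n ^ 2 ≤ (2 * P) ^ l := Nat.le_pow_clog hb _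
  have h2 : (2 * P) ^ (l - 1) < n ^ 2 := Nat.pow_pred_clog_lt_self hb hn2
  have h3 : 1 ≤ l := Nat.clog_pos hb hn2
  have hθ : 0 < (P : ℝ) ^ (ε / 24) := Real.rpow_pos_of_pos hP0 _
  have e1 : (P : ℝ) ^ (1 - ε / 24) = P / (P : ℝ) ^ (ε / 24) := by
    rw [Real.rpow_sub hP0, Real.rpow_one]
  have hlL := spa4_l n P l (by omega) hLe hPL h3 h2
  rw [e1]
  have hr := spa4_rep n P l C₁ z S hn4 (by omega) hL1 hlL hzC hP2 h2 h3 hS
  have hB : (n : ℝ) ^ (4 / (C₁ : ℝ)) ≤ (n : ℝ) ^ (ε / 4) := by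
    refine Real.rpow_le_rpow_of_exponent_le (by exact_mod_cast hn1.le) ?_
    rw [div_le_iff₀ hC₁0]
    rw [div_le_iff₀ hε] at hC₁1
    linarith
  refine (spa4_one hC hMV S P l hP (fun d hd => (hS d hd).2) ((n : ℝ) ^ 2) ((P : ℝ) ^ (ε / 24))
    ((n : ℝ) ^ (ε / 4)) (by positivity) (fun N hN => (hr N hN).trans hB)
    (by exact_mod_cast hn2.le) hθ (by exact_mod_cast h1)).trans (ENNReal.ofReal_le_ofReal ?_)
  have k1 := key P l hPC hP2 h2 h3
  rw [pow_zero, one_pow, mul_one] at k1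
  have k2 := spa3_theta n P l ε hε hn4 hP2 h2 h3
  have k3 : C * (2 + l * Real.log (2 * P)) * 2 ^ l ≤ (n : ℝ) ^ (ε / 4) := by
    refine le_trans ?_ k1
    have hlog : 0 ≤ Real.log (2 * P) := Real.log_nonneg (by
      have : (1 : ℝ) ≤ P := by exact_mod_cast hP
      linarith)
    refine le_mul_of_one_le_right (by positivity) ?_
    exact_mod_cast Nat.one_le_iff_ne_zero.2 (Nat.factorial_ne_zero l)
  calc C * (2 + l * Real.log (2 * P)) * 2 ^ l * (n : ℝ) ^ (ε / 4) * ((P : ℝ) ^ (ε / 24)) ^ (2 * l) ≤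
      (n : ℝ) ^ (ε / 4) * (n : ℝ) ^ (ε / 4) * (n : ℝ) ^ (ε / 2) :=
        mul_le_mul (mul_le_mul_of_nonneg_right k3 (by positivity)) k2 (by positivity)
          (by positivity)
    _ = (n : ℝ) ^ ε := by
        rw [← Real.rpow_add hn0, ← Real.rpow_add hn0]
        congr 1
        ring

end Pool.Agent.EVN
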