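import Pool.Agent.EVN.Stmts4
import Pool.Agent.EVN.VB3

set_option autoImplicit false

/-!
# EVN4 / VB4: the variance over `m`, the weight `omR` (helper30, after EVN/VB3.lean of helper56 and
EVN/VB.lean of helper92)
-/

namespace Pool.Agent.EVN

open Finset Filter MeasureTheory
open Pool.Agent.SI (nit DP IsW Wd)

open scoped Classical in
theorem vb4_om (z : ℝ) (M P : ℕ) (hP : 0 < P) (hPM : P ≤ 2 * M) :
    ∑ m ∈ Ioc M (2 * M), (omR z P m : ℝ) ≤ 5 * M := by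
  have h1 : ∑ m ∈ Ioc M (2 * M), omR z P m =
      ∑ d ∈ (Ioc P (2 * P)).filter (fun d => Rough z d),
        ((Ioc M (2 * M)).filter (fun m => d ∣ m)).card := by
    have h2 : ∀ m ∈ Ioc M (2 * M), omR z P m =
        ∑ d ∈ (Ioc P (2 * P)).filter (fun d => Rough z d), if d ∣ m then 1 else 0 := by
      intro m _
      unfold omR
      rw [← Finset.filter_filter, ← Finset.sum_filter, Finset.sum_const, smul_eq_mul, mul_one]
    rw [Finset.sum_congr rfl h2, Finset.sum_comm]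
    exact Finset.sum_congr rfl fun p _ => by rw [Finset.card_filter]
  have h3 : ∀ p ∈ (Ioc P (2 * P)).filter (fun d => Rough z d),
      ((Ioc M (2 * M)).filter (fun m => p ∣ m)).card ≤ M / P + 2 := by
    intro p hp
    rw [mem_filter, mem_Ioc] at hp
    have hp0 : 0 < p := lt_of_le_of_lt (Nat.zero_le _) hp.1.1
    have h4 : ((Ioc M (2 * M)).filter (fun m => p ∣ m)).card ≤ (Icc (M / p) (2 * M / p)).card := by
      refine card_le_card_of_injOn (fun m => m / p) ?_ ?_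
      · intro m hm
        rw [coe_filter, Set.mem_ofPred_eq, mem_Ioc] at hm
        rw [coe_Icc, Set.mem_Icc]
        exact ⟨Nat.div_le_div_right hm.1.1.le, Nat.div_le_div_right hm.1.2⟩
      · intro m hm m' hm' h
        rw [coe_filter, Set.mem_ofPred_eq] at hm hm'
        exact Nat.div_left_inj hm.2 hm'.2 |>.1 h
    refine h4.trans ?_
    rw [Nat.card_Icc]
    have h5 : 2 * M / p ≤ M / p + M / p + 1 := by
      rw [Nat.div_le_iff_le_mul_add_pred hp0]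
      have h6 := Nat.lt_mul_div_succ M hp0
      have h7 : p * (M / p + 1) = p * (M / p) + p := by ring
      have h8 : p * (M / p + M / p + 1) = 2 * (p * (M / p)) + p := by ring
      omega
    have h6 : M / p ≤ M / P := Nat.div_le_div_left hp.1.1.le hP
    rw [Nat.sub_le_iff_le_add]
    omega
  have h5 : ∑ m ∈ Ioc M (2 * M), omR z P m ≤ 5 * M := by
    rw [h1]
    refine (Finset.sum_le_card_nsmul _ _ _ h3).trans ?_
    have h6 : ((Ioc P (2 * P)).filter (fun d => Rough z d)).card ≤ P := by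
      refine (card_filter_le _ _).trans ?_
      rw [Nat.card_Ioc]
      omega
    rw [smul_eq_mul]
    calc ((Ioc P (2 * P)).filter (fun d => Rough z d)).card * (M / P + 2) ≤ P * (M / P + 2) :=
          Nat.mul_le_mul_right _ h6
      _ = P * (M / P) + 2 * P := by ring
      _ ≤ M + 2 * (2 * M) := Nat.add_le_add (Nat.mul_div_le M P) (Nat.mul_le_mul_left _ hPM)
      _ = 5 * M := by ring
  have h6 : ((∑ m ∈ Ioc M (2 * M), omR z P m : ℕ) : ℝ) ≤ ((5 * M : ℕ) : ℝ) := Nat.cast_le.2 h5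
  push_cast at h6
  exact h6

theorem thm_VB4 (h1 : St_FI) (h2 : St_VM) (h3 : St_VT) (h4 : St_Ker4) (h5 : St_Dua) :
    St_VB4 := by
  intro w hw
  obtain ⟨η, hη, CK, n₃, hK⟩ := h4 (1 / 100) (by norm_num)
  have hκ : 0 < min (η / 2) (1 / 400) := lt_min (by positivity) (by norm_num)
  refine ⟨min (η / 2) (1 / 400), hκ, fun C₀ => ?_⟩
  obtain ⟨C, n₁, hC, hVM⟩ := h2 w hw C₀
  obtain ⟨n₂, hVT⟩ := h3 w hw C₀
  obtain ⟨n₄, hn₄⟩ := eventually_atTop.1 (vb3_ev C)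
  refine ⟨max CK ⌈10 / η⌉₊, max (max n₁ n₂) (max n₃ n₄),
    fun n hn z M R P Q hQ hMR hlog hM hz hP1 hP2 => ?_⟩
  have hn1 : n₁ ≤ n := le_trans (le_trans (le_max_left _ _) (le_max_left _ _)) hn
  have hn2 : n₂ ≤ n := le_trans (le_trans (le_max_right _ _) (le_max_left _ _)) hn
  have hn3 : n₃ ≤ n := le_trans (le_trans (le_max_left _ _) (le_max_right _ _)) hn
  have hn4 : n₄ ≤ n := le_trans (le_trans (le_max_right _ _) (le_max_right _ _)) hn
  obtain ⟨hn44, hL1, hL2, hL3, hL4, hL5⟩ := hn₄ n hn4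
  obtain ⟨v1, v2⟩ := hVM n hn1 M R Q hQ hMR hlog hM
  have v3 := hVT n hn2 M R Q hQ hMR hlog hM
  set L := Real.log n with hLdef
  have hn0 : (0 : ℝ) < n := by
    rcases Nat.eq_zero_or_pos n with h0 | h0
    · rw [hLdef, h0, Nat.cast_zero, Real.log_zero] at hL1
      linarith
    · exact_mod_cast h0
  have hn1' : (1 : ℝ) ≤ n := by exact_mod_cast (by exact_mod_cast hn0 : 0 < n)
  have hMR0 : 0 < M * R := by
    rcases Nat.eq_zero_or_pos (M * R) with h0 | h0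
    · exfalso
      have : ((M : ℝ) * R) = 0 := by exact_mod_cast h0
      rw [this, mul_zero] at hlog
      linarith
    · exact h0
  have hM0 : 0 < M := Nat.pos_of_mul_pos_right hMR0
  have hR0 : 0 < R := Nat.pos_of_mul_pos_left hMR0
  have hMn : M ≤ n := by
    have : (M : ℝ) ≤ n := hM.trans (by
      calc (n : ℝ) ^ (1 / 2 : ℝ) ≤ (n : ℝ) ^ (1 : ℝ) :=
            Real.rpow_le_rpow_of_exponent_le hn1' (by norm_num)
        _ = n := Real.rpow_one _)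
    exact_mod_cast this
  have hPpos : 0 < P := by
    have : (0 : ℝ) < P := lt_of_lt_of_le (by positivity) hP1
    exact_mod_cast this
  obtain ⟨U, hU1, hU2, hU3⟩ := hK n hn3 z M P hMn
    ((pow_le_pow_right₀ hL1 (le_max_left _ _)).trans hz)
    ((pow_le_pow_right₀ hL1 (le_max_left _ _)).trans hP1) hP2
  have hRr : (0 : ℝ) < R := by exact_mod_cast hR0
  have hMr : (0 : ℝ) < M := by exact_mod_cast hM0
  obtain ⟨f1, f2, f3⟩ := h1 w hw (aL n (M * R)) (ind Q) (5 * (M * R)) (2 * R) (1 / (4 * R))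
    ((n : ℝ) ^ (-(1 / 4) : ℝ)) (by positivity) (Real.rpow_pos_of_pos hn0 _)
  change Continuous (h0 w n M R Q) at f1
  change Integrable (h0 w n M R Q) at f2
  set F : ℝ → ℂ := h0 w n M R Q with hFdef
  set G : ℝ → ℂ := (Mid n).indicator F with hGdef
  have hmid := vb_mid n
  have hG1 : Integrable G := f2.indicator hmid
  have hG2 : Integrable (fun ξ => ‖G ξ‖ ^ 2) := by
    have e1 : (fun ξ => ‖G ξ‖ ^ 2) = (Mid n).indicator (fun ξ => ‖F ξ‖ ^ 2) := by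
      funext ξ
      by_cases hξ : ξ ∈ Mid n
      · rw [hGdef, Set.indicator_of_mem hξ, Set.indicator_of_mem hξ]
      · rw [hGdef, Set.indicator_of_notMem hξ, Set.indicator_of_notMem hξ, norm_zero]
        norm_num
    rw [e1, integrable_indicator_iff hmid]
    have e2 : Mid n ⊆ Set.Icc (-((n : ℝ) ^ (13 / 12 : ℝ))) ((n : ℝ) ^ (13 / 12 : ℝ)) :=
      fun ξ hξ => Set.mem_Icc.2 (abs_le.1 (vb_mid_sub hξ))
    exact ((f1.norm.pow 2).integrableOn_Icc).mono_set e2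
  have hG3 : ∫ ξ : ℝ, ‖G ξ‖ = ∫ ξ in Mid n, ‖F ξ‖ := by
    rw [← integral_indicator hmid]
    refine integral_congr_ae (Eventually.of_forall fun ξ => ?_)
    by_cases hξ : ξ ∈ Mid n
    · simp only [hGdef, Set.indicator_of_mem hξ]
    · simp only [hGdef, Set.indicator_of_notMem hξ, norm_zero]
  have hG4 : ∫ ξ : ℝ, ‖G ξ‖ ^ 2 = ∫ ξ in Mid n, ‖F ξ‖ ^ 2 := by
    rw [← integral_indicator hmid]
    refine integral_congr_ae (Eventually.of_forall fun ξ => ?_)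
    by_cases hξ : ξ ∈ Mid n
    · simp only [hGdef, Set.indicator_of_mem hξ]
    · simp only [hGdef, Set.indicator_of_notMem hξ, norm_zero]
      norm_num
  have hG5 : ∀ m : ℕ, ∫ ξ : ℝ, G ξ * nit (2 * Real.pi * ξ) m =
      ∫ ξ in Mid n, F ξ * nit (2 * Real.pi * ξ) m := by
    intro m
    rw [← integral_indicator hmid]
    refine integral_congr_ae (Eventually.of_forall fun ξ => ?_)
    by_cases hξ : ξ ∈ Mid n
    · simp only [hGdef, Set.indicator_of_mem hξ]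
    · simp only [hGdef, Set.indicator_of_notMem hξ, zero_mul]
  have hdua := h5 (Ioc M (2 * M)) (fun m => (omR z P m : ℝ)) G ((n : ℝ) ^ (13 / 12 : ℝ))
    (M * (P : ℝ) ^ (-η)) (5 * M) ((n : ℝ) ^ (1 / 100 : ℝ)) U
    (fun m hm => ⟨by rw [mem_Ioc] at hm; omega, Nat.cast_nonneg _⟩)
    (Real.rpow_nonneg hn0.le _) (by positivity) (Real.rpow_nonneg hn0.le _)
    (vb4_om z M P hPpos hP2) hU1 hU2
    (fun u hu hu' => hU3 u (hu.trans hL5) hu') hG1 hG2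
    (fun ξ hξ => by
      rw [hGdef, Set.indicator_of_notMem]
      intro h0
      exact absurd (vb_mid_sub h0) (not_le.2 hξ))
  set Y : ℝ := (M * R : ℝ) * R with hYdef
  have hY0 : 0 < Y := by positivity
  -- the inner sum
  have hD : ∀ m ∈ Ioc M (2 * M), (∑ q ∈ Q, (Tq w (1 / (4 * R)) n (M * R) m q -
      Tq w ((n : ℝ) ^ (-(1 / 4) : ℝ)) n (M * R) m q)) ^ 2 ≤
      2 * ‖∫ ξ : ℝ, G ξ * nit (2 * Real.pi * ξ) m‖ ^ 2 +
        2 * (Y * (n : ℝ) ^ (-(1 / 20) : ℝ)) ^ 2 := by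
    intro m hm
    rw [mem_Ioc] at hm
    have e1 := f3 m (by omega)
    rw [vb_sum w _ _ n (M * R) R m Q hQ] at e1
    change _ = ∫ ξ : ℝ, F ξ * nit (2 * Real.pi * ξ) m at e1
    have e2 : Integrable (fun ξ : ℝ => F ξ * nit (2 * Real.pi * ξ) m) :=
      f2.mul_bdd (c := 1) (vb_cont_nit m).aestronglyMeasurable
        (Eventually.of_forall fun ξ => (vb_norm_nit _ _).le)
    rw [← integral_add_compl hmid e2, ← hG5] at e1
    set D := ∑ q ∈ Q, (Tq w (1 / (4 * R)) n (M * R) m q -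
      Tq w ((n : ℝ) ^ (-(1 / 4) : ℝ)) n (M * R) m q) with hDdef
    have e3 : |D| ≤ ‖∫ ξ : ℝ, G ξ * nit (2 * Real.pi * ξ) m‖ + Y * (n : ℝ) ^ (-(1 / 20) : ℝ) := by
      have e4 : |D| = ‖((D : ℝ) : ℂ)‖ := by rw [Complex.norm_real, Real.norm_eq_abs]
      rw [e4, e1]
      exact (norm_add_le _ _).trans (add_le_add le_rfl (v3 m))
    rw [← sq_abs]
    have e5 := abs_nonneg D
    nlinarith [sq_nonneg (‖∫ ξ : ℝ, G ξ * nit (2 * Real.pi * ξ) m‖ - Y * (n : ℝ) ^ (-(1 / 20) : ℝ))]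
  have hsum : ∑ m ∈ Ioc M (2 * M), (omR z P m : ℝ) *
      (∑ q ∈ Q, (Tq w (1 / (4 * R)) n (M * R) m q -
        Tq w ((n : ℝ) ^ (-(1 / 4) : ℝ)) n (M * R) m q)) ^ 2 ≤
      2 * (∑ m ∈ Ioc M (2 * M), (omR z P m : ℝ) * ‖∫ ξ : ℝ, G ξ * nit (2 * Real.pi * ξ) m‖ ^ 2) +
        (5 * M) * (2 * (Y * (n : ℝ) ^ (-(1 / 20) : ℝ)) ^ 2) := by
    calc _ ≤ ∑ m ∈ Ioc M (2 * M), (omR z P m : ℝ) *
        (2 * ‖∫ ξ : ℝ, G ξ * nit (2 * Real.pi * ξ) m‖ ^ 2 +
        2 * (Y * (n : ℝ) ^ (-(1 / 20) : ℝ)) ^ 2) :=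
          Finset.sum_le_sum fun m hm => mul_le_mul_of_nonneg_left (hD m hm) (Nat.cast_nonneg _)
      _ = 2 * (∑ m ∈ Ioc M (2 * M), (omR z P m : ℝ) * ‖∫ ξ : ℝ, G ξ * nit (2 * Real.pi * ξ) m‖ ^ 2) +
        (∑ m ∈ Ioc M (2 * M), (omR z P m : ℝ)) * (2 * (Y * (n : ℝ) ^ (-(1 / 20) : ℝ)) ^ 2) := by
          rw [Finset.mul_sum, Finset.sum_mul, ← Finset.sum_add_distrib]
          exact Finset.sum_congr rfl fun m _ => by ring
      _ ≤ _ := by
          have := mul_le_mul_of_nonneg_right (vb4_om z M P hPpos hP2)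
            (show 0 ≤ 2 * (Y * (n : ℝ) ^ (-(1 / 20) : ℝ)) ^ 2 by positivity)
          linarith
  refine hsum.trans ?_
  rw [hG3, hG4] at hdua
  have hI0 : 0 ≤ ∫ ξ in Mid n, ‖F ξ‖ := integral_nonneg fun _ => norm_nonneg _
  have hL0 : (0 : ℝ) < L := by linarith
  obtain ⟨q1, q2⟩ := vb3_num η _ hη hκ (min_le_left _ _) (min_le_right _ _) C L
    (max CK ⌈10 / η⌉₊) n M P hn44 hL1 hL2 (by
      push_cast
      exact (Nat.le_ceil _).trans (le_max_right _ _)) hM hP1 hP2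
  set E : ℝ := (P : ℝ) ^ (-(min (η / 2) (1 / 400))) with hE
  have hPr : (0 : ℝ) < P := by exact_mod_cast hPpos
  have hE0 : 0 < E := Real.rpow_pos_of_pos hPr _
  have t1 : (M : ℝ) * (P : ℝ) ^ (-η) * (∫ ξ in Mid n, ‖F ξ‖) ^ 2 ≤ M * Y ^ 2 * E * (1 / 8) := by
    have e1 : (∫ ξ in Mid n, ‖F ξ‖) ^ 2 ≤ (C * Y * L ^ 2) ^ 2 := pow_le_pow_left₀ hI0 v2 2
    calc (M : ℝ) * (P : ℝ) ^ (-η) * (∫ ξ in Mid n, ‖F ξ‖) ^ 2 ≤
        M * (P : ℝ) ^ (-η) * (C * Y * L ^ 2) ^ 2 := mul_le_mul_of_nonneg_left e1 (by positivity)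
      _ = M * Y ^ 2 * (8 * C ^ 2 * L ^ 4 * (P : ℝ) ^ (-η)) * (1 / 8) := by ring
      _ ≤ M * Y ^ 2 * E * (1 / 8) :=
          mul_le_mul_of_nonneg_right (mul_le_mul_of_nonneg_left q1 (by positivity)) (by norm_num)
  have t2 : 5 * (M : ℝ) * (n : ℝ) ^ (1 / 100 : ℝ) * ∫ ξ in Mid n, ‖F ξ‖ ^ 2 ≤
      M * Y ^ 2 * E * (1 / 8) := by
    have e1 : (n : ℝ) ^ (1 / 100 : ℝ) * (n : ℝ) ^ (-(1 / 75) : ℝ) =
        ((n : ℝ) ^ (1 / 1200 : ℝ))⁻¹ * (n : ℝ) ^ (-(1 / 400) : ℝ) := by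
      rw [← Real.rpow_add hn0, ← Real.rpow_neg hn0.le, ← Real.rpow_add hn0]
      norm_num
    have e2 : (0 : ℝ) < (n : ℝ) ^ (1 / 1200 : ℝ) := Real.rpow_pos_of_pos hn0 _
    have e3 : 40 * C * L * ((n : ℝ) ^ (1 / 1200 : ℝ))⁻¹ ≤ 1 := by
      rw [mul_inv_le_iff₀ e2, one_mul]
      exact hL3
    calc 5 * (M : ℝ) * (n : ℝ) ^ (1 / 100 : ℝ) * ∫ ξ in Mid n, ‖F ξ‖ ^ 2 ≤
        5 * (M : ℝ) * (n : ℝ) ^ (1 / 100 : ℝ) * (C * Y ^ 2 * (n : ℝ) ^ (-(1 / 75) : ℝ) * L) :=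
          mul_le_mul_of_nonneg_left v1 (by positivity)
      _ = 5 * M * C * Y ^ 2 * L * ((n : ℝ) ^ (1 / 100 : ℝ) * (n : ℝ) ^ (-(1 / 75) : ℝ)) := by ring
      _ = M * Y ^ 2 * (40 * C * L * ((n : ℝ) ^ (1 / 1200 : ℝ))⁻¹) *
            (n : ℝ) ^ (-(1 / 400) : ℝ) * (1 / 8) := by
          rw [e1]
          ring
      _ ≤ M * Y ^ 2 * 1 * (n : ℝ) ^ (-(1 / 400) : ℝ) * (1 / 8) := by
          refine mul_le_mul_of_nonneg_right (mul_le_mul_of_nonneg_right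
            (mul_le_mul_of_nonneg_left e3 (by positivity)) (Real.rpow_nonneg hn0.le _)) (by norm_num)
      _ ≤ M * Y ^ 2 * E * (1 / 8) := by
          rw [mul_one]
          exact mul_le_mul_of_nonneg_right (mul_le_mul_of_nonneg_left q2 (by positivity))
            (by norm_num)
  have t3 : 5 * (M : ℝ) * (2 * (Y * (n : ℝ) ^ (-(1 / 20) : ℝ)) ^ 2) ≤ M * Y ^ 2 * E * (1 / 4) := by
    have e1 : ((n : ℝ) ^ (-(1 / 20) : ℝ)) ^ 2 =
        ((n : ℝ) ^ (39 / 400 : ℝ))⁻¹ * (n : ℝ) ^ (-(1 / 400) : ℝ) := by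
      rw [← Real.rpow_natCast, ← Real.rpow_mul hn0.le, ← Real.rpow_neg hn0.le, ← Real.rpow_add hn0]
      norm_num
    have e2 : (0 : ℝ) < (n : ℝ) ^ (39 / 400 : ℝ) := Real.rpow_pos_of_pos hn0 _
    have e3 : 40 * ((n : ℝ) ^ (39 / 400 : ℝ))⁻¹ ≤ 1 := by
      rw [mul_inv_le_iff₀ e2, one_mul]
      exact hL4
    calc 5 * (M : ℝ) * (2 * (Y * (n : ℝ) ^ (-(1 / 20) : ℝ)) ^ 2) =
        10 * M * Y ^ 2 * ((n : ℝ) ^ (-(1 / 20) : ℝ)) ^ 2 := by ring
      _ = M * Y ^ 2 * (40 * ((n : ℝ) ^ (39 / 400 : ℝ))⁻¹) * (n : ℝ) ^ (-(1 / 400) : ℝ) *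
          (1 / 4) := by
          rw [e1]
          ring
      _ ≤ M * Y ^ 2 * 1 * (n : ℝ) ^ (-(1 / 400) : ℝ) * (1 / 4) := by
          refine mul_le_mul_of_nonneg_right (mul_le_mul_of_nonneg_right
            (mul_le_mul_of_nonneg_left e3 (by positivity)) (Real.rpow_nonneg hn0.le _)) (by norm_num)
      _ ≤ M * Y ^ 2 * E * (1 / 4) := by
          rw [mul_one]
          exact mul_le_mul_of_nonneg_right (mul_le_mul_of_nonneg_left q2 (by positivity))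
            (by norm_num)
  have t4 : 0 ≤ M * Y ^ 2 * E := by positivity
  linarith

end Pool.Agent.EVN
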