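import Mathlib
import Pool.Agent.EVN.Asm3
import Pool.Agent.EVN.Spa4
import Pool.Agent.EVN.Ker4
import Pool.Agent.EVN.VB4
import Pool.Agent.EVN.Key4
import Pool.Agent.EVN.Fin4
import Pool.Agent.EVN.Ran4
import Pool.Agent.EVN.Cor4

set_option autoImplicit false

/-! Assembly of the fourth form of the theorem on every `n` and almost all `m` (power saving). -/

namespace Pool.Agent.EVN

open Pool.Agent Finset

theorem vb4 : St_VB4 :=
  thm_VB4 thm_FI (thm_VM sup (thm_MVD SI.thm_MV) SI.thm_Four) (thm_VT SI.thm_Four)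
    (thm_Ker4 (thm_Spa4 SI.thm_MV)) thm_Dua

theorem key4 : St_Key4 := thm_Key4 SI.thm_W vb4 (thm_Low SI.gap) thm_Cnt

theorem fin4 : St_Fin4 := thm_Fin4 key4 t4g

theorem cor4 : St_Cor4 := thm_Cor4 fin4 thm_Ran4

open scoped Classical in
/-- the final form, with `u = log x / log log n` -/
theorem final4 : ∃ κ : ℝ, 0 < κ ∧ ∃ C n₀ : ℕ, ∀ n ≥ n₀, ∀ x : ℕ, 1 ≤ x → ∀ u : ℝ,
    u = Real.log x / Real.log (Real.log n) → C * Real.log (Real.log (Real.log n)) ^ 2 ≤ u →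
    (((Ioc x (2 * x)).filter (fun m => 2 * m + 1 < n ∧
      (SolP Phi m n = ∅ ∨ (12 * m ≤ n ∧ ((SolP Phi m n).card : ℝ) < n / Real.log n ^ 5)))).card
        : ℝ) ≤ x * Real.exp (-(κ * (u * Real.log u))) :=
  cor4 Phi densP bigP

end Pool.Agent.EVN
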