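import Pool.Agent.EVN.Stmts5

/-!
# EVN, fifth form: the module COR5 (helper33)
-/

set_option autoImplicit false

namespace Pool.Agent.EVN

open Finset Filter MeasureTheory
open Pool.Agent.GBQ (ee)
open Pool.Agent.SI (nit DP IsW Wd)

theorem cor5_num (κ₁ K B s u l A : ℝ) (hK : 1 ≤ K) (hB : 1 ≤ B) (hl : 1 ≤ l)
    (hs : 32 * B * K ≤ s) (hu : s ^ 2 = u) (hA : A = u * l) (h16 : 16 * K ≤ A)
    (h4 : 1 ≤ κ₁ / 4 * A) :
    Real.exp (-(κ₁ / 2 * A)) + Real.exp (-(A / (4 * K))) * Real.exp (B * (2 * s) * (1 + l)) ≤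
      Real.exp (-(min (κ₁ / 4) (1 / (16 * K)) * A)) := by
  have hK0 : 0 < K := by linarith
  have hB0 : 0 < B := by linarith
  have hs0 : 0 < s := lt_of_lt_of_le (by positivity) hs
  have hApos : 0 < A := by linarith
  obtain ⟨κ, hκdef⟩ : ∃ κ : ℝ, κ = min (κ₁ / 4) (1 / (16 * K)) := ⟨_, rfl⟩
  rw [← hκdef]
  have hk1 : κ ≤ κ₁ / 4 := hκdef ▸ min_le_left _ _
  have hk2 : κ ≤ 1 / (16 * K) := hκdef ▸ min_le_right _ _
  have hE : 0 < Real.exp (-(κ * A)) := Real.exp_pos _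
  have he : Real.exp (-1) ≤ 1 / 2 := by
    rw [Real.exp_neg, one_div]
    apply inv_anti₀ (by norm_num)
    have := Real.add_one_le_exp (1 : ℝ)
    linarith
  obtain ⟨a, ha⟩ : ∃ a : ℝ, a = A / (16 * K) := ⟨_, rfl⟩
  have ha1 : 1 ≤ a := by
    rw [ha, le_div_iff₀ (by positivity)]
    linarith
  have ha4 : A / (4 * K) = 4 * a := by
    rw [ha]
    field_simp
    norm_num
  -- first term
  have h1 : Real.exp (-(κ₁ / 2 * A)) ≤ 1 / 2 * Real.exp (-(κ * A)) := by
    have e2 : Real.exp (-(κ₁ / 2 * A)) ≤ Real.exp (-1 + -(κ * A)) := by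
      apply Real.exp_le_exp.2
      have : κ * A ≤ κ₁ / 4 * A := mul_le_mul_of_nonneg_right hk1 hApos.le
      linarith
    refine e2.trans ?_
    rw [Real.exp_add]
    exact mul_le_mul_of_nonneg_right he hE.le
  -- second term
  have h2 : Real.exp (-(A / (4 * K))) * Real.exp (B * (2 * s) * (1 + l)) ≤
      1 / 2 * Real.exp (-(κ * A)) := by
    have e3 : Real.exp (-(A / (4 * K))) * Real.exp (B * (2 * s) * (1 + l)) ≤
        Real.exp (-1 + -(κ * A)) := by
      rw [← Real.exp_add]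
      apply Real.exp_le_exp.2
      have e4 : κ * A ≤ a := by
        have := mul_le_mul_of_nonneg_right hk2 hApos.le
        rw [div_mul_eq_mul_div, one_mul] at this
        rw [ha]
        exact this
      have e5 : B * (2 * s) * (1 + l) ≤ 2 * a := by
        have e6 : 2 * a = A / (8 * K) := by
          rw [ha]
          field_simp
          norm_num
        rw [e6, le_div_iff₀ (by positivity), hA, ← hu]
        calc B * (2 * s) * (1 + l) * (8 * K) ≤ B * (2 * s) * (2 * l) * (8 * K) := by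
              apply mul_le_mul_of_nonneg_right _ (by positivity)
              apply mul_le_mul_of_nonneg_left _ (by positivity)
              linarith
          _ = (32 * B * K) * (s * l) := by ring
          _ ≤ s * (s * l) := mul_le_mul_of_nonneg_right hs (by positivity)
          _ = s ^ 2 * l := by ring
      rw [ha4]
      linarith
    refine e3.trans ?_
    rw [Real.exp_add]
    exact mul_le_mul_of_nonneg_right he hE.le
  linarith

open scoped Classical in
theorem thm_Cor5 (h1 : St_Fin4) (h2 : St_Ran5) : St_Cor5 := by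
  intro Φ hD hB
  obtain ⟨κ₁, hκ₁, C₁, n₁, hF⟩ := h1 Φ hD hB
  obtain ⟨B, hB1, hRan⟩ := h2
  obtain ⟨K, hKdef⟩ : ∃ K : ℕ, K = max C₁ 2 := ⟨_, rfl⟩
  have hK2 : 2 ≤ K := hKdef ▸ le_max_right _ _
  have hKC : C₁ ≤ K := hKdef ▸ le_max_left _ _
  have hK2R : (2 : ℝ) ≤ K := by exact_mod_cast hK2
  have hK1R : (1 : ℝ) ≤ K := by linarith
  have hKpos : (0 : ℝ) < K := by linarith
  have h4 : 0 < 4 / κ₁ := by positivity
  obtain ⟨C, hC⟩ : ∃ C : ℕ, C = ⌈(32 * B * K) ^ 2 + 16 * K + 4 / κ₁ + 3⌉₊ := ⟨_, rfl⟩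
  have hCle : (32 * B * K) ^ 2 + 16 * K + 4 / κ₁ + 3 ≤ C := hC ▸ Nat.le_ceil _
  refine ⟨min (κ₁ / 4) (1 / (16 * (K : ℝ))), lt_min (by linarith) (by positivity), C,
    max n₁ ⌈Real.exp (Real.exp (Real.exp 1))⌉₊, ?_⟩
  intro n hn x hx u hu hxn
  have hn1 : n₁ ≤ n := (le_max_left _ _).trans hn
  have hn2 : Real.exp (Real.exp (Real.exp 1)) ≤ n :=
    (Nat.le_ceil _).trans (by exact_mod_cast (le_max_right _ _).trans hn)
  have hlog : Real.exp (Real.exp 1) ≤ Real.log n := by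
    rw [Real.le_log_iff_exp_le (lt_of_lt_of_le (Real.exp_pos _) hn2)]
    exact hn2
  have hlogpos : 0 < Real.log n := lt_of_lt_of_le (Real.exp_pos _) hlog
  obtain ⟨LL, hLLdef⟩ : ∃ LL : ℝ, LL = Real.log (Real.log n) := ⟨_, rfl⟩
  rw [← hLLdef] at hu
  have hLL : Real.exp 1 ≤ LL := by
    rw [hLLdef, Real.le_log_iff_exp_le hlogpos]
    exact hlog
  have hLLpos : 0 < LL := lt_of_lt_of_le (Real.exp_pos _) hLL
  have hTe : (1 : ℝ) + 1 ≤ Real.exp 1 := Real.add_one_le_exp 1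
  have hLL1 : 1 ≤ LL := by linarith
  have hlogn1 : 2 ≤ Real.log n := by
    have e1 := Real.add_one_le_exp (Real.exp 1)
    linarith
  have hx1 : (1 : ℝ) ≤ x := by exact_mod_cast hx
  have hxpos : (0 : ℝ) < x := by linarith
  have hlx : 0 ≤ Real.log x := Real.log_nonneg hx1
  have hulog : Real.log x = u * LL := by
    rw [hu]
    field_simp
  obtain ⟨s, hs⟩ : ∃ s : ℝ, s = Real.sqrt u := ⟨_, rfl⟩
  have hsq0 : 0 ≤ (32 * B * (K : ℝ)) ^ 2 := sq_nonneg _
  have hu1 : (32 * B * (K : ℝ)) ^ 2 ≤ u := by linarith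
  have hu16 : 16 * (K : ℝ) ≤ u := by linarith
  have hu4 : 4 / κ₁ ≤ u := by linarith
  have hu3 : 3 ≤ u := by linarith
  have huK : 2 * (K : ℝ) ≤ u := by linarith
  have hupos : 0 < u := by linarith
  have hsu : s ^ 2 = u := hs ▸ Real.sq_sqrt hupos.le
  have hsv : 32 * B * K ≤ s := by
    rw [hs]
    exact Real.le_sqrt_of_sq_le hu1
  have hs0 : 0 ≤ s := hs ▸ Real.sqrt_nonneg u
  have hlogu1 : 1 ≤ Real.log u := by
    rw [Real.le_log_iff_exp_le hupos]
    have := Real.exp_one_lt_d9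
    linarith
  -- if `x > n` there is no `m`
  by_cases hxn' : n < x
  · have hempty : (Ioc x (2 * x)).filter (fun m => 2 * m + 1 < n ∧
        (SolP Φ m n = ∅ ∨ (12 * m ≤ n ∧ ((SolP Φ m n).card : ℝ) < n / Real.log n ^ 5))) = ∅ := by
      rw [filter_eq_empty_iff]
      intro m hm hcon
      have := (mem_Ioc.1 hm).1
      omega
    rw [hempty, card_empty, Nat.cast_zero]
    positivity
  have hxn'' : (x : ℝ) ≤ n := by exact_mod_cast not_lt.1 hxn'
  have huLL : Real.log u ≤ LL := by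
    rw [hLLdef]
    apply Real.log_le_log hupos
    have e1 := Real.log_le_log hxpos hxn''
    rw [hulog] at e1
    nlinarith
  obtain ⟨A, hA⟩ : ∃ A : ℝ, A = u * Real.log u := ⟨_, rfl⟩
  rw [← hA]
  have hAle : A ≤ Real.log x := by
    rw [hA, hulog]
    exact mul_le_mul_of_nonneg_left huLL hupos.le
  have hAge : u ≤ A := by
    rw [hA]
    nlinarith
  -- thresholds
  obtain ⟨z, hz⟩ : ∃ z : ℕ, z = ⌈Real.log n ^ K⌉₊ := ⟨_, rfl⟩
  have hLK : Real.log n ^ C₁ ≤ Real.log n ^ K := pow_le_pow_right₀ (by linarith) hKC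
  have hLK2 : 2 ≤ Real.log n ^ K := by
    have := pow_le_pow_right₀ (show 1 ≤ Real.log n by linarith) (show 1 ≤ K by omega)
    rw [pow_one] at this
    linarith
  have hzL : Real.log n ^ K ≤ z := hz ▸ Nat.le_ceil _
  have hz2 : (2 : ℝ) ≤ z := hLK2.trans hzL
  have hz2' : 2 ≤ z := by exact_mod_cast hz2
  have hzU : (z : ℝ) ≤ 2 * Real.log n ^ K := by
    have := (Nat.ceil_lt_add_one (show 0 ≤ Real.log n ^ K by positivity)).le
    rw [← hz] at this
    linarith
  have hpowexp : Real.log n ^ K = Real.exp (K * LL) := by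
    rw [Real.exp_nat_mul, hLLdef, Real.exp_log hlogpos]
  have hsqrt : Real.sqrt x = Real.exp (Real.log x / 2) := by
    rw [Real.sqrt_eq_rpow, Real.rpow_def_of_pos hxpos]
    congr 1
    ring
  have hy : Real.log n ^ C₁ ≤ Real.sqrt x := by
    refine hLK.trans ?_
    rw [hpowexp, hsqrt]
    apply Real.exp_le_exp.2
    rw [hulog]
    nlinarith
  have hF1 := hF n hn1 x hx z (Real.sqrt x) (hLK.trans hzL) hy
  have hyk : (Real.sqrt x) ^ (-κ₁) = Real.exp (-(κ₁ / 2 * Real.log x)) := by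
    rw [hsqrt, ← Real.exp_mul]
    congr 1
    ring
  rw [hyk] at hF1
  have hF2 : (x : ℝ) * Real.exp (-(κ₁ / 2 * Real.log x)) ≤ x * Real.exp (-(κ₁ / 2 * A)) := by
    apply mul_le_mul_of_nonneg_left _ hxpos.le
    apply Real.exp_le_exp.2
    have : κ₁ / 2 * A ≤ κ₁ / 2 * Real.log x := mul_le_mul_of_nonneg_left hAle (by linarith)
    linarith
  -- Rankin
  obtain ⟨δ, hδ⟩ : ∃ δ : ℝ, δ = Real.log u / (2 * K * LL) := ⟨_, rfl⟩
  have hδ0 : 0 < δ := by
    rw [hδ]
    have : 0 < Real.log u := by linarith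
    positivity
  have hδ4 : δ ≤ 1 / 4 := by
    rw [hδ, div_le_div_iff₀ (by positivity) (by norm_num)]
    nlinarith
  have hR := hRan x z δ hx hz2' hδ0 hδ4
  have hxδ : (x : ℝ) ^ (-(δ / 2)) = Real.exp (-(A / (4 * K))) := by
    rw [Real.rpow_def_of_pos hxpos]
    congr 1
    rw [hδ, hA, hulog]
    field_simp
    norm_num
  have hsexp : Real.exp (Real.log u / 2) = s := by
    rw [hs, Real.sqrt_eq_rpow, Real.rpow_def_of_pos hupos]
    congr 1
    ring
  have hzδ : (z : ℝ) ^ δ ≤ 2 * s := by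
    calc (z : ℝ) ^ δ ≤ (2 * Real.log n ^ K) ^ δ :=
          Real.rpow_le_rpow (by linarith) hzU hδ0.le
      _ = 2 ^ δ * (Real.exp (K * LL)) ^ δ := by
          rw [Real.mul_rpow (by norm_num) (by positivity), hpowexp]
      _ ≤ 2 * (Real.exp (K * LL)) ^ δ := by
          apply mul_le_mul_of_nonneg_right _ (by positivity)
          calc (2 : ℝ) ^ δ ≤ 2 ^ (1 : ℝ) :=
                Real.rpow_le_rpow_of_exponent_le (by norm_num) (by linarith)
            _ = 2 := Real.rpow_one 2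
      _ = 2 * s := by
          rw [← Real.exp_mul, ← hsexp]
          congr 2
          rw [hδ]
          field_simp
  have hlogz0 : 0 ≤ Real.log z := Real.log_nonneg (by linarith)
  have hlogz : δ * Real.log z ≤ Real.log u := by
    have e1 : Real.log z ≤ 2 * K * LL := by
      have e2 := Real.log_le_log (by linarith) hzU
      rw [Real.log_mul (by norm_num) (by positivity), hpowexp, Real.log_exp] at e2
      have e3 : Real.log 2 ≤ 1 := by
        have := Real.log_two_lt_d9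
        linarith
      nlinarith
    calc δ * Real.log z ≤ δ * (2 * K * LL) := mul_le_mul_of_nonneg_left e1 hδ0.le
      _ = Real.log u := by
          rw [hδ]
          field_simp
  have hexp : Real.exp (B * (z : ℝ) ^ δ * (1 + δ * Real.log z)) ≤
      Real.exp (B * (2 * s) * (1 + Real.log u)) := by
    apply Real.exp_le_exp.2
    have e5 : 0 ≤ δ * Real.log z := mul_nonneg hδ0.le hlogz0
    have e6 : B * (z : ℝ) ^ δ ≤ B * (2 * s) := mul_le_mul_of_nonneg_left hzδ (by linarith)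
    exact mul_le_mul e6 (by linarith) (by linarith) (by positivity)
  have hR2 : (x : ℝ) * (x : ℝ) ^ (-(δ / 2)) *
      Real.exp (B * (z : ℝ) ^ δ * (1 + δ * Real.log z)) ≤
      x * (Real.exp (-(A / (4 * K))) * Real.exp (B * (2 * s) * (1 + Real.log u))) := by
    rw [hxδ]
    calc (x : ℝ) * Real.exp (-(A / (4 * K))) *
          Real.exp (B * (z : ℝ) ^ δ * (1 + δ * Real.log z))
        ≤ (x : ℝ) * Real.exp (-(A / (4 * K))) * Real.exp (B * (2 * s) * (1 + Real.log u)) :=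
          mul_le_mul_of_nonneg_left hexp (by positivity)
      _ = _ := by ring
  have hsub : ((Ioc x (2 * x)).filter (fun m => 2 * m + 1 < n ∧
      (SolP Φ m n = ∅ ∨ (12 * m ≤ n ∧ ((SolP Φ m n).card : ℝ) < n / Real.log n ^ 5)))) ⊆
      ((Ioc x (2 * x)).filter (fun m => 2 * m + 1 < n ∧
        (∃ d : ℕ, d ∣ m ∧ Rough z d ∧ Real.sqrt x < (d : ℝ)) ∧
        (SolP Φ m n = ∅ ∨ (12 * m ≤ n ∧ ((SolP Φ m n).card : ℝ) < n / Real.log n ^ 5)))) ∪
      ((Ioc x (2 * x)).filter (fun m => ∀ d : ℕ, d ∣ m → Rough z d → d ^ 2 ≤ x)) := by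
    intro m hm
    rw [mem_filter] at hm
    rw [mem_union, mem_filter, mem_filter]
    by_cases hp : ∃ d : ℕ, d ∣ m ∧ Rough z d ∧ Real.sqrt x < (d : ℝ)
    · exact Or.inl ⟨hm.1, hm.2.1, hp, hm.2.2⟩
    · refine Or.inr ⟨hm.1, fun d hdm hr => ?_⟩
      push Not at hp
      have e1 := hp d hdm hr
      have e2 : ((d : ℝ)) ^ 2 ≤ x := by
        rw [← Real.sqrt_le_sqrt_iff (by linarith), Real.sqrt_sq (Nat.cast_nonneg d)]
        exact e1
      exact_mod_cast e2
  have hcard := (card_le_card hsub).trans (card_union_le _ _)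
  have hcardR : (((Ioc x (2 * x)).filter (fun m => 2 * m + 1 < n ∧
      (SolP Φ m n = ∅ ∨ (12 * m ≤ n ∧ ((SolP Φ m n).card : ℝ) < n / Real.log n ^ 5)))).card : ℝ) ≤
      (((Ioc x (2 * x)).filter (fun m => 2 * m + 1 < n ∧
        (∃ d : ℕ, d ∣ m ∧ Rough z d ∧ Real.sqrt x < (d : ℝ)) ∧
        (SolP Φ m n = ∅ ∨ (12 * m ≤ n ∧ ((SolP Φ m n).card : ℝ) <
          n / Real.log n ^ 5)))).card : ℝ) +
      (((Ioc x (2 * x)).filter (fun m => ∀ d : ℕ, d ∣ m → Rough z d → d ^ 2 ≤ x)).card : ℝ) := by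
    exact_mod_cast hcard
  have h16 : 16 * (K : ℝ) ≤ A := hu16.trans hAge
  have h41 : 1 ≤ κ₁ / 4 * A := by
    have e1 : 4 / κ₁ ≤ A := hu4.trans hAge
    rw [div_le_iff₀ hκ₁] at e1
    linarith
  have hfin := cor5_num κ₁ K B s u (Real.log u) A hK1R hB1 hlogu1 hsv hsu hA h16 h41
  calc _ ≤ _ := hcardR
    _ ≤ x * Real.exp (-(κ₁ / 2 * A)) +
        x * (Real.exp (-(A / (4 * K))) * Real.exp (B * (2 * s) * (1 + Real.log u))) :=
      add_le_add (hF1.trans hF2) (hR.trans hR2)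
    _ = x * (Real.exp (-(κ₁ / 2 * A)) +
        Real.exp (-(A / (4 * K))) * Real.exp (B * (2 * s) * (1 + Real.log u))) := by ring
    _ ≤ x * Real.exp (-(min (κ₁ / 4) (1 / (16 * (K : ℝ))) * A)) :=
      mul_le_mul_of_nonneg_left hfin hxpos.le

end Pool.Agent.EVN
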