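import Mathlib
import Pool.Agent.EVN.Stmts4

set_option autoImplicit false

/-!
# EVN, fifth form: the full range `x ≥ (log n)^C` (helper71, R21)

THEOREM.  There are `κ > 0` and `C`, `n₀` such that for all `n ≥ n₀` and all `x ≥ (log n)^C` all but
`x u^(-κ u)` of the `m ∈ (x, 2x]` with `2m + 1 < n` are good, `u = log x / log log n`.
Only RAN4 and COR4 change.
-/

namespace Pool.Agent.EVN

open Finset

open scoped Classical in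
/-- RAN5.  Numbers whose smooth part is large, without loss of a power of `log z`.

Proof.  Let `f` be completely multiplicative, `f(p) = p^δ` for `p ≤ z`, `f(p) = 1` for `p > z`.  An `m`
that is counted is `s d`, `s` its `z`-smooth part, `s^2 > x`, so `f(m) = s^δ ≥ x^(δ/2)`, and the number
is at most `x^(-δ/2) ∑_{m ≤ X} f(m)`, `X = 2x`.
(1) `∑_{d ≤ y} Λ(d) f(d) ≤ A z^δ y`: `f(d) ≤ z^δ` if `d` is prime, `f(d) ≤ d^δ ≤ y^(1/4)` always, and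
`ψ(y) - θ(y) ≤ 2 √y log y` (Mathlib), `ψ(y) ≤ 6 y`.
(2) `∑_{m ≤ X} f(m) log m = ∑_{n ≤ X} f(n) ∑_{d ≤ X/n} Λ(d) f(d) ≤ A z^δ X ∑_{n ≤ X} f(n)/n`.
(3) `log(X/m) ≤ X/m`, so `log X ∑_{m ≤ X} f(m) ≤ (A z^δ + 1) X ∑_{m ≤ X} f(m)/m`.
(4) `∑_{m ≤ X} f(m)/m ≤ ∏_{p ≤ X} (1 - f(p)/p)^(-1) ≤ exp(∑_{p ≤ X} f(p)/p + 3 ∑_p p^(-3/2))`, and
`∑_{p ≤ X} f(p)/p ≤ ∑_{p ≤ X} 1/p + ∑_{p ≤ z} (p^δ - 1)/p ≤ 8 + log(1 + log X) + δ z^δ · 10 log z`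
(`ran_recip`, `smo_mert`, `p^δ - 1 ≤ δ p^δ log p`).  The factor `1 + log X` cancels in (3). -/
def St_Ran5 : Prop := ∃ B : ℝ, 1 ≤ B ∧ ∀ (x z : ℕ) (δ : ℝ), 1 ≤ x → 2 ≤ z → 0 < δ → δ ≤ 1 / 4 →
  (((Ioc x (2 * x)).filter (fun m => ∀ d : ℕ, d ∣ m → Rough z d → d ^ 2 ≤ x)).card : ℝ) ≤
    x * (x : ℝ) ^ (-(δ / 2)) * Real.exp (B * (z : ℝ) ^ δ * (1 + δ * Real.log z))

open scoped Classical in
/-- COR5.

Proof.  As COR4 with RAN5 in place of RAN4: `z = ⌈L^C₁⌉`, `δ = log u / (2 C₁ log log n)`,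
`x^(-δ/2) = exp(-u log u/(4 C₁))`, `z^δ ≤ 2 √u`, `δ log z ≤ 1 + log u`, so the last factor is
`≤ exp(2 B √u (2 + log u))`, and `2 B √u (2 + log u) ≤ u log u/(8 C₁)` if `u ≥ C`. -/
def St_Cor5 : Prop := ∀ Φ : ℕ → ℕ → Prop, DensP Φ → BigP Φ → ∃ κ : ℝ, 0 < κ ∧ ∃ C n₀ : ℕ,
  ∀ n ≥ n₀, ∀ x : ℕ, 1 ≤ x → ∀ u : ℝ, u = Real.log x / Real.log (Real.log n) → C ≤ u →
  (((Ioc x (2 * x)).filter (fun m => 2 * m + 1 < n ∧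
    (SolP Φ m n = ∅ ∨ (12 * m ≤ n ∧ ((SolP Φ m n).card : ℝ) < n / Real.log n ^ 5)))).card : ℝ) ≤
    x * Real.exp (-(κ * (u * Real.log u)))

end Pool.Agent.EVN
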