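import Mathlib
import Pool.Agent.EVN.Stmts5
import Pool.Agent.EVN.Ran4
import Pool.Agent.EVN.Smo

set_option autoImplicit false

/-!
# EVN / Ran5

Numbers whose smooth part is large, without loss of logarithms.
-/

namespace Pool.Agent.EVN

open Finset
open ArithmeticFunction (vonMangoldt)

/-- the weight of a prime -/
noncomputable def r5w (z : ℕ) (δ : ℝ) (p : ℕ) : ℝ := if p ≤ z then (p : ℝ) ^ δ else 1

/-- the completely multiplicative function -/
noncomputable def r5f (z : ℕ) (δ : ℝ) (m : ℕ) : ℝ :=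
  if m = 0 then 0 else (m.primeFactorsList.map (r5w z δ)).prod

theorem r5f_mul (z : ℕ) (δ : ℝ) (a b : ℕ) : r5f z δ (a * b) = r5f z δ a * r5f z δ b := by
  rcases Nat.eq_zero_or_pos a with ha | ha
  · simp [r5f, ha]
  rcases Nat.eq_zero_or_pos b with hb | hb
  · simp [r5f, hb]
  unfold r5f
  rw [if_neg (Nat.mul_pos ha hb).ne', if_neg ha.ne', if_neg hb.ne',
    ((Nat.perm_primeFactorsList_mul ha.ne' hb.ne').map _).prod_eq, List.map_append,
    List.prod_append]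

theorem r5f_one (z : ℕ) (δ : ℝ) : r5f z δ 1 = 1 := by simp [r5f]

theorem r5f_zero (z : ℕ) (δ : ℝ) : r5f z δ 0 = 0 := by simp [r5f]

theorem r5f_prime (z : ℕ) (δ : ℝ) {p : ℕ} (hp : p.Prime) : r5f z δ p = r5w z δ p := by
  simp [r5f, hp.ne_zero, Nat.primeFactorsList_prime hp]

theorem r5w_ge {z : ℕ} {δ : ℝ} (h0 : 0 < δ) {p : ℕ} (hp : p.Prime) : 1 ≤ r5w z δ p := by
  unfold r5w
  split_ifs
  · exact Real.one_le_rpow (by exact_mod_cast hp.one_le) h0.le
  · exact le_rfl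

theorem r5w_le {z : ℕ} {δ : ℝ} (h0 : 0 < δ) {p : ℕ} (hp : p.Prime) :
    r5w z δ p ≤ (p : ℝ) ^ δ := by
  unfold r5w
  split_ifs
  · exact le_rfl
  · exact Real.one_le_rpow (by exact_mod_cast hp.one_le) h0.le

theorem r5w_lez {z : ℕ} {δ : ℝ} (hz : 2 ≤ z) (h0 : 0 < δ) (p : ℕ) :
    r5w z δ p ≤ (z : ℝ) ^ δ := by
  unfold r5w
  split_ifs with h
  · exact Real.rpow_le_rpow (by positivity) (by exact_mod_cast h) h0.le
  · exact Real.one_le_rpow (by exact_mod_cast (by omega : 1 ≤ z)) h0.le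

theorem r5f_ge {z : ℕ} {δ : ℝ} (h0 : 0 < δ) (m : ℕ) : m ≠ 0 → 1 ≤ r5f z δ m := by
  induction m using Nat.recOnMul with
  | zero => intro h; exact absurd rfl h
  | one => intro _; rw [r5f_one]
  | prime p hp => intro _; rw [r5f_prime z δ hp]; exact r5w_ge h0 hp
  | mul a b ha hb =>
    intro h
    rw [r5f_mul]
    have h1 : a ≠ 0 := by rintro rfl; simp at h
    have h2 : b ≠ 0 := by rintro rfl; simp at h
    have := ha h1
    have := hb h2
    nlinarith

theorem r5f_nonneg {z : ℕ} {δ : ℝ} (h0 : 0 < δ) (m : ℕ) : 0 ≤ r5f z δ m := by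
  rcases Nat.eq_zero_or_pos m with h | h
  · rw [h, r5f_zero]
  · have := r5f_ge (z := z) h0 m h.ne'
    linarith

theorem r5f_le {z : ℕ} {δ : ℝ} (h0 : 0 < δ) (m : ℕ) : r5f z δ m ≤ (m : ℝ) ^ δ := by
  induction m using Nat.recOnMul with
  | zero => rw [r5f_zero]; positivity
  | one => rw [r5f_one]; simp
  | prime p hp => rw [r5f_prime z δ hp]; exact r5w_le h0 hp
  | mul a b ha hb =>
    rw [r5f_mul]
    push_cast
    rw [Real.mul_rpow (Nat.cast_nonneg a) (Nat.cast_nonneg b)]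
    exact mul_le_mul ha hb (r5f_nonneg h0 b) (by positivity)

theorem r5f_smooth {z : ℕ} {δ : ℝ} (m : ℕ) :
    m ≠ 0 → (∀ p : ℕ, p.Prime → p ∣ m → p ≤ z) → r5f z δ m = (m : ℝ) ^ δ := by
  induction m using Nat.recOnMul with
  | zero => intro h; exact absurd rfl h
  | one => intro _ _; rw [r5f_one]; simp
  | prime p hp =>
    intro _ h
    rw [r5f_prime z δ hp, r5w, if_pos (h p hp dvd_rfl)]
  | mul a b ha hb =>
    intro h h'
    rw [r5f_mul]
    have h1 : a ≠ 0 := by rintro rfl; simp at h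
    have h2 : b ≠ 0 := by rintro rfl; simp at h
    push_cast
    rw [Real.mul_rpow (Nat.cast_nonneg a) (Nat.cast_nonneg b),
      ha h1 (fun p hp hd => h' p hp (hd.mul_right b)),
      hb h2 (fun p hp hd => h' p hp (hd.mul_left a))]

/-- (1) -/
theorem r5_lam {z : ℕ} {δ : ℝ} (hz : 2 ≤ z) (h0 : 0 < δ) (h1 : δ ≤ 1 / 4) (y : ℕ) :
    ∑ d ∈ Ioc 0 y, vonMangoldt d * r5f z δ d ≤ 14 * (z : ℝ) ^ δ * y := by
  rcases Nat.eq_zero_or_pos y with hy | hy
  · subst hy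
    simp
  have hy1 : (1 : ℝ) ≤ y := by exact_mod_cast hy
  have hy0 : (0 : ℝ) < y := by linarith
  have hz1 : 1 ≤ (z : ℝ) ^ δ := Real.one_le_rpow (by exact_mod_cast (by omega : 1 ≤ z)) h0.le
  have e1 : ∀ d ∈ Ioc 0 y, vonMangoldt d * r5f z δ d ≤
      (z : ℝ) ^ δ * vonMangoldt d + (y : ℝ) ^ (1 / 4 : ℝ) *
        (if ¬ d.Prime then vonMangoldt d else 0) := by
    intro d hd
    rw [mem_Ioc] at hd
    have hL : 0 ≤ vonMangoldt d := ArithmeticFunction.vonMangoldt_nonneg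
    by_cases hp : d.Prime
    · rw [if_neg (by simpa using hp), mul_zero, add_zero, r5f_prime z δ hp, mul_comm]
      exact mul_le_mul_of_nonneg_right (r5w_lez hz h0 d) hL
    · rw [if_pos hp]
      have e2 : r5f z δ d ≤ (y : ℝ) ^ (1 / 4 : ℝ) := by
        have hd1 : (1 : ℝ) ≤ d := by exact_mod_cast hd.1
        calc r5f z δ d ≤ (d : ℝ) ^ δ := r5f_le h0 d
          _ ≤ (d : ℝ) ^ (1 / 4 : ℝ) := Real.rpow_le_rpow_of_exponent_le hd1 h1
          _ ≤ (y : ℝ) ^ (1 / 4 : ℝ) :=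
            Real.rpow_le_rpow (by linarith) (by exact_mod_cast hd.2) (by norm_num)
      have e3 : 0 ≤ (z : ℝ) ^ δ * vonMangoldt d := by positivity
      have e4 := mul_le_mul_of_nonneg_left e2 hL
      linarith
  have e2 : ∑ d ∈ Ioc 0 y, vonMangoldt d = Chebyshev.psi y := by
    rw [Chebyshev.psi, Nat.floor_natCast]
  have e3 : ∑ d ∈ Ioc 0 y, (if ¬ d.Prime then vonMangoldt d else 0) =
      Chebyshev.psi y - Chebyshev.theta y := by
    rw [Chebyshev.psi_sub_theta_eq_sum_not_prime, Nat.floor_natCast, sum_filter]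
  refine (sum_le_sum e1).trans ?_
  rw [sum_add_distrib, ← mul_sum, ← mul_sum, e2, e3]
  have e4 := Chebyshev.psi_le_const_mul_self hy0.le
  have e5 := Chebyshev.psi_sub_theta_le hy1
  have e6 : Real.log 4 + 4 ≤ 6 := by
    have : Real.log 4 = 2 * Real.log 2 := by
      rw [show (4 : ℝ) = 2 ^ 2 by norm_num, Real.log_pow]
      norm_num
    have := Real.log_two_lt_d9
    linarith
  have e7 : Chebyshev.psi y ≤ 6 * y := e4.trans (mul_le_mul_of_nonneg_right e6 hy0.le)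
  have e8 : Real.log y ≤ 4 * (y : ℝ) ^ (1 / 4 : ℝ) := by
    have := Real.log_le_rpow_div hy0.le (show (0 : ℝ) < 1 / 4 by norm_num)
    linarith
  have e9 : (y : ℝ) ^ (1 / 4 : ℝ) * (Chebyshev.psi y - Chebyshev.theta y) ≤ 8 * y := by
    calc (y : ℝ) ^ (1 / 4 : ℝ) * (Chebyshev.psi y - Chebyshev.theta y)
        ≤ (y : ℝ) ^ (1 / 4 : ℝ) * (2 * Real.sqrt y * (4 * (y : ℝ) ^ (1 / 4 : ℝ))) := by
          refine mul_le_mul_of_nonneg_left (e5.trans ?_) (by positivity)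
          exact mul_le_mul_of_nonneg_left e8 (by positivity)
      _ = 8 * ((y : ℝ) ^ (1 / 4 : ℝ) * (y : ℝ) ^ (1 / 2 : ℝ) * (y : ℝ) ^ (1 / 4 : ℝ)) := by
          rw [Real.sqrt_eq_rpow]
          ring
      _ = 8 * y := by
          rw [← Real.rpow_add hy0, ← Real.rpow_add hy0]
          norm_num
  have e10 : (z : ℝ) ^ δ * Chebyshev.psi y ≤ (z : ℝ) ^ δ * (6 * y) :=
    mul_le_mul_of_nonneg_left e7 (by linarith)
  have e11 : (8 : ℝ) * y ≤ 8 * ((z : ℝ) ^ δ * y) := by nlinarith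
  nlinarith

/-- (2) -/
theorem r5_log {z : ℕ} {δ : ℝ} (hz : 2 ≤ z) (h0 : 0 < δ) (h1 : δ ≤ 1 / 4) (X : ℕ) :
    ∑ m ∈ Ioc 0 X, r5f z δ m * Real.log m ≤
      14 * (z : ℝ) ^ δ * X * ∑ m ∈ Ioc 0 X, r5f z δ m / m := by
  let F : ArithmeticFunction ℝ := ⟨r5f z δ, r5f_zero z δ⟩
  let G : ArithmeticFunction ℝ := ⟨fun d => vonMangoldt d * r5f z δ d, by simp⟩
  have hF : ∀ a, F a = r5f z δ a := fun a => rfl
  have hG : ∀ a, G a = vonMangoldt a * r5f z δ a := fun a => rfl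
  have e1 : ∀ m, (F * G) m = r5f z δ m * Real.log m := by
    intro m
    rw [ArithmeticFunction.mul_apply]
    have e2 : ∀ x ∈ m.divisorsAntidiagonal, F x.1 * G x.2 = r5f z δ m * vonMangoldt x.2 := by
      intro x hx
      rw [Nat.mem_divisorsAntidiagonal] at hx
      rw [hF, hG, ← hx.1, r5f_mul]
      ring
    rw [sum_congr rfl e2, ← mul_sum,
      Nat.sum_divisorsAntidiagonal' (f := fun _ b => (vonMangoldt b : ℝ)),
      ArithmeticFunction.vonMangoldt_sum]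
  have e2 := ArithmeticFunction.sum_Ioc_mul_eq_sum_sum F G X
  rw [sum_congr rfl fun m _ => e1 m] at e2
  rw [e2, mul_sum]
  refine sum_le_sum fun m hm => ?_
  rw [mem_Ioc] at hm
  have hm0 : (0 : ℝ) < m := by exact_mod_cast hm.1
  have e3 : ∑ d ∈ Ioc 0 (X / m), G d ≤ 14 * (z : ℝ) ^ δ * (X / m : ℕ) := r5_lam hz h0 h1 (X / m)
  have e4 : ((X / m : ℕ) : ℝ) ≤ X / m := Nat.cast_div_le
  have e5 := r5f_nonneg (z := z) h0 m
  rw [hF]
  calc r5f z δ m * ∑ d ∈ Ioc 0 (X / m), G d ≤ r5f z δ m * (14 * (z : ℝ) ^ δ * (X / m)) := by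
        refine mul_le_mul_of_nonneg_left (e3.trans ?_) e5
        exact mul_le_mul_of_nonneg_left e4 (by positivity)
    _ = 14 * (z : ℝ) ^ δ * X * (r5f z δ m / m) := by ring

/-- (3) -/
theorem r5_sum {z : ℕ} {δ : ℝ} (hz : 2 ≤ z) (h0 : 0 < δ) (h1 : δ ≤ 1 / 4) (X : ℕ) :
    Real.log X * ∑ m ∈ Ioc 0 X, r5f z δ m ≤
      15 * (z : ℝ) ^ δ * X * ∑ m ∈ Ioc 0 X, r5f z δ m / m := by
  have e1 := r5_log hz h0 h1 X
  have hz1 : 1 ≤ (z : ℝ) ^ δ := Real.one_le_rpow (by exact_mod_cast (by omega : 1 ≤ z)) h0.le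
  have e2 : Real.log X * ∑ m ∈ Ioc 0 X, r5f z δ m ≤
      ∑ m ∈ Ioc 0 X, r5f z δ m * Real.log m + X * ∑ m ∈ Ioc 0 X, r5f z δ m / m := by
    rw [mul_sum, mul_sum, ← sum_add_distrib]
    refine sum_le_sum fun m hm => ?_
    rw [mem_Ioc] at hm
    have hm0 : (0 : ℝ) < m := by exact_mod_cast hm.1
    have hX0 : (0 : ℝ) < X := by exact_mod_cast (by omega : 0 < X)
    have e3 : Real.log X = Real.log m + Real.log (X / m) := by
      rw [Real.log_div hX0.ne' hm0.ne']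
      ring
    have e4 : Real.log (X / m) ≤ X / m := by
      have := Real.log_le_sub_one_of_pos (show (0 : ℝ) < X / m by positivity)
      linarith
    have e5 := r5f_nonneg (z := z) h0 m
    rw [e3]
    have e6 := mul_le_mul_of_nonneg_left e4 e5
    have e7 : (X : ℝ) * (r5f z δ m / m) = r5f z δ m * (X / m) := by ring
    rw [e7]
    linarith
  have e3 : 0 ≤ ∑ m ∈ Ioc 0 X, r5f z δ m / m :=
    sum_nonneg fun m _ => div_nonneg (r5f_nonneg h0 m) (Nat.cast_nonneg m)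
  have e4 : (X : ℝ) * ∑ m ∈ Ioc 0 X, r5f z δ m / m ≤
      (z : ℝ) ^ δ * X * ∑ m ∈ Ioc 0 X, r5f z δ m / m := by
    have e5 : (0 : ℝ) ≤ X * ∑ m ∈ Ioc 0 X, r5f z δ m / m := by positivity
    nlinarith
  linarith

/-- `f(m)/m` -/
noncomputable def r5g (z : ℕ) (δ : ℝ) : ℕ →* ℝ where
  toFun m := r5f z δ m / m
  map_one' := by rw [r5f_one]; simp
  map_mul' a b := by
    rw [r5f_mul]
    push_cast
    rw [mul_div_mul_comm]

theorem r5_t {z : ℕ} {δ : ℝ} (h0 : 0 < δ) {p : ℕ} (hp : p.Prime) :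
    r5w z δ p / p ≤ (p : ℝ) ^ (-(1 - δ)) := by
  have hp0 : (0 : ℝ) < p := by exact_mod_cast hp.pos
  rw [show -(1 - δ) = δ + -1 by ring, Real.rpow_add hp0, Real.rpow_neg_one, ← div_eq_mul_inv]
  exact div_le_div_of_nonneg_right (r5w_le h0 hp) hp0.le

theorem r5_factor {t : ℝ} (h0 : 0 ≤ t) (h1 : t ≤ 0.6) :
    (1 - t)⁻¹ ≤ Real.exp (t + 3 * t ^ 2) := by
  have h2 : 0 < 1 - t := by linarith
  have h3 : (1 - t)⁻¹ ≤ (t + 3 * t ^ 2) + 1 := by
    rw [inv_le_iff_one_le_mul₀ h2]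
    nlinarith [mul_nonneg (sq_nonneg t) (show 0 ≤ 2 - 3 * t by linarith)]
  exact h3.trans (Real.add_one_le_exp _)

/-- (4), the Euler product -/
theorem r5_euler {z : ℕ} {δ : ℝ} (h0 : 0 < δ) (h1 : δ ≤ 1 / 4) (X : ℕ) :
    ∑ m ∈ Ioc 0 X, r5f z δ m / m ≤
      Real.exp (∑ p ∈ ran_P X, (r5w z δ p / p + 3 * (r5w z δ p / p) ^ 2)) := by
  have hE := EulerProduct.summable_and_hasSum_factoredNumbers_prod_filter_prime_geometric
    (f := r5g z δ) (by
      intro p hp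
      show ‖r5f z δ p / p‖ < 1
      rw [r5f_prime z δ hp, Real.norm_of_nonneg
        (div_nonneg (by linarith [r5w_ge (z := z) h0 hp]) (Nat.cast_nonneg p))]
      have := r5_t (z := z) h0 hp
      have := ran4_pow hp h1
      linarith)
    (range (X + 1))
  have hT : ∀ m ∈ Ioc 0 X, m ∈ Nat.factoredNumbers (range (X + 1)) := by
    intro m hm
    rw [mem_Ioc] at hm
    rw [Nat.mem_factoredNumbers']
    intro p hp hd
    have := Nat.le_of_dvd hm.1 hd
    rw [mem_range]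
    omega
  have h2 : ∑ m ∈ Ioc 0 X, r5f z δ m / m =
      ∑ m ∈ (Ioc 0 X).attach, (r5g z δ) ((⟨m.1, hT m.1 m.2⟩ :
        Nat.factoredNumbers (range (X + 1))) : ℕ) := by
    rw [← sum_attach]
    rfl
  have h3 : Function.Injective (fun m : {m // m ∈ Ioc 0 X} => (⟨m.1, hT m.1 m.2⟩ :
        Nat.factoredNumbers (range (X + 1)))) := by
    intro a b hab
    exact Subtype.ext (congrArg (fun z : Nat.factoredNumbers (range (X + 1)) => (z : ℕ)) hab)
  have h4 := sum_le_hasSum ((Ioc 0 X).attach.map ⟨_, h3⟩) (fun m _ => by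
    show (0 : ℝ) ≤ r5f z δ (m : ℕ) / (m : ℕ)
    exact div_nonneg (r5f_nonneg h0 _) (Nat.cast_nonneg _)) hE.2
  rw [sum_map] at h4
  rw [h2]
  refine h4.trans ?_
  rw [Real.exp_sum]
  refine prod_le_prod ?_ ?_
  · intro p hp
    have hp' := (mem_filter.1 hp).2
    have e1 := r5_t (z := z) h0 hp'
    have e2 := ran4_pow hp' h1
    apply inv_nonneg.2
    show (0 : ℝ) ≤ 1 - r5f z δ p / p
    rw [r5f_prime z δ hp']
    linarith
  · intro p hp
    have hp' := (mem_filter.1 hp).2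
    have e1 := r5_t (z := z) h0 hp'
    have e2 := ran4_pow hp' h1
    have e3 : (r5g z δ) p = r5w z δ p / p := by
      show r5f z δ p / p = r5w z δ p / p
      rw [r5f_prime z δ hp']
    rw [e3]
    exact r5_factor (div_nonneg (by linarith [r5w_ge (z := z) h0 hp']) (Nat.cast_nonneg p))
      (e1.trans e2)

/-- (4), the sum over primes -/
theorem r5_primes {z : ℕ} {δ : ℝ} (hz : 2 ≤ z) (h0 : 0 < δ) {X : ℕ} (hX : 2 ≤ X) :
    ∑ p ∈ ran_P X, r5w z δ p / p ≤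
      8 + Real.log (1 + Real.log X) + 10 * δ * (z : ℝ) ^ δ * Real.log z := by
  have e1 : ∀ p ∈ ran_P X, r5w z δ p / p ≤
      1 / (p : ℝ) + (if p ≤ z then δ * (z : ℝ) ^ δ * (Real.log p / p) else 0) := by
    intro p hp
    rw [ran_mem] at hp
    have hp0 : (0 : ℝ) < p := by exact_mod_cast hp.2.pos
    have hp1 : (1 : ℝ) ≤ p := by exact_mod_cast hp.2.one_le
    unfold r5w
    split_ifs with h
    · have e2 : (p : ℝ) ^ δ ≤ 1 + δ * (z : ℝ) ^ δ * Real.log p := by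
        have e3 : (p : ℝ) ^ δ = Real.exp (Real.log p * δ) := Real.rpow_def_of_pos hp0 δ
        have e4 : (p : ℝ) ^ δ ≤ (z : ℝ) ^ δ :=
          Real.rpow_le_rpow hp0.le (by exact_mod_cast h) h0.le
        have e5 : 0 ≤ Real.log p := Real.log_nonneg hp1
        have e6 := Real.add_one_le_exp (-(Real.log p * δ))
        have e7 : Real.exp (Real.log p * δ) * Real.exp (-(Real.log p * δ)) = 1 := by
          rw [← Real.exp_add, add_neg_cancel, Real.exp_zero]
        have e8 : (p : ℝ) ^ δ * (-(Real.log p * δ) + 1) ≤ 1 := by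
          rw [e3]
          exact (mul_le_mul_of_nonneg_left e6 (Real.exp_pos _).le).trans e7.le
        have e9 : (p : ℝ) ^ δ * (Real.log p * δ) ≤ (z : ℝ) ^ δ * (Real.log p * δ) :=
          mul_le_mul_of_nonneg_right e4 (by positivity)
        nlinarith
      calc (p : ℝ) ^ δ / p ≤ (1 + δ * (z : ℝ) ^ δ * Real.log p) / p :=
            div_le_div_of_nonneg_right e2 hp0.le
        _ = 1 / (p : ℝ) + δ * (z : ℝ) ^ δ * (Real.log p / p) := by ring
    · rw [add_zero]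
  refine (sum_le_sum e1).trans ?_
  rw [sum_add_distrib]
  have e2 := ran_recip X hX
  have e3 : ∑ p ∈ ran_P X, (if p ≤ z then δ * (z : ℝ) ^ δ * (Real.log p / p) else 0) ≤
      ∑ p ∈ smo_P z, δ * (z : ℝ) ^ δ * (Real.log p / p) := by
    rw [← sum_filter]
    refine sum_le_sum_of_subset_of_nonneg ?_ ?_
    · intro p hp
      rw [mem_filter, ran_mem] at hp
      unfold smo_P
      rw [mem_filter, mem_Icc]
      exact ⟨⟨hp.1.2.one_le, hp.2⟩, hp.1.2⟩
    · intro p _ _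
      have : 0 ≤ Real.log p := Real.log_natCast_nonneg p
      positivity
  rw [← mul_sum] at e3
  have e4 := mul_le_mul_of_nonneg_left (smo_mert z hz)
    (show 0 ≤ δ * (z : ℝ) ^ δ by positivity)
  linarith

open scoped Classical in
theorem thm_Ran5 : St_Ran5 := by
  have hsum : Summable (fun n : ℕ => 1 / (n : ℝ) ^ (3 / 2 : ℝ)) :=
    Real.summable_one_div_nat_rpow.2 (by norm_num)
  obtain ⟨Z, hZ⟩ : ∃ Z : ℝ, Z = ∑' n : ℕ, 1 / (n : ℝ) ^ (3 / 2 : ℝ) := ⟨_, rfl⟩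
  have hZ0 : 0 ≤ Z := hZ ▸ tsum_nonneg fun n => by positivity
  refine ⟨14 + 3 * Z, by linarith, fun x z δ hx hz h0 h1 => ?_⟩
  have hx0 : (0 : ℝ) < x := by exact_mod_cast hx
  have hz0 : (0 : ℝ) < z := by exact_mod_cast (by omega : 0 < z)
  have hz1 : 1 ≤ (z : ℝ) ^ δ := Real.one_le_rpow (by exact_mod_cast (by omega : 1 ≤ z)) h0.le
  have hlz : 0 ≤ Real.log z := Real.log_nonneg (by exact_mod_cast (by omega : 1 ≤ z))
  set A : Finset ℕ := (Ioc x (2 * x)).filter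
    (fun m => ∀ d : ℕ, d ∣ m → Rough z d → d ^ 2 ≤ x) with hA
  -- every `m` in `A` has a large weight
  have hw : ∀ m ∈ A, (x : ℝ) ^ (δ / 2) ≤ r5f z δ m := by
    intro m hm
    rw [hA, mem_filter, mem_Ioc] at hm
    obtain ⟨s, d, hsd, hs, hd⟩ := ran4_split z m (by omega)
    have h2 := hm.2 d ⟨s, by rw [← hsd]; ring⟩ hd
    have hs0 : s ≠ 0 := by
      rintro rfl
      rw [zero_mul] at hsd
      omega
    have hd0 : d ≠ 0 := by
      rintro rfl
      rw [mul_zero] at hsd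
      omega
    have hs3 : x < s ^ 2 := by
      by_contra hc
      push Not at hc
      have h3 : x < s * d := by rw [hsd]; exact hm.1.1
      have h4 : (s * d) ^ 2 ≤ x ^ 2 := by
        rw [mul_pow, pow_two x]
        exact Nat.mul_le_mul hc h2
      have h5 : x ^ 2 < (s * d) ^ 2 := Nat.pow_lt_pow_left h3 (by norm_num)
      omega
    rw [Nat.mem_factoredNumbers'] at hs
    have e1 : r5f z δ s = (s : ℝ) ^ δ := r5f_smooth s hs0 (fun p hp hpd => by
      have := mem_range.1 (hs p hp hpd)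
      omega)
    have e2 := r5f_ge (z := z) h0 d hd0
    have hs0' : (0 : ℝ) ≤ s := Nat.cast_nonneg s
    have d1 : (s : ℝ) ^ δ = ((s : ℝ) ^ 2) ^ (δ / 2) := by
      rw [← Real.rpow_natCast, ← Real.rpow_mul hs0']
      congr 1
      push_cast
      ring
    have d2 : (x : ℝ) ^ (δ / 2) ≤ ((s : ℝ) ^ 2) ^ (δ / 2) :=
      Real.rpow_le_rpow hx0.le (by exact_mod_cast hs3.le) (by linarith)
    rw [← hsd, r5f_mul, e1, d1]
    have d3 : 0 ≤ ((s : ℝ) ^ 2) ^ (δ / 2) := by positivity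
    nlinarith
  have h2 : (A.card : ℝ) * (x : ℝ) ^ (δ / 2) ≤ ∑ m ∈ Ioc 0 (2 * x), r5f z δ m := by
    calc (A.card : ℝ) * (x : ℝ) ^ (δ / 2) = ∑ _m ∈ A, (x : ℝ) ^ (δ / 2) := by
          rw [sum_const, nsmul_eq_mul]
      _ ≤ ∑ m ∈ A, r5f z δ m := sum_le_sum hw
      _ ≤ ∑ m ∈ Ioc 0 (2 * x), r5f z δ m := by
          refine sum_le_sum_of_subset_of_nonneg ?_ (fun m _ _ => r5f_nonneg h0 m)
          intro m hm
          rw [hA, mem_filter, mem_Ioc] at hm
          rw [mem_Ioc]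
          omega
  -- the sum of the weights
  obtain ⟨X, hX⟩ : ∃ X : ℕ, X = 2 * x := ⟨_, rfl⟩
  have hX2 : 2 ≤ X := by omega
  have hXr : (X : ℝ) = 2 * x := by rw [hX]; push_cast; ring
  have hlX : 0.69 ≤ Real.log X := by
    have e1 := Real.log_two_gt_d9
    have e2 : Real.log 2 ≤ Real.log X := Real.log_le_log (by norm_num) (by exact_mod_cast hX2)
    linarith
  have h3 := r5_sum hz h0 h1 X
  have h4 := r5_euler (z := z) h0 h1 X
  have h5 := r5_primes hz h0 hX2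
  have h6 : ∑ p ∈ ran_P X, (r5w z δ p / p) ^ 2 ≤ Z := by
    rw [hZ]
    calc ∑ p ∈ ran_P X, (r5w z δ p / p) ^ 2 ≤ ∑ p ∈ ran_P X, 1 / (p : ℝ) ^ (3 / 2 : ℝ) := by
          refine sum_le_sum fun p hp => ?_
          rw [ran_mem] at hp
          have hp0 : (0 : ℝ) < p := by exact_mod_cast hp.2.pos
          have hp1 : (1 : ℝ) ≤ p := by exact_mod_cast hp.2.one_le
          have e1 : r5w z δ p / p ≤ (p : ℝ) ^ (-(3 / 4) : ℝ) :=
            (r5_t h0 hp.2).trans (Real.rpow_le_rpow_of_exponent_le hp1 (by linarith))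
          have e2 : 0 ≤ r5w z δ p / p :=
            div_nonneg (by linarith [r5w_ge (z := z) h0 hp.2]) hp0.le
          calc (r5w z δ p / p) ^ 2 ≤ ((p : ℝ) ^ (-(3 / 4) : ℝ)) ^ 2 :=
                pow_le_pow_left₀ e2 e1 2
            _ = 1 / (p : ℝ) ^ (3 / 2 : ℝ) := by
                rw [← Real.rpow_natCast, ← Real.rpow_mul hp0.le, one_div, ← Real.rpow_neg hp0.le]
                norm_num
      _ ≤ _ := hsum.sum_le_tsum _ fun n _ => by positivity
  rw [sum_add_distrib, ← mul_sum] at h4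
  have h7 : ∑ m ∈ Ioc 0 X, r5f z δ m / m ≤ (1 + Real.log X) *
      Real.exp (8 + 3 * Z + 10 * δ * (z : ℝ) ^ δ * Real.log z) := by
    refine h4.trans ?_
    calc Real.exp (∑ p ∈ ran_P X, r5w z δ p / p + 3 * ∑ p ∈ ran_P X, (r5w z δ p / p) ^ 2)
        ≤ Real.exp (Real.log (1 + Real.log X) +
          (8 + 3 * Z + 10 * δ * (z : ℝ) ^ δ * Real.log z)) := Real.exp_le_exp.2 (by linarith)
      _ = _ := by
          rw [Real.exp_add, Real.exp_log (by linarith)]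
  obtain ⟨E, hE⟩ : ∃ E : ℝ, E = Real.exp (8 + 3 * Z + 10 * δ * (z : ℝ) ^ δ * Real.log z) := ⟨_, rfl⟩
  rw [← hE] at h7
  have hE0 : 0 < E := hE ▸ Real.exp_pos _
  obtain ⟨S, hS⟩ : ∃ S : ℝ, S = ∑ m ∈ Ioc 0 X, r5f z δ m := ⟨_, rfl⟩
  rw [← hX, ← hS] at h2
  rw [← hS] at h3
  have h8 : S ≤ 45 * (z : ℝ) ^ δ * X * E := by
    have e1 : Real.log X * S ≤ 15 * (z : ℝ) ^ δ * X * ((1 + Real.log X) * E) :=
      h3.trans (mul_le_mul_of_nonneg_left h7 (by positivity))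
    have e2 : 1 + Real.log X ≤ 3 * Real.log X := by linarith
    have e3 : 15 * (z : ℝ) ^ δ * X * ((1 + Real.log X) * E) ≤
        15 * (z : ℝ) ^ δ * X * (3 * Real.log X * E) :=
      mul_le_mul_of_nonneg_left (mul_le_mul_of_nonneg_right e2 hE0.le) (by positivity)
    have e4 : Real.log X * S ≤ Real.log X * (45 * (z : ℝ) ^ δ * X * E) := by
      refine (e1.trans e3).trans (le_of_eq ?_)
      ring
    exact le_of_mul_le_mul_left e4 (by linarith)
  have h9 : 90 * (z : ℝ) ^ δ * E ≤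
      Real.exp ((14 + 3 * Z) * (z : ℝ) ^ δ * (1 + δ * Real.log z)) := by
    have e1 : (90 : ℝ) ≤ Real.exp 5 := by
      have e2 := Real.exp_one_gt_d9
      have e3 : Real.exp 5 = Real.exp 1 ^ 5 := by
        rw [← Real.exp_nat_mul]
        norm_num
      rw [e3]
      calc (90 : ℝ) ≤ 2.7 ^ 5 := by norm_num
        _ ≤ Real.exp 1 ^ 5 := pow_le_pow_left₀ (by norm_num) (by linarith) 5
    have e2 : (z : ℝ) ^ δ ≤ Real.exp ((z : ℝ) ^ δ) := by
      have := Real.add_one_le_exp ((z : ℝ) ^ δ)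
      linarith
    calc 90 * (z : ℝ) ^ δ * E ≤ Real.exp 5 * Real.exp ((z : ℝ) ^ δ) * E := by
          refine mul_le_mul_of_nonneg_right ?_ hE0.le
          exact mul_le_mul e1 e2 (by linarith) (Real.exp_pos _).le
      _ = Real.exp (5 + (z : ℝ) ^ δ + (8 + 3 * Z + 10 * δ * (z : ℝ) ^ δ * Real.log z)) := by
          rw [hE, ← Real.exp_add, ← Real.exp_add]
      _ ≤ _ := by
          apply Real.exp_le_exp.2
          have e5 : 0 ≤ δ * Real.log z := by positivity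
          have e6 : (13 + 3 * Z) * 1 ≤ (13 + 3 * Z) * (z : ℝ) ^ δ :=
            mul_le_mul_of_nonneg_left hz1 (by linarith)
          have e7 : 10 * (δ * Real.log z * (z : ℝ) ^ δ) ≤
              (14 + 3 * Z) * (δ * Real.log z * (z : ℝ) ^ δ) :=
            mul_le_mul_of_nonneg_right (by linarith) (by positivity)
          linarith
  have h10 : (A.card : ℝ) * (x : ℝ) ^ (δ / 2) ≤
      x * Real.exp ((14 + 3 * Z) * (z : ℝ) ^ δ * (1 + δ * Real.log z)) := by
    calc (A.card : ℝ) * (x : ℝ) ^ (δ / 2) ≤ 45 * (z : ℝ) ^ δ * X * E := h2.trans h8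
      _ = x * (90 * (z : ℝ) ^ δ * E) := by rw [hXr]; ring
      _ ≤ _ := mul_le_mul_of_nonneg_left h9 hx0.le
  have hxd : 0 < (x : ℝ) ^ (δ / 2) := Real.rpow_pos_of_pos hx0 _
  rw [Real.rpow_neg hx0.le, ← div_eq_mul_inv, div_mul_eq_mul_div, le_div_iff₀ hxd]
  exact h10

end Pool.Agent.EVN
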