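import Mathlib
import Pool.Agent.EVN.Asm4
import Pool.Agent.EVN.Ran5
import Pool.Agent.EVN.Cor5

set_option autoImplicit false

/-! Assembly of the fifth form of the theorem on every `n` and almost all `m` (all `x ≥ (log n)^C`). -/

namespace Pool.Agent.EVN

open Pool.Agent Finset

theorem cor5 : St_Cor5 := thm_Cor5 fin4 thm_Ran5

open scoped Classical in
/-- the final form, with `u = log x / log log n` -/
theorem final5 : ∃ κ : ℝ, 0 < κ ∧ ∃ C n₀ : ℕ, ∀ n ≥ n₀, ∀ x : ℕ, 1 ≤ x → ∀ u : ℝ,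
    u = Real.log x / Real.log (Real.log n) → C ≤ u →
    (((Ioc x (2 * x)).filter (fun m => 2 * m + 1 < n ∧
      (SolP Phi m n = ∅ ∨ (12 * m ≤ n ∧ ((SolP Phi m n).card : ℝ) < n / Real.log n ^ 5)))).card
        : ℝ) ≤ x * Real.exp (-(κ * (u * Real.log u))) :=
  cor5 Phi densP bigP

end Pool.Agent.EVN
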