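import Mathlib
import Pool.Agent.EVN.Asm2
import Pool.Agent.EVN.Asm3

/-!
# MP_4011c3_nt, Q1 and Q2: every large `n`, the set of bad `m`

Call `m` bad for `n` if `1 ≤ m`, `2 m + 1 < n` and there is no prime `p < n`, or, if `12 m ≤ n`, there
are fewer than `n / (log n) ^ 5` of them, such that `q = ⌊(n - p) / m⌋` is prime, `q ^ 2 - 2` has at
most five prime factors and `p_q - q + 1` has at most `8 log log n` prime factors.

There are `κ > 0` and `C` such that for all `ε > 0` and all `n ≥ n₀(ε)`: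

(i) every bad `m` is smaller than `n ^ (1 / 4 + ε)`;

(ii) for all `x ≥ 1` and `z ≥ (log n) ^ C` at most `x z ^ (-κ)` of the bad `m ∈ (x, 2x]` have a prime
factor `> z`;

(iii) if `log x ≥ C (log log n) ^ 2`, there are at most `x exp(-κ √(log x))` bad `m ∈ (x, 2x]`.
-/

set_option autoImplicit false

namespace Pool.Agent.EVN.Plus

open Finset

open scoped Classical in
/-- The primes `p < n` such that `q = ⌊(n - p) / m⌋` is prime, `q ^ 2 - 2` has at most five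
prime factors and `p_q - q + 1` has at most `8 log log n` prime factors, all counted with
multiplicity (`p_q` is `Nat.nth Nat.Prime (q - 1)`). -/
noncomputable def Sol (m n : ℕ) : Finset ℕ :=
  (range n).filter (fun p => p.Prime ∧ ((n - p) / m).Prime ∧
    ArithmeticFunction.cardFactors (((n - p) / m) ^ 2 - 2) ≤ 5 ∧
    (ArithmeticFunction.cardFactors
      (Nat.nth Nat.Prime ((n - p) / m - 1) - (n - p) / m + 1) : ℝ) ≤ 8 * Real.log (Real.log n))

open scoped Classical in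
/-- The bad `m` for `n`: `1 ≤ m`, `2 m + 1 < n` and `Sol m n` is empty or (if `12 m ≤ n`) has fewer
than `n / (log n) ^ 5` elements. -/
noncomputable def Bad (n : ℕ) : Finset ℕ :=
  (Icc 1 n).filter (fun m => 2 * m + 1 < n ∧
    (Sol m n = ∅ ∨ (12 * m ≤ n ∧ ((Sol m n).card : ℝ) < n / Real.log n ^ 5)))

private theorem sol_eq (m n : ℕ) : Sol m n = Pool.Agent.EVN.SolP Pool.Agent.EVN.Phi m n := by
  classical
  ext p
  rw [Sol, Pool.Agent.EVN.SolP, mem_filter, mem_filter, Pool.Agent.EVN.Phi,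
    Nat.IsAtMostAlmostPrime]
  constructor
  · rintro ⟨h1, h2, h3, h4, h5⟩
    refine ⟨h1, h2, h3, ⟨?_, h4⟩, h5⟩
    have h5 := h3.two_le
    have h6 : 2 ^ 2 ≤ ((n - p) / m) ^ 2 := Nat.pow_le_pow_left h5 2
    omega
  · rintro ⟨h1, h2, h3, ⟨_, h4⟩, h5⟩
    exact ⟨h1, h2, h3, h4, h5⟩

open scoped Classical in
/-- For every large `n` all `m ≥ n ^ (1 / 4 + ε)` are good, and almost all smaller `m`. -/
theorem result : ∃ κ : ℝ, 0 < κ ∧ ∃ C : ℕ, ∀ ε : ℝ, 0 < ε → ∃ n₀ : ℕ, ∀ n ≥ n₀,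
    (∀ m ∈ Bad n, (m : ℝ) < (n : ℝ) ^ (1 / 4 + ε)) ∧
    ∀ x : ℕ, 1 ≤ x →
      (∀ z : ℝ, Real.log n ^ C ≤ z →
        (((Bad n ∩ Ioc x (2 * x)).filter
          (fun m => ∃ r : ℕ, r.Prime ∧ r ∣ m ∧ z < (r : ℝ))).card : ℝ) ≤ x * z ^ (-κ)) ∧
      (C * Real.log (Real.log n) ^ 2 ≤ Real.log x →
        ((Bad n ∩ Ioc x (2 * x)).card : ℝ) ≤ x * Real.exp (-(κ * Real.sqrt (Real.log x)))) := by
  obtain ⟨κ, hκ, C, n₁, h⟩ := Pool.Agent.EVN.final3
  refine ⟨κ, hκ, C, fun ε hε => ?_⟩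
  obtain ⟨n₂, h'⟩ := Pool.Agent.EVN.t4phi ε hε
  refine ⟨max n₁ n₂, fun n hn => ⟨fun m hm => ?_, fun x hx => ?_⟩⟩
  · by_contra hcon
    rw [not_lt] at hcon
    obtain ⟨hm1, hmn, hm2⟩ := mem_filter.mp hm
    obtain ⟨h1, h2⟩ := h' n m (le_trans (le_max_right _ _) hn) hcon hmn
    rw [sol_eq] at hm2
    rcases hm2 with hm2 | ⟨h12, hlt⟩
    · rw [hm2] at h1
      exact not_nonempty_empty h1
    · exact absurd hlt (not_lt.mpr (h2 h12))
  · obtain ⟨h1, h2⟩ := h n (le_trans (le_max_left _ _) hn) x hx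
    have hmem : ∀ m ∈ Bad n ∩ Ioc x (2 * x), m ∈ Ioc x (2 * x) ∧ 2 * m + 1 < n ∧
        (Pool.Agent.EVN.SolP Pool.Agent.EVN.Phi m n = ∅ ∨
          (12 * m ≤ n ∧ ((Pool.Agent.EVN.SolP Pool.Agent.EVN.Phi m n).card : ℝ) <
            n / Real.log n ^ 5)) := by
      intro m hm
      obtain ⟨ha, hb⟩ := mem_inter.mp hm
      obtain ⟨_, hc, hd⟩ := mem_filter.mp ha
      rw [sol_eq] at hd
      exact ⟨hb, hc, hd⟩
    refine ⟨fun z hz => ?_, fun hC => ?_⟩
    · refine le_trans ?_ (h1 z hz)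
      have hsub : (Bad n ∩ Ioc x (2 * x)).filter
            (fun m => ∃ r : ℕ, r.Prime ∧ r ∣ m ∧ z < (r : ℝ)) ⊆
          (Ioc x (2 * x)).filter (fun m => 2 * m + 1 < n ∧ (∃ p ∈ m.primeFactors, z < (p : ℝ)) ∧
            (Pool.Agent.EVN.SolP Pool.Agent.EVN.Phi m n = ∅ ∨
              (12 * m ≤ n ∧ ((Pool.Agent.EVN.SolP Pool.Agent.EVN.Phi m n).card : ℝ) <
                n / Real.log n ^ 5))) := by
        intro m hm
        obtain ⟨hm1, r, hr, hrm, hr2⟩ := mem_filter.mp hm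
        obtain ⟨g1, g2, g3⟩ := hmem m hm1
        have hm0 : m ≠ 0 := by
          have := (mem_Ioc.mp g1).1
          omega
        exact mem_filter.mpr ⟨g1, g2, ⟨r, Nat.mem_primeFactors.mpr ⟨hr, hrm, hm0⟩, hr2⟩, g3⟩
      exact_mod_cast card_le_card hsub
    · refine le_trans ?_ (h2 hC)
      have hsub : Bad n ∩ Ioc x (2 * x) ⊆ (Ioc x (2 * x)).filter (fun m => 2 * m + 1 < n ∧
            (Pool.Agent.EVN.SolP Pool.Agent.EVN.Phi m n = ∅ ∨
              (12 * m ≤ n ∧ ((Pool.Agent.EVN.SolP Pool.Agent.EVN.Phi m n).card : ℝ) <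
                n / Real.log n ^ 5))) := by
        intro m hm
        exact mem_filter.mpr (hmem m hm)
      exact_mod_cast card_le_card hsub

end Pool.Agent.EVN.Plus
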