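import Mathlib

set_option autoImplicit false

/-!
# EVN / Ran5A

The average of the completely multiplicative function `f` with `f(p) = p^δ` for `p ≤ z`, `f(p) = 1`
for the other primes: steps (1) - (3) of RAN5.
-/

namespace Pool.Agent.EVN

open Finset ArithmeticFunction

/-- the value at a prime -/
noncomputable def ran5_g (z : ℕ) (δ : ℝ) (p : ℕ) : ℝ := if p ≤ z then (p : ℝ) ^ δ else 1

/-- the completely multiplicative function -/
noncomputable def ran5_f (z : ℕ) (δ : ℝ) (n : ℕ) : ℝ := (n.primeFactorsList.map (ran5_g z δ)).prod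

theorem ran5_f_one (z : ℕ) (δ : ℝ) : ran5_f z δ 1 = 1 := by
  unfold ran5_f
  simp

theorem ran5_f_mul (z : ℕ) (δ : ℝ) {a b : ℕ} (ha : a ≠ 0) (hb : b ≠ 0) :
    ran5_f z δ (a * b) = ran5_f z δ a * ran5_f z δ b := by
  unfold ran5_f
  rw [((Nat.perm_primeFactorsList_mul ha hb).map _).prod_eq, List.map_append, List.prod_append]

theorem ran5_f_prime (z : ℕ) (δ : ℝ) {p : ℕ} (hp : p.Prime) : ran5_f z δ p = ran5_g z δ p := by
  unfold ran5_f
  rw [Nat.primeFactorsList_prime hp]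
  simp

theorem ran5_g_one_le (z : ℕ) {δ : ℝ} (h0 : 0 < δ) {p : ℕ} (hp : 1 ≤ p) : 1 ≤ ran5_g z δ p := by
  unfold ran5_g
  split_ifs
  · exact Real.one_le_rpow (by exact_mod_cast hp) h0.le
  · exact le_refl _

theorem ran5_g_le (z : ℕ) {δ : ℝ} (h0 : 0 < δ) {p : ℕ} (hp : 1 ≤ p) :
    ran5_g z δ p ≤ (p : ℝ) ^ δ := by
  unfold ran5_g
  split_ifs
  · exact le_refl _
  · exact Real.one_le_rpow (by exact_mod_cast hp) h0.le

theorem ran5_g_le' {z : ℕ} (hz : 1 ≤ z) {δ : ℝ} (h0 : 0 < δ) (p : ℕ) :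
    ran5_g z δ p ≤ (z : ℝ) ^ δ := by
  unfold ran5_g
  split_ifs with h
  · exact Real.rpow_le_rpow (Nat.cast_nonneg _) (by exact_mod_cast h) h0.le
  · exact Real.one_le_rpow (by exact_mod_cast hz) h0.le

theorem ran5_list (z : ℕ) {δ : ℝ} (h0 : 0 < δ) : ∀ L : List ℕ, (∀ p ∈ L, 1 ≤ p) →
    1 ≤ (L.map (ran5_g z δ)).prod ∧ (L.map (ran5_g z δ)).prod ≤ ((L.prod : ℕ) : ℝ) ^ δ := by
  intro L
  induction L with
  | nil =>
    intro _
    simp
  | cons p L ih =>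
    intro h
    obtain ⟨i1, i2⟩ := ih fun q hq => h q (List.mem_cons_of_mem _ hq)
    have hp : 1 ≤ p := h p List.mem_cons_self
    have j1 := ran5_g_one_le z h0 hp
    have j2 := ran5_g_le z h0 hp
    rw [List.map_cons, List.prod_cons, List.prod_cons]
    constructor
    · nlinarith
    · rw [Nat.cast_mul, Real.mul_rpow (Nat.cast_nonneg _) (Nat.cast_nonneg _)]
      exact mul_le_mul j2 i2 (by linarith) (by positivity)

theorem ran5_f_one_le (z : ℕ) {δ : ℝ} (h0 : 0 < δ) (n : ℕ) : 1 ≤ ran5_f z δ n :=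
  (ran5_list z h0 _ fun _ hp => (Nat.prime_of_mem_primeFactorsList hp).one_le).1

theorem ran5_f_le (z : ℕ) {δ : ℝ} (h0 : 0 < δ) {n : ℕ} (hn : n ≠ 0) :
    ran5_f z δ n ≤ (n : ℝ) ^ δ := by
  have h1 := (ran5_list z h0 n.primeFactorsList
    fun _ hp => (Nat.prime_of_mem_primeFactorsList hp).one_le).2
  rw [Nat.prod_primeFactorsList hn] at h1
  exact h1

/-- step (1) -/
theorem ran5_lam {z : ℕ} (hz : 1 ≤ z) {δ : ℝ} (h0 : 0 < δ) (h1 : δ ≤ 1 / 4) (y : ℕ) :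
    ∑ d ∈ Ioc 0 y, vonMangoldt d * ran5_f z δ d ≤ 14 * (z : ℝ) ^ δ * y := by
  rcases Nat.eq_zero_or_pos y with rfl | hy
  · simp
  have hy1 : (1 : ℝ) ≤ y := by exact_mod_cast hy
  have hy0 : (0 : ℝ) < y := by linarith
  have hzd : 1 ≤ (z : ℝ) ^ δ := Real.one_le_rpow (by exact_mod_cast hz) h0.le
  have h2 : ∀ d ∈ Ioc 0 y, vonMangoldt d * ran5_f z δ d ≤
      (z : ℝ) ^ δ * vonMangoldt d + (y : ℝ) ^ (1 / 4 : ℝ) *
        (vonMangoldt d - if d.Prime then Real.log d else 0) := by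
    intro d hd
    rw [mem_Ioc] at hd
    have hL : 0 ≤ vonMangoldt d := vonMangoldt_nonneg
    by_cases hp : d.Prime
    · rw [if_pos hp, vonMangoldt_apply_prime hp, ran5_f_prime z δ hp, sub_self, mul_zero,
        add_zero, mul_comm]
      exact mul_le_mul_of_nonneg_right (ran5_g_le' hz h0 d)
        (Real.log_nonneg (by exact_mod_cast hp.one_le))
    · rw [if_neg hp, sub_zero]
      have h3 : ran5_f z δ d ≤ (y : ℝ) ^ (1 / 4 : ℝ) := by
        refine (ran5_f_le z h0 (by omega)).trans ?_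
        have h4 : (1 : ℝ) ≤ d := by exact_mod_cast hd.1
        calc (d : ℝ) ^ δ ≤ (d : ℝ) ^ (1 / 4 : ℝ) := Real.rpow_le_rpow_of_exponent_le h4 h1
          _ ≤ (y : ℝ) ^ (1 / 4 : ℝ) :=
            Real.rpow_le_rpow (by linarith) (by exact_mod_cast hd.2) (by norm_num)
      have h4 : 0 ≤ (z : ℝ) ^ δ * vonMangoldt d := by positivity
      calc vonMangoldt d * ran5_f z δ d ≤ vonMangoldt d * (y : ℝ) ^ (1 / 4 : ℝ) :=
            mul_le_mul_of_nonneg_left h3 hL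
        _ ≤ _ := by linarith [mul_comm (vonMangoldt d) ((y : ℝ) ^ (1 / 4 : ℝ))]
  refine (sum_le_sum h2).trans ?_
  rw [sum_add_distrib, ← mul_sum, ← mul_sum, sum_sub_distrib, ← sum_filter]
  have hpsi : ∑ d ∈ Ioc 0 y, vonMangoldt d = Chebyshev.psi y := by
    unfold Chebyshev.psi
    rw [Nat.floor_natCast]
  have htheta : ∑ d ∈ (Ioc 0 y).filter Nat.Prime, Real.log d = Chebyshev.theta y := by
    unfold Chebyshev.theta
    rw [Nat.floor_natCast]
  rw [hpsi, htheta]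
  have h5 := Chebyshev.psi_le_const_mul_self hy0.le
  have h6 := Chebyshev.psi_sub_theta_le hy1
  have h7 : Real.log y ≤ 4 * (y : ℝ) ^ (1 / 4 : ℝ) := by
    have h8 := Real.log_le_rpow_div hy0.le (show (0 : ℝ) < 1 / 4 by norm_num)
    linarith
  have h9 : (y : ℝ) ^ (1 / 4 : ℝ) * (2 * √(y : ℝ) * Real.log y) ≤ 8 * y := by
    have e1 : √(y : ℝ) = (y : ℝ) ^ (1 / 2 : ℝ) := Real.sqrt_eq_rpow _
    have e2 : (y : ℝ) ^ (1 / 4 : ℝ) * (y : ℝ) ^ (1 / 2 : ℝ) * (y : ℝ) ^ (1 / 4 : ℝ) = y := by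
      rw [← Real.rpow_add hy0, ← Real.rpow_add hy0]
      norm_num
    rw [e1]
    calc (y : ℝ) ^ (1 / 4 : ℝ) * (2 * (y : ℝ) ^ (1 / 2 : ℝ) * Real.log y)
        ≤ (y : ℝ) ^ (1 / 4 : ℝ) * (2 * (y : ℝ) ^ (1 / 2 : ℝ) * (4 * (y : ℝ) ^ (1 / 4 : ℝ))) :=
          mul_le_mul_of_nonneg_left (mul_le_mul_of_nonneg_left h7 (by positivity)) (by positivity)
      _ = 8 * ((y : ℝ) ^ (1 / 4 : ℝ) * (y : ℝ) ^ (1 / 2 : ℝ) * (y : ℝ) ^ (1 / 4 : ℝ)) := by ring
      _ = 8 * y := by rw [e2]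
  have h10 : (y : ℝ) ^ (1 / 4 : ℝ) * (Chebyshev.psi y - Chebyshev.theta y) ≤ 8 * y :=
    (mul_le_mul_of_nonneg_left h6 (by positivity)).trans h9
  have h11 : Real.log 4 ≤ 2 := by
    have e3 : Real.log 4 = 2 * Real.log 2 := by
      rw [show (4 : ℝ) = 2 ^ 2 by norm_num, Real.log_pow]
      norm_num
    have := Real.log_two_lt_d9
    linarith
  have h12 : (z : ℝ) ^ δ * Chebyshev.psi y ≤ (z : ℝ) ^ δ * (6 * y) := by
    refine mul_le_mul_of_nonneg_left (h5.trans ?_) (by positivity)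
    exact mul_le_mul_of_nonneg_right (by linarith) hy0.le
  have h13 : (8 : ℝ) * y ≤ (z : ℝ) ^ δ * (8 * y) := by nlinarith
  calc _ ≤ (z : ℝ) ^ δ * (6 * y) + 8 * y := add_le_add h12 h10
    _ ≤ (z : ℝ) ^ δ * (6 * y) + (z : ℝ) ^ δ * (8 * y) := by linarith
    _ = 14 * (z : ℝ) ^ δ * y := by ring

/-- step (2), the identity -/
theorem ran5_conv (z : ℕ) (δ : ℝ) (X : ℕ) :
    ∑ m ∈ Ioc 0 X, ran5_f z δ m * Real.log m =
      ∑ n ∈ Ioc 0 X, ran5_f z δ n * ∑ d ∈ Ioc 0 (X / n), vonMangoldt d * ran5_f z δ d := by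
  classical
  let F : ArithmeticFunction ℝ := ⟨fun n => if n = 0 then 0 else ran5_f z δ n, by simp⟩
  let H : ArithmeticFunction ℝ := ⟨fun n => vonMangoldt n * ran5_f z δ n, by simp⟩
  have hF : ∀ n, n ≠ 0 → F n = ran5_f z δ n := fun n hn => if_neg hn
  have hH : ∀ n, H n = vonMangoldt n * ran5_f z δ n := fun n => rfl
  have h1 := sum_Ioc_mul_eq_sum_sum F H X
  have h2 : ∑ n ∈ Ioc 0 X, F n * ∑ m ∈ Ioc 0 (X / n), H m =
      ∑ n ∈ Ioc 0 X, ran5_f z δ n * ∑ d ∈ Ioc 0 (X / n), vonMangoldt d * ran5_f z δ d := by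
    refine sum_congr rfl fun n hn => ?_
    rw [mem_Ioc] at hn
    rw [hF n (by omega)]
    rfl
  rw [← h2, ← h1]
  refine sum_congr rfl fun m hm => ?_
  rw [mem_Ioc] at hm
  rw [ArithmeticFunction.mul_apply, ← vonMangoldt_sum, mul_sum]
  rw [← Nat.sum_divisorsAntidiagonal' (f := fun _ i => ran5_f z δ m * vonMangoldt i)]
  refine sum_congr rfl fun x hx => ?_
  rw [Nat.mem_divisorsAntidiagonal] at hx
  have ha : x.1 ≠ 0 := by
    intro h
    rw [h, zero_mul] at hx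
    omega
  have hb : x.2 ≠ 0 := by
    intro h
    rw [h, mul_zero] at hx
    omega
  rw [hF _ ha, hH, ← hx.1, ran5_f_mul z δ ha hb]
  ring

/-- step (3) -/
theorem ran5_avg {z : ℕ} (hz : 1 ≤ z) {δ : ℝ} (h0 : 0 < δ) (h1 : δ ≤ 1 / 4) (X : ℕ) :
    Real.log X * ∑ m ∈ Ioc 0 X, ran5_f z δ m ≤
      (14 * (z : ℝ) ^ δ + 1) * X * ∑ m ∈ Ioc 0 X, ran5_f z δ m / m := by
  rcases Nat.eq_zero_or_pos X with rfl | hX
  · simp
  have hX0 : (0 : ℝ) < X := by exact_mod_cast hX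
  have hzd : 0 < (z : ℝ) ^ δ := Real.rpow_pos_of_pos (by exact_mod_cast hz) _
  have h2 : ∀ m ∈ Ioc 0 X, Real.log X * ran5_f z δ m ≤
      ran5_f z δ m * Real.log m + X * (ran5_f z δ m / m) := by
    intro m hm
    rw [mem_Ioc] at hm
    have hm0 : (0 : ℝ) < m := by exact_mod_cast hm.1
    have hf := ran5_f_one_le z h0 m
    have h3 : Real.log X = Real.log m + Real.log (X / m) := by
      rw [← Real.log_mul hm0.ne' (by positivity)]
      congr 1
      field_simp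
    have h4 : Real.log (X / m) ≤ X / m := (Real.log_le_self (by positivity))
    rw [h3, add_mul]
    have h5 : Real.log (X / m) * ran5_f z δ m ≤ X / m * ran5_f z δ m :=
      mul_le_mul_of_nonneg_right h4 (by linarith)
    have h6 : (X : ℝ) / m * ran5_f z δ m = X * (ran5_f z δ m / m) := by ring
    linarith [mul_comm (Real.log m) (ran5_f z δ m)]
  rw [mul_sum]
  refine (sum_le_sum h2).trans ?_
  rw [sum_add_distrib, ran5_conv, ← mul_sum]
  have h7 : ∑ n ∈ Ioc 0 X, ran5_f z δ n * ∑ d ∈ Ioc 0 (X / n), vonMangoldt d * ran5_f z δ d ≤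
      14 * (z : ℝ) ^ δ * X * ∑ m ∈ Ioc 0 X, ran5_f z δ m / m := by
    rw [mul_sum]
    refine sum_le_sum fun n hn => ?_
    rw [mem_Ioc] at hn
    have hn0 : (0 : ℝ) < n := by exact_mod_cast hn.1
    have hf := ran5_f_one_le z h0 n
    have h8 := ran5_lam hz h0 h1 (X / n)
    have h9 : ((X / n : ℕ) : ℝ) ≤ X / n := Nat.cast_div_le
    have h10 : ∑ d ∈ Ioc 0 (X / n), vonMangoldt d * ran5_f z δ d ≤
        14 * (z : ℝ) ^ δ * (X / n) :=
      h8.trans (mul_le_mul_of_nonneg_left h9 (by positivity))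
    calc ran5_f z δ n * ∑ d ∈ Ioc 0 (X / n), vonMangoldt d * ran5_f z δ d
        ≤ ran5_f z δ n * (14 * (z : ℝ) ^ δ * (X / n)) :=
          mul_le_mul_of_nonneg_left h10 (by linarith)
      _ = 14 * (z : ℝ) ^ δ * X * (ran5_f z δ n / n) := by ring
  linarith

end Pool.Agent.EVN
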